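import Pool.Agent.H506R2.LB.Ten

/-! TASK C6: absorption. -/

set_option autoImplicit false

namespace Pool.Agent.H506R2.LB

open Finset Matrix BernT

/-- `(2:ℝ)^(-(a/(4d)))` as a power of `ρ` -/
theorem Absorb_pow (d : ℕ) (a : ℕ) :
    (2 : ℝ) ^ (-((a : ℝ) / (4 * d))) = ((2 : ℝ) ^ (-(1 / (4 * (d : ℝ))))) ^ a := by
  rw [← Real.rpow_natCast, ← Real.rpow_mul (by norm_num)]
  congr 1
  ring

theorem Absorb_pow3 (d : ℕ) (j : ℕ) :
    (2 : ℝ) ^ (-(3 * (j : ℝ) / (4 * d))) = ((2 : ℝ) ^ (-(1 / (4 * (d : ℝ))))) ^ (3 * j) := by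
  rw [← Real.rpow_natCast, ← Real.rpow_mul (by norm_num)]
  congr 1
  push_cast
  ring

theorem Absorb_rho (d : ℕ) (hd : 1 ≤ d) :
    0 < (2 : ℝ) ^ (-(1 / (4 * (d : ℝ)))) ∧ (2 : ℝ) ^ (-(1 / (4 * (d : ℝ)))) < 1 := by
  have hd' : (0:ℝ) < d := by exact_mod_cast hd
  refine ⟨by positivity, ?_⟩
  apply Real.rpow_lt_one_of_one_lt_of_neg (by norm_num)
  have : 0 < 1 / (4 * (d : ℝ)) := by positivity
  linarith

/-- sums of a function of the distance to `n` -/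
theorem Absorb_dist (g : ℕ → ℝ) (hg : ∀ i, 0 ≤ g i) (hs : Summable g) (s : Finset ℕ) (n : ℕ) :
    ∑ m ∈ s, g (((m : ℤ) - n).natAbs) ≤ 2 * ∑' i, g i := by
  classical
  rw [← Finset.sum_filter_add_sum_filter_not s (fun m => m < n)]
  have h1 : ∑ m ∈ s.filter (fun m => m < n), g (((m : ℤ) - n).natAbs) ≤ ∑' i, g i := by
    have hinj : Set.InjOn (fun m : ℕ => ((m : ℤ) - n).natAbs) (s.filter (fun m => m < n)) := by
      intro a ha b hb hab
      simp only [Finset.coe_filter, Set.mem_setOf_eq] at ha hb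
      simp only at hab
      omega
    rw [← Finset.sum_image (f := g) hinj]
    exact hs.sum_le_tsum _ (fun i _ => hg i)
  have h2 : ∑ m ∈ s.filter (fun m => ¬ m < n), g (((m : ℤ) - n).natAbs) ≤ ∑' i, g i := by
    have hinj : Set.InjOn (fun m : ℕ => ((m : ℤ) - n).natAbs) (s.filter (fun m => ¬ m < n)) := by
      intro a ha b hb hab
      simp only [Finset.coe_filter, Set.mem_setOf_eq] at ha hb
      simp only at hab
      omega
    rw [← Finset.sum_image (f := g) hinj]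
    exact hs.sum_le_tsum _ (fun i _ => hg i)
  linarith

theorem Absorb_summable (d : ℕ) {ρ : ℝ} (h0 : 0 < ρ) (h1 : ρ < 1) :
    Summable (fun i : ℕ => ρ ^ i * ((i : ℝ) + 1) ^ d) := by
  have h := summable_pow_mul_geometric_of_norm_lt_one d (r := ρ)
    (by rw [Real.norm_eq_abs, abs_of_pos h0]; exact h1)
  have h2 := (summable_nat_add_iff 1).mpr h
  have h3 := h2.mul_left ρ⁻¹
  refine h3.congr (fun i => ?_)
  push_cast
  rw [pow_succ]
  field_simp

/-- tails of geometric sums -/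
theorem Absorb_tail {q : ℝ} (h0 : 0 ≤ q) (h1 : q < 1) (s : Finset ℕ) (n L : ℕ)
    (hs : ∀ m ∈ s, n + L ≤ m) : ∑ m ∈ s, q ^ (m - n) ≤ q ^ L / (1 - q) := by
  classical
  have hsum : Summable (fun i : ℕ => q ^ i) := summable_geometric_of_lt_one h0 h1
  have h2 : ∑ m ∈ s, q ^ (m - n) = q ^ L * ∑ m ∈ s, q ^ (m - n - L) := by
    rw [Finset.mul_sum]
    refine Finset.sum_congr rfl fun m hm => ?_
    rw [← pow_add]
    congr 1
    have := hs m hm
    omega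
  have h3 : ∑ m ∈ s, q ^ (m - n - L) ≤ (1 - q)⁻¹ := by
    rw [← tsum_geometric_of_lt_one h0 h1]
    have hinj : Set.InjOn (fun m : ℕ => m - n - L) s := by
      intro a ha b hb hab
      have h1 := hs a ha
      have h2 := hs b hb
      simp only at hab
      omega
    rw [← Finset.sum_image (f := fun i => q ^ i) hinj]
    exact hsum.sum_le_tsum _ (fun i _ => pow_nonneg h0 i)
  rw [h2, div_eq_mul_inv]
  exact mul_le_mul_of_nonneg_left h3 (pow_nonneg h0 L)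

/-- decomposition of `f` -/
theorem Absorb_decomp {d M : ℕ} (hd : 1 ≤ d) (f : Gr d M → ℂ) (h : ∀ s, cop s (Em M 0) f = 0)
    (T : ℕ) :
    f = PT (T : ℤ) f + ∑ m ∈ (range (d * M)).filter (fun m => T ≤ m), Dg (m : ℤ) f := by
  classical
  have hf := sum_DK f h
  have htl : ∀ K ∈ Lv d M, 0 ≤ tl K ∧ tl K < (d * M : ℕ) := by
    intro K hK
    unfold Lv at hK
    rw [Fintype.mem_piFinset] at hK
    unfold tl
    refine ⟨Finset.sum_nonneg fun s _ => Int.natCast_nonneg _, ?_⟩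
    have : ∑ s : Fin d, (K s : ℤ) < ∑ _s : Fin d, (M : ℤ) := by
      apply Finset.sum_lt_sum_of_nonempty
      · exact ⟨⟨0, hd⟩, mem_univ _⟩
      · intro s _
        have := Finset.mem_range.mp (hK s)
        exact_mod_cast this
    rw [Finset.sum_const, Finset.card_univ, Fintype.card_fin] at this
    simpa using this
  have h2 : ∑ m ∈ (range (d * M)).filter (fun m => T ≤ m), Dg (m : ℤ) f =
      ∑ K ∈ (Lv d M).filter (fun K => ¬ tl K < T), DK K f := by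
    have h3 : ∀ K ∈ (Lv d M).filter (fun K => ¬ tl K < T),
        (tl K).toNat ∈ (range (d * M)).filter (fun m => T ≤ m) := by
      intro K hK
      rw [Finset.mem_filter] at hK ⊢
      have := htl K hK.1
      rw [Finset.mem_range]
      have h4 := hK.2
      push Not at h4
      omega
    rw [← Finset.sum_fiberwise_of_maps_to h3]
    refine Finset.sum_congr rfl fun m hm => ?_
    unfold Dg
    refine Finset.sum_congr ?_ fun _ _ => rfl
    ext K
    rw [Finset.mem_filter, Finset.mem_filter, Finset.mem_filter]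
    rw [Finset.mem_filter] at hm
    constructor
    · rintro ⟨h5, h6⟩
      refine ⟨⟨h5, ?_⟩, ?_⟩
      · rw [h6]; push Not; exact_mod_cast hm.2
      · rw [h6]; simp
    · rintro ⟨⟨h5, h6⟩, h7⟩
      refine ⟨h5, ?_⟩
      have := (htl K h5).1
      omega
  rw [h2]
  unfold PT
  rw [Finset.sum_filter_add_sum_filter_not]
  exact hf.symm

/-- TASK C6 -/
theorem absorb (d : ℕ) (hd : 1 ≤ d)
    (hdecay : ∃ C : ℝ, 0 < C ∧ ∀ (M n j : ℕ) (f : Gr d M → ℂ), Spec n f →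
      NN ((n : ℤ) + j) f ≤ C * (2 : ℝ) ^ (-(3 * (j : ℝ) / (4 * d))) *
        ∑ m ∈ range (d * M), (2 : ℝ) ^ (-(|(m : ℝ) - n| / (4 * d))) * NN (m : ℤ) f)
    (hD : ∃ C : ℝ, 0 < C ∧ ∀ (M : ℕ) (T m : ℤ) (f : Gr d M → ℂ),
      m < T → NN m f ≤ C * ((T : ℝ) - m) ^ d * L1 (PT T f))
    (hmart : ∀ (M : ℕ) (m : ℤ) (f : Gr d M → ℂ), L1 (Dg m f) ≤ 8 ^ d * NN m f) :
    ∃ C : ℝ, 0 < C ∧ ∀ (M n : ℕ) (f : Gr d M → ℂ), Spec n f →
      ∀ m : ℤ, NN m f ≤ C * (|(m : ℝ) - n| + 1) ^ d * L1 f := by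
  classical
  obtain ⟨C1, hC1, hdec⟩ := hdecay
  obtain ⟨C2, hC2, hDD⟩ := hD
  obtain ⟨ρ, hρ⟩ : ∃ ρ : ℝ, ρ = (2 : ℝ) ^ (-(1 / (4 * (d : ℝ)))) := ⟨_, rfl⟩
  obtain ⟨ρ0, ρ1⟩ := Absorb_rho d hd
  rw [← hρ] at ρ0 ρ1
  have h1ρ : 0 < 1 - ρ := by linarith
  set S : ℝ := 2 * ∑' i : ℕ, ρ ^ i * ((i : ℝ) + 1) ^ d with hS
  have hS0 : 0 ≤ S := by
    have : 0 ≤ ∑' i : ℕ, ρ ^ i * ((i : ℝ) + 1) ^ d := tsum_nonneg fun i => by positivity
    rw [hS]; positivity
  set C4 : ℝ := 8 ^ d * C1 / (1 - ρ) with hC4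
  have hC40 : 0 < C4 := by positivity
  set C6 : ℝ := C1 / (1 - ρ) with hC6
  have hC60 : 0 < C6 := by positivity
  -- choice of L
  obtain ⟨L, hL1, hL⟩ : ∃ L : ℕ, 1 ≤ L ∧ C2 * C4 * S * ((L : ℝ) ^ d * ρ ^ L) + C6 * ρ ^ L ≤ 1 / 2 := by
    have t1 : Filter.Tendsto (fun L : ℕ => (L : ℝ) ^ d * ρ ^ L) Filter.atTop (nhds 0) :=
      tendsto_pow_const_mul_const_pow_of_abs_lt_one d (by rw [abs_of_pos ρ0]; exact ρ1)
    have t2 : Filter.Tendsto (fun L : ℕ => ρ ^ L) Filter.atTop (nhds 0) :=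
      tendsto_pow_atTop_nhds_zero_of_lt_one ρ0.le ρ1
    have t3 := (t1.const_mul (C2 * C4 * S)).add (t2.const_mul C6)
    simp only [mul_zero, add_zero] at t3
    have t4 := (t3.eventually (ge_mem_nhds (show (0:ℝ) < 1 / 2 by norm_num))).and
      (Filter.eventually_ge_atTop 1)
    obtain ⟨L, hL⟩ := t4.exists
    exact ⟨L, hL.2, hL.1⟩
  have hLr : (1:ℝ) ≤ L := by exact_mod_cast hL1
  have hLd : (1:ℝ) ≤ (L : ℝ) ^ d := one_le_pow₀ hLr
  set C7 : ℝ := 2 * (C2 * S * (L : ℝ) ^ d) with hC7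
  have hC70 : 0 ≤ C7 := by positivity
  refine ⟨C2 * (L : ℝ) ^ d * (1 + C4 * C7) + C1 * C7, by positivity, ?_⟩
  intro M n f hf
  set W : ℝ := ∑ m ∈ range (d * M), (2 : ℝ) ^ (-(|(m : ℝ) - n| / (4 * d))) * NN (m : ℤ) f with hW
  have hW0 : 0 ≤ W := Finset.sum_nonneg fun m _ => mul_nonneg (by positivity) (NN_nonneg _ _)
  have hL10 : 0 ≤ L1 f := L1_nonneg f
  have habs : ∀ m : ℤ, |(m : ℝ) - n| = (((m - n).natAbs : ℕ) : ℝ) := by
    intro m
    rw [Nat.cast_natAbs, Int.cast_abs]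
    push_cast
    rfl
  have hWρ : W = ∑ m ∈ range (d * M), ρ ^ (((m : ℤ) - n).natAbs) * NN (m : ℤ) f := by
    rw [hW]
    refine Finset.sum_congr rfl fun m _ => ?_
    have := habs (m : ℤ)
    push_cast at this
    rw [this, Absorb_pow, hρ]
  have hdec' : ∀ j : ℕ, NN ((n : ℤ) + j) f ≤ C1 * ρ ^ (3 * j) * W := by
    intro j
    have := hdec M n j f hf
    rwa [Absorb_pow3, ← hρ] at this
  -- L1 of the projection
  have hPT : L1 (PT (((n + L : ℕ) : ℤ)) f) ≤ L1 f + C4 * ρ ^ L * W := by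
    have hdc := Absorb_decomp hd f hf.1 (n + L)
    have e1 : PT (((n + L : ℕ) : ℤ)) f =
        f + (-1 : ℂ) • ∑ m ∈ (range (d * M)).filter (fun m => n + L ≤ m), Dg (m : ℤ) f := by
      conv_rhs => rw [hdc]
      rw [neg_one_smul]
      have hdc2 : PT (((n + L : ℕ) : ℤ)) f +
          ∑ m ∈ (range (d * M)).filter (fun m => n + L ≤ m), Dg (m : ℤ) f = f := hdc.symm
      rw [hdc2, ← sub_eq_add_neg]
      exact eq_sub_of_add_eq hdc2
    rw [e1]
    refine (L1_add _ _).trans ?_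
    rw [L1_smul]
    have e2 : ‖(-1 : ℂ)‖ = 1 := by simp
    rw [e2, one_mul]
    have e3 : L1 (∑ m ∈ (range (d * M)).filter (fun m => n + L ≤ m), Dg (m : ℤ) f) ≤
        C4 * ρ ^ L * W := by
      refine (L1_sum _ _).trans ?_
      have e4 : ∀ m ∈ (range (d * M)).filter (fun m => n + L ≤ m), L1 (Dg (m : ℤ) f) ≤
          (8 ^ d * C1 * W) * ρ ^ (m - n) := by
        intro m hm
        rw [Finset.mem_filter] at hm
        refine (hmart M m f).trans ?_
        have h5 := hdec' (m - n)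
        have h6 : ((n : ℤ) + ((m - n : ℕ) : ℤ)) = (m : ℤ) := by
          have := hm.2; omega
        rw [h6] at h5
        have h7 : ρ ^ (3 * (m - n)) ≤ ρ ^ (m - n) :=
          pow_le_pow_of_le_one ρ0.le ρ1.le (by omega)
        calc (8:ℝ) ^ d * NN (m : ℤ) f ≤ 8 ^ d * (C1 * ρ ^ (3 * (m - n)) * W) := by gcongr
          _ ≤ 8 ^ d * (C1 * ρ ^ (m - n) * W) := by gcongr
          _ = _ := by ring
      refine (Finset.sum_le_sum e4).trans ?_
      rw [← Finset.mul_sum]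
      have e5 := Absorb_tail ρ0.le ρ1 ((range (d * M)).filter (fun m => n + L ≤ m)) n L
        (fun m hm => (Finset.mem_filter.mp hm).2)
      calc (8 ^ d * C1 * W) * ∑ m ∈ (range (d * M)).filter (fun m => n + L ≤ m), ρ ^ (m - n)
          ≤ (8 ^ d * C1 * W) * (ρ ^ L / (1 - ρ)) := by gcongr
        _ = C4 * ρ ^ L * W := by rw [hC4]; field_simp
    linarith
  -- small m
  have hsmall : ∀ m : ℤ, m < ((n + L : ℕ) : ℤ) → NN m f ≤
      C2 * (L : ℝ) ^ d * ((((m - n).natAbs : ℕ) : ℝ) + 1) ^ d * (L1 f + C4 * ρ ^ L * W) := by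
    intro m hm
    have h1 := hDD M ((n + L : ℕ) : ℤ) m f hm
    refine h1.trans ?_
    have hT : ((((n + L : ℕ) : ℤ) : ℝ) - m) ≤ L * ((((m - n).natAbs : ℕ) : ℝ) + 1) := by
      rw [← habs]
      have h2 : (((n + L : ℕ) : ℤ) : ℝ) - m ≤ |(m : ℝ) - n| + L := by
        push_cast
        have := neg_abs_le ((m : ℝ) - n)
        linarith
      have h3 : 0 ≤ |(m : ℝ) - n| := abs_nonneg _
      nlinarith
    have hT0 : 0 ≤ ((((n + L : ℕ) : ℤ) : ℝ) - m) := by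
      have : (m : ℝ) < (((n + L : ℕ) : ℤ) : ℝ) := by exact_mod_cast hm
      linarith
    have h4 : ((((n + L : ℕ) : ℤ) : ℝ) - m) ^ d ≤
        (L : ℝ) ^ d * ((((m - n).natAbs : ℕ) : ℝ) + 1) ^ d := by
      rw [← mul_pow]
      exact pow_le_pow_left₀ hT0 hT d
    calc C2 * ((((n + L : ℕ) : ℤ) : ℝ) - m) ^ d * L1 (PT ((n + L : ℕ) : ℤ) f)
        ≤ C2 * ((L : ℝ) ^ d * ((((m - n).natAbs : ℕ) : ℝ) + 1) ^ d) *
          (L1 f + C4 * ρ ^ L * W) := by
          apply mul_le_mul _ hPT (L1_nonneg _) (by positivity)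
          exact mul_le_mul_of_nonneg_left h4 hC2.le
      _ = _ := by ring
  -- bound of W
  have hWb : W ≤ C7 * L1 f := by
    have hsplit : W = ∑ m ∈ (range (d * M)).filter (fun m => m < n + L),
          ρ ^ (((m : ℤ) - n).natAbs) * NN (m : ℤ) f +
        ∑ m ∈ (range (d * M)).filter (fun m => ¬ m < n + L),
          ρ ^ (((m : ℤ) - n).natAbs) * NN (m : ℤ) f := by
      rw [Finset.sum_filter_add_sum_filter_not]; exact hWρ
    have h1 : ∑ m ∈ (range (d * M)).filter (fun m => m < n + L),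
          ρ ^ (((m : ℤ) - n).natAbs) * NN (m : ℤ) f ≤
        C2 * (L : ℝ) ^ d * S * (L1 f + C4 * ρ ^ L * W) := by
      have h2 : ∀ m ∈ (range (d * M)).filter (fun m => m < n + L),
          ρ ^ (((m : ℤ) - n).natAbs) * NN (m : ℤ) f ≤
          (C2 * (L : ℝ) ^ d * (L1 f + C4 * ρ ^ L * W)) *
            (ρ ^ (((m : ℤ) - n).natAbs) * ((((((m : ℤ) - n).natAbs : ℕ)) : ℝ) + 1) ^ d) := by
        intro m hm
        rw [Finset.mem_filter] at hm
        have h3 := hsmall (m : ℤ) (by exact_mod_cast hm.2)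
        calc ρ ^ (((m : ℤ) - n).natAbs) * NN (m : ℤ) f ≤ ρ ^ (((m : ℤ) - n).natAbs) *
            (C2 * (L : ℝ) ^ d * (((((m : ℤ) - n).natAbs : ℕ) : ℝ) + 1) ^ d *
              (L1 f + C4 * ρ ^ L * W)) := by gcongr
          _ = _ := by ring
      refine (Finset.sum_le_sum h2).trans ?_
      rw [← Finset.mul_sum]
      have h4 := Absorb_dist (fun i : ℕ => ρ ^ i * ((i : ℝ) + 1) ^ d) (fun i => by positivity)
        (Absorb_summable d ρ0 ρ1) ((range (d * M)).filter (fun m => m < n + L)) n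
      calc _ ≤ (C2 * (L : ℝ) ^ d * (L1 f + C4 * ρ ^ L * W)) * S := by
            apply mul_le_mul_of_nonneg_left h4 (by positivity)
        _ = _ := by ring
    have h5 : ∑ m ∈ (range (d * M)).filter (fun m => ¬ m < n + L),
          ρ ^ (((m : ℤ) - n).natAbs) * NN (m : ℤ) f ≤ C6 * ρ ^ L * W := by
      have h6 : ∀ m ∈ (range (d * M)).filter (fun m => ¬ m < n + L),
          ρ ^ (((m : ℤ) - n).natAbs) * NN (m : ℤ) f ≤ (C1 * W) * ρ ^ (m - n) := by
        intro m hm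
        rw [Finset.mem_filter] at hm
        have hm2 : n + L ≤ m := by omega
        have h7 := hdec' (m - n)
        have h8 : ((n : ℤ) + ((m - n : ℕ) : ℤ)) = (m : ℤ) := by omega
        rw [h8] at h7
        have h9 : ((m : ℤ) - n).natAbs = m - n := by omega
        rw [h9]
        have h10 : ρ ^ (3 * (m - n)) ≤ 1 := pow_le_one₀ ρ0.le ρ1.le
        calc ρ ^ (m - n) * NN (m : ℤ) f ≤ ρ ^ (m - n) * (C1 * ρ ^ (3 * (m - n)) * W) := by gcongr
          _ ≤ ρ ^ (m - n) * (C1 * 1 * W) := by gcongr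
          _ = _ := by ring
      refine (Finset.sum_le_sum h6).trans ?_
      rw [← Finset.mul_sum]
      have h11 := Absorb_tail ρ0.le ρ1 ((range (d * M)).filter (fun m => ¬ m < n + L)) n L
        (fun m hm => by have := (Finset.mem_filter.mp hm).2; omega)
      calc C1 * W * ∑ m ∈ (range (d * M)).filter (fun m => ¬ m < n + L), ρ ^ (m - n)
          ≤ C1 * W * (ρ ^ L / (1 - ρ)) := by gcongr
        _ = C6 * ρ ^ L * W := by rw [hC6]; field_simp
    have h12 : W ≤ C2 * (L : ℝ) ^ d * S * (L1 f + C4 * ρ ^ L * W) + C6 * ρ ^ L * W := by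
      linarith
    have h13 : C2 * (L : ℝ) ^ d * S * (L1 f + C4 * ρ ^ L * W) + C6 * ρ ^ L * W =
        C2 * S * (L : ℝ) ^ d * L1 f +
          (C2 * C4 * S * ((L : ℝ) ^ d * ρ ^ L) + C6 * ρ ^ L) * W := by ring
    rw [h13] at h12
    have h14 : (C2 * C4 * S * ((L : ℝ) ^ d * ρ ^ L) + C6 * ρ ^ L) * W ≤ 1 / 2 * W :=
      mul_le_mul_of_nonneg_right hL hW0
    rw [hC7]
    linarith
  -- conclusion
  intro m
  have hm0 : (0:ℝ) ≤ (((m - n).natAbs : ℕ) : ℝ) := Nat.cast_nonneg _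
  have hm1 : (1:ℝ) ≤ ((((m - n).natAbs : ℕ) : ℝ) + 1) ^ d := one_le_pow₀ (by linarith)
  rw [habs]
  by_cases hm : m < ((n + L : ℕ) : ℤ)
  · refine (hsmall m hm).trans ?_
    have h1 : L1 f + C4 * ρ ^ L * W ≤ (1 + C4 * C7) * L1 f := by
      have h2 : ρ ^ L ≤ 1 := pow_le_one₀ ρ0.le ρ1.le
      have h3 : C4 * ρ ^ L * W ≤ C4 * 1 * (C7 * L1 f) := by gcongr
      linarith
    calc C2 * (L : ℝ) ^ d * ((((m - n).natAbs : ℕ) : ℝ) + 1) ^ d * (L1 f + C4 * ρ ^ L * W)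
        ≤ C2 * (L : ℝ) ^ d * ((((m - n).natAbs : ℕ) : ℝ) + 1) ^ d * ((1 + C4 * C7) * L1 f) := by
          gcongr
      _ ≤ _ := by
          have : 0 ≤ C1 * C7 * (((((m - n).natAbs : ℕ) : ℝ) + 1) ^ d * L1 f) := by positivity
          nlinarith
  · push Not at hm
    obtain ⟨j, hj⟩ : ∃ j : ℕ, m = (n : ℤ) + j := by
      refine ⟨(m - n).toNat, ?_⟩
      push_cast at hm
      omega
    have h1 := hdec' j
    rw [← hj] at h1
    have h2 : ρ ^ (3 * j) ≤ 1 := pow_le_one₀ ρ0.le ρ1.le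
    have h3 : NN m f ≤ C1 * C7 * L1 f := by
      calc NN m f ≤ C1 * ρ ^ (3 * j) * W := h1
        _ ≤ C1 * 1 * (C7 * L1 f) := by gcongr
        _ = _ := by ring
    have h4 : C1 * C7 * L1 f ≤ C1 * C7 * ((((m - n).natAbs : ℕ) : ℝ) + 1) ^ d * L1 f := by
      have : 0 ≤ C1 * C7 * L1 f := by positivity
      nlinarith
    have h5 : 0 ≤ C2 * (L : ℝ) ^ d * (1 + C4 * C7) * ((((m - n).natAbs : ℕ) : ℝ) + 1) ^ d * L1 f := by
      positivity
    calc NN m f ≤ C1 * C7 * ((((m - n).natAbs : ℕ) : ℝ) + 1) ^ d * L1 f := h3.trans h4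
      _ ≤ _ := by
          have e : (C2 * (L : ℝ) ^ d * (1 + C4 * C7) + C1 * C7) *
              ((((m - n).natAbs : ℕ) : ℝ) + 1) ^ d * L1 f =
              C2 * (L : ℝ) ^ d * (1 + C4 * C7) * ((((m - n).natAbs : ℕ) : ℝ) + 1) ^ d * L1 f +
              C1 * C7 * ((((m - n).natAbs : ℕ) : ℝ) + 1) ^ d * L1 f := by ring
          rw [e]
          linarith

end Pool.Agent.H506R2.LB
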