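import Mathlib

/-! Averages over digits on the cube `I → Bool`. -/

set_option autoImplicit false

namespace Pool.Agent.H506R2.LB

open Finset

variable {I : Type} [Fintype I] [DecidableEq I]

/-- the digits in `D` from `y`, the others from `x` -/
def mixb (D : Finset I) (y x : I → Bool) : I → Bool := fun i => if i ∈ D then y i else x i

/-- average over the digits in `D` -/
noncomputable def Av (D : Finset I) : ((I → Bool) → ℝ) →ₗ[ℝ] ((I → Bool) → ℝ) where
  toFun f := fun x => (∑ y : I → Bool, f (mixb D y x)) / 2 ^ Fintype.card I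
  map_add' f g := by
    funext x
    simp only [Pi.add_apply, Finset.sum_add_distrib, add_div]
  map_smul' a f := by
    funext x
    simp only [Pi.smul_apply, smul_eq_mul, RingHom.id_apply, ← Finset.mul_sum, mul_div_assoc]

/-- sign of a digit -/
def sg (i : I) (x : I → Bool) : ℝ := if x i then 1 else -1

/-- `f` does not depend on the digits in `D` -/
def Idp (D : Finset I) (f : (I → Bool) → ℝ) : Prop :=
  ∀ x y : I → Bool, (∀ i, i ∉ D → x i = y i) → f x = f y

theorem Av_apply (D : Finset I) (f : (I → Bool) → ℝ) (x : I → Bool) :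
    Av D f x = (∑ y : I → Bool, f (mixb D y x)) / 2 ^ Fintype.card I := rfl

theorem card_cube : (Fintype.card (I → Bool) : ℝ) = 2 ^ Fintype.card I := by
  rw [Fintype.card_fun, Fintype.card_bool]
  push_cast
  rfl

theorem Av_le (D : Finset I) (f g : (I → Bool) → ℝ) (x : I → Bool)
    (h : ∀ y : I → Bool, (∀ i, i ∉ D → x i = y i) → f y ≤ g y) : Av D f x ≤ Av D g x := by
  rw [Av_apply, Av_apply]
  apply div_le_div_of_nonneg_right _ (by positivity)
  refine Finset.sum_le_sum fun y _ => h _ fun i hi => ?_
  simp [mixb, hi]

theorem Av_idp (D : Finset I) (f : (I → Bool) → ℝ) : Idp D (Av D f) := by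
  intro x y h
  rw [Av_apply, Av_apply]
  congr 1
  refine Finset.sum_congr rfl fun z _ => ?_
  congr 1
  funext i
  unfold mixb
  split_ifs with hi
  · rfl
  · exact h i hi

theorem Av_pull (D : Finset I) (φ f : (I → Bool) → ℝ) (h : Idp D φ) :
    Av D (φ * f) = φ * Av D f := by
  funext x
  rw [Pi.mul_apply, Av_apply, Av_apply, ← mul_div_assoc, Finset.mul_sum]
  congr 1
  refine Finset.sum_congr rfl fun y _ => ?_
  rw [Pi.mul_apply, h (mixb D y x) x (fun i hi => by simp [mixb, hi])]

theorem Av_one (D : Finset I) : Av D (1 : (I → Bool) → ℝ) = 1 := by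
  funext x
  rw [Av_apply]
  simp only [Pi.one_apply, Finset.sum_const, Finset.card_univ, nsmul_eq_mul, mul_one]
  rw [card_cube]
  exact div_self (by positivity)

theorem Av_of_idp (D : Finset I) (f : (I → Bool) → ℝ) (h : Idp D f) : Av D f = f := by
  have h1 := Av_pull D f 1 h
  rwa [mul_one, Av_one, mul_one] at h1

/-- exchange of the digits in `D` -/
theorem sum_swap (D : Finset I) (F : (I → Bool) → (I → Bool) → ℝ) :
    ∑ x : I → Bool, ∑ y : I → Bool, F (mixb D y x) (mixb D x y) =
      ∑ x : I → Bool, ∑ y : I → Bool, F x y := by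
  have hinv : Function.Involutive (fun p : (I → Bool) × (I → Bool) =>
      (mixb D p.2 p.1, mixb D p.1 p.2)) := by
    rintro ⟨x, y⟩
    simp only [Prod.mk.injEq]
    constructor
    · funext i
      by_cases hi : i ∈ D <;> simp [mixb, hi]
    · funext i
      by_cases hi : i ∈ D <;> simp [mixb, hi]
  have h := Equiv.sum_comp hinv.toPerm (fun p : (I → Bool) × (I → Bool) => F p.1 p.2)
  rw [Fintype.sum_prod_type, Fintype.sum_prod_type] at h
  exact h

theorem Av_sum (D : Finset I) (f : (I → Bool) → ℝ) : ∑ x, Av D f x = ∑ x, f x := by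
  simp only [Av_apply]
  rw [← Finset.sum_div, sum_swap D (fun x _ => f x)]
  simp only [Finset.sum_const, Finset.card_univ, nsmul_eq_mul, ← Finset.mul_sum]
  rw [card_cube]
  field_simp

theorem Av_Av (D D' : Finset I) (f : (I → Bool) → ℝ) : Av D (Av D' f) = Av (D ∪ D') f := by
  funext x
  rw [Av_apply]
  have h1 : ∀ y : I → Bool, Av D' f (mixb D y x) =
      (∑ z : I → Bool, f (mixb D' z (mixb D y x))) / 2 ^ Fintype.card I := fun y => Av_apply _ _ _
  simp only [h1]
  rw [← Finset.sum_div, Av_apply, div_div]
  have h2 : ∑ y : I → Bool, ∑ z : I → Bool, f (mixb D' z (mixb D y x)) =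
      ∑ y : I → Bool, ∑ z : I → Bool, f (mixb (D ∪ D') y x) := by
    rw [← sum_swap D' (fun y _ => f (mixb (D ∪ D') y x))]
    refine Finset.sum_congr rfl fun y _ => Finset.sum_congr rfl fun z _ => ?_
    congr 1
    funext i
    by_cases h1 : i ∈ D' <;> by_cases h2 : i ∈ D <;> simp [mixb, h1, h2]
  rw [h2]
  simp only [Finset.sum_const, Finset.card_univ, nsmul_eq_mul, ← Finset.mul_sum]
  rw [card_cube]
  field_simp

omit [Fintype I] [DecidableEq I] in
theorem sg_sq (i : I) (x : I → Bool) : sg i x * sg i x = 1 := by
  unfold sg
  split_ifs <;> norm_num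

omit [Fintype I] [DecidableEq I] in
theorem sg_idp (i : I) (D : Finset I) (h : i ∉ D) : Idp D (sg i) := by
  intro x y hxy
  unfold sg
  rw [hxy i h]

/-- average over one digit -/
theorem Av_single (i : I) (f : (I → Bool) → ℝ) (x : I → Bool) :
    Av {i} f x = (f (Function.update x i true) + f (Function.update x i false)) / 2 := by
  rw [Av_apply]
  have h1 : ∀ y : I → Bool, mixb {i} y x = Function.update x i (y i) := by
    intro y
    funext j
    by_cases hj : j = i
    · subst hj; simp [mixb]
    · simp [mixb, hj]
  simp only [h1]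
  have h2 : ∑ y : I → Bool, f (Function.update x i (y i)) =
      ∑ b : Bool, ∑ _y ∈ (univ : Finset (I → Bool)).filter (fun y => y i = b),
        f (Function.update x i b) := by
    rw [← Finset.sum_fiberwise (s := (univ : Finset (I → Bool))) (g := fun y : I → Bool => y i)]
    refine Finset.sum_congr rfl fun b _ => Finset.sum_congr rfl fun y hy => ?_
    rw [(Finset.mem_filter.1 hy).2]
  have h3 : ((univ : Finset (I → Bool)).filter (fun y => y i = true)).card =
      ((univ : Finset (I → Bool)).filter (fun y => y i = false)).card := by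
    refine Finset.card_bij' (fun y _ => Function.update y i false)
      (fun y _ => Function.update y i true) (fun y hy => by simp) (fun y hy => by simp)
      (fun y hy => ?_) (fun y hy => ?_)
    · have := (Finset.mem_filter.1 hy).2
      rw [Function.update_idem, ← this, Function.update_eq_self]
    · have := (Finset.mem_filter.1 hy).2
      rw [Function.update_idem, ← this, Function.update_eq_self]
  have h4 : (((univ : Finset (I → Bool)).filter (fun y => y i = true)).card : ℝ) +
      (((univ : Finset (I → Bool)).filter (fun y => y i = false)).card : ℝ) =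
      2 ^ Fintype.card I := by
    rw [← card_cube, ← Finset.card_univ]
    have h5 := Finset.card_filter_add_card_filter_not (s := (univ : Finset (I → Bool)))
      (fun y : I → Bool => y i = true)
    have h6 : (univ : Finset (I → Bool)).filter (fun y => ¬ y i = true) =
        (univ : Finset (I → Bool)).filter (fun y => y i = false) := by
      apply Finset.filter_congr
      intro y _
      simp
    rw [h6] at h5
    exact_mod_cast h5
  rw [h2]
  simp only [Finset.sum_const, nsmul_eq_mul, Fintype.sum_bool]
  have h7 : (((univ : Finset (I → Bool)).filter (fun y => y i = true)).card : ℝ) =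
      2 ^ Fintype.card I / 2 := by
    have : (((univ : Finset (I → Bool)).filter (fun y => y i = true)).card : ℝ) =
      (((univ : Finset (I → Bool)).filter (fun y => y i = false)).card : ℝ) := by
      exact_mod_cast h3
    linarith
  have h8 : (((univ : Finset (I → Bool)).filter (fun y => y i = false)).card : ℝ) =
      2 ^ Fintype.card I / 2 := by linarith
  rw [h7, h8]
  field_simp

/-- the martingale difference of one digit -/
theorem Av_haar (D : Finset I) (i : I) (hi : i ∈ D) (f : (I → Bool) → ℝ) :
    Av (D.erase i) f = Av D f + sg i * Av D (sg i * f) := by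
  have hD : D = {i} ∪ D.erase i := by
    ext j
    simp only [Finset.mem_union, Finset.mem_singleton, Finset.mem_erase]
    by_cases hj : j = i
    · subst hj; simp [hi]
    · simp [hj]
  have h1 : Av D f = Av {i} (Av (D.erase i) f) := by
    rw [Av_Av, ← hD]
  have h2 : Av D (sg i * f) = Av {i} (sg i * Av (D.erase i) f) := by
    rw [← Av_pull (D.erase i) (sg i) f (sg_idp i _ (Finset.notMem_erase i D)), Av_Av, ← hD]
  rw [h1, h2]
  funext x
  rw [Pi.add_apply, Pi.mul_apply, Av_single, Av_single]
  simp only [Pi.mul_apply, sg, Function.update_self, if_true, Bool.false_eq_true, if_false]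
  have h3 : Function.update x i (x i) = x := Function.update_eq_self i x
  cases hx : x i
  · rw [hx] at h3
    rw [h3]
    simp
    ring
  · rw [hx] at h3
    rw [h3]
    simp
    ring

end Pool.Agent.H506R2.LB
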