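import Pool.Agent.Helper643.Bern.T1
import Pool.Agent.Helper643.Bern.T2
import Pool.Agent.Helper643.Bern.T3
import Pool.Agent.Helper643.Bern.T4
import Pool.Agent.Helper643.Bern.T5
import Pool.Agent.Helper643.Bern.T7
import Pool.Agent.Helper643.Bern.T9
import Pool.Agent.Helper643.Bern.T10
import Pool.Agent.Helper643.Bern.S1
import Pool.Agent.Helper643.Bern.S2
import Pool.Agent.Helper643.Bern.S3
import Pool.Agent.Helper643.Bern.T12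
import Pool.Agent.Helper643.Bern.T13a
import Pool.Agent.Helper643.Bern.T13b
import Pool.Agent.Helper643.Bern.T15c

/-!
# The one variable families (theorems of helper643 and his team, collected)
-/

set_option autoImplicit false

namespace Pool.Agent.H506R2.LB

open Finset Matrix BernT

/-- low pass family -/
theorem vfam' : ∃ C : ℝ, 0 < C ∧ ∀ (M j : ℕ) (w : ℤ) (F : ℕ → Fin (2^M) → ℂ),
    (∀ a, Haar M a (F a)) →
      ∑ x, Real.sqrt (∑ a ∈ range M, ‖(TV M j w a *ᵥ F a) x‖^2) ≤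
        C * (1/2)^j * (2:ℝ)^(-(|(w:ℝ)|/2)) * ∑ x, Real.sqrt (∑ a ∈ range M, ‖F a x‖^2) :=
  ST13a.vfam ST3.formA ST4.formB
    (fun M a p a' h1 h2 h3 A hA κ h4 h5 => ST7.kVA M a p a' h1 h2 h3 A hA κ h4 h5)
    (fun M p a' h1 A hA κ h4 h5 => ST7.kVB M p a' h1 A hA κ h4 h5)
    (ST10.vker (fun M B p μ A h1 h2 h3 h4 => ST9.kerBound M B p μ A h1 h2 h3 h4))
    (fun M T δ hδ hfar hL2 => (ST2.famOp
      (fun M Nrm h0 hadd δ hδ hH => ST1.glc M Nrm h0 hadd δ hδ hH) M T δ hδ hfar).1 hL2)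

/-- derivative family -/
theorem mfam' (r : ℝ) (hr : 0 ≤ r) : ∃ C : ℝ, 0 < C ∧ ∀ (M : ℕ) (u v : ℂ), ‖u‖ ≤ 1 → ‖v‖ ≤ 1 →
    ∀ (w : ℤ) (F : ℕ → Fin (2^M) → ℂ), (∀ a, Haar M a (F a)) →
      (∑ x, Real.sqrt (∑ a ∈ range M, ‖(TM r u v M w a *ᵥ F a) x‖^2) ≤
        C * (2:ℝ)^(-(|(w:ℝ)|/2)) * ∑ x, Real.sqrt (∑ a ∈ range M, ‖F a x‖^2)) ∧
      (∑ x, ‖∑ a ∈ range M, (TM r u v M w a *ᵥ F a) x‖ ≤
        C * (2:ℝ)^(-(|(w:ℝ)|/2)) * ∑ x, Real.sqrt (∑ a ∈ range M, ‖F a x‖^2)) :=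
  ST13b.mfam ST3.formA ST4.formB
    (fun M a p h1 h2 A hA κ h3 h4 => ST5.kAm M a p h1 h2 A hA κ h3 h4)
    (fun M p A hA κ κ' h1 h2 h3 => ST5.kBm M p A hA κ κ' h1 h2 h3) r
    (SS3.mker (fun M B p μ A h1 h2 h3 h4 => ST9.kerBound M B p μ A h1 h2 h3 h4) SS2.symE r
      (SS1.symR r hr))
    (fun M n B hB μ hμ v => ST12.nearOrth M n B hB μ hμ v)
    (fun M T δ hδ hfar => ST2.famOp
      (fun M Nrm h0 hadd δ hδ hH => ST1.glc M Nrm h0 hadd δ hδ hH) M T δ hδ hfar)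

end Pool.Agent.H506R2.LB
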