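import Pool.Agent.H506R2.LB.IterSum
import Pool.Agent.H506R2.LB.Fam
import Pool.Agent.H778R2.LB.WSum

/-! TASK C7: sums of derivative blocks. -/

set_option autoImplicit false

namespace Pool.Agent.H506R2.LB

open Finset Matrix BernT

/-- vectors of natural numbers with sum `m` -/
def tv (d m : ℕ) : Finset (Fin d → ℕ) :=
  (Fintype.piFinset fun _ : Fin d => range (m + 1)).filter (fun t => ∑ s, t s = m)

theorem BlockSum_mem_tv {d m : ℕ} {t : Fin d → ℕ} : t ∈ tv d m ↔ ∑ s, t s = m := by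
  unfold tv
  rw [Finset.mem_filter, Fintype.mem_piFinset]
  refine ⟨fun h => h.2, fun h => ⟨fun s => ?_, h⟩⟩
  rw [Finset.mem_range, ← h]
  have := Finset.single_le_sum (f := t) (fun i _ => Nat.zero_le _) (Finset.mem_univ s)
  omega

theorem BlockSum_NN_zero {d M : ℕ} (hd : 1 ≤ d) (f : Gr d M → ℂ) {m : ℤ}
    (hm : m < 0 ∨ (d * M : ℕ) ≤ m) : NN m f = 0 := by
  unfold NN
  refine Finset.sum_eq_zero fun x _ => ?_
  have : (Lv d M).filter (fun K => tl K = m) = ∅ := by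
    rw [Finset.filter_eq_empty_iff]
    intro K hK h
    have h1 : tl K < (d * M : ℕ) := by
      unfold tl
      unfold Lv at hK
      rw [Fintype.mem_piFinset] at hK
      have : Nonempty (Fin d) := ⟨⟨0, hd⟩⟩
      have h : ∑ s, (K s : ℤ) < ∑ _s : Fin d, (M : ℤ) :=
        Finset.sum_lt_sum_of_nonempty Finset.univ_nonempty
          (fun s _ => by exact_mod_cast Finset.mem_range.1 (hK s))
      simpa using h
    have h2 : 0 ≤ tl K := Finset.sum_nonneg fun s _ => by positivity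
    omega
  rw [this, Finset.sum_empty, Real.sqrt_zero]

/-- each `NN k` is one of the terms of the weighted sum -/
theorem BlockSum_term {d M : ℕ} (hd : 1 ≤ d) (f : Gr d M → ℂ) (m : ℕ) (k : ℤ) :
    (2 : ℝ) ^ (-(|(k : ℝ) - m| / 4)) * NN k f ≤
      ∑ k ∈ range (d * M), (2 : ℝ) ^ (-(|(k : ℝ) - m| / 4)) * NN (k : ℤ) f := by
  have h0 : ∀ k ∈ range (d * M), 0 ≤ (2 : ℝ) ^ (-(|(k : ℝ) - m| / 4)) * NN (k : ℤ) f :=
    fun k _ => mul_nonneg (by positivity) (NN_nonneg _ _)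
  by_cases hm : k < 0 ∨ (d * M : ℕ) ≤ k
  · rw [BlockSum_NN_zero hd f hm, mul_zero]
    exact Finset.sum_nonneg h0
  · push Not at hm
    obtain ⟨j, rfl⟩ := Int.eq_ofNat_of_zero_le hm.1
    have hj : j ∈ range (d * M) := Finset.mem_range.2 (by exact_mod_cast hm.2)
    have := Finset.single_le_sum h0 hj
    simpa using this

/-- all offsets -/
noncomputable def BlockSum_W (d M : ℕ) : Finset (Fin d → ℤ) :=
  Fintype.piFinset fun _ => Icc (-(M : ℤ)) (M : ℤ)

theorem BlockSum_regroup (d M m : ℕ) (hmM : m + 2 ≤ M) (r : ℝ) (u v : Fin d → ℂ) (f : Gr d M → ℂ)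
    (hf : ∀ s, cop s (Em M 0) f = 0) :
    ∑ t ∈ tv d m, ten (fun s => Mm r (u s) (v s) M (t s)) f =
      ∑ w ∈ BlockSum_W d M, ∑ K ∈ (Lv d M).filter (fun K => tl K = m + ∑ s, w s),
        ten (fun s => TM r (u s) (v s) M (w s) (K s)) (DK K f) := by
  classical
  have h1 : ∀ t ∈ tv d m, ten (fun s => Mm r (u s) (v s) M (t s)) f =
      ∑ K ∈ Lv d M, ten (fun s => Mm r (u s) (v s) M (t s)) (DK K f) := by
    intro t _
    rw [← ten_sum, sum_DK f hf]
  rw [Finset.sum_congr rfl h1, Finset.sum_comm]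
  simp only [Finset.sum_filter]
  rw [Finset.sum_comm (s := BlockSum_W d M)]
  refine Finset.sum_congr rfl fun K hK => ?_
  rw [← Finset.sum_filter]
  unfold Lv at hK
  rw [Fintype.mem_piFinset] at hK
  refine Finset.sum_of_injOn (fun t s => (K s : ℤ) - t s) ?_ ?_ ?_ ?_
  · intro t _ t' _ h
    funext s
    have := congrFun h s
    simp only at this
    omega
  · intro t ht
    rw [Finset.mem_coe, BlockSum_mem_tv] at ht
    rw [Finset.mem_coe, Finset.mem_filter]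
    refine ⟨?_, ?_⟩
    · unfold BlockSum_W
      rw [Fintype.mem_piFinset]
      intro s
      have h2 := Finset.mem_range.1 (hK s)
      have h3 := Finset.single_le_sum (f := t) (fun i _ => Nat.zero_le _) (Finset.mem_univ s)
      rw [ht] at h3
      show (K s : ℤ) - t s ∈ Icc (-(M : ℤ)) (M : ℤ)
      rw [Finset.mem_Icc]
      constructor <;> omega
    · show tl K = (m : ℤ) + ∑ s, ((K s : ℤ) - t s)
      rw [Finset.sum_sub_distrib]
      have : (∑ s, (t s : ℤ)) = m := by exact_mod_cast ht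
      rw [this]
      unfold tl
      ring
  · intro w hw hw'
    rw [Finset.mem_filter] at hw
    by_cases hneg : ∃ s, (K s : ℤ) - w s < 0
    · obtain ⟨s, hs⟩ := hneg
      refine ten_eq_zero (s := s) ?_ _
      unfold TM
      rw [if_neg]
      rintro ⟨h2, _⟩
      omega
    · exfalso
      push Not at hneg
      apply hw'
      refine ⟨fun s => ((K s : ℤ) - w s).toNat, ?_, ?_⟩
      · rw [Finset.mem_coe, BlockSum_mem_tv]
        have h2 : ((∑ s, ((K s : ℤ) - w s).toNat : ℕ) : ℤ) = m := by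
          rw [Nat.cast_sum]
          have h4 : (∑ s, ((((K s : ℤ) - w s).toNat : ℕ) : ℤ)) = ∑ s, ((K s : ℤ) - w s) :=
            Finset.sum_congr rfl fun s _ => Int.toNat_of_nonneg (hneg s)
          rw [h4, Finset.sum_sub_distrib]
          have := hw.2
          unfold tl at this
          linarith
        exact_mod_cast h2
      · funext s
        have := hneg s
        show (K s : ℤ) - (((K s : ℤ) - w s).toNat : ℤ) = w s
        omega
  · intro t ht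
    rw [BlockSum_mem_tv] at ht
    congr 1
    funext s
    unfold TM
    have h3 := Finset.single_le_sum (f := t) (fun i _ => Nat.zero_le _) (Finset.mem_univ s)
    rw [ht] at h3
    have h4 : (K s : ℤ) - ((K s : ℤ) - t s) = t s := by ring
    rw [h4, if_pos ⟨by positivity, by rw [Int.toNat_natCast]; omega⟩, Int.toNat_natCast]

/-- TASK C7 -/
theorem blockSum (d : ℕ) (hd : 1 ≤ d) (r : ℝ) (hr : 0 ≤ r) :
    ∃ C : ℝ, 0 < C ∧ ∀ (M m : ℕ) (u v : Fin d → ℂ), (∀ s, ‖u s‖ ≤ 1) → (∀ s, ‖v s‖ ≤ 1) →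
      m + 2 ≤ M → ∀ (f : Gr d M → ℂ), (∀ s, cop s (Em M 0) f = 0) →
      L1 (∑ t ∈ tv d m, ten (fun s => Mm r (u s) (v s) M (t s)) f) ≤
        C * ∑ k ∈ range (d * M), (2 : ℝ) ^ (-(|(k : ℝ) - m| / 4)) * NN (k : ℤ) f := by
  obtain ⟨C₀, hC₀, hfam⟩ := mfam' r hr
  refine ⟨(2 * C₀) ^ d * 13 ^ d, by positivity, ?_⟩
  intro M m u v hu hv hmM f hf
  set S := ∑ k ∈ range (d * M), (2 : ℝ) ^ (-(|(k : ℝ) - m| / 4)) * NN (k : ℤ) f with hS
  have hS0 : 0 ≤ S := Finset.sum_nonneg fun m _ => mul_nonneg (by positivity) (NN_nonneg _ _)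
  rw [BlockSum_regroup d M m hmM r u v f hf]
  have h2 : (0 : ℝ) < 2 := by norm_num
  have key : ∀ w ∈ BlockSum_W d M,
      L1 (∑ K ∈ (Lv d M).filter (fun K => tl K = m + ∑ s, w s),
        ten (fun s => TM r (u s) (v s) M (w s) (K s)) (DK K f)) ≤
      (2 : ℝ) ^ (-((∑ s, |(w s : ℝ)|) / 4)) * ((2 * C₀) ^ d * S) := by
    intro w _
    have h3 := iter_sum (fun s a => TM r (u s) (v s) M (w s) a)
      (fun s => C₀ * (2 : ℝ) ^ (-(|(w s : ℝ)| / 2))) (fun s => by positivity)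
      (fun s F hF => (hfam M (u s) (v s) (hu s) (hv s) (w s) F hF).2)
      ((Lv d M).filter (fun K => tl K = m + ∑ s, w s))
      (fun K hK s => by
        have := (Finset.mem_filter.1 hK).1
        unfold Lv at this
        rw [Fintype.mem_piFinset] at this
        exact Finset.mem_range.1 (this s))
      (fun K => DK K f) (fun K _ => HaarK_DK K f)
    refine h3.trans ?_
    have e1 : ∏ s, (2 * (C₀ * (2 : ℝ) ^ (-(|(w s : ℝ)| / 2)))) =
        (2 * C₀) ^ d * (2 : ℝ) ^ (-((∑ s, |(w s : ℝ)|) / 2)) := by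
      have : ∀ s, 2 * (C₀ * (2 : ℝ) ^ (-(|(w s : ℝ)| / 2))) =
          (2 * C₀) * (2 : ℝ) ^ (-(|(w s : ℝ)| / 2)) := fun s => by ring
      simp only [this]
      rw [Finset.prod_mul_distrib, Finset.prod_const, Finset.card_univ, Fintype.card_fin,
        ← Real.rpow_sum_of_pos h2]
      congr 2
      rw [Finset.sum_neg_distrib, Finset.sum_div]
    rw [e1]
    change (2 * C₀) ^ d * (2 : ℝ) ^ (-((∑ s, |(w s : ℝ)|) / 2)) * NN (m + ∑ s, w s) f ≤ _
    have hN := NN_nonneg ((m : ℤ) + ∑ s, w s) f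
    have ht := BlockSum_term hd f m ((m : ℤ) + ∑ s, w s)
    rw [← hS] at ht
    have hw1 : |(((m : ℤ) + ∑ s, w s : ℤ) : ℝ) - m| ≤ ∑ s, |(w s : ℝ)| := by
      push_cast
      rw [add_sub_cancel_left]
      exact Finset.abs_sum_le_sum_abs _ _
    have he : (2 : ℝ) ^ (-((∑ s, |(w s : ℝ)|) / 2)) ≤ (2 : ℝ) ^ (-((∑ s, |(w s : ℝ)|) / 4)) *
        (2 : ℝ) ^ (-(|(((m : ℤ) + ∑ s, w s : ℤ) : ℝ) - m| / 4)) := by
      rw [← Real.rpow_add h2]
      apply Real.rpow_le_rpow_of_exponent_le (by norm_num)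
      linarith
    calc (2 * C₀) ^ d * (2 : ℝ) ^ (-((∑ s, |(w s : ℝ)|) / 2)) * NN (m + ∑ s, w s) f
        ≤ (2 * C₀) ^ d * ((2 : ℝ) ^ (-((∑ s, |(w s : ℝ)|) / 4)) *
          (2 : ℝ) ^ (-(|(((m : ℤ) + ∑ s, w s : ℤ) : ℝ) - m| / 4))) * NN (m + ∑ s, w s) f := by
          gcongr
      _ = (2 * C₀) ^ d * (2 : ℝ) ^ (-((∑ s, |(w s : ℝ)|) / 4)) *
          ((2 : ℝ) ^ (-(|(((m : ℤ) + ∑ s, w s : ℤ) : ℝ) - m| / 4)) * NN (m + ∑ s, w s) f) := by ring
      _ ≤ (2 * C₀) ^ d * (2 : ℝ) ^ (-((∑ s, |(w s : ℝ)|) / 4)) * S := by gcongr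
      _ = _ := by ring
  calc L1 (∑ w ∈ BlockSum_W d M, ∑ K ∈ (Lv d M).filter (fun K => tl K = m + ∑ s, w s),
        ten (fun s => TM r (u s) (v s) M (w s) (K s)) (DK K f))
      ≤ ∑ w ∈ BlockSum_W d M, L1 (∑ K ∈ (Lv d M).filter (fun K => tl K = m + ∑ s, w s),
        ten (fun s => TM r (u s) (v s) M (w s) (K s)) (DK K f)) := L1_sum _ _
    _ ≤ ∑ w ∈ BlockSum_W d M, (2 : ℝ) ^ (-((∑ s, |(w s : ℝ)|) / 4)) * ((2 * C₀) ^ d * S) :=
        Finset.sum_le_sum key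
    _ = (∑ w ∈ BlockSum_W d M, (2 : ℝ) ^ (-((∑ s, |(w s : ℝ)|) / 4))) * ((2 * C₀) ^ d * S) := by
        rw [Finset.sum_mul]
    _ ≤ 13 ^ d * ((2 * C₀) ^ d * S) := by
        have hws : ∑ w ∈ BlockSum_W d M, (2 : ℝ) ^ (-((∑ s, |(w s : ℝ)|) / 4)) ≤ 13 ^ d :=
          Pool.Agent.H778R2.LB.wsum _ fun s => Pool.Agent.H778R2.LB.wsum_one' M
        gcongr
    _ = (2 * C₀) ^ d * 13 ^ d * S := by ring

end Pool.Agent.H506R2.LB
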