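import Pool.Agent.H506R2.LB.Defs
import Pool.Agent.Helper643.Bern.T15c

/-!
# Algebra of the operators `ten`, `cop`, `DK`
-/

set_option autoImplicit false

namespace Pool.Agent.H506R2.LB

open Finset Matrix BernT

variable {d M : ℕ}

theorem ten_zero_right (T : Fin d → Matrix (Fin (2 ^ M)) (Fin (2 ^ M)) ℂ) :
    ten T (0 : Gr d M → ℂ) = 0 := by
  funext x
  simp [ten]

theorem ten_add (T : Fin d → Matrix (Fin (2 ^ M)) (Fin (2 ^ M)) ℂ) (f g : Gr d M → ℂ) :
    ten T (f + g) = ten T f + ten T g := by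
  funext x
  simp only [ten, Pi.add_apply, mul_add, Finset.sum_add_distrib]

theorem ten_smul (T : Fin d → Matrix (Fin (2 ^ M)) (Fin (2 ^ M)) ℂ) (a : ℂ) (f : Gr d M → ℂ) :
    ten T (a • f) = a • ten T f := by
  funext x
  simp only [ten, Pi.smul_apply, smul_eq_mul, Finset.mul_sum]
  exact Finset.sum_congr rfl fun z _ => by ring

theorem ten_sum {ι : Type*} (T : Fin d → Matrix (Fin (2 ^ M)) (Fin (2 ^ M)) ℂ) (s : Finset ι)
    (f : ι → Gr d M → ℂ) : ten T (∑ i ∈ s, f i) = ∑ i ∈ s, ten T (f i) := by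
  funext x
  simp only [ten, Finset.sum_apply, Finset.mul_sum]
  rw [Finset.sum_comm]

/-- composition -/
theorem ten_ten (T T' : Fin d → Matrix (Fin (2 ^ M)) (Fin (2 ^ M)) ℂ) (f : Gr d M → ℂ) :
    ten T (ten T' f) = ten (fun s => T s * T' s) f := by
  classical
  funext x
  simp only [ten, Finset.mul_sum]
  rw [Finset.sum_comm]
  refine Finset.sum_congr rfl fun z _ => ?_
  have h1 : ∏ s, (T s * T' s) (x s) (z s) = ∑ y : Gr d M, ∏ s, (T s (x s) (y s) * T' s (y s) (z s)) := by
    simp only [Matrix.mul_apply]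
    rw [Finset.prod_univ_sum, Fintype.piFinset_univ]
  rw [h1, Finset.sum_mul]
  refine Finset.sum_congr rfl fun y _ => ?_
  rw [Finset.prod_mul_distrib]
  ring

theorem ten_one (f : Gr d M → ℂ) :
    ten (fun _ => (1 : Matrix (Fin (2 ^ M)) (Fin (2 ^ M)) ℂ)) f = f := by
  classical
  funext x
  unfold ten
  rw [Finset.sum_eq_single x]
  · simp
  · intro z _ hz
    have h : ∃ s, x s ≠ z s := by
      by_contra h
      push Not at h
      exact hz (funext fun s => (h s).symm)
    obtain ⟨s, hs⟩ := h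
    have h0 : ∏ s, (1 : Matrix (Fin (2 ^ M)) (Fin (2 ^ M)) ℂ) (x s) (z s) = 0 :=
      Finset.prod_eq_zero (Finset.mem_univ s) (Matrix.one_apply_ne hs)
    show (∏ s, (1 : Matrix (Fin (2 ^ M)) (Fin (2 ^ M)) ℂ) (x s) (z s)) * f z = 0
    rw [h0, zero_mul]
  · intro h
    exact absurd (Finset.mem_univ x) h

theorem ten_eq_zero {T : Fin d → Matrix (Fin (2 ^ M)) (Fin (2 ^ M)) ℂ} {s : Fin d}
    (h : T s = 0) (f : Gr d M → ℂ) : ten T f = 0 := by
  funext x
  unfold ten
  refine Finset.sum_eq_zero fun z _ => ?_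
  rw [Finset.prod_eq_zero (Finset.mem_univ s) (by rw [h]; rfl), zero_mul]

/-- `cop` as a special case of `ten` -/
theorem cop_eq_ten (s : Fin d) (T : Matrix (Fin (2 ^ M)) (Fin (2 ^ M)) ℂ) (f : Gr d M → ℂ) :
    cop s T f = ten (Function.update (fun _ => 1) s T) f := by
  classical
  funext x
  unfold cop ten
  have hinj : Function.Injective (fun z : Fin (2 ^ M) => Function.update x s z) := by
    intro z z' h
    have := congrFun h s
    simpa using this
  rw [← Finset.sum_subset (Finset.subset_univ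
    (Finset.univ.image (fun z : Fin (2 ^ M) => Function.update x s z)))]
  · rw [Finset.sum_image (fun a _ b _ h => hinj h)]
    refine Finset.sum_congr rfl fun z _ => ?_
    congr 1
    rw [← Finset.mul_prod_erase _ _ (Finset.mem_univ s)]
    rw [Function.update_self, Function.update_self]
    rw [Finset.prod_eq_one, mul_one]
    intro t ht
    rw [Function.update_of_ne (Finset.ne_of_mem_erase ht),
      Function.update_of_ne (Finset.ne_of_mem_erase ht), Matrix.one_apply_eq]
  · intro z _ hz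
    have h : ∃ t, t ≠ s ∧ x t ≠ z t := by
      by_contra h
      push Not at h
      apply hz
      rw [Finset.mem_image]
      refine ⟨z s, Finset.mem_univ _, ?_⟩
      funext t
      by_cases ht : t = s
      · subst ht
        rw [Function.update_self]
      · rw [Function.update_of_ne ht]
        exact h t ht
    obtain ⟨t, ht, hxz⟩ := h
    rw [Finset.prod_eq_zero (Finset.mem_univ t), zero_mul]
    rw [Function.update_of_ne ht, Matrix.one_apply_ne hxz]

theorem cop_ten (s : Fin d) (T : Matrix (Fin (2 ^ M)) (Fin (2 ^ M)) ℂ)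
    (T' : Fin d → Matrix (Fin (2 ^ M)) (Fin (2 ^ M)) ℂ) (f : Gr d M → ℂ) :
    cop s T (ten T' f) = ten (Function.update T' s (T * T' s)) f := by
  classical
  rw [cop_eq_ten, ten_ten]
  congr 1
  funext t
  by_cases ht : t = s
  · subst ht
    simp
  · simp [Function.update_of_ne ht]

theorem ten_cop (s : Fin d) (T : Matrix (Fin (2 ^ M)) (Fin (2 ^ M)) ℂ)
    (T' : Fin d → Matrix (Fin (2 ^ M)) (Fin (2 ^ M)) ℂ) (f : Gr d M → ℂ) :
    ten T' (cop s T f) = ten (Function.update T' s (T' s * T)) f := by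
  classical
  rw [cop_eq_ten, ten_ten]
  congr 1
  funext t
  by_cases ht : t = s
  · subst ht
    simp
  · simp [Function.update_of_ne ht]

theorem cop_cop (s : Fin d) (T T' : Matrix (Fin (2 ^ M)) (Fin (2 ^ M)) ℂ) (f : Gr d M → ℂ) :
    cop s T (cop s T' f) = cop s (T * T') f := by
  classical
  rw [cop_eq_ten s T' f, cop_ten, cop_eq_ten]
  simp

theorem cop_comm {s t : Fin d} (h : s ≠ t) (T T' : Matrix (Fin (2 ^ M)) (Fin (2 ^ M)) ℂ)
    (f : Gr d M → ℂ) : cop s T (cop t T' f) = cop t T' (cop s T f) := by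
  classical
  rw [cop_eq_ten t T' f, cop_eq_ten s T f, cop_ten, cop_ten]
  congr 1
  funext u
  by_cases hs : u = s
  · subst hs
    simp [Function.update_of_ne h]
  · by_cases ht : u = t
    · subst ht
      simp [Function.update_of_ne hs]
    · simp [Function.update_of_ne hs, Function.update_of_ne ht]

theorem cop_one (s : Fin d) (f : Gr d M → ℂ) : cop s 1 f = f := by
  classical
  rw [cop_eq_ten]
  have : Function.update (fun _ : Fin d => (1 : Matrix (Fin (2 ^ M)) (Fin (2 ^ M)) ℂ)) s 1 =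
      fun _ => 1 := by
    funext t
    by_cases ht : t = s
    · subst ht; simp
    · simp [Function.update_of_ne ht]
  rw [this, ten_one]

theorem cop_zero_left (s : Fin d) (f : Gr d M → ℂ) : cop s 0 f = 0 := by
  funext x
  simp [cop]

theorem cop_zero_right (s : Fin d) (T : Matrix (Fin (2 ^ M)) (Fin (2 ^ M)) ℂ) :
    cop s T (0 : Gr d M → ℂ) = 0 := by
  funext x
  simp [cop]

theorem cop_add_left (s : Fin d) (T T' : Matrix (Fin (2 ^ M)) (Fin (2 ^ M)) ℂ)
    (f : Gr d M → ℂ) : cop s (T + T') f = cop s T f + cop s T' f := by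
  funext x
  simp only [cop, Matrix.add_apply, add_mul, Finset.sum_add_distrib, Pi.add_apply]

theorem cop_sub_left (s : Fin d) (T T' : Matrix (Fin (2 ^ M)) (Fin (2 ^ M)) ℂ)
    (f : Gr d M → ℂ) : cop s (T - T') f = cop s T f - cop s T' f := by
  funext x
  simp only [cop, Matrix.sub_apply, sub_mul, Finset.sum_sub_distrib, Pi.sub_apply]

theorem cop_sum_left {ι : Type*} (s : Fin d) (J : Finset ι)
    (T : ι → Matrix (Fin (2 ^ M)) (Fin (2 ^ M)) ℂ)
    (f : Gr d M → ℂ) : cop s (∑ i ∈ J, T i) f = ∑ i ∈ J, cop s (T i) f := by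
  classical
  induction J using Finset.induction_on with
  | empty => rw [Finset.sum_empty, Finset.sum_empty, cop_zero_left]
  | insert a J ha ih => rw [Finset.sum_insert ha, Finset.sum_insert ha, cop_add_left, ih]

theorem cop_add_right (s : Fin d) (T : Matrix (Fin (2 ^ M)) (Fin (2 ^ M)) ℂ)
    (f g : Gr d M → ℂ) : cop s T (f + g) = cop s T f + cop s T g := by
  funext x
  simp only [cop, Pi.add_apply, mul_add, Finset.sum_add_distrib]

theorem cop_sum_right {ι : Type*} (s : Fin d) (T : Matrix (Fin (2 ^ M)) (Fin (2 ^ M)) ℂ)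
    (J : Finset ι) (f : ι → Gr d M → ℂ) : cop s T (∑ i ∈ J, f i) = ∑ i ∈ J, cop s T (f i) := by
  funext x
  simp only [cop, Finset.sum_apply, Finset.mul_sum]
  rw [Finset.sum_comm]

theorem cop_smul_right (s : Fin d) (T : Matrix (Fin (2 ^ M)) (Fin (2 ^ M)) ℂ) (a : ℂ)
    (f : Gr d M → ℂ) : cop s T (a • f) = a • cop s T f := by
  funext x
  simp only [cop, Pi.smul_apply, smul_eq_mul, Finset.mul_sum]
  exact Finset.sum_congr rfl fun z _ => by ring

/-- the operators on one more coordinate -/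
theorem ten_insert (T : Fin d → Matrix (Fin (2 ^ M)) (Fin (2 ^ M)) ℂ) (U : Finset (Fin d))
    (s : Fin d) (hs : s ∉ U) (f : Gr d M → ℂ) :
    ten (fun t => if t ∈ insert s U then T t else 1) f =
      cop s (T s) (ten (fun t => if t ∈ U then T t else 1) f) := by
  classical
  rw [cop_ten]
  congr 1
  funext t
  by_cases ht : t = s
  · subst ht
    simp [hs]
  · simp [ht]

/-- the same, with the new coordinate inside -/
theorem ten_insert' (T : Fin d → Matrix (Fin (2 ^ M)) (Fin (2 ^ M)) ℂ) (U : Finset (Fin d))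
    (s : Fin d) (hs : s ∉ U) (f : Gr d M → ℂ) :
    ten (fun t => if t ∈ insert s U then T t else 1) f =
      ten (fun t => if t ∈ U then T t else 1) (cop s (T s) f) := by
  classical
  rw [ten_cop]
  congr 1
  funext t
  by_cases ht : t = s
  · subst ht
    simp [hs]
  · simp [ht]

theorem ten_empty (T : Fin d → Matrix (Fin (2 ^ M)) (Fin (2 ^ M)) ℂ) (f : Gr d M → ℂ) :
    ten (fun t => if t ∈ (∅ : Finset (Fin d)) then T t else 1) f = f := by
  have : (fun t : Fin d => if t ∈ (∅ : Finset (Fin d)) then T t else 1) = fun _ => 1 := by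
    funext t
    simp
  rw [this, ten_one]

theorem ten_univ (T : Fin d → Matrix (Fin (2 ^ M)) (Fin (2 ^ M)) ℂ) (f : Gr d M → ℂ) :
    ten (fun t => if t ∈ (univ : Finset (Fin d)) then T t else 1) f = ten T f := by
  congr 1
  funext t
  simp

/-- if every coordinate operator fixes `f` then so does `ten` -/
theorem ten_fixed {T : Fin d → Matrix (Fin (2 ^ M)) (Fin (2 ^ M)) ℂ} {f : Gr d M → ℂ}
    (h : ∀ s, cop s (T s) f = f) : ten T f = f := by
  classical
  have key : ∀ U : Finset (Fin d), ten (fun t => if t ∈ U then T t else 1) f = f := by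
    intro U
    induction U using Finset.induction_on with
    | empty => exact ten_empty T f
    | insert s U hs ih => rw [ten_insert T U s hs, ih, h s]
  rw [← ten_univ T f]
  exact key univ

/-- multilinearity -/
theorem sum_ten_pi {ι : Type*} [DecidableEq ι] (J : Fin d → Finset ι)
    (T : Fin d → ι → Matrix (Fin (2 ^ M)) (Fin (2 ^ M)) ℂ) (f : Gr d M → ℂ) :
    ∑ K ∈ Fintype.piFinset J, ten (fun s => T s (K s)) f = ten (fun s => ∑ a ∈ J s, T s a) f := by
  funext x
  simp only [Finset.sum_apply, ten]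
  rw [Finset.sum_comm]
  refine Finset.sum_congr rfl fun z _ => ?_
  rw [← Finset.sum_mul]
  congr 1
  simp only [Matrix.sum_apply]
  rw [Finset.prod_univ_sum]

/-! ### the Haar blocks -/

theorem Em_mul (M a b : ℕ) (h : a ≤ b) : Em M a * Em M b = Em M a ∧ Em M b * Em M a = Em M a :=
  ⟨ST15c.Em_mul_le M a b h, ST15c.Em_mul_ge M b a h⟩

theorem Em_top (M a : ℕ) (h : M ≤ a) : Em M a = 1 := by
  ext x z
  unfold Em
  have h1 : M - a = 0 := by omega
  rw [h1]
  simp only [pow_zero, Nat.div_one, inv_one, Matrix.one_apply, Fin.ext_iff]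

theorem Dm_idem (M a : ℕ) : Dm M a * Dm M a = Dm M a := by
  unfold Dm
  rw [Matrix.sub_mul, Matrix.mul_sub, Matrix.mul_sub, (Em_mul M (a + 1) (a + 1) le_rfl).1,
    (Em_mul M a (a + 1) (Nat.le_succ a)).1, (Em_mul M a (a + 1) (Nat.le_succ a)).2,
    (Em_mul M a a le_rfl).1]
  simp

theorem Dm_orth (M a b : ℕ) (h : a ≠ b) : Dm M a * Dm M b = 0 := by
  unfold Dm
  rcases Nat.lt_or_gt_of_ne h with h | h
  · rw [Matrix.sub_mul, Matrix.mul_sub, Matrix.mul_sub, (Em_mul M (a + 1) (b + 1) (by omega)).1,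
      (Em_mul M (a + 1) b (by omega)).1, (Em_mul M a (b + 1) (by omega)).1,
      (Em_mul M a b (by omega)).1]
    simp
  · rw [Matrix.sub_mul, Matrix.mul_sub, Matrix.mul_sub, (Em_mul M (b + 1) (a + 1) (by omega)).2,
      (Em_mul M b (a + 1) (by omega)).2, (Em_mul M (b + 1) a (by omega)).2,
      (Em_mul M b a (by omega)).2]
    simp

theorem Dm_top (M a : ℕ) (h : M ≤ a) : Dm M a = 0 := by
  unfold Dm
  rw [Em_top M a h, Em_top M (a + 1) (by omega), sub_self]

theorem sum_Dm (M : ℕ) : ∑ a ∈ range M, Dm M a = 1 - Em M 0 := by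
  unfold Dm
  rw [Finset.sum_range_sub, Em_top M M le_rfl]

theorem DK_DK (K K' : Fin d → ℕ) (f : Gr d M → ℂ) :
    DK K (DK K' f) = if K = K' then DK K f else 0 := by
  unfold DK
  rw [ten_ten]
  split_ifs with h
  · subst h
    simp only [Dm_idem]
  · have : ∃ s, K s ≠ K' s := by
      by_contra h'
      push Not at h'
      exact h (funext h')
    obtain ⟨s, hs⟩ := this
    exact ten_eq_zero (s := s) (Dm_orth M _ _ hs) f

theorem HaarK_DK (K : Fin d → ℕ) (f : Gr d M → ℂ) : HaarK K (DK K f) := by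
  classical
  intro s
  unfold DK
  rw [cop_ten, Dm_idem]
  simp

theorem DK_of_HaarK {K : Fin d → ℕ} {f : Gr d M → ℂ} (h : HaarK K f) : DK K f = f :=
  ten_fixed h

/-- expansion into Haar blocks -/
theorem sum_DK (f : Gr d M → ℂ) (h : ∀ s, cop s (Em M 0) f = 0) :
    ∑ K ∈ Lv d M, DK K f = f := by
  unfold Lv DK
  rw [sum_ten_pi (fun _ => range M) (fun _ a => Dm M a) f]
  apply ten_fixed
  intro s
  rw [sum_Dm, cop_sub_left, cop_one, h s, sub_zero]

theorem L1_nonneg (f : Gr d M → ℂ) : 0 ≤ L1 f := Finset.sum_nonneg fun _ _ => norm_nonneg _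

theorem L1_add (f g : Gr d M → ℂ) : L1 (f + g) ≤ L1 f + L1 g := by
  unfold L1
  rw [← Finset.sum_add_distrib]
  exact Finset.sum_le_sum fun x _ => norm_add_le _ _

theorem L1_sum {ι : Type*} (J : Finset ι) (f : ι → Gr d M → ℂ) :
    L1 (∑ i ∈ J, f i) ≤ ∑ i ∈ J, L1 (f i) := by
  unfold L1
  rw [Finset.sum_comm]
  refine Finset.sum_le_sum fun x _ => ?_
  rw [Finset.sum_apply]
  exact norm_sum_le _ _

theorem L1_smul (a : ℂ) (f : Gr d M → ℂ) : L1 (a • f) = ‖a‖ * L1 f := by
  unfold L1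
  simp only [Pi.smul_apply, smul_eq_mul, norm_mul, Finset.mul_sum]

theorem NN_nonneg (m : ℤ) (f : Gr d M → ℂ) : 0 ≤ NN m f :=
  Finset.sum_nonneg fun _ _ => Real.sqrt_nonneg _

end Pool.Agent.H506R2.LB
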