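import Pool.Agent.H506R2.LB.CubeSys
import Pool.Agent.H506R2.LB.Ten

/-! TASK B7: from the cube to the grid. -/

set_option autoImplicit false

namespace Pool.Agent.H506R2.LB

open Finset Pool.Agent.H730R2.LD BernT

theorem pj_lt {M p : ℕ} (x : Fin (M + p + 1) → Bool) :
    ∑ k ∈ range M, (if x (Fin.ofNat (M + p + 1) k) then 2 ^ (M - 1 - k) else 0) < 2 ^ M := by
  have h1 : ∑ k ∈ range M, (if x (Fin.ofNat (M + p + 1) k) then 2 ^ (M - 1 - k) else 0) ≤
      ∑ k ∈ range M, 2 ^ (M - 1 - k) := by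
    refine Finset.sum_le_sum fun k _ => ?_
    split_ifs
    · exact le_rfl
    · exact Nat.zero_le _
  have h2 : ∑ k ∈ range M, 2 ^ (M - 1 - k) = ∑ k ∈ range M, 2 ^ k :=
    Finset.sum_range_reflect (fun k => 2 ^ k) M
  rw [h2] at h1
  have h3 : ∑ k ∈ range M, 2 ^ k = 2 ^ M - 1 := by
    have := Nat.geomSum_eq (le_refl 2) M
    simpa using this
  have h4 : 0 < 2 ^ M := by positivity
  omega

/-- the point of the grid with the given digits (digit `0` is the most significant one; the
digits from `M` on are ignored) -/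
def pj {d M p : ℕ} (x : Cu d (M + p)) : Gr d M := fun s =>
  ⟨∑ k ∈ range M, (if x (s, Fin.ofNat (M + p + 1) k) then 2 ^ (M - 1 - k) else 0),
    pj_lt (fun i => x (s, i))⟩

/-- the number with the binary digits `b 0, …, b (M - 1)` -/
def B7_bs (M : ℕ) (b : ℕ → Bool) : ℕ := ∑ k ∈ range M, (if b k then 2 ^ (M - 1 - k) else 0)

theorem B7_bs_succ (M : ℕ) (b : ℕ → Bool) :
    B7_bs (M + 1) b = 2 * B7_bs M b + (if b M then 1 else 0) := by
  unfold B7_bs
  rw [Finset.sum_range_succ, Finset.mul_sum]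
  congr 1
  · refine Finset.sum_congr rfl fun k hk => ?_
    have hk' := Finset.mem_range.1 hk
    split_ifs
    · have : M + 1 - 1 - k = (M - 1 - k) + 1 := by omega
      rw [this, pow_succ]
      ring
    · rfl
  · simp

theorem B7_bs_div (M j : ℕ) (b : ℕ → Bool) : B7_bs (M + j) b / 2 ^ j = B7_bs M b := by
  induction j with
  | zero => simp
  | succ j ih =>
    rw [← Nat.add_assoc, B7_bs_succ, pow_succ', ← Nat.div_div_eq_div_mul]
    have : (2 * B7_bs (M + j) b + (if b (M + j) then 1 else 0)) / 2 = B7_bs (M + j) b := by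
      split_ifs <;> omega
    rw [this, ih]

theorem B7_bs_eq_iff (M : ℕ) (b c : ℕ → Bool) :
    B7_bs M b = B7_bs M c ↔ ∀ k < M, b k = c k := by
  induction M with
  | zero => simp [B7_bs]
  | succ M ih =>
    rw [B7_bs_succ, B7_bs_succ]
    constructor
    · intro h k hk
      have h1 : B7_bs M b = B7_bs M c := by
        split_ifs at h <;> omega
      have h3 : b M = c M := by
        cases hb : b M <;> cases hc : c M <;> simp [hb, hc] at h ⊢ <;> omega
      rcases Nat.lt_or_ge k M with h2 | h2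
      · exact ih.1 h1 k h2
      · have : k = M := by omega
        rw [this]
        exact h3
    · intro h
      rw [ih.2 (fun k hk => h k (by omega)), h M (by omega)]

theorem B7_pj_val {d M p : ℕ} (x : Cu d (M + p)) (s : Fin d) :
    ((pj x s : Fin (2 ^ M)) : ℕ) = B7_bs M (fun k => x (s, Fin.ofNat (M + p + 1) k)) := rfl

theorem B7_pj_div {d M p : ℕ} (x : Cu d (M + p)) (s : Fin d) (a : ℕ) (ha : a ≤ M) :
    ((pj x s : Fin (2 ^ M)) : ℕ) / 2 ^ (M - a) =
      B7_bs a (fun k => x (s, Fin.ofNat (M + p + 1) k)) := by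
  rw [B7_pj_val]
  have h := B7_bs_div a (M - a) (fun k => x (s, Fin.ofNat (M + p + 1) k))
  have h1 : a + (M - a) = M := by omega
  rw [h1] at h
  exact h

theorem B7_pj_div_iff {d M p : ℕ} (x y : Cu d (M + p)) (s : Fin d) (a : ℕ) (ha : a ≤ M) :
    (((pj x s : Fin (2 ^ M)) : ℕ) / 2 ^ (M - a) = ((pj y s : Fin (2 ^ M)) : ℕ) / 2 ^ (M - a)) ↔
      ∀ k < a, x (s, Fin.ofNat (M + p + 1) k) = y (s, Fin.ofNat (M + p + 1) k) := by
  rw [B7_pj_div x s a ha, B7_pj_div y s a ha, B7_bs_eq_iff]

theorem B7_ofNat_val {n : ℕ} (k : Fin (n + 1)) : Fin.ofNat (n + 1) k.val = k := by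
  apply Fin.ext
  exact ofNat_val k.isLt

theorem B7_pj_congr {d M p : ℕ} (x y : Cu d (M + p))
    (h : ∀ s, ∀ k < M, x (s, Fin.ofNat (M + p + 1) k) = y (s, Fin.ofNat (M + p + 1) k)) :
    pj x = pj y := by
  funext s
  apply Fin.ext
  rw [B7_pj_val, B7_pj_val, B7_bs_eq_iff]
  exact h s

/-- the grid point and the remaining digits -/
def B7_phi (d M p : ℕ) (x : Cu d (M + p)) : Gr d M × (Fin d × Fin (p + 1) → Bool) :=
  (pj x, fun i => x (i.1, Fin.ofNat (M + p + 1) (M + i.2.val)))

theorem B7_phi_inj (d M p : ℕ) : Function.Injective (B7_phi d M p) := by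
  intro x y h
  have h1 : pj x = pj y := congrArg Prod.fst h
  have h2 := congrArg Prod.snd h
  funext i
  obtain ⟨s, k⟩ := i
  rcases Nat.lt_or_ge k.val M with hk | hk
  · have h3 : ((pj x s : Fin (2 ^ M)) : ℕ) = ((pj y s : Fin (2 ^ M)) : ℕ) := by rw [h1]
    rw [B7_pj_val, B7_pj_val, B7_bs_eq_iff] at h3
    have h4 := h3 k.val hk
    rwa [B7_ofNat_val] at h4
  · have hk2 : k.val - M < p + 1 := by
      have := k.isLt
      omega
    have h4 := congrFun h2 (s, ⟨k.val - M, hk2⟩)
    unfold B7_phi at h4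
    simp only at h4
    have h5 : M + (k.val - M) = k.val := by omega
    rw [h5, B7_ofNat_val] at h4
    exact h4

theorem B7_phi_bij (d M p : ℕ) : Function.Bijective (B7_phi d M p) := by
  rw [Fintype.bijective_iff_injective_and_card]
  refine ⟨B7_phi_inj d M p, ?_⟩
  rw [Fintype.card_prod, Fintype.card_fun, Fintype.card_fun, Fintype.card_fun, Fintype.card_bool,
    Fintype.card_prod, Fintype.card_prod, Fintype.card_fin, Fintype.card_fin, Fintype.card_fin,
    Fintype.card_fin, ← pow_mul, ← pow_add]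
  congr 1
  ring

theorem B7_sum_pj {A : Type} [AddCommMonoid A] {d M p : ℕ} (h : Gr d M → A) :
    ∑ x : Cu d (M + p), h (pj x) = (2 ^ (d * (p + 1))) • ∑ z, h z := by
  have h1 : ∑ x : Cu d (M + p), h (pj x) =
      ∑ q : Gr d M × (Fin d × Fin (p + 1) → Bool), h q.1 :=
    Fintype.sum_bijective (B7_phi d M p) (B7_phi_bij d M p) _ _ (fun _ => rfl)
  rw [h1, Fintype.sum_prod_type]
  simp only [Finset.sum_const, Finset.card_univ]
  rw [Finset.smul_sum]
  refine Finset.sum_congr rfl fun z _ => ?_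
  congr 1
  rw [Fintype.card_fun, Fintype.card_bool, Fintype.card_prod, Fintype.card_fin, Fintype.card_fin]

/-- TASK B7 (a) -/
theorem sum_pj {d M p : ℕ} (h : Gr d M → ℝ) :
    ∑ x : Cu d (M + p), h (pj x) = 2 ^ (d * (p + 1)) * ∑ z, h z := by
  rw [B7_sum_pj, nsmul_eq_mul]
  push_cast
  rfl

/-- the digits of level at least `K s` in the coordinate `s` -/
def B7_D {d n : ℕ} (U : Finset (Fin d)) (K : Fin d → ℕ) : Finset (Fin d × Fin (n + 1)) :=
  U.biUnion (fun s => digs (dig0 d n) (n + 1) s (K s))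

theorem B7_mem_D {d n : ℕ} (U : Finset (Fin d)) (K : Fin d → ℕ) (s : Fin d) (k : Fin (n + 1)) :
    (s, k) ∈ B7_D (n := n) U K ↔ s ∈ U ∧ K s ≤ k.val := by
  unfold B7_D digs dig0
  simp only [Finset.mem_biUnion, Finset.mem_image, Finset.mem_Ico, Prod.mk.injEq]
  constructor
  · rintro ⟨t, ht, j, ⟨h1, h2⟩, rfl, rfl⟩
    refine ⟨ht, ?_⟩
    rw [ofNat_val h2]
    exact h1
  · rintro ⟨h1, h2⟩
    exact ⟨s, h1, k.val, ⟨h2, k.isLt⟩, rfl, B7_ofNat_val k⟩

theorem B7_EU {d n : ℕ} (U : Finset (Fin d)) (K : Fin d → ℕ) (f : Cu d n → ℝ) :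
    (orig d n).EU U K f = Av (B7_D U K) f := by
  classical
  induction U using Finset.induction_on with
  | empty =>
    rw [Sys.EU_empty]
    unfold B7_D
    rw [Finset.biUnion_empty]
    refine (Av_of_idp ∅ f fun x y h => ?_).symm
    rw [funext fun i => h i (Finset.notMem_empty i)]
  | insert s U hs ih =>
    rw [Sys.EU_insert _ hs, ih]
    have h1 : B7_D (n := n) (insert s U) K = digs (dig0 d n) (n + 1) s (K s) ∪ B7_D U K := by
      unfold B7_D
      rw [Finset.biUnion_insert]
    rw [h1, ← Av_Av]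
    rfl

theorem B7_chi {d n : ℕ} (U : Finset (Fin d)) (K : Fin d → ℕ) (hK : ∀ s ∈ U, K s < n + 1)
    (x : Cu d n) :
    (orig d n).chi U K x = ∏ s ∈ U, sg (s, Fin.ofNat (n + 1) (K s)) x := by
  unfold Sys.chi
  refine Finset.prod_congr rfl fun s hs => ?_
  show rr (dig0 d n) (n + 1) s (K s) x = _
  unfold rr
  rw [if_pos (hK s hs)]
  rfl

theorem B7_Dm {d M p : ℕ} (x y : Cu d (M + p)) (s : Fin d) (a : ℕ) (ha : a < M) :
    Dm M a (pj x s) (pj y s) =
      if ∀ k < a, x (s, Fin.ofNat (M + p + 1) k) = y (s, Fin.ofNat (M + p + 1) k) then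
        ((2 : ℂ) ^ (M - a))⁻¹ * (((sg (s, Fin.ofNat (M + p + 1) a) x : ℝ) : ℂ) *
          ((sg (s, Fin.ofNat (M + p + 1) a) y : ℝ) : ℂ)) else 0 := by
  classical
  unfold Dm
  rw [Matrix.sub_apply]
  unfold Em
  simp only [B7_pj_div_iff x y s (a + 1) (by omega), B7_pj_div_iff x y s a (by omega)]
  have h2 : M - a = (M - (a + 1)) + 1 := by omega
  have h3 : ((2 : ℂ) ^ (M - (a + 1)))⁻¹ = 2 * ((2 : ℂ) ^ (M - a))⁻¹ := by
    rw [h2, pow_succ]
    field_simp
  by_cases hA : ∀ k < a, x (s, Fin.ofNat (M + p + 1) k) = y (s, Fin.ofNat (M + p + 1) k)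
  · rw [if_pos hA, if_pos hA]
    by_cases hb : x (s, Fin.ofNat (M + p + 1) a) = y (s, Fin.ofNat (M + p + 1) a)
    · have h4 : ∀ k < a + 1, x (s, Fin.ofNat (M + p + 1) k) = y (s, Fin.ofNat (M + p + 1) k) := by
        intro k hk
        rcases Nat.lt_or_ge k a with h5 | h5
        · exact hA k h5
        · have : k = a := by omega
          rw [this]
          exact hb
      rw [if_pos h4, h3]
      unfold sg
      rw [hb]
      split_ifs <;> push_cast <;> ring
    · have h4 : ¬ ∀ k < a + 1,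
          x (s, Fin.ofNat (M + p + 1) k) = y (s, Fin.ofNat (M + p + 1) k) :=
        fun h => hb (h a (by omega))
      rw [if_neg h4]
      unfold sg
      cases h5 : x (s, Fin.ofNat (M + p + 1) a) <;>
        cases h6 : y (s, Fin.ofNat (M + p + 1) a)
      · exact absurd (h5.trans h6.symm) hb
      · simp
      · simp
      · exact absurd (h5.trans h6.symm) hb
  · have h4 : ¬ ∀ k < a + 1,
        x (s, Fin.ofNat (M + p + 1) k) = y (s, Fin.ofNat (M + p + 1) k) :=
      fun h => hA fun k hk => h k (by omega)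
    rw [if_neg hA, if_neg hA, if_neg h4, sub_zero]

/-- points agreeing off the digits of the block -/
noncomputable def B7_A {I : Type} [Fintype I] [DecidableEq I] (D : Finset I) (x : I → Bool) :
    Finset (I → Bool) := Fintype.piFinset fun i => if i ∈ D then univ else {x i}

theorem B7_mem_A {I : Type} [Fintype I] [DecidableEq I] (D : Finset I) (x y : I → Bool) :
    y ∈ B7_A D x ↔ ∀ i, i ∉ D → x i = y i := by
  unfold B7_A
  rw [Fintype.mem_piFinset]
  constructor
  · intro h i hi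
    have h1 := h i
    rw [if_neg hi, Finset.mem_singleton] at h1
    exact h1.symm
  · intro h i
    split_ifs with hi
    · exact Finset.mem_univ _
    · rw [Finset.mem_singleton]
      exact (h i hi).symm

theorem B7_card_A {I : Type} [Fintype I] [DecidableEq I] (D : Finset I) (x : I → Bool) :
    (B7_A D x).card = ∏ i, if i ∈ D then 2 else 1 := by
  unfold B7_A
  rw [Fintype.card_piFinset]
  refine Finset.prod_congr rfl fun i _ => ?_
  split_ifs
  · simp
  · simp

/-- the average as an average over the points agreeing off `D` -/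
theorem B7_Av {I : Type} [Fintype I] [DecidableEq I] (D : Finset I) (g : (I → Bool) → ℝ)
    (x : I → Bool) : ∑ y ∈ B7_A D x, g y = ((B7_A D x).card : ℝ) * Av D g x := by
  classical
  have h1 : Idp D (fun y => if y ∈ B7_A D x then (1 : ℝ) else 0) := by
    intro y z h
    have h2 : y ∈ B7_A D x ↔ z ∈ B7_A D x := by
      rw [B7_mem_A, B7_mem_A]
      constructor
      · intro h3 i hi
        rw [h3 i hi, h i hi]
      · intro h3 i hi
        rw [h3 i hi, h i hi]
    simp only [h2]
  have h3 := Av_sum D ((fun y => if y ∈ B7_A D x then (1 : ℝ) else 0) * g)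
  rw [Av_pull D _ _ h1] at h3
  simp only [Pi.mul_apply, ite_mul, one_mul, zero_mul] at h3
  rw [Finset.sum_ite_mem, Finset.sum_ite_mem, Finset.univ_inter] at h3
  rw [← h3]
  have h4 : ∀ y ∈ B7_A D x, Av D g y = Av D g x := by
    intro y hy
    exact (Av_idp D g x y ((B7_mem_A D x y).1 hy)).symm
  rw [Finset.sum_congr rfl h4, Finset.sum_const, nsmul_eq_mul]

theorem B7_card_D {d n : ℕ} (K : Fin d → ℕ) (x : Cu d n) :
    (B7_A (B7_D (n := n) univ K) x).card = ∏ s, 2 ^ (n + 1 - K s) := by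
  classical
  rw [B7_card_A, Fintype.prod_prod_type]
  refine Finset.prod_congr rfl fun s _ => ?_
  have h1 : ∀ k : Fin (n + 1), (if (s, k) ∈ B7_D (n := n) univ K then 2 else 1) =
      if K s ≤ k.val then 2 else 1 := by
    intro k
    have h2 := B7_mem_D (n := n) univ K s k
    simp only [Finset.mem_univ, true_and] at h2
    simp only [h2]
  simp only [h1]
  rw [Fin.prod_univ_eq_prod_range (fun k => if K s ≤ k then 2 else 1) (n + 1)]
  rw [Finset.prod_ite, Finset.prod_const, Finset.prod_const_one, mul_one]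
  congr 1
  have h3 : (range (n + 1)).filter (fun k => K s ≤ k) = Ico (K s) (n + 1) := by
    ext k
    simp only [Finset.mem_filter, Finset.mem_range, Finset.mem_Ico]
    omega
  rw [h3, Nat.card_Ico]

theorem B7_agree {d n : ℕ} (K : Fin d → ℕ) (hK : ∀ s, K s < n + 1) (x y : Cu d n) :
    y ∈ B7_A (B7_D (n := n) univ K) x ↔
      ∀ s, ∀ k < K s, x (s, Fin.ofNat (n + 1) k) = y (s, Fin.ofNat (n + 1) k) := by
  rw [B7_mem_A]
  constructor
  · intro h s k hk
    apply h
    rw [B7_mem_D]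
    rintro ⟨_, h1⟩
    rw [ofNat_val (by have := hK s; omega)] at h1
    omega
  · rintro h ⟨s, k⟩ hi
    rw [B7_mem_D] at hi
    have h1 : k.val < K s := by
      by_contra h2
      exact hi ⟨Finset.mem_univ s, by omega⟩
    have h2 := h s k.val h1
    rwa [B7_ofNat_val] at h2

theorem B7_key {d M p : ℕ} (f : Gr d M → ℂ) (K : Fin d → ℕ) (hK : ∀ s, K s < M)
    (x : Cu d (M + p)) :
    DK K f (pj x) = (((orig d (M + p)).chi univ K x : ℝ) : ℂ) *
      (((co (orig d (M + p)) K (fun y => (f (pj y)).re) x : ℝ) : ℂ) +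
        ((co (orig d (M + p)) K (fun y => (f (pj y)).im) x : ℝ) : ℂ) * Complex.I) := by
  classical
  have hK1 : ∀ s, K s < M + p + 1 := fun s => by have := hK s; omega
  have hchi := fun z : Cu d (M + p) => B7_chi (n := M + p) univ K (fun s _ => hK1 s) z
  have e1 := B7_sum_pj (p := p) (fun z : Gr d M => (∏ s, Dm M (K s) (pj x s) (z s)) * f z)
  have e2 : ∀ y : Cu d (M + p), ∏ s, Dm M (K s) (pj x s) (pj y s) =
      if y ∈ B7_A (B7_D (n := M + p) univ K) x then
        (∏ s, ((2 : ℂ) ^ (M - K s))⁻¹) * ((((orig d (M + p)).chi univ K x : ℝ) : ℂ) *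
          (((orig d (M + p)).chi univ K y : ℝ) : ℂ)) else 0 := by
    intro y
    split_ifs with h
    · rw [B7_agree K hK1] at h
      rw [hchi, hchi]
      push_cast
      rw [← Finset.prod_mul_distrib, ← Finset.prod_mul_distrib]
      refine Finset.prod_congr rfl fun s _ => ?_
      rw [B7_Dm x y s (K s) (hK s), if_pos (h s)]
    · rw [B7_agree K hK1] at h
      push Not at h
      obtain ⟨s, k, hk, hne⟩ := h
      refine Finset.prod_eq_zero (Finset.mem_univ s) ?_
      rw [B7_Dm x y s (K s) (hK s), if_neg (fun h' => hne (h' k hk))]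
  simp only [e2, ite_mul, zero_mul] at e1
  rw [Finset.sum_ite_mem, Finset.univ_inter] at e1
  have e3 : ∀ g : Cu d (M + p) → ℝ, ∑ y ∈ B7_A (B7_D (n := M + p) univ K) x,
      (orig d (M + p)).chi univ K y * g y =
        ((B7_A (B7_D (n := M + p) univ K) x).card : ℝ) * co (orig d (M + p)) K g x := by
    intro g
    unfold co
    rw [B7_EU, ← B7_Av]
    rfl
  have e4 : ∑ y ∈ B7_A (B7_D (n := M + p) univ K) x,
      (((orig d (M + p)).chi univ K y : ℝ) : ℂ) * f (pj y) =
      ((B7_A (B7_D (n := M + p) univ K) x).card : ℂ) *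
        (((co (orig d (M + p)) K (fun y => (f (pj y)).re) x : ℝ) : ℂ) +
        ((co (orig d (M + p)) K (fun y => (f (pj y)).im) x : ℝ) : ℂ) * Complex.I) := by
    have h1 := congrArg (fun r : ℝ => (r : ℂ)) (e3 (fun y => (f (pj y)).re))
    have h2 := congrArg (fun r : ℝ => (r : ℂ)) (e3 (fun y => (f (pj y)).im))
    push_cast at h1 h2
    rw [mul_add, ← mul_assoc, ← h1, ← h2, Finset.sum_mul, ← Finset.sum_add_distrib]
    refine Finset.sum_congr rfl fun y _ => ?_
    have h3 := Complex.re_add_im (f (pj y))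
    calc (((orig d (M + p)).chi univ K y : ℝ) : ℂ) * f (pj y) =
        (((orig d (M + p)).chi univ K y : ℝ) : ℂ) *
          (((f (pj y)).re : ℂ) + ((f (pj y)).im : ℂ) * Complex.I) := by rw [h3]
      _ = _ := by ring
  have e5 : ∑ y ∈ B7_A (B7_D (n := M + p) univ K) x,
      ((∏ s, ((2 : ℂ) ^ (M - K s))⁻¹) * ((((orig d (M + p)).chi univ K x : ℝ) : ℂ) *
          (((orig d (M + p)).chi univ K y : ℝ) : ℂ))) * f (pj y) =
      (∏ s, ((2 : ℂ) ^ (M - K s))⁻¹) * (((orig d (M + p)).chi univ K x : ℝ) : ℂ) *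
        ∑ y ∈ B7_A (B7_D (n := M + p) univ K) x,
          (((orig d (M + p)).chi univ K y : ℝ) : ℂ) * f (pj y) := by
    rw [Finset.mul_sum]
    exact Finset.sum_congr rfl fun y _ => by ring
  rw [e5, e4, B7_card_D] at e1
  have e6 : (∏ s, ((2 : ℂ) ^ (M - K s))⁻¹) * ((∏ s, 2 ^ (M + p + 1 - K s) : ℕ) : ℂ) =
      2 ^ (d * (p + 1)) := by
    push_cast
    rw [← Finset.prod_mul_distrib]
    have h1 : ∀ s : Fin d, ((2 : ℂ) ^ (M - K s))⁻¹ * 2 ^ (M + p + 1 - K s) = 2 ^ (p + 1) := by
      intro s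
      have h2 : M + p + 1 - K s = (M - K s) + (p + 1) := by
        have := hK s
        omega
      rw [h2, pow_add]
      field_simp
    rw [Finset.prod_congr rfl fun s _ => h1 s, Finset.prod_const, Finset.card_univ,
      Fintype.card_fin, ← pow_mul]
    congr 1
    ring
  have e7 : (2 : ℂ) ^ (d * (p + 1)) ≠ 0 := pow_ne_zero _ two_ne_zero
  apply mul_left_cancel₀ e7
  rw [nsmul_eq_mul] at e1
  push_cast at e1
  push_cast at e6
  show (2 : ℂ) ^ (d * (p + 1)) * (∑ z : Gr d M, (∏ s, Dm M (K s) (pj x s) (z s)) * f z) = _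
  rw [← e1]
  rw [← e6]
  ring

/-- TASK B7 (b) -/
theorem co_pj {d M p : ℕ} (f : Gr d M → ℂ) (K : Fin d → ℕ) (hK : ∀ s, K s < M)
    (x : Cu d (M + p)) :
    ‖DK K f (pj x)‖ ^ 2 = (co (orig d (M + p)) K (fun y => (f (pj y)).re) x) ^ 2 +
      (co (orig d (M + p)) K (fun y => (f (pj y)).im) x) ^ 2 := by
  rw [B7_key f K hK x, norm_mul, mul_pow, Complex.norm_real, Real.norm_eq_abs, sq_abs,
    Sys.chi_sq, one_mul, ← Complex.normSq_eq_norm_sq, Complex.normSq_add_mul_I]

/-- TASK B7 (c) -/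
theorem co_pj_zero {d M p : ℕ} (h : Gr d M → ℝ) (K : Fin d → ℕ) (hK : ∀ s, K s < M + p + 1)
    (s : Fin d) (hs : M ≤ K s) : co (orig d (M + p)) K (fun y => h (pj y)) = 0 := by
  classical
  unfold co
  rw [B7_EU]
  have hmem : (s, Fin.ofNat (M + p + 1) (K s)) ∈ B7_D (n := M + p) univ K := by
    rw [B7_mem_D]
    refine ⟨Finset.mem_univ s, ?_⟩
    rw [ofNat_val (hK s)]
  have hD : B7_D (n := M + p) univ K =
      B7_D (n := M + p) univ K ∪ {(s, Fin.ofNat (M + p + 1) (K s))} := by
    symm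
    rw [Finset.union_eq_left]
    intro j hj
    rw [Finset.mem_singleton.1 hj]
    exact hmem
  rw [hD, ← Av_Av]
  have h0 : Av {(s, Fin.ofNat (M + p + 1) (K s))}
      ((orig d (M + p)).chi univ K * fun y => h (pj y)) = 0 := by
    funext x
    rw [Av_single]
    simp only [Pi.mul_apply, Pi.zero_apply]
    rw [B7_chi univ K (fun s _ => hK s), B7_chi univ K (fun s _ => hK s)]
    have h1 : ∀ b : Bool, pj (Function.update x (s, Fin.ofNat (M + p + 1) (K s)) b) = pj x := by
      intro b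
      apply B7_pj_congr
      intro t k hk
      rw [Function.update_of_ne]
      intro h2
      have h3 := congrArg Fin.val (congrArg Prod.snd h2)
      simp only at h3
      rw [ofNat_val (hK s), ofNat_val (by omega)] at h3
      omega
    rw [h1, h1, ← Finset.mul_prod_erase univ _ (Finset.mem_univ s),
      ← Finset.mul_prod_erase univ _ (Finset.mem_univ s)]
    have h2 : ∀ b : Bool, ∏ t ∈ univ.erase s, sg (t, Fin.ofNat (M + p + 1) (K t))
        (Function.update x (s, Fin.ofNat (M + p + 1) (K s)) b) =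
        ∏ t ∈ univ.erase s, sg (t, Fin.ofNat (M + p + 1) (K t)) x := by
      intro b
      refine Finset.prod_congr rfl fun t ht => ?_
      unfold sg
      rw [Function.update_of_ne]
      intro h3
      exact Finset.ne_of_mem_erase ht (congrArg Prod.fst h3)
    rw [h2, h2]
    simp only [sg, Function.update_self, if_true, Bool.false_eq_true, if_false]
    ring
  rw [h0, map_zero]

end Pool.Agent.H506R2.LB
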