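import Pool.Agent.H506R2.LB.Av
import Pool.Agent.H730R2.LD.Sys

/-! The systems of conditional expectations given by ordered families of digits. -/

set_option autoImplicit false

namespace Pool.Agent.H506R2.LB

open Finset Pool.Agent.H730R2.LD

variable {I : Type} [Fintype I] [DecidableEq I]

/-- the digits `dig s i`, `k ≤ i < R` -/
def digs {d : ℕ} (dig : Fin d → ℕ → I) (R : ℕ) (s : Fin d) (k : ℕ) : Finset I :=
  (Ico k R).image (dig s)

/-- the sign of the digit number `k` in the coordinate `s` -/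
noncomputable def rr {d : ℕ} (dig : Fin d → ℕ → I) (R : ℕ) (s : Fin d) (k : ℕ) :
    (I → Bool) → ℝ := if k < R then sg (dig s k) else 1

/-- the system of the digits `dig s k`, `k < R` -/
noncomputable def cubeSys {d : ℕ} (dig : Fin d → ℕ → I) (R : ℕ)
    (hinj : ∀ s k s' k', k < R → k' < R → dig s k = dig s' k' → s = s' ∧ k = k') :
    Sys d R (I → Bool) where
  rel s k x y := ∀ i, i ∉ digs dig R s k → x i = y i
  E s k := Av (digs dig R s k)
  r s k := rr dig R s k
  rel_refl s k x := fun _ _ => rfl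
  rel_symm s k x y h := fun i hi => (h i hi).symm
  rel_trans s k x y z h h' := fun i hi => (h i hi).trans (h' i hi)
  rel_mono s k l x y hkl h := fun i hi => h i fun h' => hi (by
    unfold digs at h' ⊢
    obtain ⟨j, hj, rfl⟩ := Finset.mem_image.1 h'
    exact Finset.mem_image_of_mem _ (Finset.mem_Ico.2
      ⟨hkl.trans (Finset.mem_Ico.1 hj).1, (Finset.mem_Ico.1 hj).2⟩))
  E_le s k f g x h := Av_le _ f g x h
  E_meas s k f x y h := Av_idp _ f x y h
  E_pull s k φ f h := Av_pull _ φ f h
  E_one s k := Av_one _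
  E_sum s k f := Av_sum _ f
  E_comm s t k l f _ := by rw [Av_Av, Av_Av, Finset.union_comm]
  E_top s f := by
    have : digs dig R s R = ∅ := by unfold digs; simp
    rw [this]
    refine Av_of_idp ∅ f fun x y h => ?_
    rw [funext fun i => h i (Finset.notMem_empty i)]
  r_sq s k x := by
    unfold rr
    split_ifs
    · exact sg_sq _ x
    · simp
  r_other s t k l x y hst h := by
    unfold rr
    split_ifs with hk
    · refine sg_idp (dig s k) (digs dig R t l) ?_ x y h
      intro h'
      unfold digs at h'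
      obtain ⟨j, hj, he⟩ := Finset.mem_image.1 h'
      exact hst (hinj s k t j hk (Finset.mem_Ico.1 hj).2 he.symm).1
    · rfl
  haar s k f hk := by
    have h1 : dig s k ∈ digs dig R s k :=
      Finset.mem_image_of_mem _ (Finset.mem_Ico.2 ⟨le_rfl, hk⟩)
    have h2 : digs dig R s (k + 1) = (digs dig R s k).erase (dig s k) := by
      unfold digs
      ext i
      simp only [Finset.mem_image, Finset.mem_Ico, Finset.mem_erase]
      constructor
      · rintro ⟨j, ⟨h3, h4⟩, rfl⟩
        refine ⟨fun h => ?_, j, ⟨by omega, h4⟩, rfl⟩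
        have := (hinj s j s k h4 hk h).2
        omega
      · rintro ⟨h3, j, ⟨h4, h5⟩, rfl⟩
        refine ⟨j, ⟨?_, h5⟩, rfl⟩
        rcases Nat.lt_or_ge k j with h6 | h6
        · exact h6
        · exact absurd (by rw [le_antisymm h6 h4]) h3
    have h3 : rr dig R s k = sg (dig s k) := by
      unfold rr
      rw [if_pos hk]
    rw [h2, h3]
    exact Av_haar _ _ h1 f

/-- Haar coefficient of level `K` of a system -/
noncomputable def co {d R : ℕ} {X : Type} [Fintype X] (S : Sys d R X) (K : Fin d → ℕ)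
    (f : X → ℝ) : X → ℝ := S.EU univ K (S.chi univ K * f)

/-- the cube of `n + 1` digits in each of the `d` coordinates -/
abbrev Cu (d n : ℕ) : Type := Fin d × Fin (n + 1) → Bool

/-- all digits -/
def dig0 (d n : ℕ) (s : Fin d) (k : ℕ) : Fin d × Fin (n + 1) := (s, Fin.ofNat (n + 1) k)

theorem ofNat_val {n k : ℕ} (h : k < n + 1) : (Fin.ofNat (n + 1) k).val = k := by
  simp [Fin.ofNat, Nat.mod_eq_of_lt h]

theorem dig0_inj (d n : ℕ) : ∀ (s : Fin d) (k : ℕ) (s' : Fin d) (k' : ℕ), k < n + 1 →
    k' < n + 1 → dig0 d n s k = dig0 d n s' k' → s = s' ∧ k = k' := by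
  intro s k s' k' hk hk' h
  unfold dig0 at h
  rw [Prod.mk.injEq] at h
  refine ⟨h.1, ?_⟩
  have := congrArg Fin.val h.2
  rwa [ofNat_val hk, ofNat_val hk'] at this

/-- the full system -/
noncomputable def orig (d n : ℕ) : Sys d (n + 1) (Cu d n) :=
  cubeSys (dig0 d n) (n + 1) (dig0_inj d n)

/-- the digits `q i + j s` -/
def dig1 (d n q : ℕ) (j : Fin d → ℕ) (s : Fin d) (i : ℕ) : Fin d × Fin (n + 1) :=
  (s, Fin.ofNat (n + 1) (q * i + j s))

theorem dig1_inj (d n q R : ℕ) (hq : 1 ≤ q) (hR : q * R ≤ n + 1) (j : Fin d → ℕ)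
    (hj : ∀ s, j s < q) : ∀ (s : Fin d) (k : ℕ) (s' : Fin d) (k' : ℕ), k < R →
    k' < R → dig1 d n q j s k = dig1 d n q j s' k' → s = s' ∧ k = k' := by
  intro s k s' k' hk hk' h
  unfold dig1 at h
  rw [Prod.mk.injEq] at h
  refine ⟨h.1, ?_⟩
  have h2 := congrArg Fin.val h.2
  have key : ∀ (s : Fin d) (k : ℕ), k < R → q * k + j s < n + 1 := by
    intro s k hk
    have h3 := hj s
    have h4 : q * (k + 1) ≤ q * R := Nat.mul_le_mul_left q hk
    rw [Nat.mul_add, mul_one] at h4
    omega
  rw [ofNat_val (key s k hk), ofNat_val (key s' k' hk')] at h2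
  rw [← h.1] at h2
  have h5 : q * k = q * k' := by omega
  exact Nat.eq_of_mul_eq_mul_left hq h5

/-- the system of the digits `q i + j s`, `i < R` (all other digits are frozen) -/
noncomputable def froz (d n q R : ℕ) (hq : 1 ≤ q) (hR : q * R ≤ n + 1) (j : Fin d → ℕ)
    (hj : ∀ s, j s < q) : Sys d R (Cu d n) :=
  cubeSys (dig1 d n q j) R (dig1_inj d n q R hq hR j hj)

/-- the digits of level at least `L s` in the coordinate `s` -/
def tail {d n : ℕ} (s : Fin d) (L : ℕ) : Finset (Fin d × Fin (n + 1)) :=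
  univ.filter (fun i => i.1 = s ∧ L ≤ i.2.val)

end Pool.Agent.H506R2.LB
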