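import Pool.Agent.H506R2.LB.CubeSys

/-! TASK B5: coefficients in the frozen system. -/

set_option autoImplicit false
set_option linter.unusedSectionVars false

namespace Pool.Agent.H506R2.LB

open Finset Pool.Agent.H730R2.LD

section FrozA

variable {d R : ℕ} {X : Type} [Fintype X] (S : Sys d R X)

theorem Froz_EU_r {V : Finset (Fin d)} {s : Fin d} (hs : s ∉ V) (K : Fin d → ℕ) (k : ℕ)
    (f : X → ℝ) : S.EU V K (S.r s k * f) = S.r s k * S.EU V K f := by
  classical
  induction V using Finset.induction_on with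
  | empty => simp
  | insert t V ht ih =>
    have hst : s ≠ t := fun h => hs (h ▸ Finset.mem_insert_self t V)
    have hsV : s ∉ V := fun h => hs (Finset.mem_insert_of_mem h)
    rw [S.EU_insert ht, S.EU_insert ht, ih hsV, S.E_r_other t s _ _ hst]

theorem Froz_tel (s : Fin d) (K : ℕ) (g : X → ℝ) (m : ℕ) (h1 : K ≤ m) (h2 : m ≤ R) :
    S.E s m g - S.E s K g = ∑ k ∈ Ico K m, S.r s k * S.E s k (S.r s k * g) := by
  induction m, h1 using Nat.le_induction with
  | base => simp
  | succ m hm ih =>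
    rw [Finset.sum_Ico_succ_top hm, ← ih (by omega), S.haar s m g (by omega)]
    abel

theorem Froz_upper (V : Finset (Fin d)) (K : Fin d → ℕ) (hK : ∀ s, K s ≤ R) : ∀ g : X → ℝ,
    (∀ K' : Fin d → ℕ, (∀ s ∈ V, K' s < R) → (∀ s ∈ V, K s ≤ K' s) →
      S.EU V K' (S.chi V K' * g) = 0) →
    ∑ U ∈ V.powerset, (-1 : ℝ) ^ U.card • S.EU U K g = 0 := by
  classical
  induction V using Finset.induction_on with
  | empty =>
    intro g h
    have h1 := h K (fun s hs => absurd hs (Finset.notMem_empty s))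
      (fun s hs => absurd hs (Finset.notMem_empty s))
    rw [S.EU_empty, S.chi_empty, one_mul] at h1
    rw [Finset.powerset_empty, Finset.sum_singleton, S.EU_empty, h1, smul_zero]
  | insert s V hs ih =>
    intro g h
    have e1 : ∑ U ∈ (insert s V).powerset, (-1 : ℝ) ^ U.card • S.EU U K g =
        ∑ U ∈ V.powerset, (-1 : ℝ) ^ U.card • S.EU U K (g - S.E s (K s) g) := by
      rw [Finset.sum_powerset_insert hs, ← Finset.sum_add_distrib]
      refine Finset.sum_congr rfl fun U hU => ?_
      have hsU : s ∉ U := fun h' => hs (Finset.mem_powerset.1 hU h')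
      rw [Finset.card_insert_of_notMem hsU, S.EU_insert hsU, S.EU_comm hsU, map_sub, smul_sub,
        pow_succ, mul_neg_one, neg_smul, sub_eq_add_neg]
    have e2 : g - S.E s (K s) g = ∑ k ∈ Ico (K s) R, S.r s k * S.E s k (S.r s k * g) := by
      have := Froz_tel S s (K s) g R (hK s) le_rfl
      rwa [S.E_top] at this
    rw [e1, e2]
    simp only [map_sum, Finset.smul_sum]
    rw [Finset.sum_comm]
    refine Finset.sum_eq_zero fun k hk => ?_
    rw [Finset.mem_Ico] at hk
    refine ih _ fun K' h1 h2 => ?_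
    have hK'' : ∀ t ∈ V, K' t = Function.update K' s k t := by
      intro t ht
      have : t ≠ s := fun h' => hs (h' ▸ ht)
      rw [Function.update_of_ne this]
    have h3 := h (Function.update K' s k) (by
      intro t ht
      rw [Finset.mem_insert] at ht
      by_cases hts : t = s
      · subst hts
        rw [Function.update_self]
        exact hk.2
      · rw [Function.update_of_ne hts]
        exact h1 t (ht.resolve_left hts)) (by
      intro t ht
      rw [Finset.mem_insert] at ht
      by_cases hts : t = s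
      · subst hts
        rw [Function.update_self]
        exact hk.1
      · rw [Function.update_of_ne hts]
        exact h2 t (ht.resolve_left hts))
    rw [S.EU_insert hs, S.chi_insert hs, Function.update_self, ← S.EU_congr hK'',
      ← S.chi_congr hK''] at h3
    have h4 : S.chi V K' * (S.r s k * S.E s k (S.r s k * g)) =
        S.r s k * S.E s k (S.r s k * S.chi V K' * g) := by
      have h5 : S.r s k * S.chi V K' * g = S.chi V K' * (S.r s k * g) := by ring
      rw [h5, S.E_chi hs]
      ring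
    rw [h4, Froz_EU_r S hs, ← S.EU_comm hs, h3, mul_zero]

end FrozA

/-- TASK B5 (a): if all coefficients at the levels `≥ K` vanish, then so does the part of `g`
above `K`. Here `D_s = 1 - E_s^{K_s}`. -/
theorem upper_zero {d R : ℕ} {X : Type} [Fintype X] (S : Sys d R X) (g : X → ℝ) (K : Fin d → ℕ)
    (hK : ∀ s, K s ≤ R)
    (h : ∀ K' : Fin d → ℕ, (∀ s, K' s < R) → (∀ s, K s ≤ K' s) → co S K' g = 0) :
    ∑ U ∈ (univ : Finset (Fin d)).powerset, (-1 : ℝ) ^ U.card • S.EU U K g = 0 :=
  Froz_upper S univ K hK g fun K' h1 h2 =>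
    h K' (fun s => h1 s (mem_univ s)) (fun s => h2 s (mem_univ s))

section FrozB

variable {I : Type} [Fintype I] [DecidableEq I]

theorem Froz_Idp_mono {D D' : Finset I} (h : D' ⊆ D) {f : (I → Bool) → ℝ} (hf : Idp D f) :
    Idp D' f := fun x y hxy => hf x y fun i hi => hxy i fun hi' => hi (h hi')

theorem Froz_Idp_mul {D : Finset I} {f g : (I → Bool) → ℝ} (hf : Idp D f) (hg : Idp D g) :
    Idp D (f * g) := fun x y hxy => by rw [Pi.mul_apply, Pi.mul_apply, hf x y hxy, hg x y hxy]

theorem Froz_Idp_prod {ι : Type} (s : Finset ι) {D : Finset I} {f : ι → (I → Bool) → ℝ}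
    (hf : ∀ a ∈ s, Idp D (f a)) : Idp D (fun x => ∏ a ∈ s, f a x) := fun x y hxy =>
  Finset.prod_congr rfl fun a ha => hf a ha x y hxy

theorem Froz_Idp_sum {ι : Type} (s : Finset ι) {D : Finset I} {f : ι → (I → Bool) → ℝ}
    (hf : ∀ a ∈ s, Idp D (f a)) : Idp D (∑ a ∈ s, f a) := fun x y hxy => by
  rw [Finset.sum_apply, Finset.sum_apply]
  exact Finset.sum_congr rfl fun a ha => hf a ha x y hxy

theorem Froz_Idp_smul (c : ℝ) {D : Finset I} {f : (I → Bool) → ℝ} (hf : Idp D f) :
    Idp D (c • f) := fun x y hxy => by rw [Pi.smul_apply, Pi.smul_apply, hf x y hxy]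

theorem Froz_Idp_Av {D D' : Finset I} {f : (I → Bool) → ℝ} (hf : Idp D f) :
    Idp D (Av D' f) := by
  have h : Av D' f = Av D (Av D' f) := by
    rw [Av_Av, Finset.union_comm, ← Av_Av, Av_of_idp D f hf]
  rw [h]
  exact Av_idp D _

/-- averages of a sign times a function that does not depend on the digit -/
theorem Froz_Av_sg {D : Finset I} {i : I} (hi : i ∈ D) {f : (I → Bool) → ℝ} (hf : Idp {i} f) :
    Av D (sg i * f) = 0 := by
  have h1 : Av {i} (sg i * f) = 0 := by
    rw [mul_comm, Av_pull {i} f (sg i) hf]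
    have h2 : Av {i} (sg i) = 0 := by
      funext x
      rw [Av_single]
      simp [sg]
    rw [h2, mul_zero]
  have h2 : D ∪ {i} = D := by
    rw [Finset.union_eq_left, Finset.singleton_subset_iff]
    exact hi
  rw [← h2, ← Av_Av, h1, map_zero]

theorem Froz_EU {d R : ℕ} (dig : Fin d → ℕ → I)
    (hinj : ∀ s k s' k', k < R → k' < R → dig s k = dig s' k' → s = s' ∧ k = k')
    (U : Finset (Fin d)) (K : Fin d → ℕ) (f : (I → Bool) → ℝ) :
    (cubeSys dig R hinj).EU U K f = Av (U.biUnion fun s => digs dig R s (K s)) f := by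
  classical
  induction U using Finset.induction_on with
  | empty =>
    rw [Sys.EU_empty, Finset.biUnion_empty, Av_of_idp]
    intro x y h
    rw [funext fun i => h i (Finset.notMem_empty i)]
  | insert s U hs ih =>
    rw [Sys.EU_insert _ hs, ih, Finset.biUnion_insert]
    exact Av_Av _ _ _

theorem Froz_chi {d R : ℕ} (dig : Fin d → ℕ → I)
    (hinj : ∀ s k s' k', k < R → k' < R → dig s k = dig s' k' → s = s' ∧ k = k')
    (K : Fin d → ℕ) (hK : ∀ s, K s < R) :
    (cubeSys dig R hinj).chi univ K = fun x => ∏ s, sg (dig s (K s)) x := by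
  funext x
  unfold Sys.chi
  refine Finset.prod_congr rfl fun s _ => ?_
  change rr dig R s (K s) x = _
  unfold rr
  rw [if_pos (hK s)]

end FrozB

section FrozC

variable {d n : ℕ}

/-- the product of the signs -/
noncomputable def Froz_x (K : Fin d → ℕ) : Cu d n → ℝ := fun x => ∏ s, sg (dig0 d n s (K s)) x

theorem Froz_dig0_ne {s t : Fin d} (h : s ≠ t) (k l : ℕ) : dig0 d n s k ≠ dig0 d n t l :=
  fun h' => h (congrArg Prod.fst h')

theorem Froz_x_split (K : Fin d → ℕ) (s : Fin d) : (Froz_x K : Cu d n → ℝ) =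
    sg (dig0 d n s (K s)) * (fun x => ∏ t ∈ univ.erase s, sg (dig0 d n t (K t)) x) := by
  classical
  funext x
  unfold Froz_x
  rw [Pi.mul_apply]
  exact (Finset.mul_prod_erase univ (fun t => sg (dig0 d n t (K t)) x) (mem_univ s)).symm

/-- the terms with a nonempty set of coordinates vanish -/
theorem Froz_van (K : Fin d → ℕ) (hK : ∀ s, K s < n + 1) (D : Finset (Fin d × Fin (n + 1)))
    (hD : ∀ s, dig0 d n s (K s) ∈ D) (U : Finset (Fin d)) (hU : U.Nonempty) (g : Cu d n → ℝ) :
    Av D (Froz_x K * (orig d n).EU U K g) = 0 := by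
  obtain ⟨s, hs⟩ := hU
  rw [Froz_x_split K s, mul_assoc]
  refine Froz_Av_sg (hD s) (Froz_Idp_mul ?_ ?_)
  · refine Froz_Idp_prod _ fun t ht => sg_idp _ _ ?_
    rw [Finset.mem_singleton]
    exact Froz_dig0_ne (Finset.ne_of_mem_erase ht) _ _
  · intro x y hxy
    refine (orig d n).EU_meas hs K g x y ?_
    intro i hi
    refine hxy i ?_
    rw [Finset.mem_singleton]
    rintro rfl
    exact hi (Finset.mem_image_of_mem _ (Finset.mem_Ico.2 ⟨le_rfl, hK s⟩))

theorem Froz_tail (s : Fin d) (L : ℕ) : (tail s L : Finset (Fin d × Fin (n + 1))) ⊆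
    digs (dig0 d n) (n + 1) s L := by
  rintro ⟨a, b⟩ h
  unfold tail at h
  rw [Finset.mem_filter] at h
  obtain ⟨-, h1, h2⟩ := h
  simp only at h1 h2
  subst h1
  refine Finset.mem_image.2 ⟨b.val, Finset.mem_Ico.2 ⟨h2, b.isLt⟩, ?_⟩
  unfold dig0
  rw [Prod.mk.injEq]
  refine ⟨rfl, Fin.ext ?_⟩
  rw [ofNat_val b.isLt]

end FrozC

variable {d n q R : ℕ} (hq : 1 ≤ q) (hR : q * R ≤ n + 1) (j : Fin d → ℕ) (hj : ∀ s, j s < q)

include hR hj in
theorem Froz_lt (s : Fin d) {k : ℕ} (hk : k < R) : q * k + j s < n + 1 := by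
  have h3 := hj s
  have h4 : q * (k + 1) ≤ q * R := Nat.mul_le_mul_left q hk
  rw [Nat.mul_add, mul_one] at h4
  omega

theorem Froz_co (g : Cu d n → ℝ) (i : Fin d → ℕ) (hi : ∀ s, i s < R) :
    co (froz d n q R hq hR j hj) i g =
      Av (univ.biUnion fun s => digs (dig1 d n q j) R s (i s))
        (Froz_x (fun s => q * i s + j s) * g) := by
  unfold co froz
  rw [Froz_EU, Froz_chi _ _ _ hi]
  rfl

theorem Froz_co_orig (g : Cu d n → ℝ) (K : Fin d → ℕ) (hK : ∀ s, K s < n + 1) :
    co (orig d n) K g =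
      Av (univ.biUnion fun s => digs (dig0 d n) (n + 1) s (K s)) (Froz_x K * g) := by
  unfold co orig
  rw [Froz_EU, Froz_chi _ _ _ hK]
  rfl

theorem Froz_mem (i : Fin d → ℕ) (hi : ∀ s, i s < R) (s : Fin d) :
    dig0 d n s (q * i s + j s) ∈ univ.biUnion fun s => digs (dig1 d n q j) R s (i s) :=
  Finset.mem_biUnion.2 ⟨s, mem_univ s,
    Finset.mem_image.2 ⟨i s, Finset.mem_Ico.2 ⟨le_rfl, hi s⟩, rfl⟩⟩

/-- TASK B5 (b): the coefficient vanishes if the level is large -/
theorem froz_zero (g : Cu d n → ℝ) (T : ℕ)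
    (hT : ∀ K : Fin d → ℕ, (∀ s, K s < n + 1) → T ≤ ∑ s, K s → co (orig d n) K g = 0)
    (i : Fin d → ℕ) (hi : ∀ s, i s < R) (hTi : T ≤ ∑ s, (q * i s + j s)) :
    co (froz d n q R hq hR j hj) i g = 0 := by
  rw [Froz_co hq hR j hj g i hi]
  set K : Fin d → ℕ := fun s => q * i s + j s with hKd
  have hK : ∀ s, K s < n + 1 := fun s => Froz_lt hR j hj s (hi s)
  set D := univ.biUnion fun s => digs (dig1 d n q j) R s (i s) with hD
  have h1 := upper_zero (orig d n) g K (fun s => (hK s).le) (fun K' h2 h3 =>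
    hT K' h2 (hTi.trans (Finset.sum_le_sum fun s _ => h3 s)))
  have h2 : Av D (Froz_x K * ∑ U ∈ (univ : Finset (Fin d)).powerset,
      (-1 : ℝ) ^ U.card • (orig d n).EU U K g) = 0 := by
    rw [h1, mul_zero, map_zero]
  rw [Finset.mul_sum, map_sum, Finset.sum_eq_single_of_mem ∅ (Finset.empty_mem_powerset _)] at h2
  · rwa [Finset.card_empty, pow_zero, one_smul, Sys.EU_empty] at h2
  · intro U _ hU
    rw [mul_smul_comm, map_smul, Froz_van K hK D (Froz_mem j i hi) U
      (Finset.nonempty_iff_ne_empty.2 hU) g, smul_zero]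

/-- TASK B5 (c): the coefficient of the diagonal `T - q` depends only on the digits before the
next selected digit -/
theorem froz_idp (g : Cu d n → ℝ) (T : ℕ)
    (hT : ∀ K : Fin d → ℕ, (∀ s, K s < n + 1) → T ≤ ∑ s, K s → co (orig d n) K g = 0)
    (i : Fin d → ℕ) (hi : ∀ s, i s < R) (hTi : T ≤ ∑ s, (q * i s + j s) + q) (s : Fin d) :
    Idp (tail s (q * i s + j s + q)) (co (froz d n q R hq hR j hj) i g) := by
  classical
  by_cases hs : q * i s + j s + q ≤ n + 1
  swap
  · intro x y h
    have : x = y := by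
      funext a
      refine h a fun ha => ?_
      unfold tail at ha
      have h1 := (Finset.mem_filter.1 ha).2.2
      have h2 := a.2.isLt
      omega
    rw [this]
  rw [Froz_co hq hR j hj g i hi]
  set K : Fin d → ℕ := fun s => q * i s + j s with hKd
  have hK : ∀ s, K s < n + 1 := fun s => Froz_lt hR j hj s (hi s)
  set D := univ.biUnion fun s => digs (dig1 d n q j) R s (i s) with hD
  set Kp : Fin d → ℕ := Function.update K s (K s + q) with hKp
  have hKps : Kp s = K s + q := Function.update_self _ _ _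
  have hKpt : ∀ t, t ≠ s → Kp t = K t := fun t ht => Function.update_of_ne ht _ _
  have hsum : ∑ t, Kp t = ∑ t, K t + q := by
    rw [← Finset.add_sum_erase univ Kp (mem_univ s), ← Finset.add_sum_erase univ K (mem_univ s),
      hKps, Finset.sum_congr rfl fun t ht => hKpt t (Finset.ne_of_mem_erase ht)]
    ring
  have h1 := upper_zero (orig d n) g Kp (fun t => by
    by_cases hts : t = s
    · subst hts
      rw [hKps]
      exact hs
    · rw [hKpt t hts]
      exact (hK t).le) (fun K' h2 h3 =>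
    hT K' h2 (hTi.trans (hsum ▸ Finset.sum_le_sum fun t _ => h3 t)))
  -- split the sum
  have hu : (univ : Finset (Fin d)) = insert s (univ.erase s) :=
    (Finset.insert_erase (mem_univ s)).symm
  rw [hu, Finset.sum_powerset_insert (Finset.notMem_erase s univ)] at h1
  set h : Cu d n → ℝ := ∑ U ∈ (univ.erase s).powerset, (-1 : ℝ) ^ U.card • (orig d n).EU U K g
    with hh
  have e1 : ∑ U ∈ (univ.erase s).powerset, (-1 : ℝ) ^ U.card • (orig d n).EU U Kp g = h := by
    refine Finset.sum_congr rfl fun U hU => ?_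
    rw [(orig d n).EU_congr (K := Kp) (K' := K)]
    intro t ht
    exact hKpt t (Finset.ne_of_mem_erase (Finset.mem_powerset.1 hU ht))
  have hidp : Idp (tail s (K s + q)) h := by
    have h2 : h = -∑ U ∈ (univ.erase s).powerset,
        (-1 : ℝ) ^ (insert s U).card • (orig d n).EU (insert s U) Kp g := by
      rw [← e1]
      exact eq_neg_of_add_eq_zero_left h1
    rw [h2, ← neg_one_smul ℝ]
    refine Froz_Idp_smul _ (Froz_Idp_sum _ fun U _ => Froz_Idp_smul _ ?_)
    intro x y hxy
    refine (orig d n).EU_meas (Finset.mem_insert_self s U) Kp g x y ?_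
    rw [hKps]
    intro a ha
    exact hxy a fun ha' => ha (Froz_tail s _ ha')
  have e2 : Av D (Froz_x K * g) = Av D (Froz_x K * h) := by
    rw [hh, Finset.mul_sum, map_sum, Finset.sum_eq_single_of_mem ∅ (Finset.empty_mem_powerset _)]
    · rw [Finset.card_empty, pow_zero, one_smul, Sys.EU_empty]
    · intro U _ hU
      rw [mul_smul_comm, map_smul, Froz_van K hK D (Froz_mem j i hi) U
        (Finset.nonempty_iff_ne_empty.2 hU) g, smul_zero]
  rw [e2]
  refine Froz_Idp_Av (Froz_Idp_mul ?_ hidp)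
  refine Froz_Idp_prod _ fun t _ => sg_idp _ _ ?_
  intro ht
  unfold tail at ht
  have h2 := (Finset.mem_filter.1 ht).2
  obtain ⟨h3, h4⟩ := h2
  change t = s at h3
  subst h3
  change K t + q ≤ (Fin.ofNat (n + 1) (K t)).val at h4
  rw [ofNat_val (hK t)] at h4
  omega

/-- TASK B5 (d): the average of the coefficient of the frozen system is the coefficient of the
full system -/
theorem froz_avg (g : Cu d n → ℝ) (i : Fin d → ℕ) (hi : ∀ s, i s < R) :
    (orig d n).EU univ (fun s => q * i s + j s) (co (froz d n q R hq hR j hj) i g) =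
      co (orig d n) (fun s => q * i s + j s) g := by
  rw [Froz_co hq hR j hj g i hi,
    Froz_co_orig g (fun s => q * i s + j s) (fun s => Froz_lt hR j hj s (hi s))]
  have h1 : ∀ f, (orig d n).EU univ (fun s => q * i s + j s) f =
      Av (univ.biUnion fun s => digs (dig0 d n) (n + 1) s (q * i s + j s)) f :=
    fun f => Froz_EU _ _ _ _ f
  rw [h1, Av_Av]
  congr 2
  rw [Finset.union_eq_left]
  intro a ha
  rw [Finset.mem_biUnion] at ha ⊢
  obtain ⟨s, _, hs⟩ := ha
  refine ⟨s, mem_univ s, ?_⟩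
  obtain ⟨k, hk, rfl⟩ := Finset.mem_image.1 hs
  rw [Finset.mem_Ico] at hk
  refine Finset.mem_image.2 ⟨q * k + j s, Finset.mem_Ico.2 ⟨?_, Froz_lt hR j hj s hk.2⟩, rfl⟩
  have := Nat.mul_le_mul_left q hk.1
  omega

end Pool.Agent.H506R2.LB
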