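import Pool.Agent.H506R2.LB.Lep

/-! TASK B4: Lépingle's inequality iterated over the coordinates. -/

set_option autoImplicit false

namespace Pool.Agent.H506R2.LB

open Finset Pool.Agent.H730R2.LD

variable {d R : ℕ} {X : Type} [Fintype X] (S : Sys d R X)

theorem LepM_meas (U : Finset (Fin d)) (K : Fin d → ℕ) (s : Fin d) (hs : s ∉ U) (l : ℕ)
    (g : X → ℝ) (hg : ∀ x y, S.rel s l x y → g x = g y) (x y : X) (h : S.rel s l x y) :
    S.EU U K g x = S.EU U K g y := by
  have h1 : S.E s l g = g := by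
    have := S.E_pull s l g 1 hg
    rwa [mul_one, S.E_one, mul_one] at this
  have h2 : S.E s l (S.EU U K g) = S.EU U K g := by
    rw [S.EU_comm hs K l g, h1]
  rw [← h2]
  exact S.E_meas s l _ x y h

/-- TASK B4 -/
theorem lepingle_multi (κ : Fin d → ℕ → ℕ) (hκ : ∀ s i, κ s i ≤ κ s (i + 1))
    (P : Finset (Fin d → ℕ)) (g : (Fin d → ℕ) → X → ℝ)
    (hg : ∀ i ∈ P, ∀ s, ∀ x y, S.rel s (κ s (i s + 1)) x y → g i x = g i y)
    (U : Finset (Fin d)) :
    ∑ x, Real.sqrt (∑ i ∈ P, (S.EU U (fun s => κ s (i s)) (g i) x) ^ 2) ≤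
      5 ^ U.card * ∑ x, Real.sqrt (∑ i ∈ P, (g i x) ^ 2) := by
  classical
  induction U using Finset.induction_on with
  | empty => simp
  | insert s U hs ih =>
    obtain ⟨n, hn⟩ : ∃ n, ∀ a ∈ P, a s < n := by
      refine ⟨P.sup (fun a => a s) + 1, fun a ha => ?_⟩
      exact Nat.lt_succ_of_le (Finset.le_sup (f := fun a : Fin d → ℕ => a s) ha)
    have h := lepingle S s n (κ s) (hκ s) P
      (fun i a => if a s = i then S.EU U (fun s => κ s (a s)) (g a) else 0)
      (fun i _ a ha x y hxy => by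
        split_ifs with hi
        · refine LepM_meas S U _ s hs (κ s (i + 1)) (g a) (fun x y h => ?_) x y hxy
          exact hg a ha s x y (by rw [hi]; exact h)
        · rfl)
    have e1 : ∀ x, ∑ i ∈ range n, ∑ a ∈ P,
        (S.E s (κ s i) (if a s = i then S.EU U (fun s => κ s (a s)) (g a) else 0) x) ^ 2 =
        ∑ a ∈ P, (S.EU (insert s U) (fun s => κ s (a s)) (g a) x) ^ 2 := by
      intro x
      rw [Finset.sum_comm]
      refine Finset.sum_congr rfl fun a ha => ?_
      rw [Finset.sum_eq_single (a s)]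
      · rw [if_pos rfl, S.EU_insert hs]
      · intro i _ hi
        rw [if_neg (Ne.symm hi), map_zero]
        simp
      · intro hna
        exact absurd (Finset.mem_range.2 (hn a ha)) hna
    have e2 : ∀ x, ∑ i ∈ range n, ∑ a ∈ P,
        ((if a s = i then S.EU U (fun s => κ s (a s)) (g a) else 0 : X → ℝ) x) ^ 2 =
        ∑ a ∈ P, (S.EU U (fun s => κ s (a s)) (g a) x) ^ 2 := by
      intro x
      rw [Finset.sum_comm]
      refine Finset.sum_congr rfl fun a ha => ?_
      rw [Finset.sum_eq_single (a s)]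
      · rw [if_pos rfl]
      · intro i _ hi
        rw [if_neg (Ne.symm hi)]
        simp
      · intro hna
        exact absurd (Finset.mem_range.2 (hn a ha)) hna
    simp only [e1, e2] at h
    refine h.trans ?_
    rw [Finset.card_insert_of_notMem hs, pow_succ]
    have h5 : (0 : ℝ) ≤ 5 := by norm_num
    calc 5 * ∑ x, Real.sqrt (∑ a ∈ P, (S.EU U (fun s => κ s (a s)) (g a) x) ^ 2)
        ≤ 5 * (5 ^ U.card * ∑ x, Real.sqrt (∑ i ∈ P, (g i x) ^ 2)) :=
          mul_le_mul_of_nonneg_left ih h5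
      _ = _ := by ring

end Pool.Agent.H506R2.LB
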