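import Pool.Agent.H506R2.LB.Top
import Pool.Agent.H506R2.LB.LepM
import Pool.Agent.H506R2.LB.Froz

/-! TASK B6: the square function of a lower diagonal on the cube, with polynomial loss. -/

set_option autoImplicit false

namespace Pool.Agent.H506R2.LB

open Finset Pool.Agent.H730R2.LD

theorem cubeThm_sqrt_sum {α : Type} (s : Finset α) (f : α → ℝ) (hf : ∀ a ∈ s, 0 ≤ f a) :
    Real.sqrt (∑ a ∈ s, f a) ≤ ∑ a ∈ s, Real.sqrt (f a) := by
  have h0 : 0 ≤ ∑ a ∈ s, Real.sqrt (f a) := Finset.sum_nonneg fun a _ => Real.sqrt_nonneg _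
  rw [Real.sqrt_le_left h0]
  have h1 : ∑ a ∈ s, f a = ∑ a ∈ s, Real.sqrt (f a) ^ 2 :=
    Finset.sum_congr rfl fun a ha => (Real.sq_sqrt (hf a ha)).symm
  rw [h1]
  exact Finset.sum_sq_le_sq_sum_of_nonneg fun a _ => Real.sqrt_nonneg _

/-- one residue class -/
theorem cubeThm_class {d n q R : ℕ} (hq : 1 ≤ q) (hR : q * R ≤ n + 1)
    (j : Fin d → ℕ) (hj : ∀ s, j s < q) {C : ℝ}
    (htop : ∀ (f : Cu d n → ℝ) (P : Finset (Fin d → ℕ)), (∀ K ∈ P, ∀ s, K s < R) →
      (∀ K ∈ P, ∀ K' : Fin d → ℕ, (∀ s, K' s < R) → (∀ s, K s ≤ K' s) → K' ≠ K →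
        co (froz d n q R hq hR j hj) K' f = 0) →
      ∑ x, Real.sqrt (∑ K ∈ P, (co (froz d n q R hq hR j hj) K f x) ^ 2) ≤ C * ∑ x, |f x|)
    (T : ℕ) (g : Cu d n → ℝ)
    (hT : ∀ K : Fin d → ℕ, (∀ s, K s < n + 1) → T ≤ ∑ s, K s → co (orig d n) K g = 0)
    (P : Finset (Fin d → ℕ)) (hP : ∀ i ∈ P, ∀ s, i s < R)
    (hPT : ∀ i ∈ P, ∑ s, (q * i s + j s) + q = T) :
    ∑ x, Real.sqrt (∑ i ∈ P, (co (orig d n) (fun s => q * i s + j s) g x) ^ 2) ≤
      5 ^ d * (C * ∑ x, |g x|) := by
  have h1 := htop g P hP (by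
    intro i hi i' hi' hle hne
    refine froz_zero hq hR j hj g T hT i' hi' ?_
    obtain ⟨s, hs⟩ : ∃ s, i s < i' s := by
      by_contra hcon
      push Not at hcon
      exact hne (funext fun s => le_antisymm (hcon s) (hle s))
    rw [← hPT i hi, ← Finset.add_sum_erase _ _ (Finset.mem_univ s),
      ← Finset.add_sum_erase (univ : Finset (Fin d)) (fun s => q * i' s + j s) (Finset.mem_univ s)]
    have h2 : ∑ x ∈ univ.erase s, (q * i x + j x) ≤ ∑ x ∈ univ.erase s, (q * i' x + j x) :=
      Finset.sum_le_sum fun x _ => by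
        have := Nat.mul_le_mul_left q (hle x)
        omega
    have h3 : q * (i s + 1) ≤ q * i' s := Nat.mul_le_mul_left q hs
    rw [Nat.mul_add, mul_one] at h3
    omega)
  have h2 := lepingle_multi (orig d n) (fun s i => q * i + j s) (by
      intro s i
      have : q * i ≤ q * (i + 1) := Nat.mul_le_mul_left q (Nat.le_succ i)
      simpa using this) P
    (fun i => co (froz d n q R hq hR j hj) i g) (by
      intro i hi s x y hxy
      refine froz_idp hq hR j hj g T hT i (hP i hi) (le_of_eq (hPT i hi).symm) s x y ?_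
      intro a ha
      refine hxy a fun hmem => ha ?_
      obtain ⟨m, hm, rfl⟩ := Finset.mem_image.1 hmem
      rw [Finset.mem_Ico] at hm
      unfold tail
      rw [Finset.mem_filter]
      refine ⟨Finset.mem_univ _, rfl, ?_⟩
      unfold dig0
      rw [ofNat_val hm.2]
      have := hm.1
      rw [Nat.mul_add, mul_one] at this
      omega) univ
  rw [Finset.card_univ, Fintype.card_fin] at h2
  have h3 : ∑ x, Real.sqrt (∑ i ∈ P, (co (orig d n) (fun s => q * i s + j s) g x) ^ 2) =
      ∑ x, Real.sqrt (∑ i ∈ P, ((orig d n).EU univ (fun s => q * i s + j s)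
        (co (froz d n q R hq hR j hj) i g) x) ^ 2) := by
    refine Finset.sum_congr rfl fun x _ => ?_
    congr 1
    refine Finset.sum_congr rfl fun i hi => ?_
    rw [froz_avg hq hR j hj g i (hP i hi)]
  rw [h3]
  refine h2.trans ?_
  exact mul_le_mul_of_nonneg_left h1 (by positivity)

/-- TASK B6 -/
theorem cubeThm (d : ℕ) (hd : 1 ≤ d) : ∃ C : ℝ, 0 < C ∧ ∀ (n q T : ℕ) (g : Cu d n → ℝ),
    1 ≤ q → q ≤ n + 1 →
    (∀ K : Fin d → ℕ, (∀ s, K s < n + 1) → T ≤ ∑ s, K s → co (orig d n) K g = 0) →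
    ∑ x, Real.sqrt (∑ K ∈ (Fintype.piFinset fun _ : Fin d => range (n + 1 - q)).filter
        (fun K => ∑ s, K s + q = T), (co (orig d n) K g x) ^ 2) ≤
      C * (q : ℝ) ^ d * ∑ x, |g x| := by
  obtain ⟨C, hC, htop⟩ := top d hd
  refine ⟨5 ^ d * C, by positivity, ?_⟩
  intro n q T g hq hqn hT
  set D : Finset (Fin d → ℕ) := (Fintype.piFinset fun _ : Fin d => range (n + 1 - q)).filter
        (fun K => ∑ s, K s + q = T) with hD
  set R : ℕ := (n + 1) / q with hRdef
  have hR : q * R ≤ n + 1 := Nat.mul_div_le _ _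
  set J : Finset (Fin d → ℕ) := Fintype.piFinset fun _ : Fin d => range q with hJ
  have hJm : ∀ K ∈ D, (fun s => K s % q) ∈ J := by
    intro K _
    rw [hJ, Fintype.mem_piFinset]
    intro s
    rw [Finset.mem_range]
    exact Nat.mod_lt _ (by omega)
  -- the classes
  have hclass : ∀ j ∈ J, ∑ x, Real.sqrt (∑ K ∈ D.filter (fun K => (fun s => K s % q) = j),
      (co (orig d n) K g x) ^ 2) ≤ 5 ^ d * (C * ∑ x, |g x|) := by
    intro j hjJ
    have hj : ∀ s, j s < q := by
      intro s
      rw [hJ, Fintype.mem_piFinset] at hjJ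
      exact Finset.mem_range.1 (hjJ s)
    set P : Finset (Fin d → ℕ) := (D.filter (fun K => (fun s => K s % q) = j)).image
      (fun K s => K s / q) with hP
    have hinj : Set.InjOn (fun (K : Fin d → ℕ) (s : Fin d) => K s / q)
        ((D.filter (fun K => (fun s => K s % q) = j) : Finset (Fin d → ℕ)) : Set (Fin d → ℕ)) := by
      intro K hK K' hK' h
      rw [Finset.mem_coe, Finset.mem_filter] at hK hK'
      funext s
      have h1 := congrFun h s
      have h2 := congrFun (hK.2.trans hK'.2.symm) s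
      simp only at h1 h2
      rw [← Nat.div_add_mod (K s) q, ← Nat.div_add_mod (K' s) q, h1, h2]
    have hback : ∀ K ∈ D.filter (fun K => (fun s => K s % q) = j),
        (fun s => q * (K s / q) + j s) = K := by
      intro K hK
      rw [Finset.mem_filter] at hK
      funext s
      have h2 := congrFun hK.2 s
      rw [← h2]
      exact Nat.div_add_mod (K s) q
    have key := cubeThm_class hq hR j hj
      (fun f P h1 h2 => htop R (Cu d n) (froz d n q R hq hR j hj) f P h1 h2) T g hT P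
      (by
        intro i hi s
        obtain ⟨K, hK, rfl⟩ := Finset.mem_image.1 hi
        rw [Finset.mem_filter, hD, Finset.mem_filter, Fintype.mem_piFinset] at hK
        have h1 := Finset.mem_range.1 (hK.1.1 s)
        show K s / q < (n + 1) / q
        have h2 : (K s + q) / q ≤ (n + 1) / q := Nat.div_le_div_right (by omega)
        rw [Nat.add_div_right _ (by omega)] at h2
        exact h2)
      (by
        intro i hi
        obtain ⟨K, hK, rfl⟩ := Finset.mem_image.1 hi
        have h1 := hback K hK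
        rw [Finset.mem_filter, hD, Finset.mem_filter] at hK
        have h2 : ∑ s, (q * (K s / q) + j s) = ∑ s, K s :=
          Finset.sum_congr rfl fun s _ => congrFun h1 s
        rw [h2]
        exact hK.1.2)
    refine le_trans (le_of_eq ?_) key
    refine Finset.sum_congr rfl fun x _ => ?_
    congr 1
    rw [hP, Finset.sum_image hinj]
    refine Finset.sum_congr rfl fun K hK => ?_
    rw [hback K hK]
  have hsplit : ∀ x, Real.sqrt (∑ K ∈ D, (co (orig d n) K g x) ^ 2) ≤
      ∑ j ∈ J, Real.sqrt (∑ K ∈ D.filter (fun K => (fun s => K s % q) = j),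
        (co (orig d n) K g x) ^ 2) := by
    intro x
    rw [← Finset.sum_fiberwise_of_maps_to hJm]
    exact cubeThm_sqrt_sum _ _ fun j _ => Finset.sum_nonneg fun K _ => sq_nonneg _
  calc ∑ x, Real.sqrt (∑ K ∈ D, (co (orig d n) K g x) ^ 2)
      ≤ ∑ x, ∑ j ∈ J, Real.sqrt (∑ K ∈ D.filter (fun K => (fun s => K s % q) = j),
        (co (orig d n) K g x) ^ 2) := Finset.sum_le_sum fun x _ => hsplit x
    _ = ∑ j ∈ J, ∑ x, Real.sqrt (∑ K ∈ D.filter (fun K => (fun s => K s % q) = j),
        (co (orig d n) K g x) ^ 2) := Finset.sum_comm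
    _ ≤ ∑ _j ∈ J, 5 ^ d * (C * ∑ x, |g x|) := Finset.sum_le_sum hclass
    _ = 5 ^ d * C * (q : ℝ) ^ d * ∑ x, |g x| := by
        rw [Finset.sum_const, nsmul_eq_mul, hJ, Fintype.card_piFinset]
        simp only [Finset.card_range, Finset.prod_const, Finset.card_univ, Fintype.card_fin]
        push_cast
        ring

end Pool.Agent.H506R2.LB
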