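import Pool.Agent.H506R2.LB.IterSq
import Pool.Agent.H506R2.LB.Fam

/-! TASK C5a: one term of the decomposition. -/

set_option autoImplicit false

namespace Pool.Agent.H506R2.LB

open Finset Matrix BernT

/-- the offsets -/
noncomputable def wv (d M : ℕ) (U : Finset (Fin d)) : Finset (Fin d → ℤ) :=
  Fintype.piFinset fun s => if s ∈ U then Icc (-(M : ℤ)) (M : ℤ) else {0}

/-- Minkowski for finite sums -/
theorem decA_mink {ι κ : Type*} (W : Finset κ) (P : Finset ι) (u : κ → ι → ℂ) :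
    Real.sqrt (∑ a ∈ P, ‖∑ w ∈ W, u w a‖ ^ 2) ≤ ∑ w ∈ W, Real.sqrt (∑ a ∈ P, ‖u w a‖ ^ 2) := by
  classical
  induction W using Finset.induction_on with
  | empty => simp
  | insert w W hw ih =>
    rw [Finset.sum_insert hw]
    simp_rw [Finset.sum_insert hw]
    refine (ST2.minkowski2 P (u w) (fun a => ∑ w ∈ W, u w a)).trans ?_
    linarith

/-- shifted level, as an integer -/
def decAkp {d : ℕ} (U : Finset (Fin d)) (g : ℕ) (K : Fin d → ℕ) (w : Fin d → ℤ) (s : Fin d) : ℤ :=
  (K s : ℤ) - (if s ∈ U then (g : ℤ) else 0) + w s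

/-- shifted level -/
def decAkn {d : ℕ} (U : Finset (Fin d)) (g : ℕ) (K : Fin d → ℕ) (w : Fin d → ℤ) : Fin d → ℕ :=
  fun s => (decAkp U g K w s).toNat

/-- the shifted level is a level -/
def decAok {d : ℕ} (M : ℕ) (U : Finset (Fin d)) (g : ℕ) (K : Fin d → ℕ) (w : Fin d → ℤ) : Prop :=
  ∀ s, 0 ≤ decAkp U g K w s ∧ decAkp U g K w s < M

section

variable {d M : ℕ}

theorem decAkn_cast {U : Finset (Fin d)} {g : ℕ} {K : Fin d → ℕ} {w : Fin d → ℤ}
    (h : decAok M U g K w) (s : Fin d) : ((decAkn U g K w s : ℕ) : ℤ) = decAkp U g K w s :=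
  Int.toNat_of_nonneg (h s).1

theorem decAkn_mem {U : Finset (Fin d)} {g : ℕ} {K : Fin d → ℕ} {w : Fin d → ℤ}
    (h : decAok M U g K w) : decAkn U g K w ∈ Lv d M := by
  rw [Lv, Fintype.mem_piFinset]
  intro s
  rw [Finset.mem_range]
  have h1 := decAkn_cast h s
  have h2 := (h s).2
  omega

theorem decA_term {U : Finset (Fin d)} {g : ℕ} {K : Fin d → ℕ} {w : Fin d → ℤ}
    (h : decAok M U g K w) (hw : ∀ s, s ∉ U → w s = 0) (f : Gr d M → ℂ) :
    ten (fun s => if s ∈ U then Dm M (K s) * VZ M ((K s : ℤ) - g) else Dm M (K s))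
      (DK (decAkn U g K w) f) =
    ten (fun s => if s ∈ U then TV M g (w s) (decAkn U g K w s) else 1)
      (DK (decAkn U g K w) f) := by
  unfold DK
  rw [ten_ten, ten_ten]
  congr 1
  funext s
  have h1 := decAkn_cast h s
  by_cases hs : s ∈ U
  · simp only [if_pos hs]
    congr 1
    unfold decAkp at h1
    rw [if_pos hs] at h1
    have h2 : ((decAkn U g K w s : ℕ) : ℤ) - w s = (K s : ℤ) - g := by omega
    unfold TV VZ
    rw [h2]
    split_ifs with h3
    · congr 2
      omega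
    · rw [Matrix.mul_zero]
  · simp only [if_neg hs]
    unfold decAkp at h1
    rw [if_neg hs, hw s hs] at h1
    have h2 : decAkn U g K w s = K s := by omega
    rw [h2, Dm_idem, Matrix.one_mul]

theorem decA_zero {U : Finset (Fin d)} {g : ℕ} {K K' : Fin d → ℕ} (hK : K ∈ Lv d M)
    (hK' : K' ∈ Lv d M)
    (h : ¬ ∃ w ∈ wv d M U, decAok M U g K w ∧ decAkn U g K w = K') (f : Gr d M → ℂ) :
    ten (fun s => if s ∈ U then Dm M (K s) * VZ M ((K s : ℤ) - g) else Dm M (K s))
      (DK K' f) = 0 := by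
  unfold DK
  rw [ten_ten]
  by_cases h1 : ∃ s, s ∉ U ∧ K s ≠ K' s
  · obtain ⟨s, hs, hne⟩ := h1
    refine ten_eq_zero (s := s) ?_ f
    simp only [if_neg hs]
    exact Dm_orth M _ _ hne
  by_cases h2 : ∃ s, s ∈ U ∧ (K s : ℤ) - g < 0
  · obtain ⟨s, hs, hneg⟩ := h2
    refine ten_eq_zero (s := s) ?_ f
    simp only [if_pos hs]
    unfold VZ
    rw [if_neg (by omega), Matrix.mul_zero, Matrix.zero_mul]
  push Not at h1 h2
  exfalso
  rw [Lv, Fintype.mem_piFinset] at hK hK'
  have hkp : ∀ s, decAkp U g K (fun s => (K' s : ℤ) - ((K s : ℤ) - (if s ∈ U then (g : ℤ) else 0)))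
      s = K' s := by
    intro s
    unfold decAkp
    ring
  refine h ⟨fun s => (K' s : ℤ) - ((K s : ℤ) - (if s ∈ U then (g : ℤ) else 0)), ?_, ?_, ?_⟩
  · rw [wv, Fintype.mem_piFinset]
    intro s
    have a1 := Finset.mem_range.1 (hK s)
    have a2 := Finset.mem_range.1 (hK' s)
    by_cases hs : s ∈ U
    · simp only [if_pos hs, Finset.mem_Icc]
      have := h2 s hs
      constructor <;> omega
    · simp only [if_neg hs, Finset.mem_singleton]
      have := h1 s hs
      omega
  · intro s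
    rw [hkp]
    have a2 := Finset.mem_range.1 (hK' s)
    constructor <;> omega
  · funext s
    unfold decAkn
    rw [hkp]
    simp

open Classical in
theorem decA_expand {U : Finset (Fin d)} {g : ℕ} {K : Fin d → ℕ} (hK : K ∈ Lv d M)
    (f : Gr d M → ℂ) (hf : ∀ s, cop s (Em M 0) f = 0) :
    ten (fun s => if s ∈ U then Dm M (K s) * VZ M ((K s : ℤ) - g) else Dm M (K s)) f =
      ∑ w ∈ wv d M U, if decAok M U g K w then
        ten (fun s => if s ∈ U then TV M g (w s) (decAkn U g K w s) else 1)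
          (DK (decAkn U g K w) f) else 0 := by
  conv_lhs => rw [← sum_DK f hf, ten_sum]
  rw [← Finset.sum_filter]
  symm
  refine Finset.sum_of_injOn (fun w => decAkn U g K w) ?_ ?_ ?_ ?_
  · intro w hw w' hw' he
    simp only [Finset.coe_filter, Set.mem_ofPred_eq] at hw hw'
    funext s
    have h1 := decAkn_cast hw.2 s
    have h2 := decAkn_cast hw'.2 s
    have h3 := congrFun he s
    simp only at h3
    rw [h3, h2] at h1
    unfold decAkp at h1
    omega
  · intro w hw
    simp only [Finset.coe_filter, Set.mem_ofPred_eq] at hw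
    exact decAkn_mem hw.2
  · intro K' hK' hne
    refine decA_zero hK hK' ?_ f
    rintro ⟨w, hw, hok, he⟩
    refine hne ⟨w, ?_, he⟩
    simp only [Finset.coe_filter, Set.mem_ofPred_eq]
    exact ⟨hw, hok⟩
  · intro w hw
    rw [Finset.mem_filter, wv, Fintype.mem_piFinset] at hw
    refine (decA_term hw.2 (fun s hs => ?_) f).symm
    have := hw.1 s
    rw [if_neg hs] at this
    exact Finset.mem_singleton.1 this

end

/-- TASK C5a -/
theorem decA (d : ℕ) : ∃ C : ℝ, 0 < C ∧ ∀ (M g : ℕ) (m : ℤ) (U : Finset (Fin d))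
    (f : Gr d M → ℂ), (∀ s, cop s (Em M 0) f = 0) →
    ∑ x, Real.sqrt (∑ K ∈ (Lv d M).filter (fun K => tl K = m),
      ‖ten (fun s => if s ∈ U then Dm M (K s) * VZ M ((K s : ℤ) - g) else Dm M (K s)) f x‖ ^ 2) ≤
      C * ∑ w ∈ wv d M U, ((1 / 2 : ℝ) ^ (g * U.card) *
        (2 : ℝ) ^ (-((∑ s, |(w s : ℝ)|) / 2))) * NN (m - g * U.card + ∑ s, w s) f := by
  classical
  obtain ⟨CV, hCV, hV⟩ := vfam'
  set C1 : ℝ := max CV 1 with hC1
  have hC11 : 1 ≤ C1 := le_max_right _ _
  have hC1V : CV ≤ C1 := le_max_left _ _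
  refine ⟨(2 * C1) ^ d, by positivity, ?_⟩
  intro M g m U f hf
  set P := (Lv d M).filter (fun K => tl K = m) with hP
  have hPL : ∀ K ∈ P, K ∈ Lv d M := fun K hK => (Finset.mem_filter.1 hK).1
  -- the single terms
  let G : (Fin d → ℤ) → (Fin d → ℕ) → Gr d M → ℂ := fun w K =>
    if decAok M U g K w then
        ten (fun s => if s ∈ U then TV M g (w s) (decAkn U g K w s) else 1)
          (DK (decAkn U g K w) f) else 0
  have e1 : ∀ x, Real.sqrt (∑ K ∈ P,
      ‖ten (fun s => if s ∈ U then Dm M (K s) * VZ M ((K s : ℤ) - g) else Dm M (K s)) f x‖ ^ 2) ≤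
      ∑ w ∈ wv d M U, Real.sqrt (∑ K ∈ P, ‖G w K x‖ ^ 2) := by
    intro x
    refine le_trans (le_of_eq ?_) (decA_mink (wv d M U) P (fun w K => G w K x))
    congr 1
    refine Finset.sum_congr rfl fun K hK => ?_
    rw [decA_expand (hPL K hK) f hf, Finset.sum_apply]
  refine (Finset.sum_le_sum fun x _ => e1 x).trans ?_
  rw [Finset.sum_comm, Finset.mul_sum]
  refine Finset.sum_le_sum fun w hw => ?_
  rw [wv, Fintype.mem_piFinset] at hw
  have hw0 : ∀ s, s ∉ U → w s = 0 := fun s hs => by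
    have := hw s
    rw [if_neg hs] at this
    exact Finset.mem_singleton.1 this
  -- the target levels
  set m' : ℤ := m - g * U.card + ∑ s, w s with hm'
  set P' := (Lv d M).filter (fun K => tl K = m') with hP'
  have e2 : ∀ x, ∑ K ∈ P, ‖G w K x‖ ^ 2 ≤
      ∑ K ∈ P', ‖ten (fun s => if s ∈ U then TV M g (w s) (K s) else 1) (DK K f) x‖ ^ 2 := by
    intro x
    have h1 : ∑ K ∈ P, ‖G w K x‖ ^ 2 = ∑ K ∈ P.filter (fun K => decAok M U g K w),
        ‖ten (fun s => if s ∈ U then TV M g (w s) (decAkn U g K w s) else 1)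
          (DK (decAkn U g K w) f) x‖ ^ 2 := by
      rw [Finset.sum_filter (s := P) (fun K => decAok M U g K w)]
      refine Finset.sum_congr rfl fun K _ => ?_
      simp only [G]
      split_ifs
      · rfl
      · simp
    rw [h1]
    rw [← Finset.sum_image (s := P.filter (fun K => decAok M U g K w))
      (g := fun K => decAkn U g K w)
      (f := fun K' => ‖ten (fun s => if s ∈ U then TV M g (w s) (K' s) else 1) (DK K' f) x‖ ^ 2)]
    · refine Finset.sum_le_sum_of_subset_of_nonneg ?_ fun _ _ _ => by positivity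
      intro K' hK'
      rw [Finset.mem_image] at hK'
      obtain ⟨K, hK, rfl⟩ := hK'
      rw [Finset.mem_filter] at hK
      rw [hP', Finset.mem_filter]
      refine ⟨decAkn_mem hK.2, ?_⟩
      have htl : tl K = m := (Finset.mem_filter.1 hK.1).2
      unfold tl at htl ⊢
      have hcast : ∑ s, ((decAkn U g K w s : ℕ) : ℤ) = ∑ s, decAkp U g K w s :=
        Finset.sum_congr rfl fun s _ => decAkn_cast hK.2 s
      rw [hcast]
      unfold decAkp
      rw [Finset.sum_add_distrib, Finset.sum_sub_distrib, htl, hm', Finset.sum_ite_mem]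
      simp only [Finset.univ_inter, Finset.sum_const, nsmul_eq_mul]
      ring
    · intro K hK K2 hK2 he
      simp only [Finset.coe_filter, Set.mem_ofPred_eq] at hK hK2
      funext s
      have h1 := decAkn_cast hK.2 s
      have h2 := decAkn_cast hK2.2 s
      have h3 := congrFun he s
      simp only at h3
      rw [h3, h2] at h1
      unfold decAkp at h1
      omega
  refine (Finset.sum_le_sum fun x _ => Real.sqrt_le_sqrt (e2 x)).trans ?_
  -- iter_sq
  let c : Fin d → ℝ := fun s => if s ∈ U then CV * (1 / 2) ^ g * (2 : ℝ) ^ (-(|(w s : ℝ)| / 2))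
    else 1
  have hc : ∀ s, 0 ≤ c s := by
    intro s
    simp only [c]
    split_ifs <;> positivity
  have e3 := iter_sq (M := M) (fun s a => if s ∈ U then TV M g (w s) a else 1) c hc
    (by
      intro s F hF
      by_cases hs : s ∈ U
      · simp only [c, if_pos hs]
        exact hV M g (w s) F hF
      · simp only [c, if_neg hs, Matrix.one_mulVec, one_mul]
        exact le_rfl)
    P' (fun K hK s => by
      rw [hP', Finset.mem_filter, Lv, Fintype.mem_piFinset] at hK
      exact Finset.mem_range.1 (hK.1 s)) (fun K => DK K f) (fun K _ => HaarK_DK K f)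
  refine e3.trans ?_
  have hNN : ∑ x, Real.sqrt (∑ K ∈ P', ‖DK K f x‖ ^ 2) = NN m' f := rfl
  rw [hNN]
  rw [← mul_assoc]
  refine mul_le_mul_of_nonneg_right ?_ (NN_nonneg m' f)
  have hterm : ∀ s, 2 * c s ≤ (2 * C1) * (if s ∈ U then (1 / 2 : ℝ) ^ g else 1) *
      (2 : ℝ) ^ (-(|(w s : ℝ)| / 2)) := by
    intro s
    simp only [c]
    by_cases hs : s ∈ U
    · simp only [if_pos hs]
      have h0 : 0 ≤ (1 / 2 : ℝ) ^ g * (2 : ℝ) ^ (-(|(w s : ℝ)| / 2)) := by positivity
      nlinarith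
    · simp only [if_neg hs, hw0 s hs]
      simp
      linarith
  have hprod : ∏ s, (2 * c s) ≤ ∏ s, ((2 * C1) * (if s ∈ U then (1 / 2 : ℝ) ^ g else 1) *
      (2 : ℝ) ^ (-(|(w s : ℝ)| / 2))) :=
    Finset.prod_le_prod (fun s _ => mul_nonneg (by norm_num) (hc s)) fun s _ => hterm s
  refine hprod.trans (le_of_eq ?_)
  rw [Finset.prod_mul_distrib, Finset.prod_mul_distrib]
  have h1 : ∏ s : Fin d, (2 * C1) = (2 * C1) ^ d := by simp
  have h2 : ∏ s : Fin d, (if s ∈ U then (1 / 2 : ℝ) ^ g else 1) = (1 / 2 : ℝ) ^ (g * U.card) := by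
    rw [Finset.prod_ite_mem]
    simp only [Finset.univ_inter, Finset.prod_const]
    rw [pow_mul]
  have h3 : ∏ s : Fin d, (2 : ℝ) ^ (-(|(w s : ℝ)| / 2)) = (2 : ℝ) ^ (-((∑ s, |(w s : ℝ)|) / 2)) := by
    rw [← Real.rpow_sum_of_pos (by norm_num)]
    congr 1
    rw [Finset.sum_neg_distrib, Finset.sum_div]
  rw [h1, h2, h3, mul_assoc]

end Pool.Agent.H506R2.LB
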