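import Pool.Agent.H506R2.LB.DecA
import Pool.Agent.H778R2.LB.WSum

/-! TASK C5b: decay of the high diagonals. -/

set_option autoImplicit false

namespace Pool.Agent.H506R2.LB

open Finset Matrix BernT

theorem Decay_tl_lt {d M : ℕ} (hd : 1 ≤ d) {K : Fin d → ℕ} (hK : K ∈ Lv d M) :
    tl K < (d * M : ℕ) := by
  unfold tl
  unfold Lv at hK
  rw [Fintype.mem_piFinset] at hK
  have : Nonempty (Fin d) := ⟨⟨0, hd⟩⟩
  have h : ∑ s, (K s : ℤ) < ∑ _s : Fin d, (M : ℤ) :=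
    Finset.sum_lt_sum_of_nonempty Finset.univ_nonempty
      (fun s _ => by exact_mod_cast Finset.mem_range.1 (hK s))
  simpa using h

theorem Decay_NN_zero {d M : ℕ} (hd : 1 ≤ d) (f : Gr d M → ℂ) {m : ℤ}
    (hm : m < 0 ∨ (d * M : ℕ) ≤ m) : NN m f = 0 := by
  unfold NN
  refine Finset.sum_eq_zero fun x _ => ?_
  have : (Lv d M).filter (fun K => tl K = m) = ∅ := by
    rw [Finset.filter_eq_empty_iff]
    intro K hK h
    have h1 := Decay_tl_lt hd hK
    have h2 : 0 ≤ tl K := Finset.sum_nonneg fun s _ => by positivity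
    omega
  rw [this, Finset.sum_empty, Real.sqrt_zero]

/-- each `NN m'` is one of the terms of the weighted sum -/
theorem Decay_term {d M : ℕ} (hd : 1 ≤ d) (f : Gr d M → ℂ) (n : ℕ) (m' : ℤ) :
    (2 : ℝ) ^ (-(|(m' : ℝ) - n| / (4 * d))) * NN m' f ≤
      ∑ m ∈ range (d * M), (2 : ℝ) ^ (-(|(m : ℝ) - n| / (4 * d))) * NN (m : ℤ) f := by
  have h0 : ∀ m ∈ range (d * M), 0 ≤ (2 : ℝ) ^ (-(|(m : ℝ) - n| / (4 * d))) * NN (m : ℤ) f :=
    fun m _ => mul_nonneg (by positivity) (NN_nonneg _ _)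
  by_cases hm : m' < 0 ∨ (d * M : ℕ) ≤ m'
  · rw [Decay_NN_zero hd f hm, mul_zero]
    exact Finset.sum_nonneg h0
  · push Not at hm
    obtain ⟨k, rfl⟩ := Int.eq_ofNat_of_zero_le hm.1
    have hk : k ∈ range (d * M) := Finset.mem_range.2 (by exact_mod_cast hm.2)
    have := Finset.single_le_sum h0 hk
    simpa using this

/-- the decomposition of one Haar block -/
theorem Decay_block {d M n : ℕ} {f : Gr d M → ℂ} (hf : Spec n f) {g : ℕ} (hg : 1 ≤ g)
    {K : Fin d → ℕ} (hK : K ∈ Lv d M) (hn : (n : ℤ) + d * g ≤ tl K) (x : Gr d M) :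
    ‖DK K f x‖ ≤ ∑ U ∈ (univ : Finset (Fin d)).powerset.erase ∅,
      ‖ten (fun s => if s ∈ U then Dm M (K s) * VZ M ((K s : ℤ) - g) else Dm M (K s)) f x‖ := by
  classical
  unfold Lv at hK
  rw [Fintype.mem_piFinset] at hK
  have h1 := hf.2 (fun s => (K s : ℤ) - g) (fun s => by
    have := Finset.mem_range.1 (hK s)
    omega) (by
      rw [Finset.sum_sub_distrib]
      unfold tl at hn
      simp only [Finset.sum_const, Finset.card_univ, Fintype.card_fin, nsmul_eq_mul]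
      linarith)
  rw [← Finset.add_sum_erase _ _ (Finset.empty_mem_powerset (univ : Finset (Fin d)))] at h1
  have h2 : (-1 : ℂ) ^ (∅ : Finset (Fin d)).card • ten (fun s => if s ∈ (∅ : Finset (Fin d)) then
      VZ M ((K s : ℤ) - g) else 1) f = f := by
    rw [Finset.card_empty, pow_zero, one_smul]
    exact ten_empty (fun s => VZ M ((K s : ℤ) - g)) f
  rw [h2] at h1
  have h3 : DK K f = -∑ U ∈ (univ : Finset (Fin d)).powerset.erase ∅, (-1 : ℂ) ^ U.card •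
      ten (fun s => if s ∈ U then Dm M (K s) * VZ M ((K s : ℤ) - g) else Dm M (K s)) f := by
    have h4 : f = -∑ U ∈ (univ : Finset (Fin d)).powerset.erase ∅, (-1 : ℂ) ^ U.card •
        ten (fun s => if s ∈ U then VZ M ((K s : ℤ) - g) else 1) f := eq_neg_of_add_eq_zero_left h1
    have h5 := congrArg (ten (fun s => Dm M (K s))) h4
    unfold DK
    rw [h5, ← neg_one_smul ℂ, ten_smul, ten_sum, neg_one_smul]
    congr 1
    refine Finset.sum_congr rfl fun U _ => ?_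
    rw [ten_smul, ten_ten]
    congr 2
    funext s
    split_ifs
    · rfl
    · rw [Matrix.mul_one]
  rw [h3]
  simp only [Pi.neg_apply, Finset.sum_apply, norm_neg]
  refine (norm_sum_le _ _).trans (le_of_eq ?_)
  refine Finset.sum_congr rfl fun U _ => ?_
  rw [Pi.smul_apply, norm_smul, norm_pow, norm_neg, norm_one, one_pow, one_mul]

/-- comparison of the exponents -/
theorem Decay_exp {d n j g c : ℕ} (hd : 1 ≤ d) (hc1 : 1 ≤ c) (hcd : c ≤ d) (hg : d * g ≤ j)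
    (hg' : (j : ℝ) < d * (g + 1)) (W : ℤ) {w1 : ℝ} (hw1 : |(W : ℝ)| ≤ w1) :
    (1 / 2 : ℝ) ^ (g * c) * (2 : ℝ) ^ (-(w1 / 2)) ≤
      2 * (2 : ℝ) ^ (-(3 * (j : ℝ) / (4 * d))) * (2 : ℝ) ^ (-(w1 / 4)) *
        (2 : ℝ) ^ (-(|(((n : ℤ) + j - g * c + W : ℤ) : ℝ) - n| / (4 * d))) := by
  have hd0 : (0 : ℝ) < d := by exact_mod_cast hd
  have hd1 : (1 : ℝ) ≤ d := by exact_mod_cast hd
  have h2 : (0 : ℝ) < 2 := by norm_num
  have e1 : (1 / 2 : ℝ) ^ (g * c) = (2 : ℝ) ^ (-((g * c : ℕ) : ℝ)) := by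
    rw [Real.rpow_neg h2.le, Real.rpow_natCast, one_div, inv_pow]
  have e2 : (2 : ℝ) * (2 : ℝ) ^ (-(3 * (j : ℝ) / (4 * d))) =
      (2 : ℝ) ^ (1 + -(3 * (j : ℝ) / (4 * d))) := by
    rw [Real.rpow_add h2, Real.rpow_one]
  rw [e1, e2, ← Real.rpow_add h2, ← Real.rpow_add h2, ← Real.rpow_add h2]
  apply Real.rpow_le_rpow_of_exponent_le (by norm_num)
  have hgc : (g : ℝ) ≤ ((g * c : ℕ) : ℝ) := by
    have : g ≤ g * c := Nat.le_mul_of_pos_right g hc1
    exact_mod_cast this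
  have hgcj : ((g * c : ℕ) : ℝ) ≤ j := by
    have : g * c ≤ j := (Nat.mul_le_mul_left g hcd).trans (by rw [Nat.mul_comm]; exact hg)
    exact_mod_cast this
  have habs : |(((n : ℤ) + j - g * c + W : ℤ) : ℝ) - n| ≤ j + w1 := by
    have e3 : (((n : ℤ) + j - g * c + W : ℤ) : ℝ) - n = ((j : ℝ) - ((g * c : ℕ) : ℝ)) + W := by
      push_cast; ring
    rw [e3]
    refine (abs_add_le _ _).trans (add_le_add ?_ hw1)
    rw [abs_of_nonneg (by linarith)]
    have : (0 : ℝ) ≤ ((g * c : ℕ) : ℝ) := by positivity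
    linarith
  have hw0 : 0 ≤ w1 := (abs_nonneg _).trans hw1
  have k1 : |(((n : ℤ) + j - g * c + W : ℤ) : ℝ) - n| / (4 * d) ≤ j / (4 * d) + w1 / 4 := by
    calc |(((n : ℤ) + j - g * c + W : ℤ) : ℝ) - n| / (4 * d) ≤ (j + w1) / (4 * d) := by
          gcongr
      _ = j / (4 * d) + w1 / (4 * d) := by ring
      _ ≤ j / (4 * d) + w1 / 4 := by
          gcongr
          linarith
  have k2 : (j : ℝ) / d - 1 ≤ g := by
    rw [sub_le_iff_le_add, div_le_iff₀ hd0]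
    linarith
  have k3 : 3 * (j : ℝ) / (4 * d) + j / (4 * d) = j / d := by
    field_simp
    norm_num
  linarith

/-- TASK C5b -/
theorem decay (d : ℕ) (hd : 1 ≤ d) : ∃ C : ℝ, 0 < C ∧ ∀ (M n j : ℕ) (f : Gr d M → ℂ),
    Spec n f →
    NN ((n : ℤ) + j) f ≤ C * (2 : ℝ) ^ (-(3 * (j : ℝ) / (4 * d))) *
      ∑ m ∈ range (d * M), (2 : ℝ) ^ (-(|(m : ℝ) - n| / (4 * d))) * NN (m : ℤ) f := by
  classical
  obtain ⟨CA, hCA, hA⟩ := decA d
  refine ⟨2 + 2 * 2 ^ d * CA * 13 ^ d, by positivity, ?_⟩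
  intro M n j f hf
  set S := ∑ m ∈ range (d * M), (2 : ℝ) ^ (-(|(m : ℝ) - n| / (4 * d))) * NN (m : ℤ) f with hS
  have hS0 : 0 ≤ S := Finset.sum_nonneg fun m _ => mul_nonneg (by positivity) (NN_nonneg _ _)
  have hd0 : (0 : ℝ) < d := by exact_mod_cast hd
  have h2 : (0 : ℝ) < 2 := by norm_num
  rcases Nat.lt_or_ge j d with hjd | hjd
  · -- small `j`
    have h1 := Decay_term hd f n ((n : ℤ) + j)
    rw [← hS] at h1
    have e1 : |((((n : ℤ) + j : ℤ)) : ℝ) - n| = j := by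
      push_cast
      rw [add_sub_cancel_left, abs_of_nonneg (by positivity)]
    rw [e1] at h1
    have h3 : (1 : ℝ) ≤ 2 * (2 : ℝ) ^ (-(3 * (j : ℝ) / (4 * d))) * (2 : ℝ) ^ (-((j : ℝ) / (4 * d))) := by
      have e2 : (2 : ℝ) * (2 : ℝ) ^ (-(3 * (j : ℝ) / (4 * d))) =
          (2 : ℝ) ^ (1 + -(3 * (j : ℝ) / (4 * d))) := by
        rw [Real.rpow_add h2, Real.rpow_one]
      rw [e2, ← Real.rpow_add h2]
      apply Real.one_le_rpow (by norm_num)
      have k3 : 3 * (j : ℝ) / (4 * d) + j / (4 * d) = j / d := by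
        field_simp
        norm_num
      have k4 : (j : ℝ) / d ≤ 1 := by
        rw [div_le_one hd0]
        exact_mod_cast hjd.le
      linarith
    have hN := NN_nonneg ((n : ℤ) + j) f
    calc NN ((n : ℤ) + j) f ≤ (2 * (2 : ℝ) ^ (-(3 * (j : ℝ) / (4 * d))) *
          (2 : ℝ) ^ (-((j : ℝ) / (4 * d)))) * NN ((n : ℤ) + j) f := le_mul_of_one_le_left hN h3
      _ = 2 * (2 : ℝ) ^ (-(3 * (j : ℝ) / (4 * d))) *
          ((2 : ℝ) ^ (-((j : ℝ) / (4 * d))) * NN ((n : ℤ) + j) f) := by ring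
      _ ≤ 2 * (2 : ℝ) ^ (-(3 * (j : ℝ) / (4 * d))) * S := by gcongr
      _ ≤ (2 + 2 * 2 ^ d * CA * 13 ^ d) * (2 : ℝ) ^ (-(3 * (j : ℝ) / (4 * d))) * S := by
          gcongr
          have : 0 ≤ 2 * 2 ^ d * CA * 13 ^ d := by positivity
          linarith
  · -- large `j`
    set g := j / d with hg
    have hg1 : 1 ≤ g := (Nat.one_le_div_iff hd).2 hjd
    have hgj : d * g ≤ j := Nat.mul_div_le j d
    have hgj' : (j : ℝ) < d * (g + 1) := by
      have := Nat.lt_mul_div_succ j (show 0 < d from hd)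
      rw [← hg] at this
      exact_mod_cast this
    set P := (Lv d M).filter (fun K => tl K = (n : ℤ) + j) with hP
    set Us := (univ : Finset (Fin d)).powerset.erase ∅ with hUs
    have step1 : NN ((n : ℤ) + j) f ≤ ∑ U ∈ Us, ∑ x : Gr d M, Real.sqrt (∑ K ∈ P,
        ‖ten (fun s => if s ∈ U then Dm M (K s) * VZ M ((K s : ℤ) - g) else Dm M (K s)) f x‖ ^ 2) := by
      unfold NN
      rw [Finset.sum_comm]
      refine Finset.sum_le_sum fun x _ => ?_
      rw [← hP]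
      refine Pool.Agent.H778R2.LB.l2_tri P Us (fun K => ‖DK K f x‖)
        (fun U K => ‖ten (fun s => if s ∈ U then Dm M (K s) * VZ M ((K s : ℤ) - g)
          else Dm M (K s)) f x‖) (fun K _ => norm_nonneg _) ?_
      intro K hK
      rw [hP, Finset.mem_filter] at hK
      refine Decay_block hf hg1 hK.1 ?_ x
      rw [hK.2]
      have : ((d : ℤ) * g) ≤ j := by exact_mod_cast hgj
      linarith
    have step2 : ∀ U ∈ Us, ∑ x : Gr d M, Real.sqrt (∑ K ∈ P,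
        ‖ten (fun s => if s ∈ U then Dm M (K s) * VZ M ((K s : ℤ) - g) else Dm M (K s)) f x‖ ^ 2) ≤
        2 * CA * 13 ^ d * (2 : ℝ) ^ (-(3 * (j : ℝ) / (4 * d))) * S := by
      intro U hU
      rw [hUs, Finset.mem_erase] at hU
      have hc1 : 1 ≤ U.card := Finset.card_pos.2 (Finset.nonempty_iff_ne_empty.2 hU.1)
      have hcd : U.card ≤ d := by simpa using Finset.card_le_univ U
      refine (hA M g ((n : ℤ) + j) U f hf.1).trans ?_
      have key : ∀ w ∈ wv d M U, ((1 / 2 : ℝ) ^ (g * U.card) *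
          (2 : ℝ) ^ (-((∑ s, |(w s : ℝ)|) / 2))) * NN ((n : ℤ) + j - g * U.card + ∑ s, w s) f ≤
          (2 : ℝ) ^ (-((∑ s, |(w s : ℝ)|) / 4)) * (2 * (2 : ℝ) ^ (-(3 * (j : ℝ) / (4 * d))) * S) := by
        intro w _
        have hw1 : |((∑ s, w s : ℤ) : ℝ)| ≤ ∑ s, |(w s : ℝ)| := by
          push_cast
          exact Finset.abs_sum_le_sum_abs _ _
        have hx := Decay_exp (n := n) hd hc1 hcd hgj hgj' (∑ s, w s) hw1
        have ht := Decay_term hd f n ((n : ℤ) + j - g * U.card + ∑ s, w s)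
        rw [← hS] at ht
        have hN := NN_nonneg ((n : ℤ) + j - g * U.card + ∑ s, w s) f
        calc ((1 / 2 : ℝ) ^ (g * U.card) *
          (2 : ℝ) ^ (-((∑ s, |(w s : ℝ)|) / 2))) * NN ((n : ℤ) + j - g * U.card + ∑ s, w s) f
            ≤ (2 * (2 : ℝ) ^ (-(3 * (j : ℝ) / (4 * d))) * (2 : ℝ) ^ (-((∑ s, |(w s : ℝ)|) / 4)) *
              (2 : ℝ) ^ (-(|(((n : ℤ) + j - g * U.card + ∑ s, w s : ℤ) : ℝ) - n| / (4 * d)))) *
              NN ((n : ℤ) + j - g * U.card + ∑ s, w s) f := by gcongr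
          _ = (2 : ℝ) ^ (-((∑ s, |(w s : ℝ)|) / 4)) * (2 * (2 : ℝ) ^ (-(3 * (j : ℝ) / (4 * d)))) *
              ((2 : ℝ) ^ (-(|(((n : ℤ) + j - g * U.card + ∑ s, w s : ℤ) : ℝ) - n| / (4 * d))) *
              NN ((n : ℤ) + j - g * U.card + ∑ s, w s) f) := by ring
          _ ≤ (2 : ℝ) ^ (-((∑ s, |(w s : ℝ)|) / 4)) * (2 * (2 : ℝ) ^ (-(3 * (j : ℝ) / (4 * d)))) * S := by
              gcongr
          _ = _ := by ring
      calc CA * ∑ w ∈ wv d M U, ((1 / 2 : ℝ) ^ (g * U.card) *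
          (2 : ℝ) ^ (-((∑ s, |(w s : ℝ)|) / 2))) * NN ((n : ℤ) + j - g * U.card + ∑ s, w s) f
          ≤ CA * ∑ w ∈ wv d M U, (2 : ℝ) ^ (-((∑ s, |(w s : ℝ)|) / 4)) *
            (2 * (2 : ℝ) ^ (-(3 * (j : ℝ) / (4 * d))) * S) := by
            refine mul_le_mul_of_nonneg_left (Finset.sum_le_sum key) hCA.le
        _ = CA * ((∑ w ∈ wv d M U, (2 : ℝ) ^ (-((∑ s, |(w s : ℝ)|) / 4))) *
            (2 * (2 : ℝ) ^ (-(3 * (j : ℝ) / (4 * d))) * S)) := by rw [Finset.sum_mul]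
        _ ≤ CA * (13 ^ d * (2 * (2 : ℝ) ^ (-(3 * (j : ℝ) / (4 * d))) * S)) := by
            have hws : ∑ w ∈ wv d M U, (2 : ℝ) ^ (-((∑ s, |(w s : ℝ)|) / 4)) ≤ 13 ^ d := by
              unfold wv
              refine Pool.Agent.H778R2.LB.wsum _ fun s => ?_
              split_ifs
              · exact Pool.Agent.H778R2.LB.wsum_one' M
              · simp
            gcongr
        _ = _ := by ring
    calc NN ((n : ℤ) + j) f ≤ _ := step1
      _ ≤ ∑ U ∈ Us, 2 * CA * 13 ^ d * (2 : ℝ) ^ (-(3 * (j : ℝ) / (4 * d))) * S :=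
          Finset.sum_le_sum step2
      _ = Us.card * (2 * CA * 13 ^ d * (2 : ℝ) ^ (-(3 * (j : ℝ) / (4 * d))) * S) := by
          rw [Finset.sum_const, nsmul_eq_mul]
      _ ≤ 2 ^ d * (2 * CA * 13 ^ d * (2 : ℝ) ^ (-(3 * (j : ℝ) / (4 * d))) * S) := by
          have hcard : (Us.card : ℝ) ≤ 2 ^ d := by
            have : Us.card ≤ 2 ^ d := by
              rw [hUs]
              refine (Finset.card_erase_le).trans ?_
              rw [Finset.card_powerset, Finset.card_univ, Fintype.card_fin]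
            exact_mod_cast this
          gcongr
      _ = (2 * 2 ^ d * CA * 13 ^ d) * (2 : ℝ) ^ (-(3 * (j : ℝ) / (4 * d))) * S := by ring
      _ ≤ (2 + 2 * 2 ^ d * CA * 13 ^ d) * (2 : ℝ) ^ (-(3 * (j : ℝ) / (4 * d))) * S := by
          gcongr
          linarith

end Pool.Agent.H506R2.LB
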