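import Pool.Agent.Helper643.BernT

/-!
# Definitions: functions on the `d`-dimensional cyclic grid, Haar blocks, square functions
-/

set_option autoImplicit false

namespace Pool.Agent.H506R2.LB

open Finset Matrix BernT

/-- the grid -/
abbrev Gr (d M : ℕ) : Type := Fin d → Fin (2 ^ M)

/-- apply one matrix in every coordinate -/
noncomputable def ten {d M : ℕ} (T : Fin d → Matrix (Fin (2 ^ M)) (Fin (2 ^ M)) ℂ)
    (f : Gr d M → ℂ) : Gr d M → ℂ :=
  fun x => ∑ z : Gr d M, (∏ s, T s (x s) (z s)) * f z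

/-- apply a matrix in the coordinate `s` -/
noncomputable def cop {d M : ℕ} (s : Fin d) (T : Matrix (Fin (2 ^ M)) (Fin (2 ^ M)) ℂ)
    (f : Gr d M → ℂ) : Gr d M → ℂ :=
  fun x => ∑ z : Fin (2 ^ M), T (x s) z * f (Function.update x s z)

/-- unnormalised `L¹` norm -/
noncomputable def L1 {d M : ℕ} (f : Gr d M → ℂ) : ℝ := ∑ x, ‖f x‖

/-- Haar block of level `K` -/
noncomputable def DK {d M : ℕ} (K : Fin d → ℕ) (f : Gr d M → ℂ) : Gr d M → ℂ :=
  ten (fun s => Dm M (K s)) f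

/-- all levels -/
def Lv (d M : ℕ) : Finset (Fin d → ℕ) := Fintype.piFinset fun _ => range M

/-- total level -/
def tl {d : ℕ} (K : Fin d → ℕ) : ℤ := ∑ s, (K s : ℤ)

/-- `L¹` norm of the square function of the diagonal `m` -/
noncomputable def NN {d M : ℕ} (m : ℤ) (f : Gr d M → ℂ) : ℝ :=
  ∑ x, Real.sqrt (∑ K ∈ (Lv d M).filter (fun K => tl K = m), ‖DK K f x‖ ^ 2)

/-- sum of the Haar blocks of the diagonal `m` -/
noncomputable def Dg {d M : ℕ} (m : ℤ) (f : Gr d M → ℂ) : Gr d M → ℂ :=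
  ∑ K ∈ (Lv d M).filter (fun K => tl K = m), DK K f

/-- sum of the Haar blocks of the diagonals below `T` -/
noncomputable def PT {d M : ℕ} (T : ℤ) (f : Gr d M → ℂ) : Gr d M → ℂ :=
  ∑ K ∈ (Lv d M).filter (fun K => tl K < T), DK K f

/-- Haar function of level `K` -/
def HaarK {d M : ℕ} (K : Fin d → ℕ) (f : Gr d M → ℂ) : Prop :=
  ∀ s, cop s (Dm M (K s)) f = f

/-- low pass operator at an integral scale (zero for negative scales) -/
noncomputable def VZ (M : ℕ) (p : ℤ) : Matrix (Fin (2 ^ M)) (Fin (2 ^ M)) ℂ :=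
  if 0 ≤ p then Vm M p.toNat else 0

/-- consequences of having spectrum in the hyperbolic cross `∏ |k_s| ≤ 2^n`, all `k_s ≠ 0` -/
def Spec {d M : ℕ} (n : ℕ) (f : Gr d M → ℂ) : Prop :=
  (∀ s, cop s (Em M 0) f = 0) ∧
  ∀ p : Fin d → ℤ, (∀ s, p s + 2 ≤ M) → (n : ℤ) ≤ ∑ s, p s →
    ∑ U ∈ (univ : Finset (Fin d)).powerset,
      (-1 : ℂ) ^ U.card • ten (fun s => if s ∈ U then VZ M (p s) else 1) f = 0

/-- samples of a trigonometric polynomial on the grid -/
noncomputable def tp {d : ℕ} (M : ℕ) (S : Finset (Fin d → ℤ)) (c : (Fin d → ℤ) → ℂ) :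
    Gr d M → ℂ :=
  fun x => ∑ k ∈ S, c k * ∏ s, ex M (k s * ((x s : ℕ) : ℤ))

end Pool.Agent.H506R2.LB
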