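import Pool.Agent.H506R2.LB.BlockSum
import Pool.Agent.Helper643.Bern.T17b

/-! TASK C8b: the derivative of a trigonometric polynomial as a sum of blocks. -/

set_option autoImplicit false

namespace Pool.Agent.H506R2.LB

open Finset Matrix BernT

/-- the multiplier of the derivative -/
noncomputable def mul {d : ℕ} (r : ℝ) (u v : Fin d → ℂ) (k : Fin d → ℤ) : ℂ :=
  ∏ s, ((((|(k s : ℝ)|) ^ r : ℝ) : ℂ) * (if 0 < k s then u s else v s))

theorem derivT_abs {d n : ℕ} {k : Fin d → ℤ} (h0 : ∀ s, k s ≠ 0) (h1 : ∏ s, |k s| ≤ 2 ^ n)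
    (s : Fin d) : |k s| ≤ 2 ^ n := by
  refine le_trans (Int.le_of_dvd ?_ (Finset.dvd_prod_of_mem (fun s => |k s|) (Finset.mem_univ s)))
    h1
  exact Finset.prod_pos fun s _ => abs_pos.mpr (h0 s)

theorem derivT_act (M N n : ℕ) (hn : n ≤ N) (hM : N + 4 ≤ M) (r : ℝ) (u v : ℂ) (t : ℕ) (ht : t ≤ N)
    (k : ℤ) (hk : |k| ≤ 2 ^ n) (x : Fin (2 ^ M)) :
    ∑ z : Fin (2 ^ M), Mm r u v M t x z * ex M (k * ((z : ℕ) : ℤ)) =
      ms r u v t k * ex M (k * ((x : ℕ) : ℤ)) := by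
  unfold Mm
  apply ST17b.aux_act
  · have h1 : (2:ℤ)^(t+1) ≤ 2^(N+1) := pow_le_pow_right₀ (by norm_num) (by omega)
    have h2 : (2:ℤ)^(N+4) ≤ 2^M := pow_le_pow_right₀ (by norm_num) hM
    have h3 : (2:ℤ)^(N+1) = 2^N * 2 := by ring
    have h4 : (2:ℤ)^(N+4) = 2^N * 16 := by ring
    have h5 : (0:ℤ) < 2^N := by positivity
    have h6 : (2:ℤ)^n ≤ 2^N := pow_le_pow_right₀ (by norm_num) hn
    push_cast
    linarith
  · intro k hk
    unfold ms
    rw [ST17b.aux_bt_zero]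
    · simp
    · have : ((2:ℤ)^(t+1)) ≤ |k| := by
        have := hk.le
        push_cast at this
        exact this
      have h' : (((2:ℤ)^(t+1) : ℤ) : ℝ) ≤ ((|k| : ℤ) : ℝ) := by exact_mod_cast this
      push_cast at h'
      exact h'

theorem derivT_ten {d : ℕ} (M N n : ℕ) (hn : n ≤ N) (hM : N + 4 ≤ M) (r : ℝ) (u v : Fin d → ℂ)
    (t : Fin d → ℕ) (ht : ∀ s, t s ≤ N) (S : Finset (Fin d → ℤ)) (c : (Fin d → ℤ) → ℂ)
    (hS : ∀ k ∈ S, ∀ s, |k s| ≤ 2 ^ n) :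
    ten (fun s => Mm r (u s) (v s) M (t s)) (tp M S c) =
      tp M S (fun k => (∏ s, ms r (u s) (v s) (t s) (k s)) * c k) := by
  funext x
  unfold ten tp
  simp_rw [Finset.mul_sum]
  rw [Finset.sum_comm]
  refine Finset.sum_congr rfl fun k hk => ?_
  have e1 : ∀ z : Gr d M, (∏ s, Mm r (u s) (v s) M (t s) (x s) (z s)) *
      (c k * ∏ s, ex M (k s * (((z s : Fin (2 ^ M)) : ℕ) : ℤ))) =
      c k * ∏ s, (Mm r (u s) (v s) M (t s) (x s) (z s) *
        ex M (k s * (((z s : Fin (2 ^ M)) : ℕ) : ℤ))) := by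
    intro z
    rw [Finset.prod_mul_distrib]
    ring
  rw [Finset.sum_congr rfl fun z _ => e1 z, ← Finset.mul_sum]
  have e2 : ∑ z : Gr d M, ∏ s, (Mm r (u s) (v s) M (t s) (x s) (z s) *
      ex M (k s * (((z s : Fin (2 ^ M)) : ℕ) : ℤ))) =
      ∏ s, ∑ z : Fin (2 ^ M), (Mm r (u s) (v s) M (t s) (x s) z * ex M (k s * ((z : ℕ) : ℤ))) := by
    rw [Finset.prod_univ_sum, Fintype.piFinset_univ]
  rw [e2, Finset.prod_congr rfl fun s _ =>
    derivT_act M N n hn hM r (u s) (v s) (t s) (ht s) (k s) (hS k hk s) (x s),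
    Finset.prod_mul_distrib]
  ring

theorem derivT_key (r : ℝ) (u v : ℂ) (k : ℤ) (t : ℕ) : (((2:ℝ)^(r*t) : ℝ) : ℂ) * ms r u v t k =
    ((((|(k:ℝ)|)^r : ℝ) : ℂ) * (if 0 < k then u else v)) * (bt t k : ℂ) := by
  unfold ms
  have : (2:ℝ)^(r*t) * (|(k:ℝ)| / 2^t)^r = |(k:ℝ)|^r := by
    rw [Real.div_rpow (abs_nonneg _) (by positivity)]
    rw [← Real.rpow_natCast 2 t, ← Real.rpow_mul (by norm_num), mul_comm (t:ℝ) r]
    have : (0:ℝ) < 2^(r*t) := by positivity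
    field_simp
  rw [← this]
  push_cast
  ring

theorem derivT_bt_sum (n N : ℕ) (hN : n + 1 ≤ N) (k : ℤ) (h0 : k ≠ 0) (h1 : |k| ≤ 2 ^ n) :
    ∑ t ∈ range N, bt t k = 1 := by
  have h2 : |(k : ℝ)| ≤ 2 ^ n := by
    have h' : ((|k| : ℤ) : ℝ) ≤ (((2 : ℤ) ^ n : ℤ) : ℝ) := by exact_mod_cast h1
    push_cast at h'
    exact h'
  have hz : ∀ t, n + 1 ≤ t → bt t k = 0 := by
    intro t ht
    apply ST17b.aux_bt_zero'
    have : (2 : ℝ) ^ (n + 1) ≤ 2 ^ t := pow_le_pow_right₀ (by norm_num) ht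
    rw [pow_succ] at this
    linarith
  have h3 := ST17b.aux_bt_sum n k h0 h1
  rw [Finset.sum_range_succ, hz (n + 1) le_rfl, add_zero] at h3
  rw [← h3]
  symm
  apply Finset.sum_subset (Finset.range_mono hN)
  intro t _ ht
  apply hz
  rw [Finset.mem_range, not_lt] at ht
  exact ht

theorem derivT_prod_zero {d n : ℕ} (hd : 1 ≤ d) {k : Fin d → ℤ}
    (h1 : ∏ s, |k s| ≤ 2 ^ n) {t : Fin d → ℕ} (ht : n + d ≤ ∑ s, t s) :
    ∏ s, bt (t s) (k s) = 0 := by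
  by_contra hne
  have h2 : ∀ s, (2 : ℝ) ^ (t s) < |(k s : ℝ)| * 2 := by
    intro s
    by_contra hlt
    apply hne
    exact Finset.prod_eq_zero (Finset.mem_univ s) (ST17b.aux_bt_zero' _ _ (not_lt.mp hlt))
  have : Nonempty (Fin d) := ⟨⟨0, hd⟩⟩
  have h3 : ∏ s, (2 : ℝ) ^ (t s) < ∏ s, (|(k s : ℝ)| * 2) :=
    Finset.prod_lt_prod_of_nonempty (fun s _ => by positivity) (fun s _ => h2 s)
      Finset.univ_nonempty
  rw [Finset.prod_pow_eq_pow_sum, Finset.prod_mul_distrib, Finset.prod_const, Finset.card_univ,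
    Fintype.card_fin] at h3
  have h4 : ∏ s, |(k s : ℝ)| ≤ 2 ^ n := by
    have h' : ((∏ s, |k s| : ℤ) : ℝ) ≤ (((2 : ℤ) ^ n : ℤ) : ℝ) := by exact_mod_cast h1
    push_cast at h'
    exact h'
  have h5 : (2 : ℝ) ^ (n + d) ≤ 2 ^ (∑ s, t s) := pow_le_pow_right₀ (by norm_num) ht
  rw [pow_add] at h5
  have h6 : (0 : ℝ) < 2 ^ d := by positivity
  nlinarith

theorem derivT_tv {d : ℕ} (n : ℕ) (g : (Fin d → ℕ) → ℝ) (hg : ∀ t, n ≤ ∑ s, t s → g t = 0) :
    ∑ m ∈ range n, ∑ t ∈ tv d m, g t =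
      ∑ t ∈ Fintype.piFinset (fun _ : Fin d => range n), g t := by
  classical
  have e1 : ∀ m ∈ range n, ∑ t ∈ tv d m, g t =
      ∑ t ∈ Fintype.piFinset (fun _ : Fin d => range n), if ∑ s, t s = m then g t else 0 := by
    intro m hm
    rw [Finset.mem_range] at hm
    rw [← Finset.sum_filter]
    apply Finset.sum_congr _ fun _ _ => rfl
    unfold tv
    ext t
    simp only [Finset.mem_filter, Fintype.mem_piFinset, Finset.mem_range]
    constructor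
    · rintro ⟨h1, h2⟩
      exact ⟨fun s => by have := h1 s; omega, h2⟩
    · rintro ⟨h1, h2⟩
      refine ⟨fun s => ?_, h2⟩
      have := Finset.single_le_sum (f := t) (fun i _ => Nat.zero_le _) (Finset.mem_univ s)
      omega
  rw [Finset.sum_congr rfl e1, Finset.sum_comm]
  refine Finset.sum_congr rfl fun t _ => ?_
  rw [Finset.sum_ite_eq]
  split_ifs with h
  · rfl
  · rw [Finset.mem_range, not_lt] at h
    exact (hg t h).symm

theorem derivT_scalar {d n : ℕ} (hd : 1 ≤ d) (r : ℝ) (u v : Fin d → ℂ) {k : Fin d → ℤ}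
    (h0 : ∀ s, k s ≠ 0) (h1 : ∏ s, |k s| ≤ 2 ^ n) :
    ∑ m ∈ range (n + d), (((2 : ℝ) ^ (r * m) : ℝ) : ℂ) *
      ∑ t ∈ tv d m, ∏ s, ms r (u s) (v s) (t s) (k s) = mul r u v k := by
  have e1 : ∀ m ∈ range (n + d), (((2 : ℝ) ^ (r * m) : ℝ) : ℂ) *
      ∑ t ∈ tv d m, ∏ s, ms r (u s) (v s) (t s) (k s) =
      mul r u v k * ((∑ t ∈ tv d m, ∏ s, bt (t s) (k s) : ℝ) : ℂ) := by
    intro m _
    rw [Complex.ofReal_sum, Finset.mul_sum, Finset.mul_sum]
    refine Finset.sum_congr rfl fun t ht => ?_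
    have hs : ∑ s, t s = m := (Finset.mem_filter.mp ht).2
    have h2 : (2 : ℝ) ^ (r * (m : ℝ)) = ∏ s, (2 : ℝ) ^ (r * (t s : ℝ)) := by
      rw [← Real.rpow_sum_of_pos (by norm_num), ← hs]
      congr 1
      push_cast
      rw [Finset.mul_sum]
    rw [h2, Complex.ofReal_prod, ← Finset.prod_mul_distrib, Complex.ofReal_prod]
    unfold mul
    rw [← Finset.prod_mul_distrib]
    exact Finset.prod_congr rfl fun s _ => derivT_key r (u s) (v s) (k s) (t s)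
  rw [Finset.sum_congr rfl e1, ← Finset.mul_sum, ← Complex.ofReal_sum,
    derivT_tv (n + d) (fun t => ∏ s, bt (t s) (k s)) (fun t ht => derivT_prod_zero hd h1 ht),
    ← Finset.prod_univ_sum (fun _ => range (n + d)) (fun s j => bt j (k s)),
    Finset.prod_congr rfl fun s _ =>
      derivT_bt_sum n (n + d) (by omega) (k s) (h0 s) (derivT_abs h0 h1 s)]
  simp

/-- TASK C8b -/
theorem derivTrig {d : ℕ} (hd : 1 ≤ d) (M n : ℕ) (hM : n + d + 3 ≤ M) (r : ℝ) (hr : 0 < r)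
    (u v : Fin d → ℂ) (S : Finset (Fin d → ℤ)) (c : (Fin d → ℤ) → ℂ)
    (hS : ∀ k ∈ S, (∀ s, k s ≠ 0) ∧ ∏ s, |k s| ≤ 2 ^ n) :
    ∑ m ∈ range (n + d), (((2 : ℝ) ^ (r * m) : ℝ) : ℂ) •
      (∑ t ∈ tv d m, ten (fun s => Mm r (u s) (v s) M (t s)) (tp M S c)) =
    tp M S (fun k => mul r u v k * c k) := by
  have e1 : ∀ m ∈ range (n + d), ∀ t ∈ tv d m,
      ten (fun s => Mm r (u s) (v s) M (t s)) (tp M S c) =
        tp M S (fun k => (∏ s, ms r (u s) (v s) (t s) (k s)) * c k) := by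
    intro m hm t ht
    rw [Finset.mem_range] at hm
    refine derivT_ten M (n + d - 1) n (by omega) (by omega) r u v t ?_ S c
      (fun k hk s => derivT_abs (hS k hk).1 (hS k hk).2 s)
    intro s
    have h1 : t s < m + 1 := Finset.mem_range.mp (Fintype.mem_piFinset.mp (Finset.mem_filter.mp ht).1 s)
    omega
  funext x
  rw [Finset.sum_apply]
  have e2 : ∀ m ∈ range (n + d), ((((2 : ℝ) ^ (r * m) : ℝ) : ℂ) •
      (∑ t ∈ tv d m, ten (fun s => Mm r (u s) (v s) M (t s)) (tp M S c))) x =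
      ∑ k ∈ S, ((((2 : ℝ) ^ (r * m) : ℝ) : ℂ) *
        ∑ t ∈ tv d m, ∏ s, ms r (u s) (v s) (t s) (k s)) *
        (c k * ∏ s, ex M (k s * ((x s : ℕ) : ℤ))) := by
    intro m hm
    rw [Finset.sum_congr rfl (e1 m hm), Pi.smul_apply, Finset.sum_apply, smul_eq_mul]
    unfold tp
    rw [Finset.sum_comm, Finset.mul_sum]
    refine Finset.sum_congr rfl fun k _ => ?_
    rw [mul_assoc, Finset.sum_mul]
    congr 1
    exact Finset.sum_congr rfl fun t _ => by ring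
  rw [Finset.sum_congr rfl e2, Finset.sum_comm]
  unfold tp
  refine Finset.sum_congr rfl fun k hk => ?_
  rw [← Finset.sum_mul, derivT_scalar hd r u v (hS k hk).1 (hS k hk).2]
  ring

end Pool.Agent.H506R2.LB
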