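import Pool.Agent.H506R2.LB.TorDefs
import Pool.Agent.H506R2.LB.Defs

/-! TASK C10: Riemann sums. -/

set_option autoImplicit false

namespace Pool.Agent.H506R2.LB

open Finset MeasureTheory Filter
open scoped Pointwise

/-- the unit cube -/
def Riem_unit (d : ℕ) : Set (Fin d → ℝ) := Set.pi Set.univ fun _ => Set.Ico 0 1

theorem Riem_lattice (d N : ℕ) (hN : 0 < N) (G : (Fin d → ℝ) → ℝ) :
    ∑' x : ↑(Riem_unit d ∩ (N : ℝ)⁻¹ • (Submodule.span ℤ (Set.range (Pi.basisFun ℝ (Fin d))) :
      Set (Fin d → ℝ))), G x = ∑ z : Fin d → Fin N, G (fun s => ((z s : ℕ) : ℝ) / N) := by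
  have hN' : (0 : ℝ) < N := by exact_mod_cast hN
  have : NeZero N := ⟨hN.ne'⟩
  have hmem : ∀ z : Fin d → Fin N, (fun s => ((z s : ℕ) : ℝ) / N) ∈
      (Riem_unit d ∩ (N : ℝ)⁻¹ • (Submodule.span ℤ (Set.range (Pi.basisFun ℝ (Fin d))) :
        Set (Fin d → ℝ))) := by
    intro z
    refine ⟨fun s _ => ⟨by positivity, ?_⟩, ?_⟩
    · rw [div_lt_one hN']
      exact_mod_cast (z s).2
    · refine (BoxIntegral.unitPartition.mem_smul_span_iff (n := N)).2 fun i => ?_
      refine ⟨((z i : ℕ) : ℤ), ?_⟩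
      simp only [algebraMap_int_eq, eq_intCast, Int.cast_natCast]
      field_simp
  have hbij : Function.Bijective (fun z : Fin d → Fin N =>
      (⟨fun s => ((z s : ℕ) : ℝ) / N, hmem z⟩ :
        ↑(Riem_unit d ∩ (N : ℝ)⁻¹ • (Submodule.span ℤ (Set.range (Pi.basisFun ℝ (Fin d))) :
          Set (Fin d → ℝ))))) := by
    constructor
    · intro z z' h
      have h1 := congrArg Subtype.val h
      funext s
      have h2 := congrFun h1 s
      simp only at h2
      have h3 : ((z s : ℕ) : ℝ) = ((z' s : ℕ) : ℝ) := by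
        field_simp at h2
        exact h2
      exact Fin.ext (by exact_mod_cast h3)
    · rintro ⟨x, hx1, hx2⟩
      have hx3 := (BoxIntegral.unitPartition.mem_smul_span_iff (n := N)).1 hx2
      choose m hm using hx3
      simp only [algebraMap_int_eq, eq_intCast] at hm
      have h1 : ∀ s, 0 ≤ m s ∧ m s < N := by
        intro s
        have h2 := hx1 s (Set.mem_univ s)
        have h3 : (0 : ℝ) ≤ m s := by rw [hm s]; exact mul_nonneg hN'.le h2.1
        have h4 : ((m s : ℤ) : ℝ) < N := by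
          rw [hm s]
          have := mul_lt_mul_of_pos_left h2.2 hN'
          rwa [mul_one] at this
        exact ⟨by exact_mod_cast h3, by exact_mod_cast h4⟩
      refine ⟨fun s => ⟨(m s).toNat, by have := h1 s; omega⟩, ?_⟩
      apply Subtype.ext
      funext s
      simp only
      have h2 : (((m s).toNat : ℕ) : ℝ) = (m s : ℝ) := by
        have : (((m s).toNat : ℕ) : ℤ) = m s := Int.toNat_of_nonneg (h1 s).1
        exact_mod_cast congrArg (fun t : ℤ => (t : ℝ)) this
      rw [h2, hm s]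
      field_simp
  rw [← (Equiv.ofBijective _ hbij).tsum_eq, tsum_fintype]
  rfl

theorem Riem_unit_tendsto (d : ℕ) (G : (Fin d → ℝ) → ℝ) (hG : Continuous G) :
    Tendsto (fun N : ℕ => (∑ z : Fin d → Fin N, G (fun s => ((z s : ℕ) : ℝ) / N)) / (N : ℝ) ^ d)
      atTop (nhds (∫ x in Riem_unit d, G x)) := by
  have hb : Bornology.IsBounded (Riem_unit d) :=
    Bornology.IsBounded.pi fun _ => Metric.isBounded_Ico 0 1
  have hm : MeasurableSet (Riem_unit d) := MeasurableSet.univ_pi fun _ => measurableSet_Ico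
  have hc : Convex ℝ (Riem_unit d) := convex_pi fun _ _ => convex_Ico 0 1
  have h := tendsto_tsum_div_pow_atTop_integral (Riem_unit d) G hG hb hm
    (hc.addHaar_frontier volume)
  rw [Fintype.card_fin] at h
  refine h.congr' ?_
  filter_upwards [eventually_gt_atTop 0] with N hN
  rw [Riem_lattice d N hN G]

/-- TASK C10 -/
theorem riemann {d : ℕ} (S : Finset (Fin d → ℤ)) (c : (Fin d → ℤ) → ℂ) :
    Tendsto (fun M : ℕ => L1 (tp M S c) / (2 : ℝ) ^ (M * d)) atTop (nhds (nrm (PP S c))) := by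
  have hpi : (0 : ℝ) < 2 * Real.pi := by positivity
  have hcont : Continuous (PP S c) := by
    unfold PP
    fun_prop
  obtain ⟨G, hG⟩ : ∃ G : (Fin d → ℝ) → ℝ, G = fun x => ‖PP S c ((2 * Real.pi) • x)‖ := ⟨_, rfl⟩
  have hGc : Continuous G := by
    rw [hG]
    exact (hcont.comp (continuous_const_smul _)).norm
  have h1 := (Riem_unit_tendsto d G hGc).comp
    (tendsto_pow_atTop_atTop_of_one_lt (one_lt_two : (1 : ℕ) < 2))
  have h2 : ∫ x in Riem_unit d, G x = nrm (PP S c) := by
    have h3 := MeasureTheory.Measure.setIntegral_comp_smul_of_pos (volume : Measure (Fin d → ℝ))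
      (fun x => ‖PP S c x‖) (Riem_unit d) hpi
    have h4 : (2 * Real.pi) • Riem_unit d =
        Set.pi Set.univ fun _ : Fin d => Set.Ico (0 : ℝ) (2 * Real.pi) := by
      ext x
      rw [Set.mem_smul_set_iff_inv_smul_mem₀ hpi.ne']
      unfold Riem_unit
      simp only [Set.mem_pi, Set.mem_univ, true_implies, Pi.smul_apply, smul_eq_mul, Set.mem_Ico]
      refine forall_congr' fun s => ?_
      rw [inv_mul_lt_iff₀ hpi, mul_one]
      constructor
      · rintro ⟨h5, h6⟩
        refine ⟨?_, h6⟩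
        have := mul_nonneg hpi.le h5
        rwa [mul_inv_cancel_left₀ hpi.ne'] at this
      · rintro ⟨h5, h6⟩
        exact ⟨by positivity, h6⟩
    rw [h4] at h3
    have h5 : ∫ x in Set.pi Set.univ fun _ : Fin d => Set.Ico (0 : ℝ) (2 * Real.pi), ‖PP S c x‖ =
        ∫ x in box d, ‖PP S c x‖ := by
      refine setIntegral_congr_set ?_
      exact Measure.univ_pi_Ico_ae_eq_Icc
    rw [h5, Module.finrank_fin_fun, smul_eq_mul] at h3
    rw [hG]
    simp only
    rw [h3]
    unfold nrm
    rw [div_eq_inv_mul]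
  rw [h2] at h1
  refine h1.congr fun M => ?_
  simp only [Function.comp_apply]
  have e1 : ((2 ^ M : ℕ) : ℝ) ^ d = (2 : ℝ) ^ (M * d) := by
    push_cast
    rw [pow_mul]
  rw [e1]
  congr 1
  unfold L1
  refine Finset.sum_congr rfl fun z _ => ?_
  rw [hG]
  simp only
  congr 1
  unfold PP tp
  refine Finset.sum_congr rfl fun k _ => ?_
  congr 1
  rw [Finset.mul_sum, Complex.exp_sum]
  refine Finset.prod_congr rfl fun s _ => ?_
  unfold BernT.ex
  congr 1
  simp only [Pi.smul_apply, smul_eq_mul]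
  push_cast
  ring

end Pool.Agent.H506R2.LB
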