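import Pool.Agent.H506R2.LB.TorDefs
import Pool.Agent.H506R2.LB.Riem

/-! TASK C12: restriction to the faces; elementary properties of `nrm`. -/

set_option autoImplicit false

namespace Pool.Agent.H506R2.LB

open Finset MeasureTheory

theorem face_cont {d : ℕ} (S : Finset (Fin d → ℤ)) (c : (Fin d → ℤ) → ℂ) :
    Continuous (PP S c) := by
  unfold PP
  refine continuous_finsetSum _ fun k _ => continuous_const.mul (Complex.continuous_exp.comp
    (continuous_const.mul (continuous_finsetSum _ fun s _ => continuous_const.mul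
      (Complex.continuous_ofReal.comp (continuous_apply s)))))

theorem face_int {d : ℕ} {F : (Fin d → ℝ) → ℂ} (hF : Continuous F) :
    IntegrableOn (fun x => ‖F x‖) (box d) :=
  hF.norm.continuousOn.integrableOn_compact isCompact_Icc

/-- TASK C12 (a) -/
theorem nrm_add {d : ℕ} (S S' : Finset (Fin d → ℤ)) (c c' : (Fin d → ℤ) → ℂ) :
    nrm (fun x => PP S c x + PP S' c' x) ≤ nrm (PP S c) + nrm (PP S' c') := by
  unfold nrm
  rw [← add_div]
  apply div_le_div_of_nonneg_right _ (by positivity)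
  rw [← integral_add (face_int (face_cont S c)) (face_int (face_cont S' c'))]
  exact integral_mono (face_int ((face_cont S c).add (face_cont S' c')))
    ((face_int (face_cont S c)).add (face_int (face_cont S' c'))) fun x => norm_add_le _ _

theorem face_nonneg {d : ℕ} (F : (Fin d → ℝ) → ℂ) : 0 ≤ nrm F := by
  unfold nrm
  exact div_nonneg (integral_nonneg fun x => norm_nonneg _) (by positivity)

theorem face_congr {d : ℕ} {F G : (Fin d → ℝ) → ℂ} (h : ∀ x, ‖F x‖ = ‖G x‖) : nrm F = nrm G := by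
  unfold nrm
  rw [show (fun x => ‖F x‖) = fun x => ‖G x‖ from funext h]

theorem face_ex_mul (M : ℕ) (a : ℤ) (n : ℕ) :
    BernT.ex M (a * ((n : ℕ) : ℤ)) = BernT.ex M a ^ n := by
  unfold BernT.ex; rw [← Complex.exp_nat_mul]; congr 1; push_cast; ring

theorem face_ex_one (M : ℕ) (a : ℤ) (h : BernT.ex M a = 1) : (2 ^ M : ℤ) ∣ a := by
  unfold BernT.ex at h
  rw [Complex.exp_eq_one_iff] at h
  have hpi : (2 * Real.pi * Complex.I : ℂ) ≠ 0 := Complex.two_pi_I_ne_zero
  have h2 : (2 : ℂ) ^ M ≠ 0 := pow_ne_zero _ two_ne_zero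
  obtain ⟨n, hn⟩ := h
  refine ⟨n, ?_⟩
  have h1 : (a : ℂ) = 2 ^ M * n := by
    rw [div_eq_iff h2] at hn
    have : (2 * Real.pi * Complex.I : ℂ) * a = (2 * Real.pi * Complex.I : ℂ) * (2 ^ M * n) := by
      rw [hn]; ring
    exact mul_left_cancel₀ hpi this
  exact_mod_cast h1

theorem face_sum_ex (M : ℕ) (j : ℤ) (h0 : j ≠ 0) (h1 : |j| < 2 ^ M) :
    ∑ z : Fin (2 ^ M), BernT.ex M (j * ((z : ℕ) : ℤ)) = 0 := by
  have hne : BernT.ex M j ≠ 1 := fun h => by
    have := Int.eq_zero_of_abs_lt_dvd (face_ex_one M j h) h1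
    exact h0 this
  simp only [face_ex_mul]
  rw [Fin.sum_univ_eq_sum_range (fun z => BernT.ex M j ^ z) (2 ^ M), geom_sum_eq hne]
  have h3 : BernT.ex M j ^ (2 ^ M) = 1 := by
    rw [← face_ex_mul]
    unfold BernT.ex
    rw [Complex.exp_eq_one_iff]
    refine ⟨j, ?_⟩
    have h2 : (2 : ℂ) ^ M ≠ 0 := pow_ne_zero _ two_ne_zero
    rw [div_eq_iff h2]
    push_cast
    ring
  rw [h3, sub_self, zero_div]

theorem face_avg {d M : ℕ} (s : Fin d) (S : Finset (Fin d → ℤ)) (c : (Fin d → ℤ) → ℂ)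
    (hM : ∀ k ∈ S, |k s| < 2 ^ M) (x : Gr d M) :
    ∑ z : Fin (2 ^ M), tp M S c (Function.update x s z) =
      2 ^ M * tp M (S.filter (fun k => k s = 0)) c x := by
  unfold tp
  rw [Finset.sum_comm, Finset.mul_sum, Finset.sum_filter]
  refine Finset.sum_congr rfl fun k hk => ?_
  have hupd : ∀ z : Fin (2 ^ M),
      ∏ s', BernT.ex M (k s' * (((Function.update x s z) s' : ℕ) : ℤ)) =
      BernT.ex M (k s * ((z : ℕ) : ℤ)) *
        ∏ s' ∈ univ.erase s, BernT.ex M (k s' * ((x s' : ℕ) : ℤ)) := by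
    intro z
    rw [← Finset.mul_prod_erase univ _ (mem_univ s), Function.update_self]
    congr 1
    refine Finset.prod_congr rfl fun s' hs' => ?_
    rw [Function.update_of_ne (Finset.ne_of_mem_erase hs')]
  by_cases h0 : k s = 0
  · rw [if_pos h0]
    have hx : ∏ s', BernT.ex M (k s' * ((x s' : ℕ) : ℤ)) =
        ∏ s' ∈ univ.erase s, BernT.ex M (k s' * ((x s' : ℕ) : ℤ)) := by
      rw [← Finset.mul_prod_erase univ _ (mem_univ s), h0, zero_mul]
      have : BernT.ex M 0 = 1 := by simp [BernT.ex]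
      rw [this, one_mul]
    rw [hx]
    have h1 : BernT.ex M 0 = 1 := by simp [BernT.ex]
    simp only [hupd, h0, zero_mul, h1, one_mul]
    rw [Finset.sum_const, Finset.card_univ, Fintype.card_fin, nsmul_eq_mul]
    push_cast
    ring
  · rw [if_neg h0]
    simp only [hupd]
    rw [← Finset.mul_sum, ← Finset.sum_mul, face_sum_ex M (k s) h0 (hM k hk), zero_mul, mul_zero]

/-- the pair of a point and a value for the coordinate `s` -/
def faceEquiv {d M : ℕ} (s : Fin d) : (Gr d M × Fin (2 ^ M)) ≃ (Gr d M × Fin (2 ^ M)) where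
  toFun p := (Function.update p.1 s p.2, p.1 s)
  invFun p := (Function.update p.1 s p.2, p.1 s)
  left_inv p := by
    obtain ⟨x, z⟩ := p
    simp
  right_inv p := by
    obtain ⟨x, z⟩ := p
    simp

theorem face_double {d M : ℕ} (s : Fin d) (g : Gr d M → ℝ) :
    ∑ x : Gr d M, ∑ z : Fin (2 ^ M), g (Function.update x s z) = 2 ^ M * ∑ x, g x := by
  rw [← Fintype.sum_prod_type' (fun (x : Gr d M) (z : Fin (2 ^ M)) => g (Function.update x s z))]
  have h := Equiv.sum_comp (faceEquiv (M := M) s) (fun p : Gr d M × Fin (2 ^ M) => g p.1)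
  have h2 : ∑ p : Gr d M × Fin (2 ^ M), g p.1 = 2 ^ M * ∑ x, g x := by
    rw [Fintype.sum_prod_type' (fun (x : Gr d M) (_ : Fin (2 ^ M)) => g x), Finset.mul_sum]
    refine Finset.sum_congr rfl fun x _ => ?_
    rw [Finset.sum_const, Finset.card_univ, Fintype.card_fin, nsmul_eq_mul]
    push_cast
    rfl
  rw [← h2, ← h]
  rfl

theorem face_L1 {d M : ℕ} (s : Fin d) (S : Finset (Fin d → ℤ)) (c : (Fin d → ℤ) → ℂ)
    (hM : ∀ k ∈ S, |k s| < 2 ^ M) :
    L1 (tp M (S.filter (fun k => k s = 0)) c) ≤ L1 (tp M S c) := by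
  have h0 : (0 : ℝ) < 2 ^ M := by positivity
  refine le_of_mul_le_mul_left ?_ h0
  unfold L1
  rw [← face_double s (fun x => ‖tp M S c x‖), Finset.mul_sum]
  refine Finset.sum_le_sum fun x _ => ?_
  have h1 := congrArg norm (face_avg s S c hM x)
  rw [norm_mul, norm_pow, Complex.norm_ofNat] at h1
  rw [← h1]
  exact norm_sum_le _ _

theorem face_large {d : ℕ} (s : Fin d) (S : Finset (Fin d → ℤ)) :
    ∀ᶠ M : ℕ in Filter.atTop, ∀ k ∈ S, |k s| < 2 ^ M := by
  filter_upwards [Filter.eventually_ge_atTop (∑ k ∈ S, (k s).natAbs)] with M hM k hk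
  have h1 : (k s).natAbs ≤ ∑ k ∈ S, (k s).natAbs :=
    Finset.single_le_sum (f := fun k : Fin d → ℤ => (k s).natAbs) (fun _ _ => Nat.zero_le _) hk
  have h2 : (k s).natAbs < 2 ^ M := lt_of_le_of_lt (h1.trans hM) Nat.lt_two_pow_self
  rw [Int.abs_eq_natAbs]
  exact_mod_cast h2

theorem face_zero {d : ℕ} (s : Fin d) (S : Finset (Fin d → ℤ)) (c : (Fin d → ℤ) → ℂ) :
    nrm (PP (S.filter (fun k => k s = 0)) c) ≤ nrm (PP S c) := by
  refine le_of_tendsto_of_tendsto (riemann (S.filter (fun k => k s = 0)) c) (riemann S c) ?_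
  filter_upwards [face_large s S] with M hM
  exact div_le_div_of_nonneg_right (face_L1 s S c hM) (by positivity)

theorem face_neg {d : ℕ} (S : Finset (Fin d → ℤ)) (c : (Fin d → ℤ) → ℂ) :
    nrm (PP S (fun k => -c k)) = nrm (PP S c) := by
  refine face_congr fun x => ?_
  have : PP S (fun k => -c k) x = -PP S c x := by
    unfold PP
    rw [← Finset.sum_neg_distrib]
    exact Finset.sum_congr rfl fun k _ => by ring
  rw [this, norm_neg]

theorem face_ne {d : ℕ} (s : Fin d) (S : Finset (Fin d → ℤ)) (c : (Fin d → ℤ) → ℂ) :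
    nrm (PP (S.filter (fun k => k s ≠ 0)) c) ≤ 2 * nrm (PP S c) := by
  have h1 : PP (S.filter (fun k => k s ≠ 0)) c =
      fun x => PP S c x + PP (S.filter (fun k => k s = 0)) (fun k => -c k) x := by
    funext x
    unfold PP
    rw [← Finset.sum_filter_add_sum_filter_not S (fun k => k s = 0) (fun k => c k *
      Complex.exp (Complex.I * (∑ s, (k s : ℂ) * (x s : ℂ))))]
    simp only [neg_mul, Finset.sum_neg_distrib]
    ring
  rw [h1]
  refine (nrm_add S _ c _).trans ?_
  rw [face_neg]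
  have := face_zero s S c
  linarith

theorem face_ind {d : ℕ} (S : Finset (Fin d → ℤ)) (c : (Fin d → ℤ) → ℂ) (U : Finset (Fin d))
    (W : Finset (Fin d)) :
    nrm (PP (S.filter (fun k => ∀ s ∈ W, (s ∈ U ↔ k s ≠ 0))) c) ≤ 2 ^ W.card * nrm (PP S c) := by
  induction W using Finset.induction_on with
  | empty =>
    simp
  | insert s W hs ih =>
    rw [Finset.card_insert_of_notMem hs, pow_succ']
    have h0 := face_nonneg (PP (S.filter (fun k => ∀ s ∈ W, (s ∈ U ↔ k s ≠ 0))) c)
    by_cases hU : s ∈ U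
    · have e : S.filter (fun k => ∀ s' ∈ insert s W, (s' ∈ U ↔ k s' ≠ 0)) =
          (S.filter (fun k => ∀ s ∈ W, (s ∈ U ↔ k s ≠ 0))).filter (fun k => k s ≠ 0) := by
        rw [Finset.filter_filter]
        refine Finset.filter_congr fun k _ => ?_
        rw [Finset.forall_mem_insert]
        constructor
        · rintro ⟨h1, h2⟩
          exact ⟨h2, h1.1 hU⟩
        · rintro ⟨h1, h2⟩
          exact ⟨iff_of_true hU h2, h1⟩
      rw [e]
      refine (face_ne s _ c).trans ?_
      rw [mul_assoc]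
      exact mul_le_mul_of_nonneg_left ih (by norm_num)
    · have e : S.filter (fun k => ∀ s' ∈ insert s W, (s' ∈ U ↔ k s' ≠ 0)) =
          (S.filter (fun k => ∀ s ∈ W, (s ∈ U ↔ k s ≠ 0))).filter (fun k => k s = 0) := by
        rw [Finset.filter_filter]
        refine Finset.filter_congr fun k _ => ?_
        rw [Finset.forall_mem_insert]
        constructor
        · rintro ⟨h1, h2⟩
          exact ⟨h2, by_contra fun h3 => hU (h1.2 h3)⟩
        · rintro ⟨h1, h2⟩
          exact ⟨iff_of_false hU (fun h3 => h3 h2), h1⟩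
      rw [e]
      refine (face_zero s _ c).trans ?_
      linarith

/-- TASK C12 (b): the part with a prescribed set of nonzero frequencies -/
theorem nrm_face {d : ℕ} (S : Finset (Fin d → ℤ)) (c : (Fin d → ℤ) → ℂ) (U : Finset (Fin d)) :
    nrm (PP (S.filter (fun k => ∀ s, s ∈ U ↔ k s ≠ 0)) c) ≤ 2 ^ d * nrm (PP S c) := by
  have h := face_ind S c U univ
  rw [Finset.card_univ, Fintype.card_fin] at h
  have e : S.filter (fun k => ∀ s, s ∈ U ↔ k s ≠ 0) =
      S.filter (fun k => ∀ s ∈ (univ : Finset (Fin d)), (s ∈ U ↔ k s ≠ 0)) :=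
    Finset.filter_congr fun k _ => by simp
  rw [e]
  exact h

/-- TASK C12 (c): the frequencies are shifted -/
theorem nrm_shift {d : ℕ} (S : Finset (Fin d → ℤ)) (c : (Fin d → ℤ) → ℂ) (a : Fin d → ℤ) :
    nrm (PP (S.map ⟨fun k => k + a, add_left_injective a⟩) (fun k => c (k - a))) =
      nrm (PP S c) := by
  refine face_congr fun x => ?_
  have e : PP (S.map ⟨fun k => k + a, add_left_injective a⟩) (fun k => c (k - a)) x =
      Complex.exp (((∑ s, (a s : ℝ) * x s : ℝ) : ℂ) * Complex.I) * PP S c x := by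
    unfold PP
    rw [Finset.sum_map, Finset.mul_sum]
    refine Finset.sum_congr rfl fun k _ => ?_
    simp only [Function.Embedding.coeFn_mk, add_sub_cancel_right, Pi.add_apply]
    rw [mul_left_comm, ← Complex.exp_add]
    congr 2
    push_cast
    rw [Finset.sum_mul, Finset.mul_sum, Finset.mul_sum, ← Finset.sum_add_distrib]
    exact Finset.sum_congr rfl fun s _ => by ring
  rw [e, norm_mul, Complex.norm_exp_ofReal_mul_I, one_mul]

/-- TASK C12 (d): a single exponential -/
theorem nrm_single {d : ℕ} (k : Fin d → ℤ) (a : ℂ) :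
    nrm (PP {k} (fun _ => a)) = ‖a‖ := by
  have e : ∀ x : Fin d → ℝ, ‖PP {k} (fun _ => a) x‖ = ‖a‖ := by
    intro x
    unfold PP
    rw [Finset.sum_singleton, norm_mul]
    have : Complex.I * (∑ s, (k s : ℂ) * (x s : ℂ)) =
        ((∑ s, (k s : ℝ) * x s : ℝ) : ℂ) * Complex.I := by
      push_cast; ring
    rw [this, Complex.norm_exp_ofReal_mul_I, mul_one]
  unfold nrm
  simp only [e]
  rw [setIntegral_const, smul_eq_mul]
  have hv : (volume : Measure (Fin d → ℝ)).real (box d) = (2 * Real.pi) ^ d := by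
    unfold box Measure.real
    rw [Real.volume_Icc_pi_toReal (fun _ => by positivity)]
    simp
  rw [hv]
  have : (2 * Real.pi) ^ d ≠ 0 := by positivity
  field_simp

/-- TASK C12 (e): a nonzero polynomial has positive norm -/
theorem nrm_pos {d : ℕ} (S : Finset (Fin d → ℤ)) (c : (Fin d → ℤ) → ℂ)
    (h : ∃ k ∈ S, c k ≠ 0) : 0 < nrm (PP S c) := by
  obtain ⟨k₀, hk₀, hc⟩ := h
  have h1 := nrm_face (S.map ⟨fun k => k + -k₀, add_left_injective (-k₀)⟩)
    (fun k => c (k - -k₀)) ∅
  rw [nrm_shift] at h1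
  have e : (S.map ⟨fun k => k + -k₀, add_left_injective (-k₀)⟩).filter
      (fun k => ∀ s, s ∈ (∅ : Finset (Fin d)) ↔ k s ≠ 0) = {0} := by
    ext k
    rw [Finset.mem_filter, Finset.mem_map, Finset.mem_singleton]
    constructor
    · rintro ⟨-, h2⟩
      funext s
      by_contra h3
      exact absurd ((h2 s).2 h3) (Finset.notMem_empty s)
    · rintro rfl
      refine ⟨⟨k₀, hk₀, ?_⟩, fun s => ?_⟩
      · simp
      · simp
  rw [e] at h1
  have e2 : PP {0} (fun k => c (k - -k₀)) = PP {(0 : Fin d → ℤ)} (fun _ => c k₀) := by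
    funext x
    unfold PP
    rw [Finset.sum_singleton, Finset.sum_singleton]
    simp
  rw [e2, nrm_single] at h1
  have h2 : 0 < ‖c k₀‖ := norm_pos_iff.2 hc
  have h3 : (0 : ℝ) < 2 ^ d := by positivity
  by_contra h4
  push Not at h4
  have := mul_nonpos_of_nonneg_of_nonpos h3.le h4
  linarith

end Pool.Agent.H506R2.LB
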