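import Pool.Agent.H506R2.LB.IterSum
import Pool.Agent.Helper643.Bern.T1
import Pool.Agent.Helper643.Bern.T15c

/-! TASK C4: the martingale inequality. -/

set_option autoImplicit false

namespace Pool.Agent.H506R2.LB

open Finset Matrix BernT

/-- TASK C4 (a): one variable -/
theorem mart1 (M : ℕ) (F : ℕ → Fin (2 ^ M) → ℂ) (hF : ∀ a, Haar M a (F a)) :
    ∑ x, ‖∑ a ∈ range M, F a x‖ ≤ 4 * ∑ x, Real.sqrt (∑ a ∈ range M, ‖F a x‖ ^ 2) := by
  have main := ST1.glc M (fun G => ∑ x, ‖∑ a ∈ range M, G a x‖) (by simp)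
    (by
      intro G H
      rw [← Finset.sum_add_distrib]
      refine Finset.sum_le_sum (fun x _ => ?_)
      have : ∑ a ∈ range M, (G + H) a x = ∑ a ∈ range M, G a x + ∑ a ∈ range M, H a x := by
        rw [← Finset.sum_add_distrib]; rfl
      rw [this]; exact norm_add_le _ _) 1 zero_le_one
    (by
      intro q hq c hc G hG _ hsupp
      have hz : ∀ x : Fin (2^M), (x:ℕ)/2^(M-q) ≠ c → ‖∑ a ∈ range M, G a x‖ = 0 := by
        intro x hx
        rw [Finset.sum_eq_zero (fun a _ => hsupp a x hx), norm_zero]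
      have e1 : ∑ x, ‖∑ a ∈ range M, G a x‖ =
          ∑ x ∈ univ.filter (fun w : Fin (2^M) => (w:ℕ)/2^(M-q) = c), ‖∑ a ∈ range M, G a x‖ := by
        rw [Finset.sum_filter]
        refine Finset.sum_congr rfl (fun x _ => ?_)
        by_cases hx : (x:ℕ)/2^(M-q) = c
        · rw [if_pos hx]
        · rw [if_neg hx, hz x hx]
      have e2 : (∑ x ∈ univ.filter (fun w : Fin (2^M) => (w:ℕ)/2^(M-q) = c), (1:ℝ)^2) = 2^(M-q) := by
        rw [one_pow, Finset.sum_const, ST15c.card_block M q c hc hq.le]; simp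
      have e3 : ∑ x ∈ univ.filter (fun w : Fin (2^M) => (w:ℕ)/2^(M-q) = c), ‖∑ a ∈ range M, G a x‖^2
          ≤ ∑ a ∈ range M, ∑ x, ‖G a x‖^2 := by
        rw [← ST15c.orth_sum M G hG]
        exact Finset.sum_le_sum_of_subset_of_nonneg (Finset.filter_subset _ _)
          (fun _ _ _ => by positivity)
      rw [e1, one_mul]
      have hcs : (∑ x ∈ univ.filter (fun w : Fin (2^M) => (w:ℕ)/2^(M-q) = c),
          ‖∑ a ∈ range M, G a x‖)^2 ≤ 2^(M-q) * ∑ a ∈ range M, ∑ x, ‖G a x‖^2 := by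
        have := Finset.sum_mul_sq_le_sq_mul_sq
          (univ.filter (fun w : Fin (2^M) => (w:ℕ)/2^(M-q) = c))
          (fun _ => (1:ℝ)) (fun x => ‖∑ a ∈ range M, G a x‖)
        simp only [one_mul] at this
        rw [e2] at this
        exact this.trans (mul_le_mul_of_nonneg_left e3 (by positivity))
      rw [← Real.sqrt_mul (by positivity)]
      exact Real.le_sqrt_of_sq_le hcs) F hF
  rw [mul_one] at main
  exact main

/-- TASK C4 (b) -/
theorem hmart {d M : ℕ} (m : ℤ) (f : Gr d M → ℂ) : L1 (Dg m f) ≤ 8 ^ d * NN m f := by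
  have h := iter_sum (d := d) (M := M)
    (fun _ _ => (1 : Matrix (Fin (2 ^ M)) (Fin (2 ^ M)) ℂ)) (fun _ => 4) (fun _ => by norm_num)
    (by
      intro s F hF
      simp only [Matrix.one_mulVec]
      exact mart1 M F hF)
    ((Lv d M).filter (fun K => tl K = m))
    (by
      intro K hK s
      rw [Finset.mem_filter] at hK
      have h1 := hK.1
      unfold Lv at h1
      rw [Fintype.mem_piFinset] at h1
      exact Finset.mem_range.mp (h1 s))
    (fun K => DK K f) (fun K _ => HaarK_DK K f)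
  have e1 : ∑ K ∈ (Lv d M).filter (fun K => tl K = m),
      ten (fun _ => (1 : Matrix (Fin (2 ^ M)) (Fin (2 ^ M)) ℂ)) (DK K f) = Dg m f := by
    unfold Dg
    exact Finset.sum_congr rfl fun K _ => ten_one _
  have e2 : ∏ _s : Fin d, ((2:ℝ) * 4) = 8 ^ d := by
    rw [Finset.prod_const, Finset.card_univ, Fintype.card_fin]
    norm_num
  rw [e2] at h
  rw [e1] at h
  exact h

end Pool.Agent.H506R2.LB
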