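import Pool.Agent.H506R2.LB.Ten
import Pool.Agent.Helper643.Bern.T17a

/-! TASK C8a: trigonometric polynomials with spectrum in the hyperbolic cross satisfy `Spec`. -/

set_option autoImplicit false

namespace Pool.Agent.H506R2.LB

open Finset Matrix BernT

/-- pure exponential on the grid -/
noncomputable def SpecT_e {d : ℕ} (M : ℕ) (k : Fin d → ℤ) : Gr d M → ℂ :=
  fun x => ∏ s, ex M (k s * ((x s : ℕ) : ℤ))

theorem SpecT_tp {d : ℕ} (M : ℕ) (S : Finset (Fin d → ℤ)) (c : (Fin d → ℤ) → ℂ) :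
    (tp M S c : Gr d M → ℂ) = ∑ k ∈ S, c k • SpecT_e M k := by
  funext x
  simp only [tp, SpecT_e, Finset.sum_apply, Pi.smul_apply, smul_eq_mul]

theorem SpecT_ten {d M : ℕ} (T : Fin d → Matrix (Fin (2 ^ M)) (Fin (2 ^ M)) ℂ) (k : Fin d → ℤ)
    (x : Gr d M) : ten T (SpecT_e M k) x = ∏ s, (T s *ᵥ ST17a.ev M (k s)) (x s) := by
  classical
  have h1 : ∏ s, (T s *ᵥ ST17a.ev M (k s)) (x s) =
      ∏ s, ∑ z : Fin (2 ^ M), T s (x s) z * ex M (k s * ((z : ℕ) : ℤ)) := rfl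
  rw [h1, Finset.prod_univ_sum, Fintype.piFinset_univ]
  unfold ten SpecT_e
  refine Finset.sum_congr rfl fun z _ => ?_
  rw [← Finset.prod_mul_distrib]

theorem SpecT_le {d : ℕ} {k : Fin d → ℤ} (hk : ∀ s, k s ≠ 0) (s : Fin d) :
    |k s| ≤ ∏ t, |k t| := by
  classical
  rw [← Finset.mul_prod_erase univ (fun t => |k t|) (Finset.mem_univ s)]
  have h1 : (1 : ℤ) ≤ ∏ t ∈ univ.erase s, |k t| := by
    have := Finset.prod_le_prod (s := univ.erase s) (f := fun _ => (1 : ℤ)) (g := fun t => |k t|)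
      (fun _ _ => zero_le_one) (fun t _ => Int.one_le_abs (hk t))
    simpa using this
  have h2 : 0 ≤ |k s| := abs_nonneg _
  nlinarith

theorem SpecT_VZ {M n : ℕ} (hM : n + 3 ≤ M) {k p : ℤ} (hk : |k| ≤ 2 ^ n) (hp : p + 2 ≤ M) :
    VZ M p *ᵥ ST17a.ev M k = (if 0 ≤ p then (Vs p.toNat k : ℂ) else 0) • ST17a.ev M k := by
  unfold VZ
  split_ifs with h0
  · apply ST17a.Vm_ev
    have h1 : (2 : ℤ) ^ (p.toNat + 1) ≤ 2 ^ (M - 1) :=
      pow_le_pow_right₀ one_le_two (by omega)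
    have h2 : (2 : ℤ) ^ n < 2 ^ (M - 1) := pow_lt_pow_right₀ one_lt_two (by omega)
    have h3 : (2 : ℤ) ^ M = 2 * 2 ^ (M - 1) := by
      rw [← pow_succ']; congr 1; omega
    linarith
  · rw [Matrix.zero_mulVec, zero_smul]

theorem SpecT_exists {d : ℕ} (hd : 1 ≤ d) {n : ℕ} {k p : Fin d → ℤ} (hk : ∀ s, k s ≠ 0)
    (hkn : ∏ s, |k s| ≤ 2 ^ n) (hp : (n : ℤ) ≤ ∑ s, p s) :
    ∃ s, 0 ≤ p s ∧ |k s| ≤ 2 ^ (p s).toNat := by
  by_contra hcon
  push Not at hcon
  have hge : ∀ s, (2 : ℤ) ^ (p s).toNat ≤ |k s| := by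
    intro s
    by_cases h0 : 0 ≤ p s
    · exact (hcon s h0).le
    · have : (p s).toNat = 0 := by omega
      rw [this, pow_zero]
      exact Int.one_le_abs (hk s)
  have hex : ∃ s, 0 ≤ p s := by
    by_contra h
    push Not at h
    have h1 : ∑ s, p s < 0 := by
      apply Finset.sum_neg (fun s _ => h s)
      exact ⟨⟨0, hd⟩, Finset.mem_univ _⟩
    have : (0 : ℤ) ≤ n := Int.natCast_nonneg n
    linarith
  obtain ⟨s₀, hs₀⟩ := hex
  have h1 : ∏ s, (2 : ℤ) ^ (p s).toNat < ∏ s, |k s| :=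
    Finset.prod_lt_prod (fun s _ => by positivity) (fun s _ => hge s)
      ⟨s₀, Finset.mem_univ _, hcon s₀ hs₀⟩
  rw [Finset.prod_pow_eq_pow_sum] at h1
  have h2 : n ≤ ∑ s, (p s).toNat := by
    have h3 : ∑ s, p s ≤ ∑ s, ((p s).toNat : ℤ) :=
      Finset.sum_le_sum (fun s _ => Int.self_le_toNat _)
    have h4 : (n : ℤ) ≤ ((∑ s, (p s).toNat : ℕ) : ℤ) := by
      push_cast
      linarith
    exact_mod_cast h4
  have h5 : (2 : ℤ) ^ n ≤ 2 ^ (∑ s, (p s).toNat) := pow_le_pow_right₀ one_le_two h2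
  linarith

/-- TASK C8a -/
theorem specTrig {d : ℕ} (hd : 1 ≤ d) (M n : ℕ) (hM : n + 3 ≤ M) (S : Finset (Fin d → ℤ))
    (c : (Fin d → ℤ) → ℂ) (hS : ∀ k ∈ S, (∀ s, k s ≠ 0) ∧ ∏ s, |k s| ≤ 2 ^ n) :
    Spec n (tp M S c) := by
  classical
  have hle : ∀ k ∈ S, ∀ s, |k s| ≤ 2 ^ n := fun k hk s =>
    (SpecT_le (hS k hk).1 s).trans (hS k hk).2
  refine ⟨?_, ?_⟩
  · intro s
    rw [cop_eq_ten, SpecT_tp, ten_sum]
    refine Finset.sum_eq_zero fun k hk => ?_
    rw [ten_smul]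
    funext x
    rw [Pi.smul_apply, SpecT_ten, Finset.prod_eq_zero (Finset.mem_univ s), smul_zero]
    · rfl
    · rw [Function.update_self, ST17a.Em_ev M (k s) ((hS k hk).1 s)]
      · rfl
      · exact (hle k hk s).trans_lt (pow_lt_pow_right₀ one_lt_two (by omega))
  · intro p hp hn
    have hten : ∀ U : Finset (Fin d), ten (fun s => if s ∈ U then VZ M (p s) else 1) (tp M S c) =
        ∑ k ∈ S, (∏ s ∈ U, (if 0 ≤ p s then (Vs (p s).toNat (k s) : ℂ) else 0)) •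
          (c k • SpecT_e M k) := by
      intro U
      rw [SpecT_tp, ten_sum]
      refine Finset.sum_congr rfl fun k hk => ?_
      rw [ten_smul]
      funext x
      simp only [Pi.smul_apply, smul_eq_mul]
      rw [SpecT_ten]
      have h1 : ∀ s, ((if s ∈ U then VZ M (p s) else 1) *ᵥ ST17a.ev M (k s)) (x s) =
          (if s ∈ U then (if 0 ≤ p s then (Vs (p s).toNat (k s) : ℂ) else 0) else 1) *
            ex M (k s * ((x s : ℕ) : ℤ)) := by
        intro s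
        split_ifs with h2 h3
        · rw [SpecT_VZ hM (hle k hk s) (hp s), if_pos h3]; rfl
        · rw [SpecT_VZ hM (hle k hk s) (hp s), if_neg h3, zero_smul, zero_mul]; rfl
        · rw [Matrix.one_mulVec, one_mul]; rfl
      rw [Finset.prod_congr rfl (fun s _ => h1 s), Finset.prod_mul_distrib, Finset.prod_ite_mem,
        Finset.univ_inter]
      unfold SpecT_e
      ring
    have hzero : ∀ k ∈ S, ∑ U ∈ (univ : Finset (Fin d)).powerset, (-1 : ℂ) ^ U.card *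
        (∏ s ∈ U, (if 0 ≤ p s then (Vs (p s).toNat (k s) : ℂ) else 0)) = 0 := by
      intro k hk
      obtain ⟨s₀, h0, h1⟩ := SpecT_exists hd (hS k hk).1 (hS k hk).2 hn
      have h2 : ∏ s, (1 + -(if 0 ≤ p s then (Vs (p s).toNat (k s) : ℂ) else 0)) = 0 := by
        apply Finset.prod_eq_zero (Finset.mem_univ s₀)
        rw [if_pos h0, ST17a.Vs_one _ _ h1]
        simp
      rw [Finset.prod_one_add] at h2
      refine Eq.trans ?_ h2
      refine Finset.sum_congr rfl fun U _ => ?_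
      rw [Finset.prod_neg]
    simp only [hten, Finset.smul_sum]
    rw [Finset.sum_comm]
    refine Finset.sum_eq_zero fun k hk => ?_
    have h3 := hzero k hk
    funext x
    rw [Finset.sum_apply]
    simp only [Pi.smul_apply, smul_eq_mul, Pi.zero_apply]
    have h4 : ∀ U : Finset (Fin d), (-1 : ℂ) ^ U.card *
        ((∏ s ∈ U, (if 0 ≤ p s then (Vs (p s).toNat (k s) : ℂ) else 0)) *
          (c k * SpecT_e M k x)) = ((-1 : ℂ) ^ U.card *
        (∏ s ∈ U, (if 0 ≤ p s then (Vs (p s).toNat (k s) : ℂ) else 0))) *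
          (c k * SpecT_e M k x) := fun U => by ring
    simp only [h4]
    rw [← Finset.sum_mul, h3, zero_mul]

end Pool.Agent.H506R2.LB
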