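import Pool.Agent.H506R2.LB.HD
import Pool.Agent.H506R2.LB.Mart
import Pool.Agent.H506R2.LB.Decay
import Pool.Agent.H506R2.LB.Absorb
import Pool.Agent.H506R2.LB.BlockSum
import Pool.Agent.H506R2.LB.SpecT
import Pool.Agent.H506R2.LB.DerivT

/-! TASK C9: the inequality on the grid. -/

set_option autoImplicit false

namespace Pool.Agent.H506R2.LB

open Finset Matrix BernT

theorem grid_summable (ρ : ℝ) (hρ : 0 < ρ) (d : ℕ) :
    Summable (fun j : ℕ => (2 : ℝ) ^ (-(ρ * (j : ℝ))) * ((j : ℝ) + 1) ^ d) := by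
  have hr0 : (0 : ℝ) < (2 : ℝ) ^ (-ρ) := Real.rpow_pos_of_pos (by norm_num) _
  have hr1 : (2 : ℝ) ^ (-ρ) < 1 := Real.rpow_lt_one_of_one_lt_of_neg (by norm_num) (by linarith)
  have h1 : Summable (fun j : ℕ => (j : ℝ) ^ d * ((2 : ℝ) ^ (-ρ)) ^ j) :=
    summable_pow_mul_geometric_of_norm_lt_one d (by
      rw [Real.norm_eq_abs, abs_of_pos hr0]; exact hr1)
  have h2 := (summable_nat_add_iff 1).2 h1
  have h3 := h2.mul_left (((2 : ℝ) ^ (-ρ))⁻¹)
  refine h3.congr fun j => ?_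
  have e1 : (2 : ℝ) ^ (-(ρ * (j : ℝ))) = ((2 : ℝ) ^ (-ρ)) ^ j := by
    rw [← Real.rpow_natCast, ← Real.rpow_mul (by norm_num)]
    congr 1; ring
  rw [e1, pow_succ]
  push_cast
  field_simp

theorem grid_sumk (ρ : ℝ) (hρ : 0 < ρ) (d : ℕ) : ∃ A : ℝ, 0 < A ∧ ∀ (s : Finset ℕ) (m : ℕ),
    ∑ k ∈ s, (2 : ℝ) ^ (-(ρ * |(k : ℝ) - m|)) * (|(k : ℝ) - m| + 1) ^ d ≤ A := by
  set g : ℕ → ℝ := fun j => (2 : ℝ) ^ (-(ρ * (j : ℝ))) * ((j : ℝ) + 1) ^ d with hg
  have hs : Summable g := grid_summable ρ hρ d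
  have hg0 : ∀ j, 0 ≤ g j := fun j => by simp only [hg]; positivity
  have hpos : 0 < ∑' j, g j := by
    refine hs.tsum_pos hg0 0 ?_
    simp [hg]
  refine ⟨2 * ∑' j, g j, by positivity, fun s m => ?_⟩
  rw [← Finset.sum_filter_add_sum_filter_not s (fun k => k ≤ m)]
  have h1 : ∑ k ∈ s.filter (fun k => k ≤ m),
      (2 : ℝ) ^ (-(ρ * |(k : ℝ) - m|)) * (|(k : ℝ) - m| + 1) ^ d ≤ ∑' j, g j := by
    have e1 : ∑ k ∈ s.filter (fun k => k ≤ m),
        (2 : ℝ) ^ (-(ρ * |(k : ℝ) - m|)) * (|(k : ℝ) - m| + 1) ^ d =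
        ∑ j ∈ (s.filter (fun k => k ≤ m)).image (fun k => m - k), g j := by
      rw [Finset.sum_image]
      · refine Finset.sum_congr rfl fun k hk => ?_
        have hk' := (Finset.mem_filter.1 hk).2
        have : |(k : ℝ) - m| = ((m - k : ℕ) : ℝ) := by
          rw [Nat.cast_sub hk', abs_sub_comm, abs_of_nonneg]
          have : (k : ℝ) ≤ m := by exact_mod_cast hk'
          linarith
        rw [this]
      · intro a ha b hb hab
        simp only [Finset.coe_filter, Set.mem_ofPred_eq] at ha hb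
        simp only at hab
        omega
    rw [e1]
    exact hs.sum_le_tsum _ fun j _ => hg0 j
  have h2 : ∑ k ∈ s.filter (fun k => ¬ k ≤ m),
      (2 : ℝ) ^ (-(ρ * |(k : ℝ) - m|)) * (|(k : ℝ) - m| + 1) ^ d ≤ ∑' j, g j := by
    have e1 : ∑ k ∈ s.filter (fun k => ¬ k ≤ m),
        (2 : ℝ) ^ (-(ρ * |(k : ℝ) - m|)) * (|(k : ℝ) - m| + 1) ^ d =
        ∑ j ∈ (s.filter (fun k => ¬ k ≤ m)).image (fun k => k - m), g j := by
      rw [Finset.sum_image]
      · refine Finset.sum_congr rfl fun k hk => ?_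
        have hk' := (Finset.mem_filter.1 hk).2
        have : |(k : ℝ) - m| = ((k - m : ℕ) : ℝ) := by
          rw [Nat.cast_sub (by omega), abs_of_nonneg]
          have : (m : ℝ) ≤ k := by exact_mod_cast (by omega : m ≤ k)
          linarith
        rw [this]
      · intro a ha b hb hab
        simp only [Finset.coe_filter, Set.mem_ofPred_eq] at ha hb
        simp only at hab
        omega
    rw [e1]
    exact hs.sum_le_tsum _ fun j _ => hg0 j
  linarith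

/-- TASK C9 -/
theorem grid (d : ℕ) (hd : 1 ≤ d) (r : ℝ) (hr : 0 < r) : ∃ C : ℝ, 0 < C ∧ ∀ (M n : ℕ)
    (S : Finset (Fin d → ℤ)) (c : (Fin d → ℤ) → ℂ) (u v : Fin d → ℂ), (∀ s, ‖u s‖ ≤ 1) →
    (∀ s, ‖v s‖ ≤ 1) → (∀ k ∈ S, (∀ s, k s ≠ 0) ∧ ∏ s, |k s| ≤ 2 ^ n) → n + d + 3 ≤ M →
    L1 (tp M S (fun k => mul r u v k * c k)) ≤ C * (2 : ℝ) ^ (r * n) * L1 (tp M S c) := by
  obtain ⟨Ca, hCa, ha⟩ := absorb d hd (decay d hd) (hD d hd) (fun M m f => hmart m f)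
  obtain ⟨Cb, hCb, hb⟩ := blockSum d hd r hr.le
  obtain ⟨A1, hA1, h1⟩ := grid_sumk (1 / 4) (by norm_num) d
  obtain ⟨A2, hA2, h2⟩ := grid_sumk r hr d
  refine ⟨Cb * Ca * A1 * A2 * (2 : ℝ) ^ (2 * r * d), by positivity, ?_⟩
  intro M n S c u v hu hv hS hM
  set f : Gr d M → ℂ := tp M S c with hf
  have hspec : Spec n f := specTrig hd M n (by omega) S c hS
  have hNN := ha M n f hspec
  have hL0 : 0 ≤ L1 f := L1_nonneg f
  rw [← derivTrig hd M n hM r hr u v S c hS]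
  refine (L1_sum _ _).trans ?_
  -- one diagonal
  have hblock : ∀ m ∈ range (n + d),
      L1 ((((2 : ℝ) ^ (r * m) : ℝ) : ℂ) •
        (∑ t ∈ tv d m, ten (fun s => Mm r (u s) (v s) M (t s)) (tp M S c))) ≤
      (Cb * Ca * A1 * (2 : ℝ) ^ (2 * r * d) * (2 : ℝ) ^ (r * n) * L1 f) *
        ((2 : ℝ) ^ (-(r * |(m : ℝ) - n|)) * (|(m : ℝ) - n| + 1) ^ d) := by
    intro m hm
    rw [Finset.mem_range] at hm
    rw [L1_smul, Complex.norm_real, Real.norm_eq_abs,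
      abs_of_pos (Real.rpow_pos_of_pos (by norm_num) _)]
    have e1 := hb M m u v hu hv (by omega) f hspec.1
    have e2 : ∑ k ∈ range (d * M), (2 : ℝ) ^ (-(|(k : ℝ) - m| / 4)) * NN (k : ℤ) f ≤
        (Ca * L1 f * (|(m : ℝ) - n| + 1) ^ d) * A1 := by
      have e3 : ∀ k ∈ range (d * M), (2 : ℝ) ^ (-(|(k : ℝ) - m| / 4)) * NN (k : ℤ) f ≤
          (Ca * L1 f * (|(m : ℝ) - n| + 1) ^ d) *
            ((2 : ℝ) ^ (-(1 / 4 * |(k : ℝ) - m|)) * (|(k : ℝ) - m| + 1) ^ d) := by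
        intro k _
        have e4 := hNN (k : ℤ)
        rw [Int.cast_natCast] at e4
        have e5 : (|(k : ℝ) - n| + 1) ^ d ≤
            (|(k : ℝ) - m| + 1) ^ d * (|(m : ℝ) - n| + 1) ^ d := by
          rw [← mul_pow]
          refine pow_le_pow_left₀ (by positivity) ?_ d
          have e6 : |(k : ℝ) - n| ≤ |(k : ℝ) - m| + |(m : ℝ) - n| := by
            have : (k : ℝ) - n = ((k : ℝ) - m) + ((m : ℝ) - n) := by ring
            rw [this]; exact abs_add_le _ _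
          have e7 : 0 ≤ |(k : ℝ) - m| * |(m : ℝ) - n| := by positivity
          nlinarith
        have e8 : NN (k : ℤ) f ≤
            Ca * ((|(k : ℝ) - m| + 1) ^ d * (|(m : ℝ) - n| + 1) ^ d) * L1 f := by
          refine e4.trans (mul_le_mul_of_nonneg_right ?_ hL0)
          exact mul_le_mul_of_nonneg_left e5 hCa.le
        have e9 : (2 : ℝ) ^ (-(|(k : ℝ) - m| / 4)) = (2 : ℝ) ^ (-(1 / 4 * |(k : ℝ) - m|)) := by
          congr 1; ring
        rw [e9]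
        calc (2 : ℝ) ^ (-(1 / 4 * |(k : ℝ) - m|)) * NN (k : ℤ) f
            ≤ (2 : ℝ) ^ (-(1 / 4 * |(k : ℝ) - m|)) *
              (Ca * ((|(k : ℝ) - m| + 1) ^ d * (|(m : ℝ) - n| + 1) ^ d) * L1 f) :=
              mul_le_mul_of_nonneg_left e8 (by positivity)
          _ = _ := by ring
      refine (Finset.sum_le_sum e3).trans ?_
      rw [← Finset.mul_sum]
      exact mul_le_mul_of_nonneg_left (h1 _ m) (by positivity)
    have e10 : (2 : ℝ) ^ (r * m) ≤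
        (2 : ℝ) ^ (2 * r * d) * (2 : ℝ) ^ (r * n) * (2 : ℝ) ^ (-(r * |(m : ℝ) - n|)) := by
      rw [← Real.rpow_add (by norm_num), ← Real.rpow_add (by norm_num)]
      refine Real.rpow_le_rpow_of_exponent_le (by norm_num) ?_
      have hmd : (m : ℝ) ≤ n + d := by
        exact_mod_cast hm.le
      have hd0 : (0 : ℝ) ≤ d := Nat.cast_nonneg d
      rcases abs_cases ((m : ℝ) - n) with ⟨h, _⟩ | ⟨h, _⟩
      · rw [h]; nlinarith
      · rw [h]; nlinarith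
    calc (2 : ℝ) ^ (r * m) * L1 (∑ t ∈ tv d m, ten (fun s => Mm r (u s) (v s) M (t s)) (tp M S c))
        ≤ (2 : ℝ) ^ (r * m) * (Cb * ((Ca * L1 f * (|(m : ℝ) - n| + 1) ^ d) * A1)) := by
          refine mul_le_mul_of_nonneg_left ?_ (by positivity)
          exact e1.trans (mul_le_mul_of_nonneg_left e2 hCb.le)
      _ ≤ ((2 : ℝ) ^ (2 * r * d) * (2 : ℝ) ^ (r * n) * (2 : ℝ) ^ (-(r * |(m : ℝ) - n|))) *
          (Cb * ((Ca * L1 f * (|(m : ℝ) - n| + 1) ^ d) * A1)) :=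
          mul_le_mul_of_nonneg_right e10 (by positivity)
      _ = _ := by ring
  refine (Finset.sum_le_sum hblock).trans ?_
  rw [← Finset.mul_sum]
  calc (Cb * Ca * A1 * (2 : ℝ) ^ (2 * r * d) * (2 : ℝ) ^ (r * n) * L1 f) *
        ∑ m ∈ range (n + d), ((2 : ℝ) ^ (-(r * |(m : ℝ) - n|)) * (|(m : ℝ) - n| + 1) ^ d)
      ≤ (Cb * Ca * A1 * (2 : ℝ) ^ (2 * r * d) * (2 : ℝ) ^ (r * n) * L1 f) * A2 :=
        mul_le_mul_of_nonneg_left (h2 _ n) (by positivity)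
    _ = _ := by ring

end Pool.Agent.H506R2.LB
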