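import Pool.Agent.H506R2.LB.CubeThm
import Pool.Agent.H506R2.LB.Bridge

/-! TASK B8: the dyadic theorem on the grid. -/

set_option autoImplicit false

namespace Pool.Agent.H506R2.LB

open Finset Pool.Agent.H730R2.LD BernT

theorem HD_filter {d M p T' : ℕ} {T m : ℤ} (hp : T - m = p + 1) (hT : T = T') :
    (Fintype.piFinset fun _ : Fin d => range (M + p + 1 - (p + 1))).filter
      (fun K => ∑ s, K s + (p + 1) = T') = (Lv d M).filter (fun K => tl K = m) := by
  have e : M + p + 1 - (p + 1) = M := by omega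
  rw [e]
  unfold Lv
  refine Finset.filter_congr fun K _ => ?_
  have h1 : tl K = ((∑ s, K s : ℕ) : ℤ) := by
    unfold tl
    push_cast
    rfl
  rw [h1]
  constructor <;> intro h <;> omega

theorem HD_sqrt {a b : ℝ} (ha : 0 ≤ a) (hb : 0 ≤ b) :
    Real.sqrt (a + b) ≤ Real.sqrt a + Real.sqrt b := by
  rw [Real.sqrt_le_left (add_nonneg (Real.sqrt_nonneg _) (Real.sqrt_nonneg _))]
  have h1 := Real.sq_sqrt ha
  have h2 := Real.sq_sqrt hb
  have h3 := mul_nonneg (Real.sqrt_nonneg a) (Real.sqrt_nonneg b)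
  nlinarith

theorem HD_DK {d M : ℕ} (T : ℤ) (f : Gr d M → ℂ) (K : Fin d → ℕ) (hK : K ∈ Lv d M) :
    DK K (PT T f) = if tl K < T then DK K f else 0 := by
  unfold PT
  have h1 : DK K (∑ K' ∈ (Lv d M).filter (fun K => tl K < T), DK K' f) =
      ∑ K' ∈ (Lv d M).filter (fun K => tl K < T), DK K (DK K' f) := by
    unfold DK
    exact ten_sum _ _ _
  rw [h1]
  simp only [DK_DK]
  rw [Finset.sum_ite_eq]
  simp [hK]

/-- TASK B8 -/
theorem hD (d : ℕ) (hd : 1 ≤ d) : ∃ C : ℝ, 0 < C ∧ ∀ (M : ℕ) (T m : ℤ) (f : Gr d M → ℂ),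
    m < T → NN m f ≤ C * ((T : ℝ) - m) ^ d * L1 (PT T f) := by
  obtain ⟨C, hC, hcube⟩ := cubeThm d hd
  refine ⟨2 * C, by positivity, fun M T m f hmT => ?_⟩
  have hTm : (0 : ℝ) ≤ (T : ℝ) - m := by
    have : (m : ℝ) < T := by exact_mod_cast hmT
    linarith
  have hR : 0 ≤ 2 * C * ((T : ℝ) - m) ^ d * L1 (PT T f) :=
    mul_nonneg (mul_nonneg (by positivity) (pow_nonneg hTm _)) (L1_nonneg _)
  rcases lt_or_ge m 0 with hm0 | hm0
  · have h0 : NN m f = 0 := by
      unfold NN
      refine Finset.sum_eq_zero fun x _ => ?_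
      have he : (Lv d M).filter (fun K => tl K = m) = ∅ := by
        refine Finset.filter_eq_empty_iff.2 fun {K} _ hK => ?_
        have : 0 ≤ tl K := Finset.sum_nonneg fun _ _ => Int.natCast_nonneg _
        omega
      rw [he, Finset.sum_empty, Real.sqrt_zero]
    rw [h0]
    exact hR
  obtain ⟨p, hp⟩ : ∃ p : ℕ, T - m = p + 1 := ⟨(T - m - 1).toNat, by omega⟩
  obtain ⟨T', hT'⟩ : ∃ T' : ℕ, T = T' := ⟨T.toNat, by omega⟩
  have hq : (T : ℝ) - m = ((p + 1 : ℕ) : ℝ) := by
    have := congrArg (fun z : ℤ => (z : ℝ)) hp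
    push_cast at this ⊢
    exact this
  set h : Gr d M → ℂ := PT T f with hh
  have hNN : NN m f = NN m h := by
    unfold NN
    refine Finset.sum_congr rfl fun x _ => ?_
    congr 1
    refine Finset.sum_congr rfl fun K hK => ?_
    obtain ⟨hK1, hK2⟩ := Finset.mem_filter.1 hK
    rw [hh, HD_DK T f K hK1, if_pos (by rw [hK2]; exact hmT)]
  -- vanishing of the high coefficients
  have hvan : ∀ (K : Fin d → ℕ), (∀ s, K s < M + p + 1) → T' ≤ ∑ s, K s →
      co (orig d (M + p)) K (fun y => (h (pj y)).re) = 0 ∧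
      co (orig d (M + p)) K (fun y => (h (pj y)).im) = 0 := by
    intro K hK hKT
    by_cases hM : ∃ s, M ≤ K s
    · obtain ⟨s, hs⟩ := hM
      exact ⟨co_pj_zero (fun z => (h z).re) K hK s hs, co_pj_zero (fun z => (h z).im) K hK s hs⟩
    · push Not at hM
      have hKL : K ∈ Lv d M := by
        unfold Lv
        rw [Fintype.mem_piFinset]
        exact fun s => Finset.mem_range.2 (hM s)
      have hz : DK K h = 0 := by
        rw [hh, HD_DK T f K hKL, if_neg]
        have h1 : tl K = ((∑ s, K s : ℕ) : ℤ) := by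
          unfold tl
          push_cast
          rfl
        omega
      have key : ∀ x : Cu d (M + p), co (orig d (M + p)) K (fun y => (h (pj y)).re) x = 0 ∧
          co (orig d (M + p)) K (fun y => (h (pj y)).im) x = 0 := by
        intro x
        have h1 := co_pj h K hM x
        rw [hz] at h1
        simp only [Pi.zero_apply, norm_zero] at h1
        have h2 := sq_nonneg (co (orig d (M + p)) K (fun y => (h (pj y)).re) x)
        have h3 := sq_nonneg (co (orig d (M + p)) K (fun y => (h (pj y)).im) x)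
        constructor
        · have : co (orig d (M + p)) K (fun y => (h (pj y)).re) x ^ 2 = 0 := by linarith
          exact pow_eq_zero_iff (two_ne_zero) |>.1 this
        · have : co (orig d (M + p)) K (fun y => (h (pj y)).im) x ^ 2 = 0 := by linarith
          exact pow_eq_zero_iff (two_ne_zero) |>.1 this
      exact ⟨funext fun x => (key x).1, funext fun x => (key x).2⟩
  have hre := hcube (M + p) (p + 1) T' (fun y => (h (pj y)).re) (by omega) (by omega)
    (fun K hK hKT => (hvan K hK hKT).1)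
  have him := hcube (M + p) (p + 1) T' (fun y => (h (pj y)).im) (by omega) (by omega)
    (fun K hK hKT => (hvan K hK hKT).2)
  rw [HD_filter hp hT'] at hre him
  -- pass to the cube
  have hL : ∑ x : Cu d (M + p), Real.sqrt (∑ K ∈ (Lv d M).filter (fun K => tl K = m),
      ‖DK K h (pj x)‖ ^ 2) = 2 ^ (d * (p + 1)) * NN m h :=
    sum_pj (fun z => Real.sqrt (∑ K ∈ (Lv d M).filter (fun K => tl K = m), ‖DK K h z‖ ^ 2))
  have hL1 : ∑ x : Cu d (M + p), ‖h (pj x)‖ = 2 ^ (d * (p + 1)) * L1 h :=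
    sum_pj (fun z => ‖h z‖)
  have hstep : ∑ x : Cu d (M + p), Real.sqrt (∑ K ∈ (Lv d M).filter (fun K => tl K = m),
      ‖DK K h (pj x)‖ ^ 2) ≤
      ∑ x : Cu d (M + p), Real.sqrt (∑ K ∈ (Lv d M).filter (fun K => tl K = m),
        (co (orig d (M + p)) K (fun y => (h (pj y)).re) x) ^ 2) +
      ∑ x : Cu d (M + p), Real.sqrt (∑ K ∈ (Lv d M).filter (fun K => tl K = m),
        (co (orig d (M + p)) K (fun y => (h (pj y)).im) x) ^ 2) := by
    rw [← Finset.sum_add_distrib]
    refine Finset.sum_le_sum fun x _ => ?_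
    have h1 : ∑ K ∈ (Lv d M).filter (fun K => tl K = m), ‖DK K h (pj x)‖ ^ 2 =
        ∑ K ∈ (Lv d M).filter (fun K => tl K = m),
          (co (orig d (M + p)) K (fun y => (h (pj y)).re) x) ^ 2 +
        ∑ K ∈ (Lv d M).filter (fun K => tl K = m),
          (co (orig d (M + p)) K (fun y => (h (pj y)).im) x) ^ 2 := by
      rw [← Finset.sum_add_distrib]
      refine Finset.sum_congr rfl fun K hK => ?_
      have hKL := (Finset.mem_filter.1 hK).1
      unfold Lv at hKL
      rw [Fintype.mem_piFinset] at hKL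
      exact co_pj h K (fun s => Finset.mem_range.1 (hKL s)) x
    rw [h1]
    exact HD_sqrt (Finset.sum_nonneg fun _ _ => sq_nonneg _)
      (Finset.sum_nonneg fun _ _ => sq_nonneg _)
  have hre2 : ∑ x : Cu d (M + p), |(h (pj x)).re| ≤ 2 ^ (d * (p + 1)) * L1 h := by
    rw [← hL1]
    exact Finset.sum_le_sum fun x _ => Complex.abs_re_le_norm _
  have him2 : ∑ x : Cu d (M + p), |(h (pj x)).im| ≤ 2 ^ (d * (p + 1)) * L1 h := by
    rw [← hL1]
    exact Finset.sum_le_sum fun x _ => Complex.abs_im_le_norm _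
  have hqd : 0 ≤ C * ((p + 1 : ℕ) : ℝ) ^ d := by positivity
  have hfin : (2 : ℝ) ^ (d * (p + 1)) * NN m h ≤
      (2 : ℝ) ^ (d * (p + 1)) * (2 * C * ((p + 1 : ℕ) : ℝ) ^ d * L1 h) := by
    rw [← hL]
    refine hstep.trans ?_
    have e1 := hre.trans (mul_le_mul_of_nonneg_left hre2 hqd)
    have e2 := him.trans (mul_le_mul_of_nonneg_left him2 hqd)
    calc _ ≤ C * ((p + 1 : ℕ) : ℝ) ^ d * (2 ^ (d * (p + 1)) * L1 h) +
          C * ((p + 1 : ℕ) : ℝ) ^ d * (2 ^ (d * (p + 1)) * L1 h) := add_le_add e1 e2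
      _ = (2 : ℝ) ^ (d * (p + 1)) * (2 * C * ((p + 1 : ℕ) : ℝ) ^ d * L1 h) := by ring
  rw [hNN, hq]
  exact le_of_mul_le_mul_left hfin (by positivity)

end Pool.Agent.H506R2.LB
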