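import Pool.Agent.Helper643.BernT

/-! TASK C2: Hilbert space valued extensions of the one variable inequalities (helper75). -/

set_option autoImplicit false

namespace Pool.Agent.H506R2.LB

open Finset Matrix BernT

variable {M : ℕ}

/-- the signed sum -/
noncomputable def Hil_S {ι α : Type} [DecidableEq ι] (J : Finset ι) (v : ι → α → ℂ)
    (P : Finset ι) (a : α) : ℂ := ∑ i ∈ J, (if i ∈ P then (1 : ℂ) else -1) * v i a

theorem Hil_S_not {ι α : Type} [DecidableEq ι] {J : Finset ι} {i0 : ι} (h0 : i0 ∉ J)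
    (v : ι → α → ℂ) {P : Finset ι} (hP : P ⊆ J) (a : α) :
    Hil_S (insert i0 J) v P a = -v i0 a + Hil_S J v P a := by
  unfold Hil_S
  rw [sum_insert h0, if_neg (fun h => h0 (hP h))]
  ring

theorem Hil_S_ins {ι α : Type} [DecidableEq ι] {J : Finset ι} {i0 : ι} (h0 : i0 ∉ J)
    (v : ι → α → ℂ) (P : Finset ι) (a : α) :
    Hil_S (insert i0 J) v (insert i0 P) a = v i0 a + Hil_S J v P a := by
  unfold Hil_S
  rw [sum_insert h0, if_pos (mem_insert_self _ _), one_mul]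
  congr 1
  apply sum_congr rfl
  intro i hi
  have hne : i ≠ i0 := fun h => h0 (h ▸ hi)
  have : (i ∈ insert i0 P) ↔ i ∈ P := by rw [mem_insert]; tauto
  simp only [this]

theorem Hil_par (z w : ℂ) : ‖z + w‖ ^ 2 = ‖z‖ ^ 2 + ‖w‖ ^ 2 + 2 * (z * (starRingEnd ℂ) w).re := by
  rw [← Complex.normSq_eq_norm_sq, ← Complex.normSq_eq_norm_sq, ← Complex.normSq_eq_norm_sq,
    Complex.normSq_add]

theorem Hil_sum_par {α : Type} (A : Finset α) (z w : α → ℂ) :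
    ∑ a ∈ A, ‖z a + w a‖ ^ 2 = (∑ a ∈ A, ‖z a‖ ^ 2) + (∑ a ∈ A, ‖w a‖ ^ 2) +
      2 * ∑ a ∈ A, (z a * (starRingEnd ℂ) (w a)).re := by
  rw [mul_sum, ← sum_add_distrib, ← sum_add_distrib]
  exact sum_congr rfl fun a _ => Hil_par _ _

theorem Hil_cs {α : Type} (A : Finset α) (z w : α → ℂ) :
    (∑ a ∈ A, (z a * (starRingEnd ℂ) (w a)).re) ^ 2 ≤
      (∑ a ∈ A, ‖z a‖ ^ 2) * ∑ a ∈ A, ‖w a‖ ^ 2 := by
  have h1 : |∑ a ∈ A, (z a * (starRingEnd ℂ) (w a)).re| ≤ ∑ a ∈ A, ‖z a‖ * ‖w a‖ := by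
    refine (abs_sum_le_sum_abs _ _).trans (sum_le_sum fun a _ => ?_)
    refine (Complex.abs_re_le_norm _).trans (le_of_eq ?_)
    rw [norm_mul, RCLike.norm_conj]
  calc (∑ a ∈ A, (z a * (starRingEnd ℂ) (w a)).re) ^ 2
      = |∑ a ∈ A, (z a * (starRingEnd ℂ) (w a)).re| ^ 2 := (sq_abs _).symm
    _ ≤ (∑ a ∈ A, ‖z a‖ * ‖w a‖) ^ 2 := by gcongr
    _ ≤ _ := sum_mul_sq_le_sq_mul_sq _ _ _

/-- second moment -/
theorem Hil_M2 {ι α : Type} [DecidableEq ι] (A : Finset α) (v : ι → α → ℂ) (J : Finset ι) :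
    ∀ w : α → ℂ, ∑ P ∈ J.powerset, ∑ a ∈ A, ‖w a + Hil_S J v P a‖ ^ 2 =
      2 ^ J.card * ((∑ a ∈ A, ‖w a‖ ^ 2) + ∑ i ∈ J, ∑ a ∈ A, ‖v i a‖ ^ 2) := by
  induction J using Finset.induction_on with
  | empty =>
    intro w
    simp [Hil_S]
  | insert i0 J h0 ih =>
    intro w
    rw [sum_powerset_insert h0]
    have e1 : ∑ P ∈ J.powerset, ∑ a ∈ A, ‖w a + Hil_S (insert i0 J) v P a‖ ^ 2 =
        ∑ P ∈ J.powerset, ∑ a ∈ A, ‖(w a + -v i0 a) + Hil_S J v P a‖ ^ 2 := by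
      refine sum_congr rfl fun P hP => sum_congr rfl fun a _ => ?_
      rw [Hil_S_not h0 v (mem_powerset.mp hP), add_assoc]
    have e2 : ∑ P ∈ J.powerset, ∑ a ∈ A, ‖w a + Hil_S (insert i0 J) v (insert i0 P) a‖ ^ 2 =
        ∑ P ∈ J.powerset, ∑ a ∈ A, ‖(w a + v i0 a) + Hil_S J v P a‖ ^ 2 := by
      refine sum_congr rfl fun P hP => sum_congr rfl fun a _ => ?_
      rw [Hil_S_ins h0 v, add_assoc]
    rw [e1, e2, ih (fun a => w a + -v i0 a), ih (fun a => w a + v i0 a), Hil_sum_par,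
      Hil_sum_par, sum_insert h0, card_insert_of_notMem h0, pow_succ]
    have e3 : ∑ a ∈ A, (w a * (starRingEnd ℂ) (-v i0 a)).re =
        -∑ a ∈ A, (w a * (starRingEnd ℂ) (v i0 a)).re := by
      rw [← sum_neg_distrib]
      refine sum_congr rfl fun a _ => ?_
      rw [map_neg, mul_neg, Complex.neg_re]
    simp only [norm_neg]
    rw [e3]
    ring

/-- fourth moment -/
theorem Hil_M4 {ι α : Type} [DecidableEq ι] (A : Finset α) (v : ι → α → ℂ) (J : Finset ι) :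
    ∀ w : α → ℂ, ∑ P ∈ J.powerset, (∑ a ∈ A, ‖w a + Hil_S J v P a‖ ^ 2) ^ 2 ≤
      2 ^ J.card * ((∑ a ∈ A, ‖w a‖ ^ 2) ^ 2 +
        6 * (∑ a ∈ A, ‖w a‖ ^ 2) * (∑ i ∈ J, ∑ a ∈ A, ‖v i a‖ ^ 2) +
        3 * (∑ i ∈ J, ∑ a ∈ A, ‖v i a‖ ^ 2) ^ 2) := by
  induction J using Finset.induction_on with
  | empty =>
    intro w
    simp [Hil_S]
  | insert i0 J h0 ih =>
    intro w
    rw [sum_powerset_insert h0]
    have e1 : ∑ P ∈ J.powerset, (∑ a ∈ A, ‖w a + Hil_S (insert i0 J) v P a‖ ^ 2) ^ 2 =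
        ∑ P ∈ J.powerset, (∑ a ∈ A, ‖(w a + -v i0 a) + Hil_S J v P a‖ ^ 2) ^ 2 := by
      refine sum_congr rfl fun P hP => ?_
      congr 1
      refine sum_congr rfl fun a _ => ?_
      rw [Hil_S_not h0 v (mem_powerset.mp hP), add_assoc]
    have e2 : ∑ P ∈ J.powerset,
        (∑ a ∈ A, ‖w a + Hil_S (insert i0 J) v (insert i0 P) a‖ ^ 2) ^ 2 =
        ∑ P ∈ J.powerset, (∑ a ∈ A, ‖(w a + v i0 a) + Hil_S J v P a‖ ^ 2) ^ 2 := by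
      refine sum_congr rfl fun P hP => ?_
      congr 1
      refine sum_congr rfl fun a _ => ?_
      rw [Hil_S_ins h0 v, add_assoc]
    have i1 := ih (fun a => w a + -v i0 a)
    have i2 := ih (fun a => w a + v i0 a)
    have e3 : ∑ a ∈ A, (w a * (starRingEnd ℂ) (-v i0 a)).re =
        -∑ a ∈ A, (w a * (starRingEnd ℂ) (v i0 a)).re := by
      rw [← sum_neg_distrib]
      refine sum_congr rfl fun a _ => ?_
      rw [map_neg, mul_neg, Complex.neg_re]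
    rw [Hil_sum_par A w (fun a => -v i0 a)] at i1
    rw [Hil_sum_par A w (fun a => v i0 a)] at i2
    simp only [norm_neg] at i1
    rw [e3] at i1
    rw [e1, e2, sum_insert h0, card_insert_of_notMem h0, pow_succ]
    have hcs := Hil_cs A w (fun a => v i0 a)
    set W := ∑ a ∈ A, ‖w a‖ ^ 2 with hW
    set V := ∑ a ∈ A, ‖v i0 a‖ ^ 2 with hV
    set R := ∑ a ∈ A, (w a * (starRingEnd ℂ) (v i0 a)).re with hR
    set s := ∑ i ∈ J, ∑ a ∈ A, ‖v i a‖ ^ 2 with hs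
    have hV0 : 0 ≤ V := by rw [hV]; positivity
    have hW0 : 0 ≤ W := by rw [hW]; positivity
    have hs0 : 0 ≤ s := by rw [hs]; positivity
    have h2 : (0 : ℝ) ≤ 2 ^ J.card := by positivity
    refine (add_le_add i1 i2).trans ?_
    have key : ((W + V + 2 * -R) ^ 2 + 6 * (W + V + 2 * -R) * s + 3 * s ^ 2) +
        ((W + V + 2 * R) ^ 2 + 6 * (W + V + 2 * R) * s + 3 * s ^ 2) ≤
        2 * (W ^ 2 + 6 * W * (V + s) + 3 * (V + s) ^ 2) := by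
      nlinarith [mul_nonneg hV0 hs0, mul_nonneg hV0 hV0]
    rw [← mul_add, mul_assoc (2 ^ J.card : ℝ) 2]
    exact mul_le_mul_of_nonneg_left key h2

theorem Hil_X0 {ι α : Type} [DecidableEq ι] (A : Finset α) (v : ι → α → ℂ) (J P : Finset ι) :
    0 ≤ ∑ a ∈ A, ‖Hil_S J v P a‖ ^ 2 := sum_nonneg fun _ _ => by positivity

theorem Hil_s0 {ι α : Type} (A : Finset α) (v : ι → α → ℂ) (J : Finset ι) :
    0 ≤ ∑ i ∈ J, ∑ a ∈ A, ‖v i a‖ ^ 2 := sum_nonneg fun _ _ => sum_nonneg fun _ _ => by positivity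

theorem Hil_M2' {ι α : Type} [DecidableEq ι] (A : Finset α) (v : ι → α → ℂ) (J : Finset ι) :
    ∑ P ∈ J.powerset, ∑ a ∈ A, ‖Hil_S J v P a‖ ^ 2 =
      2 ^ J.card * ∑ i ∈ J, ∑ a ∈ A, ‖v i a‖ ^ 2 := by
  have h := Hil_M2 A v J (fun _ => 0)
  simpa using h

theorem Hil_M4' {ι α : Type} [DecidableEq ι] (A : Finset α) (v : ι → α → ℂ) (J : Finset ι) :
    ∑ P ∈ J.powerset, (∑ a ∈ A, ‖Hil_S J v P a‖ ^ 2) ^ 2 ≤
      2 ^ J.card * (3 * (∑ i ∈ J, ∑ a ∈ A, ‖v i a‖ ^ 2) ^ 2) := by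
  have h := Hil_M4 A v J (fun _ => 0)
  simpa using h

/-- TASK C2 (a): lower Khintchine inequality with values in a Hilbert space -/
theorem khin {ι α : Type} [DecidableEq ι] (J : Finset ι) (A : Finset α) (v : ι → α → ℂ) :
    (2 : ℝ) ^ J.card * Real.sqrt (∑ i ∈ J, ∑ a ∈ A, ‖v i a‖ ^ 2) ≤
      2 * ∑ P ∈ J.powerset, Real.sqrt (∑ a ∈ A, ‖∑ i ∈ J, (if i ∈ P then (1 : ℂ) else -1) * v i a‖ ^ 2) := by
  change (2 : ℝ) ^ J.card * Real.sqrt (∑ i ∈ J, ∑ a ∈ A, ‖v i a‖ ^ 2) ≤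
      2 * ∑ P ∈ J.powerset, Real.sqrt (∑ a ∈ A, ‖Hil_S J v P a‖ ^ 2)
  have hm2 := Hil_M2' A v J
  have hm4 := Hil_M4' A v J
  have hs0 := Hil_s0 A v J
  set s := ∑ i ∈ J, ∑ a ∈ A, ‖v i a‖ ^ 2 with hs
  set X : Finset ι → ℝ := fun P => Real.sqrt (∑ a ∈ A, ‖Hil_S J v P a‖ ^ 2) with hX
  have hX0 : ∀ P, 0 ≤ X P := fun P => Real.sqrt_nonneg _
  have hX2 : ∀ P, X P ^ 2 = ∑ a ∈ A, ‖Hil_S J v P a‖ ^ 2 := fun P =>
    Real.sq_sqrt (Hil_X0 A v J P)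
  change (2 : ℝ) ^ J.card * Real.sqrt s ≤ 2 * ∑ P ∈ J.powerset, X P
  rcases hs0.eq_or_lt with h0 | hpos
  · rw [← h0, Real.sqrt_zero, mul_zero]
    exact mul_nonneg (by norm_num) (sum_nonneg fun P _ => hX0 P)
  set b := Real.sqrt (3 * s) with hb
  have hb0 : 0 < b := Real.sqrt_pos.mpr (by positivity)
  have hb2 : b ^ 2 = 3 * s := Real.sq_sqrt (by positivity)
  have hpt : ∀ P, 3 * b ^ 2 * X P ^ 2 - (X P ^ 2) ^ 2 ≤ 2 * b ^ 3 * X P := by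
    intro P
    have h1 : 0 ≤ X P * (X P - b) ^ 2 * (X P + 2 * b) :=
      mul_nonneg (mul_nonneg (hX0 P) (sq_nonneg _)) (by linarith [hX0 P])
    nlinarith [h1]
  have hsum : 3 * b ^ 2 * (∑ P ∈ J.powerset, X P ^ 2) - ∑ P ∈ J.powerset, (X P ^ 2) ^ 2 ≤
      2 * b ^ 3 * ∑ P ∈ J.powerset, X P := by
    rw [mul_sum, mul_sum, ← sum_sub_distrib]
    exact sum_le_sum fun P _ => hpt P
  have e2 : ∑ P ∈ J.powerset, X P ^ 2 = 2 ^ J.card * s := by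
    rw [← hm2]; exact sum_congr rfl fun P _ => hX2 P
  have e4 : ∑ P ∈ J.powerset, (X P ^ 2) ^ 2 ≤ 2 ^ J.card * (3 * s ^ 2) := by
    refine le_trans (le_of_eq ?_) hm4
    exact sum_congr rfl fun P _ => by rw [hX2 P]
  rw [e2, hb2] at hsum
  set Y := ∑ P ∈ J.powerset, X P with hY
  have hY0 : 0 ≤ Y := sum_nonneg fun P _ => hX0 P
  set n2 : ℝ := 2 ^ J.card with hn2
  have hn20 : 0 < n2 := by positivity
  have hb3 : b ^ 3 = 3 * s * b := by rw [pow_succ, hb2]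
  rw [hb3] at hsum
  -- 6 n2 s^2 ≤ 6 s b Y
  have h5 : n2 * s ≤ b * Y := by
    have h6 : 6 * s * (n2 * s) ≤ 6 * s * (b * Y) := by nlinarith
    exact le_of_mul_le_mul_left h6 (by positivity)
  have hbs : b = Real.sqrt 3 * Real.sqrt s := by rw [hb, Real.sqrt_mul (by norm_num)]
  have hss : Real.sqrt s * Real.sqrt s = s := Real.mul_self_sqrt hpos.le
  have hs1 : 0 < Real.sqrt s := Real.sqrt_pos.mpr hpos
  have h32 : Real.sqrt 3 ≤ 2 := by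
    rw [Real.sqrt_le_left (by norm_num)]; norm_num
  have h7 : Real.sqrt s * (n2 * Real.sqrt s) ≤ Real.sqrt s * (Real.sqrt 3 * Y) := by
    calc Real.sqrt s * (n2 * Real.sqrt s) = n2 * (Real.sqrt s * Real.sqrt s) := by ring
      _ = n2 * s := by rw [hss]
      _ ≤ b * Y := h5
      _ = _ := by rw [hbs]; ring
  have h8 := le_of_mul_le_mul_left h7 hs1
  calc n2 * Real.sqrt s ≤ Real.sqrt 3 * Y := h8
    _ ≤ 2 * Y := by gcongr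

/-- TASK C2 (b): upper Khintchine inequality -/
theorem khin' {ι α : Type} [DecidableEq ι] (J : Finset ι) (A : Finset α) (v : ι → α → ℂ) :
    ∑ P ∈ J.powerset, Real.sqrt (∑ a ∈ A, ‖∑ i ∈ J, (if i ∈ P then (1 : ℂ) else -1) * v i a‖ ^ 2) ≤
      (2 : ℝ) ^ J.card * Real.sqrt (∑ i ∈ J, ∑ a ∈ A, ‖v i a‖ ^ 2) := by
  change ∑ P ∈ J.powerset, Real.sqrt (∑ a ∈ A, ‖Hil_S J v P a‖ ^ 2) ≤
      (2 : ℝ) ^ J.card * Real.sqrt (∑ i ∈ J, ∑ a ∈ A, ‖v i a‖ ^ 2)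
  have hm2 := Hil_M2' A v J
  have hs0 := Hil_s0 A v J
  have h1 : (∑ P ∈ J.powerset, Real.sqrt (∑ a ∈ A, ‖Hil_S J v P a‖ ^ 2)) ^ 2 ≤
      ((2 : ℝ) ^ J.card * Real.sqrt (∑ i ∈ J, ∑ a ∈ A, ‖v i a‖ ^ 2)) ^ 2 := by
    refine (sq_sum_le_card_mul_sum_sq).trans ?_
    rw [card_powerset, mul_pow, Real.sq_sqrt hs0, sq ((2 : ℝ) ^ J.card), mul_assoc, ← hm2]
    push_cast
    apply le_of_eq
    congr 1
    exact sum_congr rfl fun P _ => Real.sq_sqrt (Hil_X0 A v J P)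
  exact (abs_le_of_sq_le_sq' h1 (by positivity)).2

theorem Hil_mulVec {ι : Type} (T : Matrix (Fin (2 ^ M)) (Fin (2 ^ M)) ℂ) (J : Finset ι)
    (ε : ι → ℂ) (F : ι → Fin (2 ^ M) → ℂ) (x : Fin (2 ^ M)) :
    (T *ᵥ fun y => ∑ i ∈ J, ε i * F i y) x = ∑ i ∈ J, ε i * (T *ᵥ F i) x := by
  simp only [Matrix.mulVec, dotProduct]
  simp only [mul_sum]
  rw [sum_comm]
  refine sum_congr rfl fun i _ => sum_congr rfl fun y _ => ?_
  ring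

theorem Hil_haar {ι : Type} (J : Finset ι) (ε : ι → ℂ) (a : ℕ) (F : ι → Fin (2 ^ M) → ℂ)
    (hF : ∀ i, Haar M a (F i)) : Haar M a (fun y => ∑ i ∈ J, ε i * F i y) := by
  unfold Haar at hF ⊢
  funext x
  rw [Hil_mulVec]
  refine sum_congr rfl fun i _ => ?_
  rw [hF i]

/-- TASK C2 (c) -/
theorem hil_sq (T : ℕ → Matrix (Fin (2 ^ M)) (Fin (2 ^ M)) ℂ) (c : ℝ) (hc : 0 ≤ c)
    (h : ∀ F : ℕ → Fin (2 ^ M) → ℂ, (∀ a, Haar M a (F a)) →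
      ∑ x, Real.sqrt (∑ a ∈ range M, ‖(T a *ᵥ F a) x‖ ^ 2) ≤
        c * ∑ x, Real.sqrt (∑ a ∈ range M, ‖F a x‖ ^ 2))
    {ι : Type} (J : Finset ι) (F : ι → ℕ → Fin (2 ^ M) → ℂ) (hF : ∀ i a, Haar M a (F i a)) :
    ∑ x, Real.sqrt (∑ i ∈ J, ∑ a ∈ range M, ‖(T a *ᵥ F i a) x‖ ^ 2) ≤
      2 * c * ∑ x, Real.sqrt (∑ i ∈ J, ∑ a ∈ range M, ‖F i a x‖ ^ 2) := by
  classical
  set n2 : ℝ := 2 ^ J.card with hn2
  have hn20 : 0 < n2 := by positivity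
  set ε : Finset ι → ι → ℂ := fun P i => if i ∈ P then (1 : ℂ) else -1 with hε
  have h1 : n2 * ∑ x, Real.sqrt (∑ i ∈ J, ∑ a ∈ range M, ‖(T a *ᵥ F i a) x‖ ^ 2) ≤
      2 * ∑ P ∈ J.powerset, ∑ x, Real.sqrt (∑ a ∈ range M,
        ‖(T a *ᵥ fun y => ∑ i ∈ J, ε P i * F i a y) x‖ ^ 2) := by
    rw [mul_sum, sum_comm (s := J.powerset), mul_sum]
    refine sum_le_sum fun x _ => ?_
    refine (khin J (range M) (fun i a => (T a *ᵥ F i a) x)).trans (le_of_eq ?_)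
    congr 1
    refine sum_congr rfl fun P _ => ?_
    congr 1
    refine sum_congr rfl fun a _ => ?_
    rw [Hil_mulVec]
  have h2 : ∀ P ∈ J.powerset, ∑ x, Real.sqrt (∑ a ∈ range M,
        ‖(T a *ᵥ fun y => ∑ i ∈ J, ε P i * F i a y) x‖ ^ 2) ≤
      c * ∑ x, Real.sqrt (∑ a ∈ range M, ‖∑ i ∈ J, ε P i * F i a x‖ ^ 2) := by
    intro P _
    exact h (fun a y => ∑ i ∈ J, ε P i * F i a y) fun a =>
      Hil_haar J (ε P) a (fun i => F i a) fun i => hF i a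
  have h3 : ∑ P ∈ J.powerset, ∑ x, Real.sqrt (∑ a ∈ range M, ‖∑ i ∈ J, ε P i * F i a x‖ ^ 2) ≤
      n2 * ∑ x, Real.sqrt (∑ i ∈ J, ∑ a ∈ range M, ‖F i a x‖ ^ 2) := by
    rw [sum_comm, mul_sum]
    exact sum_le_sum fun x _ => khin' J (range M) (fun i a => F i a x)
  have h4 : n2 * ∑ x, Real.sqrt (∑ i ∈ J, ∑ a ∈ range M, ‖(T a *ᵥ F i a) x‖ ^ 2) ≤
      n2 * (2 * c * ∑ x, Real.sqrt (∑ i ∈ J, ∑ a ∈ range M, ‖F i a x‖ ^ 2)) := by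
    calc n2 * ∑ x, Real.sqrt (∑ i ∈ J, ∑ a ∈ range M, ‖(T a *ᵥ F i a) x‖ ^ 2)
        ≤ 2 * ∑ P ∈ J.powerset, ∑ x, Real.sqrt (∑ a ∈ range M,
        ‖(T a *ᵥ fun y => ∑ i ∈ J, ε P i * F i a y) x‖ ^ 2) := h1
      _ ≤ 2 * ∑ P ∈ J.powerset,
          c * ∑ x, Real.sqrt (∑ a ∈ range M, ‖∑ i ∈ J, ε P i * F i a x‖ ^ 2) := by
          gcongr with P hP
          exact h2 P hP
      _ = 2 * c * ∑ P ∈ J.powerset,
          ∑ x, Real.sqrt (∑ a ∈ range M, ‖∑ i ∈ J, ε P i * F i a x‖ ^ 2) := by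
          rw [← mul_sum]; ring
      _ ≤ 2 * c * (n2 * ∑ x, Real.sqrt (∑ i ∈ J, ∑ a ∈ range M, ‖F i a x‖ ^ 2)) := by gcongr
      _ = _ := by ring
  exact le_of_mul_le_mul_left h4 hn20

/-- TASK C2 (d) -/
theorem hil_sum (T : ℕ → Matrix (Fin (2 ^ M)) (Fin (2 ^ M)) ℂ) (c : ℝ) (hc : 0 ≤ c)
    (h : ∀ F : ℕ → Fin (2 ^ M) → ℂ, (∀ a, Haar M a (F a)) →
      ∑ x, ‖∑ a ∈ range M, (T a *ᵥ F a) x‖ ≤
        c * ∑ x, Real.sqrt (∑ a ∈ range M, ‖F a x‖ ^ 2))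
    {ι : Type} (J : Finset ι) (F : ι → ℕ → Fin (2 ^ M) → ℂ) (hF : ∀ i a, Haar M a (F i a)) :
    ∑ x, Real.sqrt (∑ i ∈ J, ‖∑ a ∈ range M, (T a *ᵥ F i a) x‖ ^ 2) ≤
      2 * c * ∑ x, Real.sqrt (∑ i ∈ J, ∑ a ∈ range M, ‖F i a x‖ ^ 2) := by
  classical
  set n2 : ℝ := 2 ^ J.card with hn2
  have hn20 : 0 < n2 := by positivity
  set ε : Finset ι → ι → ℂ := fun P i => if i ∈ P then (1 : ℂ) else -1 with hε
  have h1 : n2 * ∑ x, Real.sqrt (∑ i ∈ J, ‖∑ a ∈ range M, (T a *ᵥ F i a) x‖ ^ 2) ≤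
      2 * ∑ P ∈ J.powerset, ∑ x,
        ‖∑ a ∈ range M, (T a *ᵥ fun y => ∑ i ∈ J, ε P i * F i a y) x‖ := by
    rw [mul_sum, sum_comm (s := J.powerset), mul_sum]
    refine sum_le_sum fun x _ => ?_
    have hk := khin J ({()} : Finset Unit) (fun i _ => ∑ a ∈ range M, (T a *ᵥ F i a) x)
    simp only [sum_singleton] at hk
    refine hk.trans (le_of_eq ?_)
    congr 1
    refine sum_congr rfl fun P _ => ?_
    rw [Real.sqrt_sq (norm_nonneg _)]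
    congr 1
    simp only [Hil_mulVec]
    rw [sum_comm]
    refine sum_congr rfl fun i _ => ?_
    rw [mul_sum]
  have h2 : ∀ P ∈ J.powerset, ∑ x,
        ‖∑ a ∈ range M, (T a *ᵥ fun y => ∑ i ∈ J, ε P i * F i a y) x‖ ≤
      c * ∑ x, Real.sqrt (∑ a ∈ range M, ‖∑ i ∈ J, ε P i * F i a x‖ ^ 2) := by
    intro P _
    exact h (fun a y => ∑ i ∈ J, ε P i * F i a y) fun a =>
      Hil_haar J (ε P) a (fun i => F i a) fun i => hF i a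
  have h3 : ∑ P ∈ J.powerset, ∑ x, Real.sqrt (∑ a ∈ range M, ‖∑ i ∈ J, ε P i * F i a x‖ ^ 2) ≤
      n2 * ∑ x, Real.sqrt (∑ i ∈ J, ∑ a ∈ range M, ‖F i a x‖ ^ 2) := by
    rw [sum_comm, mul_sum]
    exact sum_le_sum fun x _ => khin' J (range M) (fun i a => F i a x)
  have h4 : n2 * ∑ x, Real.sqrt (∑ i ∈ J, ‖∑ a ∈ range M, (T a *ᵥ F i a) x‖ ^ 2) ≤
      n2 * (2 * c * ∑ x, Real.sqrt (∑ i ∈ J, ∑ a ∈ range M, ‖F i a x‖ ^ 2)) := by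
    calc n2 * ∑ x, Real.sqrt (∑ i ∈ J, ‖∑ a ∈ range M, (T a *ᵥ F i a) x‖ ^ 2)
        ≤ 2 * ∑ P ∈ J.powerset, ∑ x,
        ‖∑ a ∈ range M, (T a *ᵥ fun y => ∑ i ∈ J, ε P i * F i a y) x‖ := h1
      _ ≤ 2 * ∑ P ∈ J.powerset,
          c * ∑ x, Real.sqrt (∑ a ∈ range M, ‖∑ i ∈ J, ε P i * F i a x‖ ^ 2) := by
          gcongr with P hP
          exact h2 P hP
      _ = 2 * c * ∑ P ∈ J.powerset,
          ∑ x, Real.sqrt (∑ a ∈ range M, ‖∑ i ∈ J, ε P i * F i a x‖ ^ 2) := by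
          rw [← mul_sum]; ring
      _ ≤ 2 * c * (n2 * ∑ x, Real.sqrt (∑ i ∈ J, ∑ a ∈ range M, ‖F i a x‖ ^ 2)) := by gcongr
      _ = _ := by ring
  exact le_of_mul_le_mul_left h4 hn20

end Pool.Agent.H506R2.LB
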