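import Pool.Agent.H506R2.LB.Hil
import Pool.Agent.H506R2.LB.Ten

/-! TASK C3a: the square function inequality with an operator in every coordinate. -/

set_option autoImplicit false

namespace Pool.Agent.H506R2.LB

open Finset Matrix BernT

variable {d M : ℕ}

/-- summing over the grid by averaging over one coordinate -/
theorem iterSq_avg (s : Fin d) (h : Gr d M → ℝ) :
    (2 : ℝ) ^ M * ∑ x, h x = ∑ x : Gr d M, ∑ z : Fin (2 ^ M), h (Function.update x s z) := by
  classical
  have h1 : ∑ x : Gr d M, ∑ z : Fin (2 ^ M), h (Function.update x s z) =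
      ∑ p : Gr d M × Fin (2 ^ M), h (Function.update p.1 s p.2) := by
    rw [Fintype.sum_prod_type]
  have h2 : ∑ p : Gr d M × Fin (2 ^ M), h (Function.update p.1 s p.2) =
      ∑ p : Gr d M × Fin (2 ^ M), h p.1 := by
    let e : Gr d M × Fin (2 ^ M) ≃ Gr d M × Fin (2 ^ M) :=
      { toFun := fun p => (Function.update p.1 s p.2, p.1 s)
        invFun := fun p => (Function.update p.1 s p.2, p.1 s)
        left_inv := fun p => by
          obtain ⟨x, z⟩ := p
          simp
        right_inv := fun p => by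
          obtain ⟨x, z⟩ := p
          simp }
    exact Fintype.sum_equiv e _ _ (fun p => rfl)
  rw [h1, h2, Fintype.sum_prod_type]
  simp only [Finset.sum_const, Finset.card_univ, Fintype.card_fin, nsmul_eq_mul, ← Finset.mul_sum]
  push_cast
  rfl

/-- matrix action on a line of the grid -/
theorem iterSq_line (s : Fin d) (T : Matrix (Fin (2 ^ M)) (Fin (2 ^ M)) ℂ) (f : Gr d M → ℂ)
    (x : Gr d M) (w : Fin (2 ^ M)) :
    (T *ᵥ (fun z => f (Function.update x s z))) w = cop s T f (Function.update x s w) := by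
  classical
  simp only [Matrix.mulVec, dotProduct, cop, Function.update_self, Function.update_idem]

/-- one coordinate -/
theorem iterSq_step (s : Fin d) (T : ℕ → Matrix (Fin (2 ^ M)) (Fin (2 ^ M)) ℂ) (c : ℝ)
    (hc : 0 ≤ c)
    (h : ∀ F : ℕ → Fin (2 ^ M) → ℂ, (∀ a, Haar M a (F a)) →
      ∑ x, Real.sqrt (∑ a ∈ range M, ‖(T a *ᵥ F a) x‖ ^ 2) ≤
        c * ∑ x, Real.sqrt (∑ a ∈ range M, ‖F a x‖ ^ 2))
    (P : Finset (Fin d → ℕ)) (hP : ∀ K ∈ P, K s < M) (G : (Fin d → ℕ) → Gr d M → ℂ)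
    (hG : ∀ K ∈ P, cop s (Dm M (K s)) (G K) = G K) :
    ∑ x, Real.sqrt (∑ K ∈ P, ‖cop s (T (K s)) (G K) x‖ ^ 2) ≤
      (2 * c) * ∑ x, Real.sqrt (∑ K ∈ P, ‖G K x‖ ^ 2) := by
  classical
  have h2M : (0 : ℝ) < 2 ^ M := by positivity
  have key : ∀ x : Gr d M,
      ∑ z : Fin (2 ^ M), Real.sqrt (∑ K ∈ P, ‖cop s (T (K s)) (G K) (Function.update x s z)‖ ^ 2) ≤
      2 * c * ∑ z : Fin (2 ^ M), Real.sqrt (∑ K ∈ P, ‖G K (Function.update x s z)‖ ^ 2) := by
    intro x
    have hh := hil_sq T c hc h P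
      (fun K a => if K ∈ P ∧ a = K s then (fun z => G K (Function.update x s z)) else 0) (by
        intro K a
        unfold Haar
        by_cases hK : K ∈ P ∧ a = K s
        · simp only [if_pos hK]
          obtain ⟨hK1, rfl⟩ := hK
          funext w
          rw [iterSq_line, hG K hK1]
        · simp only [if_neg hK]
          exact Matrix.mulVec_zero _)
    have e1 : ∀ z : Fin (2 ^ M), ∑ K ∈ P, ‖cop s (T (K s)) (G K) (Function.update x s z)‖ ^ 2 =
        ∑ K ∈ P, ∑ a ∈ range M, ‖(T a *ᵥ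
          (if K ∈ P ∧ a = K s then (fun z => G K (Function.update x s z)) else 0)) z‖ ^ 2 := by
      intro z
      refine Finset.sum_congr rfl fun K hK => ?_
      rw [Finset.sum_eq_single (K s)]
      · rw [if_pos ⟨hK, rfl⟩, iterSq_line]
      · intro a _ ha
        rw [if_neg (fun hh => ha hh.2), Matrix.mulVec_zero]
        simp
      · intro hn
        exact absurd (Finset.mem_range.2 (hP K hK)) hn
    have e2 : ∀ z : Fin (2 ^ M), ∑ K ∈ P, ‖G K (Function.update x s z)‖ ^ 2 =
        ∑ K ∈ P, ∑ a ∈ range M,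
          ‖(if K ∈ P ∧ a = K s then (fun z => G K (Function.update x s z)) else 0) z‖ ^ 2 := by
      intro z
      refine Finset.sum_congr rfl fun K hK => ?_
      rw [Finset.sum_eq_single (K s)]
      · rw [if_pos ⟨hK, rfl⟩]
      · intro a _ ha
        rw [if_neg (fun hh => ha hh.2)]
        simp
      · intro hn
        exact absurd (Finset.mem_range.2 (hP K hK)) hn
    simp only [e1, e2]
    exact hh
  have h1 := iterSq_avg s (fun x => Real.sqrt (∑ K ∈ P, ‖cop s (T (K s)) (G K) x‖ ^ 2))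
  have h2 := iterSq_avg s (fun x => Real.sqrt (∑ K ∈ P, ‖G K x‖ ^ 2))
  refine le_of_mul_le_mul_left ?_ h2M
  rw [h1]
  calc ∑ x : Gr d M, ∑ z : Fin (2 ^ M),
        Real.sqrt (∑ K ∈ P, ‖cop s (T (K s)) (G K) (Function.update x s z)‖ ^ 2)
      ≤ ∑ x : Gr d M, 2 * c * ∑ z : Fin (2 ^ M),
          Real.sqrt (∑ K ∈ P, ‖G K (Function.update x s z)‖ ^ 2) :=
        Finset.sum_le_sum fun x _ => key x
    _ = 2 ^ M * (2 * c * ∑ x, Real.sqrt (∑ K ∈ P, ‖G K x‖ ^ 2)) := by
        rw [← Finset.mul_sum, ← h2]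
        ring

/-- TASK C3a -/
theorem iter_sq (T : Fin d → ℕ → Matrix (Fin (2 ^ M)) (Fin (2 ^ M)) ℂ) (c : Fin d → ℝ)
    (hc : ∀ s, 0 ≤ c s)
    (h : ∀ s, ∀ F : ℕ → Fin (2 ^ M) → ℂ, (∀ a, Haar M a (F a)) →
      ∑ x, Real.sqrt (∑ a ∈ range M, ‖(T s a *ᵥ F a) x‖ ^ 2) ≤
        c s * ∑ x, Real.sqrt (∑ a ∈ range M, ‖F a x‖ ^ 2))
    (P : Finset (Fin d → ℕ)) (hP : ∀ K ∈ P, ∀ s, K s < M) (F : (Fin d → ℕ) → Gr d M → ℂ)
    (hF : ∀ K ∈ P, HaarK K (F K)) :
    ∑ x, Real.sqrt (∑ K ∈ P, ‖ten (fun s => T s (K s)) (F K) x‖ ^ 2) ≤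
      (∏ s, (2 * c s)) * ∑ x, Real.sqrt (∑ K ∈ P, ‖F K x‖ ^ 2) := by
  classical
  have key : ∀ U : Finset (Fin d),
      ∑ x, Real.sqrt (∑ K ∈ P, ‖ten (fun s => if s ∈ U then T s (K s) else 1) (F K) x‖ ^ 2) ≤
      (∏ s ∈ U, (2 * c s)) * ∑ x, Real.sqrt (∑ K ∈ P, ‖F K x‖ ^ 2) := by
    intro U
    induction U using Finset.induction_on with
    | empty =>
      rw [Finset.prod_empty, one_mul]
      refine le_of_eq (Finset.sum_congr rfl fun x _ => ?_)
      congr 1
      refine Finset.sum_congr rfl fun K _ => ?_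
      rw [ten_empty (fun s => T s (K s)) (F K)]
    | insert s U hs ih =>
      have hstep := iterSq_step s (T s) (c s) (hc s) (h s) P (fun K hK => hP K hK s)
        (fun K => ten (fun t => if t ∈ U then T t (K t) else 1) (F K)) (by
          intro K hK
          show cop s (Dm M (K s)) (ten (fun t => if t ∈ U then T t (K t) else 1) (F K)) =
            ten (fun t => if t ∈ U then T t (K t) else 1) (F K)
          have hfix := hF K hK s
          have hcomm : cop s (Dm M (K s)) (ten (fun t => if t ∈ U then T t (K t) else 1) (F K)) =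
              ten (fun t => if t ∈ U then T t (K t) else 1) (cop s (Dm M (K s)) (F K)) := by
            rw [cop_ten, ten_cop]
            congr 2
            simp [hs]
          rw [hcomm, hfix])
      have hrew : ∑ x, Real.sqrt (∑ K ∈ P,
          ‖ten (fun t => if t ∈ insert s U then T t (K t) else 1) (F K) x‖ ^ 2) =
          ∑ x, Real.sqrt (∑ K ∈ P, ‖cop s (T s (K s))
            (ten (fun t => if t ∈ U then T t (K t) else 1) (F K)) x‖ ^ 2) := by
        refine Finset.sum_congr rfl fun x _ => ?_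
        congr 1
        refine Finset.sum_congr rfl fun K _ => ?_
        rw [ten_insert (fun s => T s (K s)) U s hs (F K)]
      rw [hrew, Finset.prod_insert hs, mul_assoc]
      refine hstep.trans ?_
      exact mul_le_mul_of_nonneg_left ih (mul_nonneg (by norm_num) (hc s))
  have h1 := key Finset.univ
  simpa using h1

end Pool.Agent.H506R2.LB
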