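import Pool.Agent.H506R2.LB.Hil
import Pool.Agent.H506R2.LB.Ten

/-! TASK C3b: the `L¹` norm of a sum with an operator in every coordinate. -/

set_option autoImplicit false

namespace Pool.Agent.H506R2.LB

open Finset Matrix BernT

variable {d M : ℕ}

/-! ### slices -/

/-- flip of a slice variable -/
def IterSum_flip (s : Fin d) (p : Gr d M × Fin (2 ^ M)) : Gr d M × Fin (2 ^ M) :=
  (Function.update p.1 s p.2, p.1 s)

theorem IterSum_flip_inv (s : Fin d) : Function.Involutive (IterSum_flip (M := M) s) := by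
  rintro ⟨x, z⟩
  unfold IterSum_flip
  simp

theorem IterSum_slice (s : Fin d) (h : Gr d M → ℝ) :
    ∑ x : Gr d M, ∑ z : Fin (2 ^ M), h (Function.update x s z) = 2 ^ M * ∑ x, h x := by
  classical
  rw [← Fintype.sum_prod_type']
  have h1 := Equiv.sum_comp (IterSum_flip_inv (M := M) s).toPerm (fun p => h p.1)
  have h2 : ∑ p : Gr d M × Fin (2 ^ M), h (Function.update p.1 s p.2) =
      ∑ p : Gr d M × Fin (2 ^ M), h p.1 := h1
  rw [h2, Fintype.sum_prod_type, Finset.mul_sum]
  apply Finset.sum_congr rfl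
  intro x _
  show ∑ _y : Fin (2 ^ M), h x = 2 ^ M * h x
  rw [Finset.sum_const, Finset.card_univ, Fintype.card_fin, nsmul_eq_mul]
  push_cast
  ring

theorem IterSum_cop (s : Fin d) (A : Matrix (Fin (2 ^ M)) (Fin (2 ^ M)) ℂ) (f : Gr d M → ℂ)
    (x : Gr d M) (z : Fin (2 ^ M)) :
    cop s A f (Function.update x s z) = (A *ᵥ (fun w => f (Function.update x s w))) z := by
  unfold cop
  simp only [Function.update_self, Function.update_idem, Matrix.mulVec, dotProduct]

/-! ### classes -/

/-- forget the coordinates in `U` -/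
def IterSum_mask (U : Finset (Fin d)) (K : Fin d → ℕ) : Fin d → ℕ :=
  fun t => if t ∈ U then 0 else K t

/-- operators in the coordinates of `U` -/
noncomputable def IterSum_G (T : Fin d → ℕ → Matrix (Fin (2 ^ M)) (Fin (2 ^ M)) ℂ)
    (F : (Fin d → ℕ) → Gr d M → ℂ) (U : Finset (Fin d)) (K : Fin d → ℕ) : Gr d M → ℂ :=
  ten (fun t => if t ∈ U then T t (K t) else 1) (F K)

/-- sum over a class -/
noncomputable def IterSum_H (T : Fin d → ℕ → Matrix (Fin (2 ^ M)) (Fin (2 ^ M)) ℂ)
    (F : (Fin d → ℕ) → Gr d M → ℂ) (P : Finset (Fin d → ℕ)) (U : Finset (Fin d))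
    (i : Fin d → ℕ) : Gr d M → ℂ :=
  ∑ K ∈ P.filter (fun K => IterSum_mask U K = i), IterSum_G T F U K

/-- the intermediate quantity -/
noncomputable def IterSum_Q (T : Fin d → ℕ → Matrix (Fin (2 ^ M)) (Fin (2 ^ M)) ℂ)
    (F : (Fin d → ℕ) → Gr d M → ℂ) (P : Finset (Fin d → ℕ)) (U : Finset (Fin d)) : ℝ :=
  ∑ x, Real.sqrt (∑ i ∈ P.image (IterSum_mask U), ‖IterSum_H T F P U i x‖ ^ 2)

theorem IterSum_mask_iff {U : Finset (Fin d)} {s : Fin d} (hs : s ∉ U) {i K : Fin d → ℕ} {a : ℕ}
    (hi : i s = 0) : (IterSum_mask (insert s U) K = i ∧ K s = a) ↔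
      IterSum_mask U K = Function.update i s a := by
  constructor
  · rintro ⟨h1, h2⟩
    funext t
    by_cases ht : t = s
    · subst ht
      rw [Function.update_self]
      unfold IterSum_mask
      rw [if_neg hs, h2]
    · rw [Function.update_of_ne ht, ← h1]
      unfold IterSum_mask
      simp [Finset.mem_insert, ht]
  · intro h
    refine ⟨?_, ?_⟩
    · funext t
      have h1 := congrFun h t
      by_cases ht : t = s
      · subst ht
        unfold IterSum_mask
        simp [hi]
      · rw [Function.update_of_ne ht] at h1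
        rw [← h1]
        unfold IterSum_mask
        simp [Finset.mem_insert, ht]
    · have h1 := congrFun h s
      rw [Function.update_self] at h1
      unfold IterSum_mask at h1
      rw [if_neg hs] at h1
      exact h1

theorem IterSum_step (T : Fin d → ℕ → Matrix (Fin (2 ^ M)) (Fin (2 ^ M)) ℂ) (c : Fin d → ℝ)
    (hc : ∀ s, 0 ≤ c s)
    (h : ∀ s, ∀ F : ℕ → Fin (2 ^ M) → ℂ, (∀ a, Haar M a (F a)) →
      ∑ x, ‖∑ a ∈ range M, (T s a *ᵥ F a) x‖ ≤
        c s * ∑ x, Real.sqrt (∑ a ∈ range M, ‖F a x‖ ^ 2))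
    (P : Finset (Fin d → ℕ)) (hP : ∀ K ∈ P, ∀ s, K s < M) (F : (Fin d → ℕ) → Gr d M → ℂ)
    (hF : ∀ K ∈ P, HaarK K (F K)) (U : Finset (Fin d)) (s : Fin d) (hs : s ∉ U) :
    IterSum_Q T F P (insert s U) ≤ 2 * c s * IterSum_Q T F P U := by
  classical
  obtain ⟨J, hJ⟩ : ∃ J, J = P.image (IterSum_mask (insert s U)) := ⟨_, rfl⟩
  have hJ0 : ∀ i ∈ J, i s = 0 := by
    intro i hi
    rw [hJ] at hi
    obtain ⟨K, -, rfl⟩ := Finset.mem_image.1 hi
    unfold IterSum_mask
    rw [if_pos (Finset.mem_insert_self s U)]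
  -- the slices
  obtain ⟨F', hF'⟩ : ∃ F' : (Fin d → ℕ) → ℕ → Gr d M → ℂ, F' = fun i a =>
      ∑ K ∈ P.filter (fun K => IterSum_mask (insert s U) K = i ∧ K s = a), IterSum_G T F U K :=
    ⟨_, rfl⟩
  -- they are Haar functions in the coordinate `s`
  have hG : ∀ K ∈ P, cop s (Dm M (K s)) (IterSum_G T F U K) = IterSum_G T F U K := by
    intro K hK
    unfold IterSum_G
    have h1 := ten_cop s (Dm M (K s)) (fun t => if t ∈ U then T t (K t) else 1) (F K)
    have h2 := cop_ten s (Dm M (K s)) (fun t => if t ∈ U then T t (K t) else 1) (F K)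
    rw [hF K hK s] at h1
    simp only [if_neg hs, one_mul] at h1
    simp only [if_neg hs, mul_one] at h2
    rw [h2, ← h1]
  have hHaar : ∀ (i : Fin d → ℕ) (a : ℕ) (x : Gr d M),
      Haar M a (fun w => F' i a (Function.update x s w)) := by
    intro i a x
    have h1 : cop s (Dm M a) (F' i a) = F' i a := by
      rw [hF']
      show cop s (Dm M a) (∑ K ∈ P.filter (fun K => IterSum_mask (insert s U) K = i ∧ K s = a),
        IterSum_G T F U K) = _
      rw [cop_sum_right]
      apply Finset.sum_congr rfl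
      intro K hK
      rw [Finset.mem_filter] at hK
      rw [← hK.2.2]
      exact hG K hK.1
    unfold Haar
    funext z
    rw [← IterSum_cop, h1]
  -- the sum over a class
  have hH : ∀ i, IterSum_H T F P (insert s U) i = ∑ a ∈ range M, cop s (T s a) (F' i a) := by
    intro i
    have h1 : ∀ a ∈ range M, cop s (T s a) (F' i a) =
        ∑ K ∈ (P.filter (fun K => IterSum_mask (insert s U) K = i)).filter (fun K => K s = a),
          IterSum_G T F (insert s U) K := by
      intro a _
      rw [hF']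
      show cop s (T s a) (∑ K ∈ P.filter (fun K => IterSum_mask (insert s U) K = i ∧ K s = a),
        IterSum_G T F U K) = _
      rw [cop_sum_right, Finset.filter_filter]
      apply Finset.sum_congr rfl
      intro K hK
      rw [Finset.mem_filter] at hK
      unfold IterSum_G
      rw [ten_insert (fun t => T t (K t)) U s hs, hK.2.2]
    rw [Finset.sum_congr rfl h1]
    unfold IterSum_H
    rw [Finset.sum_fiberwise_of_maps_to]
    intro K hK
    rw [Finset.mem_filter] at hK
    exact Finset.mem_range.2 (hP K hK.1 s)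
  -- comparison of the classes
  have hcls : ∀ y : Gr d M, ∑ i ∈ J, ∑ a ∈ range M, ‖F' i a y‖ ^ 2 ≤
      ∑ k ∈ P.image (IterSum_mask U), ‖IterSum_H T F P U k y‖ ^ 2 := by
    intro y
    have h1 : ∀ i ∈ J, ∀ a ∈ range M, F' i a y = IterSum_H T F P U (Function.update i s a) y := by
      intro i hi a _
      rw [hF']
      unfold IterSum_H
      simp only
      rw [Finset.filter_congr (fun K _ => IterSum_mask_iff (K := K) (a := a) hs (hJ0 i hi))]
    have h2 : ∑ i ∈ J, ∑ a ∈ range M, ‖F' i a y‖ ^ 2 =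
        ∑ p ∈ J ×ˢ range M, ‖IterSum_H T F P U (Function.update p.1 s p.2) y‖ ^ 2 := by
      rw [Finset.sum_product]
      apply Finset.sum_congr rfl
      intro i hi
      apply Finset.sum_congr rfl
      intro a ha
      rw [h1 i hi a ha]
    have h3 : ∑ p ∈ J ×ˢ range M, ‖IterSum_H T F P U (Function.update p.1 s p.2) y‖ ^ 2 =
        ∑ k ∈ (J ×ˢ range M).image (fun p => Function.update p.1 s p.2),
          ‖IterSum_H T F P U k y‖ ^ 2 := by
      rw [Finset.sum_image]
      rintro ⟨i, a⟩ hp ⟨i', a'⟩ hp' he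
      have q1 := hJ0 i (Finset.mem_product.1 hp).1
      have q2 := hJ0 i' (Finset.mem_product.1 hp').1
      simp only at he q1 q2
      have e1 : a = a' := by
        have := congrFun he s
        rwa [Function.update_self, Function.update_self] at this
      have e2 : i = i' := by
        funext t
        by_cases ht : t = s
        · subst ht; rw [q1, q2]
        · have := congrFun he t
          rwa [Function.update_of_ne ht, Function.update_of_ne ht] at this
      rw [e1, e2]
    rw [h2, h3]
    have h4 : ∑ k ∈ (J ×ˢ range M).image (fun p => Function.update p.1 s p.2),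
          ‖IterSum_H T F P U k y‖ ^ 2 =
        ∑ k ∈ ((J ×ˢ range M).image (fun p => Function.update p.1 s p.2)).filter
          (fun k => k ∈ P.image (IterSum_mask U)), ‖IterSum_H T F P U k y‖ ^ 2 := by
      symm
      apply Finset.sum_filter_of_ne
      intro k _ hk
      by_contra hcon
      apply hk
      have : P.filter (fun K => IterSum_mask U K = k) = ∅ := by
        apply Finset.filter_eq_empty_iff.2
        intro K hK he
        exact hcon (Finset.mem_image.2 ⟨K, hK, he⟩)
      unfold IterSum_H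
      rw [this, Finset.sum_empty]
      simp
    rw [h4]
    apply Finset.sum_le_sum_of_subset_of_nonneg
    · intro k hk
      exact (Finset.mem_filter.1 hk).2
    · intro k _ _
      positivity
  -- one line
  have hline : ∀ x : Gr d M, ∑ z : Fin (2 ^ M), Real.sqrt (∑ i ∈ J,
      ‖IterSum_H T F P (insert s U) i (Function.update x s z)‖ ^ 2) ≤
      2 * c s * ∑ z : Fin (2 ^ M), Real.sqrt (∑ k ∈ P.image (IterSum_mask U),
        ‖IterSum_H T F P U k (Function.update x s z)‖ ^ 2) := by
    intro x
    have h1 := hil_sum (T s) (c s) (hc s) (h s) J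
      (fun i a w => F' i a (Function.update x s w)) (fun i a => hHaar i a x)
    have h2 : ∀ z : Fin (2 ^ M), Real.sqrt (∑ i ∈ J,
        ‖IterSum_H T F P (insert s U) i (Function.update x s z)‖ ^ 2) =
        Real.sqrt (∑ i ∈ J, ‖∑ a ∈ range M,
          (T s a *ᵥ (fun w => F' i a (Function.update x s w))) z‖ ^ 2) := by
      intro z
      congr 1
      apply Finset.sum_congr rfl
      intro i _
      rw [hH i, Finset.sum_apply]
      congr 2
      apply Finset.sum_congr rfl
      intro a _
      exact IterSum_cop s (T s a) (F' i a) x z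
    rw [Finset.sum_congr rfl (fun z _ => h2 z)]
    refine h1.trans (mul_le_mul_of_nonneg_left ?_ (mul_nonneg (by norm_num) (hc s)))
    apply Finset.sum_le_sum
    intro z _
    exact Real.sqrt_le_sqrt (hcls (Function.update x s z))
  have hsum := Finset.sum_le_sum (fun x (_ : x ∈ (univ : Finset (Gr d M))) => hline x)
  rw [← Finset.mul_sum,
    IterSum_slice s (fun y => Real.sqrt (∑ i ∈ J, ‖IterSum_H T F P (insert s U) i y‖ ^ 2)),
    IterSum_slice s (fun y => Real.sqrt (∑ k ∈ P.image (IterSum_mask U),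
        ‖IterSum_H T F P U k y‖ ^ 2))] at hsum
  unfold IterSum_Q
  rw [← hJ]
  have h2M : (0 : ℝ) < 2 ^ M := by positivity
  have e : 2 * c s * (2 ^ M * ∑ x, Real.sqrt (∑ k ∈ P.image (IterSum_mask U),
      ‖IterSum_H T F P U k x‖ ^ 2)) = 2 ^ M * (2 * c s * ∑ x, Real.sqrt (∑ k ∈
      P.image (IterSum_mask U), ‖IterSum_H T F P U k x‖ ^ 2)) := by ring
  rw [e] at hsum
  exact le_of_mul_le_mul_left hsum h2M

/-- TASK C3b -/
theorem iter_sum (T : Fin d → ℕ → Matrix (Fin (2 ^ M)) (Fin (2 ^ M)) ℂ) (c : Fin d → ℝ)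
    (hc : ∀ s, 0 ≤ c s)
    (h : ∀ s, ∀ F : ℕ → Fin (2 ^ M) → ℂ, (∀ a, Haar M a (F a)) →
      ∑ x, ‖∑ a ∈ range M, (T s a *ᵥ F a) x‖ ≤
        c s * ∑ x, Real.sqrt (∑ a ∈ range M, ‖F a x‖ ^ 2))
    (P : Finset (Fin d → ℕ)) (hP : ∀ K ∈ P, ∀ s, K s < M) (F : (Fin d → ℕ) → Gr d M → ℂ)
    (hF : ∀ K ∈ P, HaarK K (F K)) :
    L1 (∑ K ∈ P, ten (fun s => T s (K s)) (F K)) ≤
      (∏ s, (2 * c s)) * ∑ x, Real.sqrt (∑ K ∈ P, ‖F K x‖ ^ 2) := by
  classical
  have key : ∀ U : Finset (Fin d), IterSum_Q T F P U ≤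
      (∏ s ∈ U, (2 * c s)) * IterSum_Q T F P ∅ := by
    intro U
    induction U using Finset.induction_on with
    | empty => rw [Finset.prod_empty, one_mul]
    | insert s U hs ih =>
      rw [Finset.prod_insert hs]
      calc IterSum_Q T F P (insert s U) ≤ 2 * c s * IterSum_Q T F P U :=
            IterSum_step T c hc h P hP F hF U s hs
        _ ≤ 2 * c s * ((∏ s ∈ U, (2 * c s)) * IterSum_Q T F P ∅) :=
            mul_le_mul_of_nonneg_left ih (mul_nonneg (by norm_num) (hc s))
        _ = _ := by ring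
  have h0 : IterSum_Q T F P ∅ = ∑ x, Real.sqrt (∑ K ∈ P, ‖F K x‖ ^ 2) := by
    have hm : IterSum_mask (∅ : Finset (Fin d)) = id := by
      funext K t
      simp [IterSum_mask]
    unfold IterSum_Q
    apply Finset.sum_congr rfl
    intro x _
    rw [hm, Finset.image_id]
    congr 1
    apply Finset.sum_congr rfl
    intro K hK
    unfold IterSum_H
    have hf : P.filter (fun K' => IterSum_mask (∅ : Finset (Fin d)) K' = K) = {K} := by
      rw [hm]
      ext K'
      simp only [Finset.mem_filter, id_eq, Finset.mem_singleton]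
      constructor
      · exact fun h => h.2
      · rintro rfl; exact ⟨hK, rfl⟩
    rw [hf, Finset.sum_singleton]
    unfold IterSum_G
    rw [ten_empty (fun t => T t (K t))]
  have h1 : L1 (∑ K ∈ P, ten (fun s => T s (K s)) (F K)) ≤ IterSum_Q T F P univ := by
    have hm : ∀ K, IterSum_mask (univ : Finset (Fin d)) K = 0 := by
      intro K
      funext t
      simp [IterSum_mask]
    unfold L1 IterSum_Q
    apply Finset.sum_le_sum
    intro x _
    rcases P.eq_empty_or_nonempty with hPe | ⟨K0, hK0⟩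
    · rw [hPe]
      simp
    · have him : P.image (IterSum_mask (univ : Finset (Fin d))) = {0} := by
        ext k
        simp only [Finset.mem_image, Finset.mem_singleton]
        constructor
        · rintro ⟨K, -, rfl⟩; exact hm K
        · rintro rfl; exact ⟨K0, hK0, hm K0⟩
      rw [him, Finset.sum_singleton, Real.sqrt_sq (norm_nonneg _)]
      unfold IterSum_H
      have hf : P.filter (fun K' => IterSum_mask (univ : Finset (Fin d)) K' = 0) = P := by
        apply Finset.filter_true_of_mem
        intro K _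
        exact hm K
      rw [hf]
      apply le_of_eq
      have hsum : ∑ K ∈ P, ten (fun s => T s (K s)) (F K) = ∑ K ∈ P, IterSum_G T F univ K := by
        apply Finset.sum_congr rfl
        intro K _
        unfold IterSum_G
        rw [ten_univ (fun t => T t (K t))]
      rw [hsum]
  calc L1 (∑ K ∈ P, ten (fun s => T s (K s)) (F K)) ≤ IterSum_Q T F P univ := h1
    _ ≤ (∏ s, (2 * c s)) * IterSum_Q T F P ∅ := key univ
    _ = _ := by rw [h0]

end Pool.Agent.H506R2.LB
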