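import Mathlib

/-! TASK A5: from the distributional inequality to the `L¹` inequality. -/

set_option autoImplicit false

namespace Pool.Agent.H506R2.LB

open Finset

open Classical in
theorem Layer_u (δ u : ℝ) (hδ : 0 < δ) (n : ℕ) :
    min u (δ * 2 ^ n) ≤ δ + ∑ k ∈ range n, (if δ * 2 ^ k < u then δ * 2 ^ k else 0) := by
  induction n with
  | zero => simp
  | succ n ih =>
    rw [sum_range_succ]
    have ht : 0 < δ * 2 ^ n := by positivity
    have e : δ * 2 ^ (n + 1) = 2 * (δ * 2 ^ n) := by ring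
    rw [e]
    split_ifs with h
    · have h1 : min u (δ * 2 ^ n) = δ * 2 ^ n := min_eq_right h.le
      have h2 := min_le_right u (2 * (δ * 2 ^ n))
      rw [h1] at ih
      linarith
    · push Not at h
      have h1 : min u (δ * 2 ^ n) = u := min_eq_left h
      have h2 := min_le_left u (2 * (δ * 2 ^ n))
      rw [h1] at ih
      linarith

open Classical in
theorem Layer_v (δ v : ℝ) (hδ : 0 < δ) (hv : 0 ≤ v) (n : ℕ) :
    ∑ k ∈ range n, (if δ * 2 ^ k < v then δ * 2 ^ k else 0) ≤ 2 * v := by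
  have h1 : ∀ n : ℕ, ∑ k ∈ range n, (if δ * 2 ^ k < v then δ * 2 ^ k else 0) ≤ δ * 2 ^ n := by
    intro n
    induction n with
    | zero => simp [hδ.le]
    | succ n ih =>
      rw [sum_range_succ]
      have ht : 0 < δ * 2 ^ n := by positivity
      have e : δ * 2 ^ (n + 1) = 2 * (δ * 2 ^ n) := by ring
      rw [e]
      split_ifs with h <;> linarith
  induction n with
  | zero => simp [hv]
  | succ n ih =>
    rw [sum_range_succ]
    split_ifs with h
    · have := h1 n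
      linarith
    · linarith

theorem Layer_q1 (δ v : ℝ) (hδ : 0 < δ) (hv : 0 ≤ v) (n : ℕ) :
    ∑ k ∈ range n, (min v (δ * 2 ^ k)) ^ 2 / (δ * 2 ^ k) ≤ δ * 2 ^ n := by
  induction n with
  | zero => simp [hδ.le]
  | succ n ih =>
    rw [sum_range_succ]
    have ht : 0 < δ * 2 ^ n := by positivity
    have e : δ * 2 ^ (n + 1) = 2 * (δ * 2 ^ n) := by ring
    rw [e]
    have h0 : 0 ≤ min v (δ * 2 ^ n) := le_min hv ht.le
    have h1 : (min v (δ * 2 ^ n)) ^ 2 / (δ * 2 ^ n) ≤ δ * 2 ^ n := by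
      rw [div_le_iff₀ ht]
      have := min_le_right v (δ * 2 ^ n)
      nlinarith
    linarith

theorem Layer_q2 (δ v : ℝ) (hδ : 0 < δ) (hv : 0 ≤ v) (n : ℕ) (hn : v ≤ δ * 2 ^ n) :
    ∑ k ∈ range n, (min v (δ * 2 ^ k)) ^ 2 / (δ * 2 ^ k) ≤ 4 * v - 2 * v ^ 2 / (δ * 2 ^ n) := by
  induction n with
  | zero =>
    simp only [pow_zero, mul_one] at hn ⊢
    rw [range_zero, sum_empty, sub_nonneg, div_le_iff₀ hδ]
    nlinarith
  | succ n ih =>
    have ht : 0 < δ * 2 ^ n := by positivity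
    have e : δ * 2 ^ (n + 1) = 2 * (δ * 2 ^ n) := by ring
    rcases le_or_gt v (δ * 2 ^ n) with h | h
    · have h1 := ih h
      rw [sum_range_succ, min_eq_left h, e]
      have h2 : 2 * v ^ 2 / (2 * (δ * 2 ^ n)) = v ^ 2 / (δ * 2 ^ n) := by
        rw [mul_div_mul_left _ _ two_ne_zero]
      have h3 : 2 * v ^ 2 / (δ * 2 ^ n) = 2 * (v ^ 2 / (δ * 2 ^ n)) := by
        rw [mul_div_assoc]
      rw [h2]
      rw [h3] at h1
      linarith
    · have h1 := Layer_q1 δ v hδ hv (n + 1)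
      rw [e] at h1 hn ⊢
      have h2 : 2 * v ^ 2 / (2 * (δ * 2 ^ n)) ≤ 2 * v := by
        rw [div_le_iff₀ (by positivity)]
        nlinarith
      linarith

open Classical in
/-- TASK A5 -/
theorem layer {X : Type} [Fintype X] (u v : X → ℝ) (hu : ∀ x, 0 ≤ u x) (hv : ∀ x, 0 ≤ v x)
    (C : ℝ) (hC : 0 ≤ C)
    (h : ∀ t : ℝ, 0 < t → ((univ.filter (fun x => t < u x)).card : ℝ) ≤
      C * (((univ.filter (fun x => t < v x)).card : ℝ) + (∑ x, (min (v x) t) ^ 2) / t ^ 2)) :
    ∑ x, u x ≤ 10 * C * ∑ x, v x := by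
  have hV : 0 ≤ ∑ x, v x := Finset.sum_nonneg fun x _ => hv x
  have key : ∀ δ : ℝ, 0 < δ → ∑ x, u x ≤ Fintype.card X * δ + 6 * C * ∑ x, v x := by
    intro δ hδ
    obtain ⟨n, hn⟩ : ∃ n : ℕ, ∀ x, u x ≤ δ * 2 ^ n ∧ v x ≤ δ * 2 ^ n := by
      obtain ⟨n, hn⟩ := pow_unbounded_of_one_lt ((∑ x, u x + ∑ x, v x) / δ)
        (one_lt_two : (1 : ℝ) < 2)
      refine ⟨n, fun x => ?_⟩
      rw [div_lt_iff₀ hδ] at hn
      have h1 : u x ≤ ∑ x, u x := Finset.single_le_sum (fun y _ => hu y) (Finset.mem_univ x)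
      have h2 : v x ≤ ∑ x, v x := Finset.single_le_sum (fun y _ => hv y) (Finset.mem_univ x)
      have h3 : 0 ≤ ∑ x, u x := Finset.sum_nonneg fun x _ => hu x
      constructor <;> linarith
    have h1 : ∀ x, u x ≤ δ + ∑ k ∈ range n, (if δ * 2 ^ k < u x then δ * 2 ^ k else 0) := by
      intro x
      have := Layer_u δ (u x) hδ n
      rwa [min_eq_left (hn x).1] at this
    have h2 : ∀ k ∈ range n, ∑ x, (if δ * 2 ^ k < u x then δ * 2 ^ k else 0) ≤
        C * (∑ x, (if δ * 2 ^ k < v x then δ * 2 ^ k else 0) +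
          ∑ x, (min (v x) (δ * 2 ^ k)) ^ 2 / (δ * 2 ^ k)) := by
      intro k _
      have ht : 0 < δ * 2 ^ k := by positivity
      have e1 : ∀ w : X → ℝ, ∑ x, (if δ * 2 ^ k < w x then δ * 2 ^ k else 0) =
          ((univ.filter (fun x => δ * 2 ^ k < w x)).card : ℝ) * (δ * 2 ^ k) := by
        intro w
        rw [← Finset.sum_filter, Finset.sum_const, nsmul_eq_mul]
      rw [e1, e1]
      have h3 := mul_le_mul_of_nonneg_right (h (δ * 2 ^ k) ht) ht.le
      refine h3.trans (le_of_eq ?_)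
      rw [← Finset.sum_div]
      field_simp
    have h3 : ∑ x, ∑ k ∈ range n, (if δ * 2 ^ k < v x then δ * 2 ^ k else 0) ≤ 2 * ∑ x, v x := by
      rw [Finset.mul_sum]
      exact Finset.sum_le_sum fun x _ => Layer_v δ (v x) hδ (hv x) n
    have h4 : ∑ x, ∑ k ∈ range n, (min (v x) (δ * 2 ^ k)) ^ 2 / (δ * 2 ^ k) ≤
        4 * ∑ x, v x := by
      rw [Finset.mul_sum]
      refine Finset.sum_le_sum fun x _ => ?_
      have h5 := Layer_q2 δ (v x) hδ (hv x) n (hn x).2
      have h6 : 0 ≤ 2 * (v x) ^ 2 / (δ * 2 ^ n) := by positivity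
      linarith
    calc ∑ x, u x ≤ ∑ x, (δ + ∑ k ∈ range n, (if δ * 2 ^ k < u x then δ * 2 ^ k else 0)) :=
          Finset.sum_le_sum fun x _ => h1 x
      _ = Fintype.card X * δ +
          ∑ k ∈ range n, ∑ x, (if δ * 2 ^ k < u x then δ * 2 ^ k else 0) := by
          rw [Finset.sum_add_distrib, Finset.sum_const, Finset.card_univ, nsmul_eq_mul,
            Finset.sum_comm]
      _ ≤ Fintype.card X * δ + ∑ k ∈ range n,
          C * (∑ x, (if δ * 2 ^ k < v x then δ * 2 ^ k else 0) +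
            ∑ x, (min (v x) (δ * 2 ^ k)) ^ 2 / (δ * 2 ^ k)) := by
          have := Finset.sum_le_sum h2
          linarith
      _ = Fintype.card X * δ + C * (∑ x, ∑ k ∈ range n, (if δ * 2 ^ k < v x then δ * 2 ^ k else 0) +
            ∑ x, ∑ k ∈ range n, (min (v x) (δ * 2 ^ k)) ^ 2 / (δ * 2 ^ k)) := by
          rw [← Finset.mul_sum, Finset.sum_add_distrib]
          congr 2
          rw [Finset.sum_comm]
          congr 1
          rw [Finset.sum_comm]
      _ ≤ Fintype.card X * δ + C * (2 * ∑ x, v x + 4 * ∑ x, v x) := by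
          have := mul_le_mul_of_nonneg_left (add_le_add h3 h4) hC
          linarith
      _ = _ := by ring
  have h6 : ∑ x, u x ≤ 6 * C * ∑ x, v x := by
    refine le_of_forall_pos_le_add fun ε hε => ?_
    have hc : (0 : ℝ) ≤ Fintype.card X := Nat.cast_nonneg _
    have h7 := key (ε / (Fintype.card X + 1)) (by positivity)
    have h8 : (Fintype.card X : ℝ) * (ε / (Fintype.card X + 1)) ≤ ε := by
      rw [← mul_div_assoc, div_le_iff₀ (by positivity)]
      nlinarith
    linarith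
  have : 0 ≤ C * ∑ x, v x := mul_nonneg hC hV
  nlinarith

end Pool.Agent.H506R2.LB
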