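import Pool.Agent.H730R2.LD.Sys

/-! TASK B3: Lépingle's inequality in `L¹` (one coordinate, vector valued). -/

set_option autoImplicit false

namespace Pool.Agent.H506R2.LB

open Finset Pool.Agent.H730R2.LD

theorem Lep_l2_add {ι : Type*} (J : Finset ι) (f g : ι → ℝ) :
    Real.sqrt (∑ i ∈ J, (f i + g i) ^ 2) ≤
      Real.sqrt (∑ i ∈ J, (f i) ^ 2) + Real.sqrt (∑ i ∈ J, (g i) ^ 2) := by
  have h1 : ∑ i ∈ J, f i * g i ≤ Real.sqrt (∑ i ∈ J, (f i) ^ 2) * Real.sqrt (∑ i ∈ J, (g i) ^ 2) :=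
    Real.sum_mul_le_sqrt_mul_sqrt J f g
  have hF : 0 ≤ ∑ i ∈ J, (f i) ^ 2 := Finset.sum_nonneg fun _ _ => sq_nonneg _
  have hG : 0 ≤ ∑ i ∈ J, (g i) ^ 2 := Finset.sum_nonneg fun _ _ => sq_nonneg _
  rw [Real.sqrt_le_left (by positivity)]
  have h2 : ∑ i ∈ J, (f i + g i) ^ 2 =
      ∑ i ∈ J, (f i) ^ 2 + ∑ i ∈ J, (g i) ^ 2 + 2 * ∑ i ∈ J, f i * g i := by
    rw [Finset.mul_sum, ← Finset.sum_add_distrib, ← Finset.sum_add_distrib]
    exact Finset.sum_congr rfl fun i _ => by ring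
  rw [h2]
  nlinarith [Real.sq_sqrt hF, Real.sq_sqrt hG]

theorem Lep_l2_le_sum {ι : Type*} (J : Finset ι) (f : ι → ℝ) (hf : ∀ i ∈ J, 0 ≤ f i) :
    Real.sqrt (∑ i ∈ J, (f i) ^ 2) ≤ ∑ i ∈ J, f i := by
  classical
  rw [Real.sqrt_le_left (Finset.sum_nonneg hf)]
  exact Finset.sum_sq_le_sq_sum_of_nonneg hf

variable {d R : ℕ} {X : Type} [Fintype X] (S : Sys d R X)

/-- conditional Minkowski inequality -/
theorem Lep_mink (s : Fin d) (k : ℕ) {α : Type} (J : Finset α) (g : α → X → ℝ) (x : X) :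
    Real.sqrt (∑ a ∈ J, (S.E s k (g a) x) ^ 2) ≤
      S.E s k (fun y => Real.sqrt (∑ a ∈ J, (g a y) ^ 2)) x := by
  obtain ⟨N, hN⟩ : ∃ N, N = Real.sqrt (∑ a ∈ J, (S.E s k (g a) x) ^ 2) := ⟨_, rfl⟩
  have hN0 : 0 ≤ N := hN ▸ Real.sqrt_nonneg _
  have hsq : N * N = ∑ a ∈ J, (S.E s k (g a) x) ^ 2 := by
    rw [hN]
    exact Real.mul_self_sqrt (Finset.sum_nonneg fun _ _ => sq_nonneg _)
  have hE0 : 0 ≤ S.E s k (fun y => Real.sqrt (∑ a ∈ J, (g a y) ^ 2)) x :=
    S.E_nonneg s k (fun y => Real.sqrt_nonneg _) x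
  rw [← hN]
  have h1 : S.E s k (∑ a ∈ J, (S.E s k (g a) x) • g a) x ≤
      S.E s k (N • (fun y => Real.sqrt (∑ a ∈ J, (g a y) ^ 2))) x := by
    refine S.E_mono s k (fun y => ?_) x
    simp only [Finset.sum_apply, Pi.smul_apply, smul_eq_mul]
    rw [hN]
    exact Real.sum_mul_le_sqrt_mul_sqrt J _ _
  rw [map_sum, map_smul] at h1
  simp only [Finset.sum_apply, Pi.smul_apply, map_smul, smul_eq_mul] at h1
  have h2 : ∑ a ∈ J, S.E s k (g a) x * S.E s k (g a) x = N * N := by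
    rw [hsq]
    exact Finset.sum_congr rfl fun a _ => by ring
  rw [h2] at h1
  rcases hN0.eq_or_lt with h | h
  · rw [← h]; exact hE0
  · exact le_of_mul_le_mul_left h1 h

/-- running maximum -/
noncomputable def Lep_m (z : ℕ → X → ℝ) : ℕ → X → ℝ
  | 0 => fun _ => 0
  | i + 1 => fun x => max (Lep_m z i x) (z i x)

/-- the regular part -/
noncomputable def Lep_a (z : ℕ → X → ℝ) (i : ℕ) : X → ℝ :=
  fun x => if z i x ≤ 2 * Lep_m z i x then z i x else 0

/-- the square function of the regular part -/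
noncomputable def Lep_A (z : ℕ → X → ℝ) (i : ℕ) : X → ℝ :=
  fun x => Real.sqrt (∑ l ∈ range i, (Lep_a z l x) ^ 2)

omit [Fintype X] in
theorem Lep_m_nonneg (z : ℕ → X → ℝ) (i : ℕ) (x : X) : 0 ≤ Lep_m z i x := by
  induction i with
  | zero => exact le_rfl
  | succ i ih => exact ih.trans (le_max_left _ _)

omit [Fintype X] in
theorem Lep_m_le (z : ℕ → X → ℝ) (n : ℕ) (x : X) :
    Lep_m z n x ≤ Real.sqrt (∑ l ∈ range n, (z l x) ^ 2) := by
  induction n with
  | zero => exact Real.sqrt_nonneg _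
  | succ n ih =>
    have h1 : ∑ l ∈ range n, (z l x) ^ 2 ≤ ∑ l ∈ range (n + 1), (z l x) ^ 2 := by
      rw [sum_range_succ]; nlinarith [sq_nonneg (z n x)]
    refine max_le (ih.trans (Real.sqrt_le_sqrt h1)) ?_
    refine Real.le_sqrt_of_sq_le ?_
    rw [sum_range_succ]
    have : 0 ≤ ∑ l ∈ range n, (z l x) ^ 2 := Finset.sum_nonneg fun _ _ => sq_nonneg _
    linarith

omit [Fintype X] in
theorem Lep_a_nonneg (z : ℕ → X → ℝ) (hz : ∀ i x, 0 ≤ z i x) (i : ℕ) (x : X) :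
    0 ≤ Lep_a z i x := by
  unfold Lep_a
  split_ifs
  · exact hz i x
  · exact le_rfl

omit [Fintype X] in
theorem Lep_a_le (z : ℕ → X → ℝ) (hz : ∀ i x, 0 ≤ z i x) (i : ℕ) (x : X) :
    Lep_a z i x ≤ z i x := by
  unfold Lep_a
  split_ifs
  · exact le_rfl
  · exact hz i x

omit [Fintype X] in
theorem Lep_a_le' (z : ℕ → X → ℝ) (i : ℕ) (x : X) :
    Lep_a z i x ≤ 2 * Lep_m z i x := by
  unfold Lep_a
  split_ifs with h
  · exact h
  · linarith [Lep_m_nonneg z i x]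

omit [Fintype X] in
theorem Lep_b_le (z : ℕ → X → ℝ) (_hz : ∀ i x, 0 ≤ z i x) (n : ℕ) (x : X) :
    ∑ i ∈ range n, (z i x - Lep_a z i x) ≤ 2 * Lep_m z n x := by
  induction n with
  | zero => simp [Lep_m]
  | succ n ih =>
    rw [sum_range_succ]
    have h1 : z n x - Lep_a z n x ≤ 2 * (Lep_m z (n + 1) x - Lep_m z n x) := by
      have h2 : Lep_m z (n + 1) x = max (Lep_m z n x) (z n x) := rfl
      rw [h2]
      unfold Lep_a
      split_ifs with h
      · have := le_max_left (Lep_m z n x) (z n x)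
        linarith
      · have := le_max_right (Lep_m z n x) (z n x)
        push Not at h
        linarith
    linarith

omit [Fintype X] in
theorem Lep_A_mono (z : ℕ → X → ℝ) {i j : ℕ} (h : i ≤ j) (x : X) : Lep_A z i x ≤ Lep_A z j x := by
  refine Real.sqrt_le_sqrt (Finset.sum_le_sum_of_subset_of_nonneg ?_ fun _ _ _ => sq_nonneg _)
  exact Finset.range_mono h

omit [Fintype X] in
theorem Lep_m_mono (z : ℕ → X → ℝ) {i j : ℕ} (h : i ≤ j) (x : X) : Lep_m z i x ≤ Lep_m z j x := by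
  induction j, h using Nat.le_induction with
  | base => exact le_rfl
  | succ j _ ih => exact ih.trans (le_max_left _ _)

omit [Fintype X] in
theorem Lep_A_step (z : ℕ → X → ℝ) (hz : ∀ i x, 0 ≤ z i x) (i : ℕ) (x : X) :
    (Lep_a z i x) ^ 2 / (Lep_A z i x + 2 * Lep_m z i x) ≤
      2 * (Lep_A z (i + 1) x - Lep_A z i x) := by
  have hA : 0 ≤ Lep_A z i x := Real.sqrt_nonneg _
  have hA1 : 0 ≤ Lep_A z (i + 1) x := Real.sqrt_nonneg _
  have hm := Lep_m_nonneg z i x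
  have ha := Lep_a_nonneg z hz i x
  have ha' := Lep_a_le' z i x
  have hmono := Lep_A_mono z (Nat.le_succ i) x
  have hs0 : 0 ≤ ∑ l ∈ range i, (Lep_a z l x) ^ 2 := Finset.sum_nonneg fun _ _ => sq_nonneg _
  have e1 : (Lep_A z i x) ^ 2 = ∑ l ∈ range i, (Lep_a z l x) ^ 2 := Real.sq_sqrt hs0
  have e2 : (Lep_A z (i + 1) x) ^ 2 = ∑ l ∈ range (i + 1), (Lep_a z l x) ^ 2 :=
    Real.sq_sqrt (Finset.sum_nonneg fun _ _ => sq_nonneg _)
  rw [sum_range_succ, ← e1] at e2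
  rcases (add_nonneg hA (mul_nonneg zero_le_two hm)).eq_or_lt with h | h
  · rw [← h, div_zero]
    linarith
  · rw [div_le_iff₀ h]
    have h3 : Lep_A z (i + 1) x ≤ Lep_A z i x + 2 * Lep_m z i x := by
      refine Real.sqrt_le_iff.2 ⟨h.le, ?_⟩
      rw [sum_range_succ, ← e1]
      nlinarith
    nlinarith

/-- scalar form -/
theorem Lep_scalar (s : Fin d) (n : ℕ) (κ : ℕ → ℕ) (hκ : ∀ i, κ i ≤ κ (i + 1))
    (z : ℕ → X → ℝ) (hz : ∀ i x, 0 ≤ z i x)
    (hm : ∀ i < n, ∀ x y, S.rel s (κ (i + 1)) x y → z i x = z i y) :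
    ∑ x, Real.sqrt (∑ i ∈ range n, (S.E s (κ i) (z i) x) ^ 2) ≤
      5 * ∑ x, Real.sqrt (∑ i ∈ range n, (z i x) ^ 2) := by
  have hκm : ∀ i j, i ≤ j → κ i ≤ κ j := fun i j h => by
    induction j, h using Nat.le_induction with
    | base => exact le_rfl
    | succ j _ ih => exact ih.trans (hκ j)
  -- measurability
  have mm : ∀ i ≤ n, ∀ x y, S.rel s (κ i) x y → Lep_m z i x = Lep_m z i y := by
    intro i
    induction i with
    | zero => intro _ x y _; rfl
    | succ i ih =>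
      intro hi x y h
      have h1 := ih (by omega) x y (S.rel_mono s _ _ x y (hκ i) h)
      have h2 := hm i (by omega) x y h
      change max (Lep_m z i x) (z i x) = max (Lep_m z i y) (z i y)
      rw [h1, h2]
  have ma : ∀ l < n, ∀ x y, S.rel s (κ (l + 1)) x y → Lep_a z l x = Lep_a z l y := by
    intro l hl x y h
    have h1 := mm l hl.le x y (S.rel_mono s _ _ x y (hκ l) h)
    have h2 := hm l hl x y h
    unfold Lep_a
    rw [h1, h2]
  have mA : ∀ i ≤ n, ∀ x y, S.rel s (κ i) x y → Lep_A z i x = Lep_A z i y := by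
    intro i hi x y h
    unfold Lep_A
    congr 1
    refine Finset.sum_congr rfl fun l hl => ?_
    rw [Finset.mem_range] at hl
    rw [ma l (by omega) x y (S.rel_mono s _ _ x y (hκm (l + 1) i hl) h)]
  -- the irregular part
  have hb0 : ∀ i x, 0 ≤ z i x - Lep_a z i x := fun i x => sub_nonneg.2 (Lep_a_le z hz i x)
  have hB : ∑ x, Real.sqrt (∑ i ∈ range n, (S.E s (κ i) (z i - Lep_a z i) x) ^ 2) ≤
      2 * ∑ x, Real.sqrt (∑ i ∈ range n, (z i x) ^ 2) := by
    calc ∑ x, Real.sqrt (∑ i ∈ range n, (S.E s (κ i) (z i - Lep_a z i) x) ^ 2)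
        ≤ ∑ x, ∑ i ∈ range n, S.E s (κ i) (z i - Lep_a z i) x := by
          refine Finset.sum_le_sum fun x _ => Lep_l2_le_sum _ _ fun i _ => ?_
          exact S.E_nonneg s (κ i) (fun y => hb0 i y) x
      _ = ∑ i ∈ range n, ∑ x, (z i - Lep_a z i) x := by
          rw [Finset.sum_comm]
          exact Finset.sum_congr rfl fun i _ => S.E_sum s (κ i) _
      _ = ∑ x, ∑ i ∈ range n, (z i x - Lep_a z i x) := by
          rw [Finset.sum_comm]
          rfl
      _ ≤ ∑ x, 2 * Lep_m z n x := Finset.sum_le_sum fun x _ => Lep_b_le z hz n x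
      _ ≤ ∑ x, 2 * Real.sqrt (∑ i ∈ range n, (z i x) ^ 2) :=
          Finset.sum_le_sum fun x _ => mul_le_mul_of_nonneg_left (Lep_m_le z n x) zero_le_two
      _ = _ := by rw [Finset.mul_sum]
  -- the regular part
  obtain ⟨Y, hY⟩ : ∃ Y : ℕ → X → ℝ, Y = fun i x => Lep_A z i x + 2 * Lep_m z i x := ⟨_, rfl⟩
  have hY0 : ∀ i x, 0 ≤ Y i x := fun i x => by
    rw [hY]
    exact add_nonneg (Real.sqrt_nonneg _) (mul_nonneg zero_le_two (Lep_m_nonneg z i x))
  have mY : ∀ i ≤ n, ∀ x y, S.rel s (κ i) x y → Y i x = Y i y := fun i hi x y h => by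
    rw [hY]
    change Lep_A z i x + 2 * Lep_m z i x = Lep_A z i y + 2 * Lep_m z i y
    rw [mA i hi x y h, mm i hi x y h]
  have hYm : ∀ i ≤ n, ∀ x, Y i x ≤ Y n x := fun i hi x => by
    rw [hY]
    exact add_le_add (Lep_A_mono z hi x)
      (mul_le_mul_of_nonneg_left (Lep_m_mono z hi x) zero_le_two)
  have hq0 : ∀ i < n, ∀ x, Y i x = 0 → S.E s (κ i) (Lep_a z i) x = 0 := by
    intro i hi x hx
    have h1 : S.E s (κ i) (Lep_a z i) x = S.E s (κ i) (fun _ => 0) x := by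
      refine S.E_local s (κ i) x fun y hy => ?_
      have h2 : Y i y = 0 := by rw [← mY i hi.le x y hy, hx]
      rw [hY] at h2
      have h3 := Lep_m_nonneg z i y
      have h4 : 0 ≤ Lep_A z i y := Real.sqrt_nonneg _
      have h5 := Lep_a_nonneg z hz i y
      have h6 := Lep_a_le' z i y
      have h2' : Lep_A z i y + 2 * Lep_m z i y = 0 := h2
      linarith
    rw [h1, S.E_const]
  have hA : ∑ x, Real.sqrt (∑ i ∈ range n, (S.E s (κ i) (Lep_a z i) x) ^ 2) ≤
      5 / 2 * ∑ x, Real.sqrt (∑ i ∈ range n, (z i x) ^ 2) := by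
    have hpt : ∀ x, Real.sqrt (∑ i ∈ range n, (S.E s (κ i) (Lep_a z i) x) ^ 2) ≤
        2 / 5 * Y n x + 5 / 8 * ∑ i ∈ range n, (S.E s (κ i) (Lep_a z i) x) ^ 2 / Y i x := by
      intro x
      obtain ⟨Q, hQ⟩ : ∃ Q, Q = ∑ i ∈ range n, (S.E s (κ i) (Lep_a z i) x) ^ 2 / Y i x := ⟨_, rfl⟩
      have hQ0 : 0 ≤ Q := hQ ▸ Finset.sum_nonneg fun i _ => div_nonneg (sq_nonneg _) (hY0 i x)
      have h1 : ∑ i ∈ range n, (S.E s (κ i) (Lep_a z i) x) ^ 2 ≤ Y n x * Q := by
        rw [hQ, Finset.mul_sum]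
        refine Finset.sum_le_sum fun i hi => ?_
        rw [Finset.mem_range] at hi
        rcases (hY0 i x).eq_or_lt with h | h
        · rw [hq0 i hi x h.symm]
          simp
        · rw [← mul_div_assoc, le_div_iff₀ h, mul_comm]
          exact mul_le_mul_of_nonneg_right (hYm i hi.le x) (sq_nonneg _)
      rw [← hQ]
      rw [Real.sqrt_le_left (add_nonneg (mul_nonneg (by norm_num) (hY0 n x))
        (mul_nonneg (by norm_num) hQ0))]
      nlinarith [sq_nonneg (2 / 5 * Y n x - 5 / 8 * Q)]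
    have hi1 : ∀ i ∈ range n, ∑ x, (S.E s (κ i) (Lep_a z i) x) ^ 2 / Y i x ≤
        ∑ x, 2 * (Lep_A z (i + 1) x - Lep_A z i x) := by
      intro i hi
      rw [Finset.mem_range] at hi
      calc ∑ x, (S.E s (κ i) (Lep_a z i) x) ^ 2 / Y i x
          ≤ ∑ x, ((fun y => 1 / Y i y) * S.E s (κ i) (Lep_a z i * Lep_a z i)) x := by
            refine Finset.sum_le_sum fun x _ => ?_
            rw [Pi.mul_apply, one_div, mul_comm, div_eq_mul_inv]
            exact mul_le_mul_of_nonneg_right (S.E_sq_le s (κ i) _ x) (inv_nonneg.2 (hY0 i x))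
        _ = ∑ x, S.E s (κ i) ((fun y => 1 / Y i y) * (Lep_a z i * Lep_a z i)) x := by
            rw [S.E_pull s (κ i) (fun y => 1 / Y i y) _ (fun x y h => by
              simp only [mY i hi.le x y h])]
        _ = ∑ x, ((fun y => 1 / Y i y) * (Lep_a z i * Lep_a z i)) x := S.E_sum s (κ i) _
        _ ≤ _ := by
            refine Finset.sum_le_sum fun x _ => ?_
            have h1 := Lep_A_step z hz i x
            have h2 : ((fun y => 1 / Y i y) * (Lep_a z i * Lep_a z i)) x =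
                (Lep_a z i x) ^ 2 / (Lep_A z i x + 2 * Lep_m z i x) := by
              rw [hY]
              simp only [Pi.mul_apply]
              ring
            rw [h2]
            exact h1
    have hAZ : ∀ x, Lep_A z n x ≤ Real.sqrt (∑ i ∈ range n, (z i x) ^ 2) := fun x => by
      refine Real.sqrt_le_sqrt (Finset.sum_le_sum fun i _ => ?_)
      exact pow_le_pow_left₀ (Lep_a_nonneg z hz i x) (Lep_a_le z hz i x) 2
    have hsumA : ∑ i ∈ range n, ∑ x, 2 * (Lep_A z (i + 1) x - Lep_A z i x) =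
        2 * ∑ x, Lep_A z n x := by
      rw [Finset.sum_comm, Finset.mul_sum]
      refine Finset.sum_congr rfl fun x _ => ?_
      rw [← Finset.mul_sum, Finset.sum_range_sub (fun i => Lep_A z i x) n]
      have : Lep_A z 0 x = 0 := by unfold Lep_A; simp
      rw [this, sub_zero]
    calc ∑ x, Real.sqrt (∑ i ∈ range n, (S.E s (κ i) (Lep_a z i) x) ^ 2)
        ≤ ∑ x, (2 / 5 * Y n x +
            5 / 8 * ∑ i ∈ range n, (S.E s (κ i) (Lep_a z i) x) ^ 2 / Y i x) :=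
          Finset.sum_le_sum fun x _ => hpt x
      _ = 2 / 5 * ∑ x, Y n x +
            5 / 8 * ∑ i ∈ range n, ∑ x, (S.E s (κ i) (Lep_a z i) x) ^ 2 / Y i x := by
          rw [Finset.sum_add_distrib, ← Finset.mul_sum, ← Finset.mul_sum, Finset.sum_comm]
      _ ≤ 2 / 5 * ∑ x, Y n x + 5 / 8 * (2 * ∑ x, Lep_A z n x) := by
          have := Finset.sum_le_sum hi1
          rw [hsumA] at this
          linarith
      _ ≤ 2 / 5 * (3 * ∑ x, Real.sqrt (∑ i ∈ range n, (z i x) ^ 2)) +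
            5 / 8 * (2 * ∑ x, Real.sqrt (∑ i ∈ range n, (z i x) ^ 2)) := by
          have h1 : ∑ x, Y n x ≤ 3 * ∑ x, Real.sqrt (∑ i ∈ range n, (z i x) ^ 2) := by
            rw [Finset.mul_sum]
            refine Finset.sum_le_sum fun x _ => ?_
            have h2 := hAZ x
            have h3 := Lep_m_le z n x
            rw [hY]
            change Lep_A z n x + 2 * Lep_m z n x ≤ _
            linarith
          have h4 : ∑ x, Lep_A z n x ≤ ∑ x, Real.sqrt (∑ i ∈ range n, (z i x) ^ 2) :=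
            Finset.sum_le_sum fun x _ => hAZ x
          linarith
      _ ≤ _ := by
          have : 0 ≤ ∑ x, Real.sqrt (∑ i ∈ range n, (z i x) ^ 2) :=
            Finset.sum_nonneg fun _ _ => Real.sqrt_nonneg _
          linarith
  calc ∑ x, Real.sqrt (∑ i ∈ range n, (S.E s (κ i) (z i) x) ^ 2)
      ≤ ∑ x, (Real.sqrt (∑ i ∈ range n, (S.E s (κ i) (Lep_a z i) x) ^ 2) +
          Real.sqrt (∑ i ∈ range n, (S.E s (κ i) (z i - Lep_a z i) x) ^ 2)) := by
        refine Finset.sum_le_sum fun x _ => ?_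
        refine le_trans (le_of_eq ?_) (Lep_l2_add (range n) _ _)
        congr 1
        refine Finset.sum_congr rfl fun i _ => ?_
        rw [map_sub, Pi.sub_apply]
        ring
    _ ≤ _ := by
        rw [Finset.sum_add_distrib]
        have : 0 ≤ ∑ x, Real.sqrt (∑ i ∈ range n, (z i x) ^ 2) :=
          Finset.sum_nonneg fun _ _ => Real.sqrt_nonneg _
        linarith

/-- TASK B3 -/
theorem lepingle (s : Fin d) (n : ℕ) (κ : ℕ → ℕ) (hκ : ∀ i, κ i ≤ κ (i + 1)) {α : Type}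
    (J : Finset α) (g : ℕ → α → X → ℝ)
    (hg : ∀ i < n, ∀ a ∈ J, ∀ x y, S.rel s (κ (i + 1)) x y → g i a x = g i a y) :
    ∑ x, Real.sqrt (∑ i ∈ range n, ∑ a ∈ J, (S.E s (κ i) (g i a) x) ^ 2) ≤
      5 * ∑ x, Real.sqrt (∑ i ∈ range n, ∑ a ∈ J, (g i a x) ^ 2) := by
  have h := Lep_scalar S s n κ hκ (fun i x => Real.sqrt (∑ a ∈ J, (g i a x) ^ 2))
    (fun i x => Real.sqrt_nonneg _) (fun i hi x y hxy => by
      congr 1
      exact Finset.sum_congr rfl fun a ha => by rw [hg i hi a ha x y hxy])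
  have hR : ∀ x, ∑ i ∈ range n, (Real.sqrt (∑ a ∈ J, (g i a x) ^ 2)) ^ 2 =
      ∑ i ∈ range n, ∑ a ∈ J, (g i a x) ^ 2 := fun x =>
    Finset.sum_congr rfl fun i _ => Real.sq_sqrt (Finset.sum_nonneg fun _ _ => sq_nonneg _)
  simp only [hR] at h
  refine le_trans (Finset.sum_le_sum fun x _ => Real.sqrt_le_sqrt
    (Finset.sum_le_sum fun i _ => ?_)) h
  have h1 := Lep_mink S s (κ i) J (g i) x
  have h2 : 0 ≤ ∑ a ∈ J, (S.E s (κ i) (g i a) x) ^ 2 := Finset.sum_nonneg fun _ _ => sq_nonneg _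
  calc ∑ a ∈ J, (S.E s (κ i) (g i a) x) ^ 2
      = (Real.sqrt (∑ a ∈ J, (S.E s (κ i) (g i a) x) ^ 2)) ^ 2 := (Real.sq_sqrt h2).symm
    _ ≤ _ := pow_le_pow_left₀ (Real.sqrt_nonneg _) h1 2

end Pool.Agent.H506R2.LB
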