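import Pool.Agent.H506R2.LB.MaxG
import Pool.Agent.H730R2.LD.Main

/-! TASK A3: the balanced functions have coefficient at least 1/2 off a small set. -/

set_option autoImplicit false

namespace Pool.Agent.H506R2.LB

open Finset Pool.Agent.H730R2.LD

section LowB

variable {d R : ℕ} {X : Type} [Fintype X] (S : Sys d R X)

theorem LowB_abs_chi (T : Finset (Fin d)) (K : Fin d → ℕ) (x : X) : |S.chi T K x| = 1 := by
  have h := S.chi_sq T K x
  have h2 : |S.chi T K x| ^ 2 = 1 := by rw [sq_abs, h]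
  nlinarith [abs_nonneg (S.chi T K x)]

theorem LowB_expand (F : Finset (Fin d) → (Fin d → ℕ) → X → ℝ) (K : Fin d → ℕ) :
    S.chi univ K * WW S F K =
      ∑ T ∈ (univ : Finset (Fin d)).powerset, S.chi T K * F T K := by
  classical
  unfold WW
  rw [Finset.mul_sum]
  refine Finset.sum_congr rfl fun T _ => ?_
  ext x
  simp only [Pi.mul_apply]
  have h1 : S.chi univ K x = S.chi T K x * S.chi (univ \ T) K x := by
    unfold Sys.chi
    rw [mul_comm]
    exact (Finset.prod_sdiff (Finset.subset_univ T)).symm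
  have h2 := S.chi_sq (univ \ T) K x
  rw [h1]
  calc S.chi T K x * S.chi (univ \ T) K x * (S.chi (univ \ T) K x * F T K x)
      = S.chi T K x * F T K x * S.chi (univ \ T) K x ^ 2 := by ring
    _ = _ := by rw [h2, mul_one]

theorem LowB_mask {T : Finset (Fin d)} {K : Fin d → ℕ} (hK : ∀ s, K s < R) :
    mask T K ∈ Lev d R T := by
  rw [mem_Lev]
  refine ⟨fun s hs => ?_, fun s hs => ?_⟩
  · rw [mask_mem hs]; exact hK s
  · unfold mask
    simp [hs]

theorem LowB_nsq_abs (f : X → ℝ) : nsq (fun y => |f y|) = nsq f := by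
  unfold nsq
  exact Finset.sum_congr rfl fun x _ => sq_abs _

end LowB

/-- TASK A3 -/
theorem low_bound (d : ℕ) (hd : 1 ≤ d) : ∃ C : ℝ, 0 < C ∧ ∀ (R : ℕ) (X : Type) [Fintype X]
    (S : Sys d R X) (Bs : ℕ → Finset X) (F : Finset (Fin d) → (Fin d → ℕ) → X → ℝ),
    Fam S Bs F d → ∃ B : Finset X, (B.card : ℝ) ≤ C * ((Bs 0).card : ℝ) ∧
      ∀ x, x ∉ B → ∀ K : Fin d → ℕ, (∀ s, K s < R) →
        1 / 2 ≤ S.EU univ K (S.chi univ K * WW S F K) x := by
  classical
  have hδ : (0 : ℝ) < 1 / (4 * 2 ^ d) := by positivity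
  set δ : ℝ := 1 / (4 * 2 ^ d) with hδdef
  set D : ℝ := 4 ^ d / δ ^ 2 with hD
  have hD0 : 0 ≤ D := by positivity
  refine ⟨4 ^ d / (1 / 4 : ℝ) ^ 2 + D * (2 ^ d * (4 * 2 ^ d * d) ^ d), ?_, ?_⟩
  · positivity
  intro R X _ S Bs F hF
  obtain ⟨B0, hB0, hB0'⟩ := maximalG S (ind (Bs 0)) (ind_nonneg _) (1 / 4) (by norm_num)
  rw [nsq_ind] at hB0
  choose G hG1 hG2 using fun (T : Finset (Fin d)) (K : Fin d → ℕ) =>
    maximalG S (fun y => |F T K y|) (fun y => abs_nonneg _) δ hδ
  set P : Finset (Finset (Fin d)) := (univ : Finset (Fin d)).powerset.erase ∅ with hP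
  refine ⟨B0 ∪ P.biUnion (fun T => (Lev d R T).biUnion (fun K => G T K)), ?_, ?_⟩
  · have hd1 : (1 : ℝ) ≤ d := by exact_mod_cast hd
    have h2d : (1 : ℝ) ≤ 2 ^ d := one_le_pow₀ (by norm_num)
    have hΛ : (1 : ℝ) ≤ 4 * 2 ^ d * d := by nlinarith
    have hT : ∀ T ∈ P, ∑ K ∈ Lev d R T, ((G T K).card : ℝ) ≤
        D * ((4 * 2 ^ d * d) ^ d * (Bs 0).card) := by
      intro T hT
      have hTne : T.Nonempty := Finset.nonempty_iff_ne_empty.2 (Finset.mem_erase.1 hT).1
      have hcard : T.card ≤ d := by simpa using Finset.card_le_univ T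
      calc ∑ K ∈ Lev d R T, ((G T K).card : ℝ) ≤ ∑ K ∈ Lev d R T, D * nsq (F T K) := by
            apply Finset.sum_le_sum
            intro K _
            have := hG1 T K
            rwa [LowB_nsq_abs] at this
        _ = D * ∑ K ∈ Lev d R T, nsq (F T K) := by rw [Finset.mul_sum]
        _ ≤ D * ((4 * 2 ^ d * d) ^ T.card * (Bs 0).card) :=
            mul_le_mul_of_nonneg_left (sum_fam S hF hd T hTne) hD0
        _ ≤ D * ((4 * 2 ^ d * d) ^ d * (Bs 0).card) := by
            apply mul_le_mul_of_nonneg_left _ hD0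
            exact mul_le_mul_of_nonneg_right (pow_le_pow_right₀ hΛ hcard) (Nat.cast_nonneg _)
    have hPc : (P.card : ℝ) ≤ 2 ^ d := by
      have h1 : P.card ≤ 2 ^ d := by
        calc P.card ≤ ((univ : Finset (Fin d)).powerset).card := card_le_card (erase_subset _ _)
          _ = 2 ^ d := by rw [card_powerset, card_univ, Fintype.card_fin]
      exact_mod_cast h1
    calc ((B0 ∪ P.biUnion (fun T => (Lev d R T).biUnion (fun K => G T K))).card : ℝ)
        ≤ (B0.card : ℝ) + ((P.biUnion (fun T => (Lev d R T).biUnion (fun K => G T K))).card : ℝ) := by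
          exact_mod_cast card_union_le _ _
      _ ≤ (B0.card : ℝ) + ∑ T ∈ P, ∑ K ∈ Lev d R T, ((G T K).card : ℝ) := by
          apply add_le_add_right
          have h1 : (P.biUnion (fun T => (Lev d R T).biUnion (fun K => G T K))).card ≤
              ∑ T ∈ P, ∑ K ∈ Lev d R T, (G T K).card :=
            card_biUnion_le.trans (Finset.sum_le_sum fun T _ => card_biUnion_le)
          exact_mod_cast h1
      _ ≤ 4 ^ d / (1 / 4 : ℝ) ^ 2 * (Bs 0).card +
            ∑ _T ∈ P, D * ((4 * 2 ^ d * d) ^ d * ((Bs 0).card : ℝ)) :=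
          add_le_add hB0 (Finset.sum_le_sum hT)
      _ = 4 ^ d / (1 / 4 : ℝ) ^ 2 * (Bs 0).card +
            P.card * (D * ((4 * 2 ^ d * d) ^ d * ((Bs 0).card : ℝ))) := by
          rw [Finset.sum_const, nsmul_eq_mul]
      _ ≤ 4 ^ d / (1 / 4 : ℝ) ^ 2 * (Bs 0).card +
            2 ^ d * (D * ((4 * 2 ^ d * d) ^ d * ((Bs 0).card : ℝ))) := by
          apply add_le_add_right
          exact mul_le_mul_of_nonneg_right hPc (by positivity)
      _ = _ := by ring
  · intro x hx K hK
    rw [mem_union, not_or] at hx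
    have hKle : ∀ s, K s ≤ R := fun s => (hK s).le
    rw [LowB_expand, map_sum, Finset.sum_apply,
      ← Finset.add_sum_erase _ _ (Finset.empty_mem_powerset (univ : Finset (Fin d)))]
    have h0 : 3 / 4 ≤ S.EU univ K (S.chi ∅ K * F ∅ K) x := by
      rw [S.chi_empty, one_mul, hF.zero, map_sub]
      have e1 : S.EU univ K (1 : X → ℝ) = 1 := S.EU_const (U := univ) K 1
      rw [e1]
      have := hB0' x hx.1 univ K hKle
      simp only [Pi.sub_apply, Pi.one_apply]
      linarith
    have h1 : ∀ T ∈ P, |S.EU univ K (S.chi T K * F T K) x| ≤ δ := by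
      intro T hT
      have e1 : F T K = F T (mask T K) := hF.dep T K (mask T K) (fun s hs => (mask_mem hs).symm)
      have hxT : x ∉ G T (mask T K) := by
        intro hxG
        apply hx.2
        rw [mem_biUnion]
        exact ⟨T, hT, mem_biUnion.2 ⟨mask T K, LowB_mask hK, hxG⟩⟩
      refine (S.EU_abs_le K _ x).trans ?_
      have e2 : (fun y => |(S.chi T K * F T K) y|) = fun y => |F T (mask T K) y| := by
        ext y
        rw [Pi.mul_apply, abs_mul, LowB_abs_chi, one_mul, e1]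
      rw [e2]
      exact hG2 T (mask T K) x hxT univ K hKle
    have h2 : |∑ T ∈ P, S.EU univ K (S.chi T K * F T K) x| ≤ 1 / 4 := by
      have hPc : (P.card : ℝ) ≤ 2 ^ d := by
        have h1 : P.card ≤ 2 ^ d := by
          calc P.card ≤ ((univ : Finset (Fin d)).powerset).card := card_le_card (erase_subset _ _)
            _ = 2 ^ d := by rw [card_powerset, card_univ, Fintype.card_fin]
        exact_mod_cast h1
      calc |∑ T ∈ P, S.EU univ K (S.chi T K * F T K) x|
          ≤ ∑ T ∈ P, |S.EU univ K (S.chi T K * F T K) x| := Finset.abs_sum_le_sum_abs _ _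
        _ ≤ ∑ _T ∈ P, δ := Finset.sum_le_sum h1
        _ = P.card * δ := by rw [Finset.sum_const, nsmul_eq_mul]
        _ ≤ 2 ^ d * δ := mul_le_mul_of_nonneg_right hPc hδ.le
        _ = 1 / 4 := by rw [hδdef]; field_simp
    have h3 := (abs_le.1 h2).1
    linarith

end Pool.Agent.H506R2.LB
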