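import Pool.Agent.H730R2.LD.Doob

/-! TASK A1: maximal inequality for nonnegative functions. -/

set_option autoImplicit false

namespace Pool.Agent.H506R2.LB

open Finset Pool.Agent.H730R2.LD

variable {d R : ℕ} {X : Type} [Fintype X] (S : Sys d R X)

/-- TASK A1 -/
theorem maximalG (f : X → ℝ) (hf : ∀ x, 0 ≤ f x) (δ : ℝ) (hδ : 0 < δ) :
    ∃ B' : Finset X, (B'.card : ℝ) ≤ 4 ^ d / δ ^ 2 * nsq f ∧
      ∀ x, x ∉ B' → ∀ (U : Finset (Fin d)) (K : Fin d → ℕ), (∀ s, K s ≤ R) →
        S.EU U K f x ≤ δ := by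
  classical
  set g : X → ℝ := S.MM (List.finRange d) f with hg
  have hle : ∀ (U : Finset (Fin d)) (K : Fin d → ℕ), (∀ s, K s ≤ R) → ∀ x,
      S.EU U K f x ≤ g x := fun U K hK x =>
    S.EU_le_MM K hK f (List.finRange d) U (fun s _ => List.mem_finRange s) x
  refine ⟨univ.filter fun x => δ < g x, ?_, ?_⟩
  · have h1 : nsq g ≤ 4 ^ d * nsq f := by
      have := S.nsq_MM (List.finRange d) f
      rwa [List.length_finRange] at this
    have h2 : ((univ.filter fun x => δ < g x).card : ℝ) * δ ^ 2 ≤ nsq g := by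
      rw [← nsmul_eq_mul, ← Finset.sum_const]
      unfold nsq
      calc ∑ x ∈ univ.filter (fun x => δ < g x), δ ^ 2
          ≤ ∑ x ∈ univ.filter (fun x => δ < g x), g x ^ 2 := by
            refine sum_le_sum fun x hx => ?_
            have hx' := (mem_filter.mp hx).2
            nlinarith
        _ ≤ ∑ x, g x ^ 2 := sum_le_sum_of_subset_of_nonneg (filter_subset _ _)
            fun x _ _ => sq_nonneg _
    have ht2 : 0 < δ ^ 2 := by positivity
    rw [div_mul_eq_mul_div, le_div_iff₀ ht2]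
    linarith
  · intro x hx U K hK
    rw [mem_filter, not_and, not_lt] at hx
    exact (hle U K hK x).trans (hx (mem_univ x))

end Pool.Agent.H506R2.LB
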