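import Pool.Agent.H730R2.LD.Main

/-! TASK A2: pairing with a truncated function. -/

set_option autoImplicit false

namespace Pool.Agent.H506R2.LB

open Finset Pool.Agent.H730R2.LD

open Classical in
/-- TASK A2 -/
theorem pairing2 (d : ℕ) (hd : 1 ≤ d) : ∃ C : ℝ, 0 < C ∧ ∀ (R : ℕ) (X : Type) [Fintype X]
    (S : Sys d R X) (Bs : ℕ → Finset X) (F : Finset (Fin d) → (Fin d → ℕ) → X → ℝ),
    Fam S Bs F d → (∀ q, q < d → ∀ x ∈ Bs (q + 1), x ∈ Bs q) →
    ∀ (g : X → ℝ) (M : ℝ), (∀ x, x ∉ Bs d → |g x| ≤ M) →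
      ∑ K ∈ Lev d R univ, nsq (S.EU univ K (g * WW S F K)) ≤
        C * (∑ x ∈ univ.filter (fun x => x ∉ Bs d), g x ^ 2 + M ^ 2 * ((Bs 0).card : ℝ)) := by
  refine ⟨2 ^ d * (2 ^ d * (4 * 2 ^ d * d) ^ d), by positivity, ?_⟩
  intro R X _ S Bs F hF hmono g M hg
  have hd1 : (1 : ℝ) ≤ d := by exact_mod_cast hd
  have h2d : (1 : ℝ) ≤ 2 ^ d := one_le_pow₀ (by norm_num)
  have hΛ : (1 : ℝ) ≤ 4 * 2 ^ d * d := by nlinarith
  have hG0 : 0 ≤ ∑ x ∈ univ.filter (fun x => x ∉ Bs d), g x ^ 2 :=
    Finset.sum_nonneg fun _ _ => sq_nonneg _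
  have hB0 : (0 : ℝ) ≤ (Bs 0).card := Nat.cast_nonneg _
  obtain ⟨Q, hQ⟩ : ∃ Q, Q = ∑ x ∈ univ.filter (fun x => x ∉ Bs d), g x ^ 2 +
    M ^ 2 * ((Bs 0).card : ℝ) := ⟨_, rfl⟩
  have hQ0 : 0 ≤ Q := by rw [hQ]; positivity
  have hsub : ∀ j, j ≤ d → ∀ x ∈ Bs d, x ∈ Bs (d - j) := by
    intro j
    induction j with
    | zero => intro _ x hx; simpa using hx
    | succ j ih =>
      intro hj x hx
      have h1 := ih (by omega) x hx
      have e : d - j = (d - (j + 1)) + 1 := by omega
      rw [e] at h1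
      exact hmono _ (by omega) x h1
  -- one set V
  have hone : ∀ V ∈ (univ : Finset (Fin d)).powerset, ∑ K ∈ Lev d R univ,
      nsq (S.EU univ K (S.chi (univ \ V) K * (g * F V K))) ≤
        (4 * 2 ^ d * d) ^ d * Q := by
    intro V _
    have hcard : V.card ≤ d := by simpa using Finset.card_le_univ V
    have hdisj : Disjoint V (univ \ V) := Finset.disjoint_sdiff
    have hun : V ∪ (univ \ V) = univ := Finset.union_sdiff_of_subset (Finset.subset_univ V)
    have h1 : ∑ K ∈ Lev d R univ, nsq (S.EU univ K (S.chi (univ \ V) K * (g * F V K))) ≤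
        ∑ K ∈ Lev d R univ, nsq (S.EU (univ \ V) K (S.chi (univ \ V) K * (g * F V K))) := by
      apply Finset.sum_le_sum
      intro K _
      have e : S.EU univ K (S.chi (univ \ V) K * (g * F V K)) =
          S.EU V K (S.EU (univ \ V) K (S.chi (univ \ V) K * (g * F V K))) := by
        rw [← EU_union S hdisj, hun]
      rw [e]
      exact S.nsq_EU_le K _
    have h2 := bessel_multi S V (univ \ V) hdisj (fun K => g * F V K) (by
      intro K K' h
      rw [hF.dep V K K' h])
    rw [hun] at h2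
    have hpow : (1 : ℝ) ≤ (4 * 2 ^ d * d) ^ d := one_le_pow₀ hΛ
    have h4 : ∑ K ∈ Lev d R V, nsq (g * F V K) ≤ (4 * 2 ^ d * d) ^ d * Q := by
      rcases Finset.eq_empty_or_nonempty V with he | he
      · rw [he, Lev_empty, Finset.sum_singleton, hF.zero]
        have hle : nsq (g * (1 - ind (Bs 0))) ≤
            ∑ x ∈ univ.filter (fun x => x ∉ Bs d), g x ^ 2 := by
          unfold nsq
          rw [Finset.sum_filter]
          apply Finset.sum_le_sum
          intro x _
          simp only [Pi.mul_apply, Pi.sub_apply, Pi.one_apply]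
          by_cases hx : x ∈ Bs d
          · have hx0 : x ∈ Bs 0 := by
              have := hsub d le_rfl x hx
              rwa [Nat.sub_self] at this
            rw [ind_mem hx0]
            simp [hx]
          · rw [if_pos hx, mul_pow]
            have h0 := ind_nonneg (Bs 0) x
            have h1 := ind_le_one (Bs 0) x
            have h2 : (1 - ind (Bs 0) x) ^ 2 ≤ 1 := by nlinarith
            nlinarith [sq_nonneg (g x)]
        have hle2 : ∑ x ∈ univ.filter (fun x => x ∉ Bs d), g x ^ 2 ≤ Q := by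
          rw [hQ]
          nlinarith [mul_nonneg (sq_nonneg M) hB0]
        calc _ ≤ Q := hle.trans hle2
          _ = 1 * Q := (one_mul Q).symm
          _ ≤ _ := mul_le_mul_of_nonneg_right hpow hQ0
      · have h3 : ∀ K ∈ Lev d R V, nsq (g * F V K) ≤ M ^ 2 * nsq (F V K) := by
          intro K hK
          unfold nsq
          rw [Finset.mul_sum]
          apply Finset.sum_le_sum
          intro x _
          simp only [Pi.mul_apply]
          by_cases hx : x ∈ Bs d
          · rw [fam_B S hF hmono K (Lev_le hK) V x hx]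
            simp
          · rw [mul_pow]
            apply mul_le_mul_of_nonneg_right _ (sq_nonneg _)
            rw [← sq_abs]
            exact pow_le_pow_left₀ (abs_nonneg _) (hg x hx) 2
        have h5 : (4 * 2 ^ d * (d : ℝ)) ^ V.card ≤ (4 * 2 ^ d * d) ^ d :=
          pow_le_pow_right₀ hΛ hcard
        calc ∑ K ∈ Lev d R V, nsq (g * F V K) ≤ ∑ K ∈ Lev d R V, M ^ 2 * nsq (F V K) :=
              Finset.sum_le_sum h3
          _ = M ^ 2 * ∑ K ∈ Lev d R V, nsq (F V K) := by rw [Finset.mul_sum]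
          _ ≤ M ^ 2 * ((4 * 2 ^ d * d) ^ V.card * (Bs 0).card) :=
              mul_le_mul_of_nonneg_left (sum_fam S hF hd V he) (sq_nonneg M)
          _ ≤ M ^ 2 * ((4 * 2 ^ d * d) ^ d * (Bs 0).card) := by gcongr
          _ = (4 * 2 ^ d * d) ^ d * (M ^ 2 * (Bs 0).card) := by ring
          _ ≤ _ := by
              apply mul_le_mul_of_nonneg_left _ (by positivity)
              rw [hQ]
              linarith
    exact h1.trans (h2.trans h4)
  have hsplit : ∀ K, S.EU univ K (g * WW S F K) =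
      ∑ V ∈ (univ : Finset (Fin d)).powerset,
        S.EU univ K (S.chi (univ \ V) K * (g * F V K)) := by
    intro K
    unfold WW
    rw [Finset.mul_sum, map_sum]
    apply Finset.sum_congr rfl
    intro V _
    congr 1
    ring
  have hcp : (((univ : Finset (Fin d)).powerset.card : ℕ) : ℝ) = 2 ^ d := by
    rw [Finset.card_powerset]; simp
  rw [← hQ]
  calc ∑ K ∈ Lev d R univ, nsq (S.EU univ K (g * WW S F K))
      ≤ ∑ K ∈ Lev d R univ, 2 ^ d * ∑ V ∈ (univ : Finset (Fin d)).powerset,
          nsq (S.EU univ K (S.chi (univ \ V) K * (g * F V K))) := by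
        apply Finset.sum_le_sum
        intro K _
        rw [hsplit, ← hcp]
        exact nsq_sum_le _ _
    _ = 2 ^ d * ∑ V ∈ (univ : Finset (Fin d)).powerset, ∑ K ∈ Lev d R univ,
          nsq (S.EU univ K (S.chi (univ \ V) K * (g * F V K))) := by
        rw [← Finset.mul_sum, Finset.sum_comm]
    _ ≤ 2 ^ d * ∑ V ∈ (univ : Finset (Fin d)).powerset, (4 * 2 ^ d * d) ^ d * Q :=
        mul_le_mul_of_nonneg_left (Finset.sum_le_sum hone) (by positivity)
    _ = _ := by rw [Finset.sum_const, nsmul_eq_mul, hcp]; ring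

end Pool.Agent.H506R2.LB
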