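import Pool.Agent.H506R2.LB.Froz

/-! TASK A4: the coefficient of a maximal level. -/

set_option autoImplicit false

namespace Pool.Agent.H506R2.LB

open Finset Pool.Agent.H730R2.LD

variable {d R : ℕ} {X : Type} [Fintype X] (S : Sys d R X)

theorem TopId_pull (V : Finset (Fin d)) (K : Fin d → ℕ) (φ g : X → ℝ)
    (hφ : ∀ s ∈ V, ∀ x y, S.rel s (K s) x y → φ x = φ y) :
    S.EU V K (φ * g) = φ * S.EU V K g := by
  classical
  induction V using Finset.induction_on with
  | empty => simp
  | insert s V hs ih =>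
    rw [S.EU_insert hs, S.EU_insert hs,
      ih (fun t ht => hφ t (Finset.mem_insert_of_mem ht)),
      S.E_pull s (K s) φ _ (hφ s (Finset.mem_insert_self s V))]

theorem TopId_r_meas (s : Fin d) (k l : ℕ) (hk : k < R) (hkl : k < l) (x y : X)
    (h : S.rel s l x y) : S.r s k x = S.r s k y := by
  have h1 : S.E s (k + 1) (S.r s k) = S.r s k := by
    rw [S.haar s k (S.r s k) hk, S.E_r s k hk, S.r_mul_r, S.E_one, zero_add, mul_one]
  rw [← h1]
  exact S.E_meas s (k + 1) _ x y (S.rel_mono s (k + 1) l x y hkl h)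

/-- TASK A4 -/
theorem top_identity (f : X → ℝ) (K : Fin d → ℕ) (hK : ∀ s, K s < R)
    (h : ∀ K' : Fin d → ℕ, (∀ s, K' s < R) → (∀ s, K s ≤ K' s) → K' ≠ K →
      S.EU univ K' (S.chi univ K' * f) = 0)
    (W : X → ℝ) (hW : ∀ s, S.E s (K s) W = 0) :
    S.EU univ K (f * W) = S.EU univ K (S.chi univ K * f) * S.EU univ K (S.chi univ K * W) := by
  classical
  obtain ⟨a, ha⟩ : ∃ a, a = S.EU univ K (S.chi univ K * f) := ⟨_, rfl⟩
  obtain ⟨c, hc⟩ : ∃ c, c = S.chi univ K * a := ⟨_, rfl⟩
  have ham : ∀ s ∈ (univ : Finset (Fin d)), ∀ x y, S.rel s (K s) x y → a x = a y := by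
    intro s hs x y hxy
    rw [ha]
    exact S.EU_meas hs K _ x y hxy
  have hchi2 : S.chi univ K * S.chi univ K = (1 : X → ℝ) := by
    funext x
    have := S.chi_sq univ K x
    rw [Pi.mul_apply, Pi.one_apply, ← this, sq]
  -- the coefficients of `f - c`
  have hzero : ∀ K' : Fin d → ℕ, (∀ s, K' s < R) → (∀ s, K s ≤ K' s) →
      co S K' (f - c) = 0 := by
    intro K' h1 h2
    unfold co
    rw [mul_sub, map_sub]
    by_cases he : K' = K
    · subst he
      rw [hc, ← mul_assoc, hchi2, one_mul, ← ha]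
      have : S.EU univ K' a = a := by
        have := TopId_pull S univ K' a 1 ham
        rw [mul_one] at this
        rw [this]
        have h3 : S.EU univ K' (1 : X → ℝ) = 1 := S.EU_const K' 1
        rw [h3, mul_one]
      rw [this, sub_self]
    · rw [h K' h1 h2 he, zero_sub, neg_eq_zero]
      obtain ⟨s, hs⟩ : ∃ s, K s < K' s := by
        by_contra hcon
        push Not at hcon
        exact he (funext fun s => le_antisymm (hcon s) (h2 s))
      have hsu := Finset.mem_univ s
      have e1 : S.chi univ K' = S.r s (K' s) * S.chi (univ.erase s) K' := by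
        rw [← S.chi_insert (Finset.notMem_erase s univ), Finset.insert_erase hsu]
      have e2 : S.chi univ K' * c = (S.chi (univ.erase s) K' * S.chi univ K * a) *
          S.r s (K' s) := by
        rw [e1, hc]; ring
      rw [← S.EU_E_mem hsu K' (S.chi univ K' * c), e2, S.E_pull s (K' s) _ _ ?_,
        S.E_r s (K' s) (h1 s), mul_zero, map_zero]
      intro x y hxy
      simp only [Pi.mul_apply]
      have f1 : S.chi (univ.erase s) K' x = S.chi (univ.erase s) K' y :=
        S.chi_other (Finset.notMem_erase s univ) K' (K' s) x y hxy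
      have f2 : S.chi univ K x = S.chi univ K y := by
        have f3 : S.chi univ K = S.r s (K s) * S.chi (univ.erase s) K := by
          rw [← S.chi_insert (Finset.notMem_erase s univ), Finset.insert_erase hsu]
        rw [f3]
        simp only [Pi.mul_apply]
        rw [TopId_r_meas S s (K s) (K' s) (hK s) hs x y hxy,
          S.chi_other (Finset.notMem_erase s univ) K (K' s) x y hxy]
      have f4 : a x = a y := ham s hsu x y (S.rel_mono s (K s) (K' s) x y hs.le hxy)
      rw [f1, f2, f4]
  have h0 := upper_zero S (f - c) K (fun s => (hK s).le) hzero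
  have hmem : (∅ : Finset (Fin d)) ∈ (univ : Finset (Fin d)).powerset :=
    Finset.mem_powerset.2 (Finset.empty_subset _)
  -- the terms with `U` nonempty
  have hcU : ∀ s, S.E s (K s) c = 0 := by
    intro s
    have hsu := Finset.mem_univ s
    have e1 : c = (S.chi (univ.erase s) K * a) * S.r s (K s) := by
      rw [hc, ← Finset.insert_erase hsu, S.chi_insert (Finset.notMem_erase s univ),
        Finset.insert_erase hsu]
      ring
    rw [e1, S.E_pull s (K s) _ _ ?_, S.E_r s (K s) (hK s), mul_zero]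
    intro x y hxy
    simp only [Pi.mul_apply]
    rw [S.chi_other (Finset.notMem_erase s univ) K (K s) x y hxy, ham s hsu x y hxy]
  have hcU' : ∀ U : Finset (Fin d), U.Nonempty → S.EU U K c = 0 := by
    rintro U ⟨s, hs⟩
    rw [← S.EU_E_mem hs K c, hcU s, map_zero]
  have hf : f = c - ∑ U ∈ (univ : Finset (Fin d)).powerset.erase ∅,
      (-1 : ℝ) ^ U.card • S.EU U K f := by
    rw [← Finset.add_sum_erase _ _ hmem, Finset.card_empty, pow_zero, one_smul,
      S.EU_empty] at h0
    have e : ∑ U ∈ (univ : Finset (Fin d)).powerset.erase ∅,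
        (-1 : ℝ) ^ U.card • S.EU U K (f - c) =
        ∑ U ∈ (univ : Finset (Fin d)).powerset.erase ∅, (-1 : ℝ) ^ U.card • S.EU U K f := by
      refine Finset.sum_congr rfl fun U hU => ?_
      rw [map_sub, hcU' U (Finset.nonempty_iff_ne_empty.2 (Finset.mem_erase.1 hU).1), sub_zero]
    rw [e] at h0
    have : f - (c - ∑ U ∈ (univ : Finset (Fin d)).powerset.erase ∅,
        (-1 : ℝ) ^ U.card • S.EU U K f) = 0 := by
      rw [← h0]; abel
    exact sub_eq_zero.1 this
  have hUW : ∀ U ∈ (univ : Finset (Fin d)).powerset.erase ∅,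
      S.EU univ K (((-1 : ℝ) ^ U.card • S.EU U K f) * W) = 0 := by
    intro U hU
    obtain ⟨s, hs⟩ := Finset.nonempty_iff_ne_empty.2 (Finset.mem_erase.1 hU).1
    rw [smul_mul_assoc, map_smul, ← S.EU_E_mem (Finset.mem_univ s) K (S.EU U K f * W),
      S.E_pull s (K s) _ _ (fun x y hxy => S.EU_meas hs K f x y hxy), hW s, mul_zero, map_zero,
      smul_zero]
  have e3 : f * W = c * W - ∑ U ∈ (univ : Finset (Fin d)).powerset.erase ∅,
      ((-1 : ℝ) ^ U.card • S.EU U K f) * W := by
    rw [← Finset.sum_mul, ← sub_mul, ← hf]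
  rw [e3, map_sub, map_sum, Finset.sum_eq_zero hUW, sub_zero, ← ha]
  have e4 : c * W = a * (S.chi univ K * W) := by
    rw [hc]; ring
  rw [e4, TopId_pull S univ K a _ ham]

end Pool.Agent.H506R2.LB
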