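import Pool.Agent.H506R2.LB.LowB
import Pool.Agent.H506R2.LB.Pair2
import Pool.Agent.H506R2.LB.TopId
import Pool.Agent.H506R2.LB.Layer

/-! TASK A6: the square function of maximal levels is bounded by the `L¹` norm. -/

set_option autoImplicit false

namespace Pool.Agent.H506R2.LB

open Finset Pool.Agent.H730R2.LD

/-- TASK A6 -/
theorem top (d : ℕ) (hd : 1 ≤ d) : ∃ C : ℝ, 0 < C ∧ ∀ (R : ℕ) (X : Type) [Fintype X]
    (S : Sys d R X) (f : X → ℝ) (P : Finset (Fin d → ℕ)), (∀ K ∈ P, ∀ s, K s < R) →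
    (∀ K ∈ P, ∀ K' : Fin d → ℕ, (∀ s, K' s < R) → (∀ s, K s ≤ K' s) → K' ≠ K →
      S.EU univ K' (S.chi univ K' * f) = 0) →
    ∑ x, Real.sqrt (∑ K ∈ P, (S.EU univ K (S.chi univ K * f) x) ^ 2) ≤ C * ∑ x, |f x| := by
  classical
  obtain ⟨C1, hC1, hp⟩ := pairing2 d hd
  obtain ⟨C2, hC2, hl⟩ := low_bound d hd
  have hd1 : (1 : ℝ) ≤ d := by exact_mod_cast hd
  have h2d : (1 : ℝ) ≤ 2 ^ d := one_le_pow₀ (by norm_num)
  obtain ⟨L, hL⟩ : ∃ L : ℝ, L = 4 * (d : ℝ) * 2 ^ d * 2 ^ d := ⟨_, rfl⟩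
  have hL1 : 1 ≤ L := by
    rw [hL]
    have h1 : (1 : ℝ) ≤ 4 * (d : ℝ) := by linarith
    have h2 : (1 : ℝ) ≤ 4 * (d : ℝ) * 2 ^ d := one_le_mul_of_one_le_of_one_le h1 h2d
    exact one_le_mul_of_one_le_of_one_le h2 h2d
  have hL0 : 0 < L := by linarith
  have hL2 : 4 * (d : ℝ) * 2 ^ d * (2 ^ d / L) ≤ 1 := by
    rw [← mul_div_assoc, ← hL, div_self hL0.ne']
  obtain ⟨τ, hτ⟩ : ∃ τ : ℝ, τ = 1 / 2 / L ^ d := ⟨_, rfl⟩
  have hτ0 : 0 < τ := by rw [hτ]; positivity
  have hτ1 : τ < 1 := by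
    rw [hτ]
    have : (1 : ℝ) ≤ L ^ d := one_le_pow₀ hL1
    rw [div_lt_one (by positivity)]
    linarith
  obtain ⟨Cc, hCc⟩ : ∃ Cc : ℝ, Cc = (4 ^ d / τ ^ 2) ^ d := ⟨_, rfl⟩
  have hCc0 : 0 < Cc := by rw [hCc]; positivity
  refine ⟨10 * (C2 * Cc + 4 * C1 * Cc + 4 * C1), by positivity, ?_⟩
  intro R X _ S f P hP hmax
  obtain ⟨C', hC'⟩ : ∃ C' : ℝ, C' = C2 * Cc + 4 * C1 * Cc + 4 * C1 := ⟨_, rfl⟩
  have hC'0 : 0 ≤ C' := by rw [hC']; positivity
  rw [← hC']
  obtain ⟨Sf, hSf⟩ : ∃ Sf : X → ℝ, Sf = fun x =>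
    Real.sqrt (∑ K ∈ P, (S.EU univ K (S.chi univ K * f) x) ^ 2) := ⟨_, rfl⟩
  have hSf0 : ∀ x, 0 ≤ Sf x := fun x => by rw [hSf]; exact Real.sqrt_nonneg _
  have hSf2 : ∀ x, Sf x ^ 2 = ∑ K ∈ P, (S.EU univ K (S.chi univ K * f) x) ^ 2 := fun x => by
    rw [hSf]
    exact Real.sq_sqrt (Finset.sum_nonneg fun _ _ => sq_nonneg _)
  have hgoal := layer Sf (fun x => |f x|) hSf0 (fun x => abs_nonneg _) C' hC'0 ?_
  · rw [hSf] at hgoal
    exact hgoal
  intro t ht
  obtain ⟨B, hB⟩ : ∃ B : Finset X, B = univ.filter (fun x => t < |f x|) := ⟨_, rfl⟩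
  obtain ⟨Bs, hBd, hBs, hBc⟩ := chain S B τ hτ0 hτ1
  rw [← hCc] at hBc
  obtain ⟨F, hF⟩ := exists_fam S L hL1 hL2 Bs (by rw [← hτ]; exact hBs) d le_rfl
  have hmono : ∀ q, q < d → ∀ x ∈ Bs (q + 1), x ∈ Bs q := fun q hq => (hBs q hq).1
  obtain ⟨B'', hB1, hB2⟩ := hl R X S Bs F hF
  have hcardd : ∀ V : Finset (Fin d), V.card ≤ d := fun V => by
    simpa using Finset.card_le_univ V
  -- the truncated function
  obtain ⟨g, hg⟩ : ∃ g : X → ℝ, g = fun x => if x ∈ B then 0 else f x := ⟨_, rfl⟩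
  have hgB : ∀ x, x ∉ Bs d → |g x| ≤ t := by
    intro x hx
    rw [hBd] at hx
    rw [hg]
    simp only [if_neg hx]
    rw [hB, Finset.mem_filter] at hx
    push Not at hx
    exact hx (Finset.mem_univ x)
  have hpair := hp R X S Bs F hF hmono g t hgB
  have hgW : ∀ K ∈ P, f * WW S F K = g * WW S F K := by
    intro K hK
    funext x
    simp only [Pi.mul_apply]
    by_cases hx : x ∈ B
    · have hW : WW S F K x = 0 := by
        unfold WW
        rw [Finset.sum_apply]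
        refine Finset.sum_eq_zero fun V _ => ?_
        rw [Pi.mul_apply, fam_B S hF hmono K (fun s => (hP K hK s).le) V x (by rw [hBd]; exact hx),
          mul_zero]
      rw [hW, mul_zero, mul_zero]
    · rw [hg]
      simp only [if_neg hx]
  have hEW : ∀ K ∈ P, ∀ s, S.E s (K s) (WW S F K) = 0 := by
    intro K hK s
    exact E_whole S F K univ s (Finset.mem_univ s) fun T _ hsT =>
      hF.bal T K (hcardd T) (fun s => (hP K hK s).le) s hsT
  have hid : ∀ K ∈ P, S.EU univ K (g * WW S F K) =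
      S.EU univ K (S.chi univ K * f) * S.EU univ K (S.chi univ K * WW S F K) := by
    intro K hK
    rw [← hgW K hK]
    exact top_identity S f K (hP K hK) (hmax K hK) _ (hEW K hK)
  have hpt : ∀ x, x ∉ B'' → ∀ K ∈ P, (S.EU univ K (S.chi univ K * f) x) ^ 2 ≤
      4 * (S.EU univ K (g * WW S F K) x) ^ 2 := by
    intro x hx K hK
    rw [hid K hK, Pi.mul_apply, mul_pow]
    have h1 := hB2 x hx K (hP K hK)
    have h2 : 1 ≤ 4 * (S.EU univ K (S.chi univ K * WW S F K) x) ^ 2 := by nlinarith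
    nlinarith [sq_nonneg (S.EU univ K (S.chi univ K * f) x)]
  have hsum : ∑ x ∈ univ.filter (fun x => x ∉ B''), Sf x ^ 2 ≤
      4 * (C1 * (∑ x ∈ univ.filter (fun x => x ∉ Bs d), g x ^ 2 + t ^ 2 * ((Bs 0).card : ℝ))) := by
    calc ∑ x ∈ univ.filter (fun x => x ∉ B''), Sf x ^ 2
        ≤ ∑ x ∈ univ.filter (fun x => x ∉ B''),
            ∑ K ∈ P, 4 * (S.EU univ K (g * WW S F K) x) ^ 2 := by
          refine Finset.sum_le_sum fun x hx => ?_
          rw [hSf2]
          exact Finset.sum_le_sum fun K hK => hpt x (Finset.mem_filter.1 hx).2 K hK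
      _ ≤ ∑ x, ∑ K ∈ P, 4 * (S.EU univ K (g * WW S F K) x) ^ 2 :=
          Finset.sum_le_sum_of_subset_of_nonneg (Finset.filter_subset _ _)
            fun x _ _ => Finset.sum_nonneg fun K _ => by positivity
      _ = 4 * ∑ K ∈ P, nsq (S.EU univ K (g * WW S F K)) := by
          rw [Finset.sum_comm, Finset.mul_sum]
          refine Finset.sum_congr rfl fun K _ => ?_
          unfold nsq
          rw [Finset.mul_sum]
      _ ≤ 4 * ∑ K ∈ Lev d R univ, nsq (S.EU univ K (g * WW S F K)) := by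
          apply mul_le_mul_of_nonneg_left _ (by norm_num)
          refine Finset.sum_le_sum_of_subset_of_nonneg ?_ fun K _ _ => nsq_nonneg _
          intro K hK
          rw [mem_Lev]
          exact ⟨fun s _ => hP K hK s, fun s hs => absurd (Finset.mem_univ s) hs⟩
      _ ≤ _ := mul_le_mul_of_nonneg_left hpair (by norm_num)
  have hmin : ∑ x ∈ univ.filter (fun x => x ∉ Bs d), g x ^ 2 ≤ ∑ x, (min (|f x|) t) ^ 2 := by
    rw [Finset.sum_filter]
    refine Finset.sum_le_sum fun x _ => ?_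
    by_cases hx : x ∈ Bs d
    · simp only [hx, not_true_eq_false, if_false]
      positivity
    · rw [if_pos hx]
      have h1 := hgB x hx
      rw [hBd] at hx
      have h2 : g x = f x := by rw [hg]; simp only [if_neg hx]
      rw [h2] at h1 ⊢
      rw [min_eq_left h1, sq_abs]
  have hcard : ((univ.filter (fun x => t < Sf x)).card : ℝ) ≤
      (B''.card : ℝ) + (∑ x ∈ univ.filter (fun x => x ∉ B''), Sf x ^ 2) / t ^ 2 := by
    have h1 : univ.filter (fun x => t < Sf x) ⊆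
        B'' ∪ (univ.filter (fun x => x ∉ B'')).filter (fun x => t < Sf x) := by
      intro x hx
      by_cases h : x ∈ B''
      · exact Finset.mem_union_left _ h
      · refine Finset.mem_union_right _ ?_
        simp only [Finset.mem_filter, Finset.mem_univ, true_and] at hx ⊢
        exact ⟨h, hx⟩
    have h2 : (((univ.filter (fun x => x ∉ B'')).filter (fun x => t < Sf x)).card : ℝ) ≤
        (∑ x ∈ univ.filter (fun x => x ∉ B''), Sf x ^ 2) / t ^ 2 := by
      rw [le_div_iff₀ (by positivity)]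
      calc (((univ.filter (fun x => x ∉ B'')).filter (fun x => t < Sf x)).card : ℝ) * t ^ 2
          = ∑ _x ∈ (univ.filter (fun x => x ∉ B'')).filter (fun x => t < Sf x), t ^ 2 := by
            rw [Finset.sum_const, nsmul_eq_mul]
        _ ≤ ∑ x ∈ (univ.filter (fun x => x ∉ B'')).filter (fun x => t < Sf x), Sf x ^ 2 := by
            refine Finset.sum_le_sum fun x hx => ?_
            exact pow_le_pow_left₀ ht.le (Finset.mem_filter.1 hx).2.le 2
        _ ≤ _ := Finset.sum_le_sum_of_subset_of_nonneg (Finset.filter_subset _ _)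
            fun x _ _ => sq_nonneg _
    calc ((univ.filter (fun x => t < Sf x)).card : ℝ)
        ≤ ((B'' ∪ (univ.filter (fun x => x ∉ B'')).filter (fun x => t < Sf x)).card : ℝ) := by
          exact_mod_cast Finset.card_le_card h1
      _ ≤ (B''.card : ℝ) +
          (((univ.filter (fun x => x ∉ B'')).filter (fun x => t < Sf x)).card : ℝ) := by
          exact_mod_cast Finset.card_union_le _ _
      _ ≤ _ := by linarith
  obtain ⟨b, hb⟩ : ∃ b : ℝ, b = (B.card : ℝ) := ⟨_, rfl⟩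
  obtain ⟨m, hm⟩ : ∃ m : ℝ, m = ∑ x, (min (|f x|) t) ^ 2 := ⟨_, rfl⟩
  have hm0 : 0 ≤ m := hm ▸ Finset.sum_nonneg fun _ _ => sq_nonneg _
  have hb0 : 0 ≤ b := hb ▸ Nat.cast_nonneg _
  rw [← hb] at hBc
  have hB''b : (B''.card : ℝ) ≤ C2 * Cc * b := by
    calc (B''.card : ℝ) ≤ C2 * ((Bs 0).card : ℝ) := hB1
      _ ≤ C2 * (Cc * b) := mul_le_mul_of_nonneg_left hBc hC2.le
      _ = _ := by ring
  have hsum2 : (∑ x ∈ univ.filter (fun x => x ∉ B''), Sf x ^ 2) / t ^ 2 ≤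
      4 * C1 * (m / t ^ 2) + 4 * C1 * Cc * b := by
    rw [div_le_iff₀ (by positivity)]
    have e : (4 * C1 * (m / t ^ 2) + 4 * C1 * Cc * b) * t ^ 2 =
        4 * (C1 * (m + t ^ 2 * (Cc * b))) := by
      field_simp
    rw [e]
    refine hsum.trans ?_
    rw [hm]
    gcongr
  have hrhs : ((univ.filter (fun x => t < |f x|)).card : ℝ) = b := by rw [hb, hB]
  refine hcard.trans ?_
  rw [← hm]
  have hq : 0 ≤ m / t ^ 2 := by positivity
  have e1 : ((univ.filter (fun x => t < |f x|)).card : ℝ) = b := hrhs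
  calc (B''.card : ℝ) + (∑ x ∈ univ.filter (fun x => x ∉ B''), Sf x ^ 2) / t ^ 2
      ≤ C2 * Cc * b + (4 * C1 * (m / t ^ 2) + 4 * C1 * Cc * b) := add_le_add hB''b hsum2
    _ ≤ C' * (b + m / t ^ 2) := by
        rw [hC']
        have h1 : 0 ≤ 4 * C1 * b := by positivity
        have h2 : 0 ≤ (C2 * Cc + 4 * C1 * Cc) * (m / t ^ 2) := by positivity
        nlinarith
    _ = _ := by rw [← e1]

end Pool.Agent.H506R2.LB
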