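import Mathlib

/-! Trigonometric polynomials on the torus, `L¹` norm. -/

set_option autoImplicit false

namespace Pool.Agent.H506R2.LB

open Finset MeasureTheory

/-- trigonometric polynomial -/
noncomputable def PP {d : ℕ} (S : Finset (Fin d → ℤ)) (c : (Fin d → ℤ) → ℂ)
    (x : Fin d → ℝ) : ℂ :=
  ∑ k ∈ S, c k * Complex.exp (Complex.I * (∑ s, (k s : ℂ) * (x s : ℂ)))

/-- the cube `[0, 2π]^d` -/
def box (d : ℕ) : Set (Fin d → ℝ) := Set.Icc (fun _ => 0) (fun _ => 2 * Real.pi)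

/-- normalised `L¹` norm -/
noncomputable def nrm {d : ℕ} (F : (Fin d → ℝ) → ℂ) : ℝ :=
  (∫ x in box d, ‖F x‖) / (2 * Real.pi) ^ d

end Pool.Agent.H506R2.LB
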