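import Pool.Agent.H506R2.LB.Riem
import Pool.Agent.H506R2.LB.Grid

/-! TASK C11: the inequality on the torus for polynomials without zero frequencies. -/

set_option autoImplicit false

namespace Pool.Agent.H506R2.LB

open Finset MeasureTheory

/-- TASK C11 -/
theorem torus (d : ℕ) (hd : 1 ≤ d) (r : ℝ) (hr : 0 < r) : ∃ C : ℝ, 0 < C ∧ ∀ (n : ℕ)
    (S : Finset (Fin d → ℤ)) (c : (Fin d → ℤ) → ℂ) (u v : Fin d → ℂ), (∀ s, ‖u s‖ ≤ 1) →
    (∀ s, ‖v s‖ ≤ 1) → (∀ k ∈ S, (∀ s, k s ≠ 0) ∧ ∏ s, |k s| ≤ 2 ^ n) →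
    nrm (PP S (fun k => mul r u v k * c k)) ≤ C * (2 : ℝ) ^ (r * n) * nrm (PP S c) := by
  obtain ⟨C, hC, h⟩ := grid d hd r hr
  refine ⟨C, hC, fun n S c u v hu hv hS => ?_⟩
  have h1 := riemann S (fun k => mul r u v k * c k)
  have h2 := (riemann S c).const_mul (C * (2 : ℝ) ^ (r * n))
  refine le_of_tendsto_of_tendsto h1 h2 ?_
  filter_upwards [Filter.eventually_ge_atTop (n + d + 3)] with M hM
  have h3 := h M n S c u v hu hv hS hM
  rw [← mul_div_assoc]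
  exact div_le_div_of_nonneg_right h3 (by positivity)

end Pool.Agent.H506R2.LB
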