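import Pool.Agent.H506R2.LB.TorMain
import Pool.Agent.H506R2.LB.Face

/-! TASK C13: polynomials with spectrum in a hyperbolic cross, with zero frequencies. -/

set_option autoImplicit false

namespace Pool.Agent.H506R2.LB

open Finset MeasureTheory

/-- one variable factor of the `(r,α)`-derivative -/
noncomputable def mu (r α : ℝ) (k : ℤ) : ℂ :=
  if k = 0 then 1 else
    (((|(k : ℝ)|) ^ r : ℝ) : ℂ) * Complex.exp (Complex.I * ((k.sign : ℝ) * α * Real.pi / 2))

/-- one variable factor of the Weyl derivative: `(ik)^r`, with `(i0)^r = 0` -/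
noncomputable def ikr (r : ℝ) (k : ℤ) : ℂ :=
  if k = 0 then 0 else
    (((|(k : ℝ)|) ^ r : ℝ) : ℂ) * Complex.exp (Complex.I * (r * Real.pi * (k.sign : ℝ) / 2))

theorem Upper_PP_congr {d : ℕ} (S : Finset (Fin d → ℤ)) (c c' : (Fin d → ℤ) → ℂ)
    (h : ∀ k ∈ S, c k = c' k) : PP S c = PP S c' := by
  funext x
  unfold PP
  exact Finset.sum_congr rfl fun k hk => by rw [h k hk]

theorem Upper_nrm_empty {d : ℕ} (c : (Fin d → ℤ) → ℂ) : nrm (PP ∅ c) = 0 := by
  unfold nrm PP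
  simp

/-- the set of nonzero coordinates -/
def Upper_nz {d : ℕ} (k : Fin d → ℤ) : Finset (Fin d) := univ.filter fun s => k s ≠ 0

theorem Upper_nz_iff {d : ℕ} (k : Fin d → ℤ) (U : Finset (Fin d)) :
    Upper_nz k = U ↔ ∀ s, s ∈ U ↔ k s ≠ 0 := by
  unfold Upper_nz
  constructor
  · rintro rfl s
    simp
  · intro h
    ext s
    rw [h s]
    simp

theorem Upper_faces {d : ℕ} (S : Finset (Fin d → ℤ)) (c : (Fin d → ℤ) → ℂ)
    (F : Finset (Finset (Fin d))) :
    nrm (PP (S.filter (fun k => Upper_nz k ∈ F)) c) ≤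
      ∑ U ∈ F, nrm (PP (S.filter (fun k => ∀ s, s ∈ U ↔ k s ≠ 0)) c) := by
  classical
  induction F using Finset.induction_on with
  | empty =>
    have h : S.filter (fun k => Upper_nz k ∈ (∅ : Finset (Finset (Fin d)))) = ∅ := by
      ext k; simp
    rw [h, Upper_nrm_empty]
    simp
  | insert U F hU ih =>
    rw [Finset.sum_insert hU]
    have hd : Disjoint (S.filter (fun k => ∀ s, s ∈ U ↔ k s ≠ 0))
        (S.filter (fun k => Upper_nz k ∈ F)) := by
      rw [Finset.disjoint_left]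
      intro k h1 h2
      rw [Finset.mem_filter] at h1 h2
      rw [(Upper_nz_iff k U).mpr h1.2] at h2
      exact hU h2.2
    have hu : S.filter (fun k => Upper_nz k ∈ insert U F) =
        S.filter (fun k => ∀ s, s ∈ U ↔ k s ≠ 0) ∪ S.filter (fun k => Upper_nz k ∈ F) := by
      ext k
      rw [Finset.mem_union, Finset.mem_filter, Finset.mem_filter, Finset.mem_filter,
        Finset.mem_insert, Upper_nz_iff]
      tauto
    have hPP : PP (S.filter (fun k => Upper_nz k ∈ insert U F)) c =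
        fun x => PP (S.filter (fun k => ∀ s, s ∈ U ↔ k s ≠ 0)) c x +
          PP (S.filter (fun k => Upper_nz k ∈ F)) c x := by
      funext x
      rw [hu]
      unfold PP
      rw [Finset.sum_union hd]
    rw [hPP]
    refine (nrm_add _ _ _ _).trans ?_
    linarith

theorem Upper_faces_univ {d : ℕ} (S : Finset (Fin d → ℤ)) (c : (Fin d → ℤ) → ℂ) :
    nrm (PP S c) ≤ ∑ U ∈ (univ : Finset (Finset (Fin d))),
      nrm (PP (S.filter (fun k => ∀ s, s ∈ U ↔ k s ≠ 0)) c) := by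
  classical
  have h := Upper_faces S c univ
  have h2 : S.filter (fun k => Upper_nz k ∈ (univ : Finset (Finset (Fin d)))) = S := by
    ext k; simp
  rwa [h2] at h

theorem Upper_nrm_nonneg {d : ℕ} (F : (Fin d → ℝ) → ℂ) : 0 ≤ nrm F := by
  unfold nrm
  apply div_nonneg
  · exact integral_nonneg fun x => norm_nonneg _
  · have := Real.pi_pos
    positivity

/-- one face -/
theorem Upper_face {d : ℕ} (r : ℝ) (C : ℝ) (hC : 0 < C)
    (ht : ∀ (n : ℕ) (S : Finset (Fin d → ℤ)) (c : (Fin d → ℤ) → ℂ) (u v : Fin d → ℂ),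
      (∀ s, ‖u s‖ ≤ 1) → (∀ s, ‖v s‖ ≤ 1) → (∀ k ∈ S, (∀ s, k s ≠ 0) ∧ ∏ s, |k s| ≤ 2 ^ n) →
      nrm (PP S (fun k => mul r u v k * c k)) ≤ C * (2 : ℝ) ^ (r * n) * nrm (PP S c))
    (n N : ℕ) (hN : (N : ℤ) ≤ 2 ^ n) (S : Finset (Fin d → ℤ)) (c : (Fin d → ℤ) → ℂ)
    (hS : ∀ k ∈ S, ∏ s, max |k s| 1 ≤ (N : ℤ)) (α : Fin d → ℝ) (U : Finset (Fin d)) :
    nrm (PP (S.filter (fun k => ∀ s, s ∈ U ↔ k s ≠ 0))
      (fun k => (∏ s, mu r (α s) (k s)) * c k)) ≤
      C * (2 : ℝ) ^ (r * n) * (2 ^ d * nrm (PP S c)) := by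
  classical
  set SU := S.filter (fun k => ∀ s, s ∈ U ↔ k s ≠ 0) with hSU
  obtain ⟨a, ha⟩ : ∃ a : Fin d → ℤ, a = fun s => if s ∈ U then 0 else 1 := ⟨_, rfl⟩
  obtain ⟨u, hu⟩ : ∃ u : Fin d → ℂ, u = fun s => if s ∈ U then
    Complex.exp (Complex.I * ((α s * Real.pi / 2 : ℝ) : ℂ)) else 1 := ⟨_, rfl⟩
  obtain ⟨v, hv⟩ : ∃ v : Fin d → ℂ, v = fun s => if s ∈ U then
    Complex.exp (Complex.I * ((-(α s * Real.pi / 2) : ℝ) : ℂ)) else 1 := ⟨_, rfl⟩
  have hu1 : ∀ s, ‖u s‖ ≤ 1 := by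
    intro s
    rw [hu]
    show ‖(if s ∈ U then _ else (1:ℂ))‖ ≤ 1
    split_ifs
    · rw [Complex.norm_exp_I_mul_ofReal]
    · simp
  have hv1 : ∀ s, ‖v s‖ ≤ 1 := by
    intro s
    rw [hv]
    show ‖(if s ∈ U then _ else (1:ℂ))‖ ≤ 1
    split_ifs
    · rw [Complex.norm_exp_I_mul_ofReal]
    · simp
  have hcase : ∀ k ∈ SU, ∀ s, (s ∈ U ∧ k s ≠ 0 ∧ (k + a) s = k s) ∨
      (s ∉ U ∧ k s = 0 ∧ (k + a) s = 1) := by
    intro k hk s
    rw [hSU, Finset.mem_filter] at hk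
    by_cases hs : s ∈ U
    · left
      refine ⟨hs, (hk.2 s).mp hs, ?_⟩
      rw [Pi.add_apply, ha]
      simp [hs]
    · right
      have h0 : k s = 0 := by
        by_contra h
        exact hs ((hk.2 s).mpr h)
      refine ⟨hs, h0, ?_⟩
      rw [Pi.add_apply, ha]
      simp [hs, h0]
  have h1 := ht n (SU.map ⟨fun k => k + a, add_left_injective a⟩) (fun k => c (k - a)) u v hu1 hv1
    (by
      intro k' hk'
      rw [Finset.mem_map] at hk'
      obtain ⟨k, hk, rfl⟩ := hk'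
      show (∀ s, (k + a) s ≠ 0) ∧ ∏ s, |(k + a) s| ≤ 2 ^ n
      constructor
      · intro s
        rcases hcase k hk s with ⟨_, h, h'⟩ | ⟨_, _, h'⟩
        · rw [h']; exact h
        · rw [h']; exact one_ne_zero
      · refine le_trans (le_of_eq ?_) ((hS k (Finset.mem_filter.mp hk).1).trans hN)
        refine Finset.prod_congr rfl fun s _ => ?_
        rcases hcase k hk s with ⟨_, h, h'⟩ | ⟨_, h, h'⟩
        · rw [h', max_eq_left (Int.one_le_abs h)]
        · rw [h', h]; simp)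
  rw [nrm_shift] at h1
  have h2 : nrm (PP (SU.map ⟨fun k => k + a, add_left_injective a⟩)
      (fun k => mul r u v k * c (k - a))) =
      nrm (PP SU (fun k => (∏ s, mu r (α s) (k s)) * c k)) := by
    rw [← nrm_shift SU (fun k => (∏ s, mu r (α s) (k s)) * c k) a]
    congr 1
    apply Upper_PP_congr
    intro k' hk'
    rw [Finset.mem_map] at hk'
    obtain ⟨k, hk, rfl⟩ := hk'
    show mul r u v (k + a) * c (k + a - a) =
      (∏ s, mu r (α s) ((k + a - a) s)) * c (k + a - a)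
    rw [add_sub_cancel_right]
    congr 1
    unfold mul
    refine Finset.prod_congr rfl fun s _ => ?_
    unfold mu
    rcases hcase k hk s with ⟨hs, h, h'⟩ | ⟨hs, h, h'⟩
    · rw [h', if_neg h]
      congr 1
      rw [hu, hv]
      show (if 0 < k s then (if s ∈ U then _ else (1:ℂ)) else (if s ∈ U then _ else (1:ℂ))) = _
      rw [if_pos hs, if_pos hs]
      split_ifs with hp
      · rw [Int.sign_eq_one_of_pos hp]
        congr 2
        push_cast
        ring
      · have hneg : k s < 0 := lt_of_le_of_ne (not_lt.mp hp) h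
        rw [Int.sign_eq_neg_one_of_neg hneg]
        congr 2
        push_cast
        ring
    · rw [h', h, if_pos rfl, hu]
      simp [hs]
  rw [h2] at h1
  refine h1.trans ?_
  apply mul_le_mul_of_nonneg_left _ (by positivity)
  exact nrm_face S c U

/-- TASK C13 (a) -/
theorem upper (d : ℕ) (hd : 1 ≤ d) (r : ℝ) (hr : 0 < r) : ∃ C : ℝ, 0 < C ∧ ∀ (N : ℕ), 1 ≤ N →
    ∀ (S : Finset (Fin d → ℤ)) (c : (Fin d → ℤ) → ℂ),
    (∀ k ∈ S, ∏ s, max |k s| 1 ≤ (N : ℤ)) → ∀ α : Fin d → ℝ,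
    nrm (PP S (fun k => (∏ s, mu r (α s) (k s)) * c k)) ≤ C * (N : ℝ) ^ r * nrm (PP S c) := by
  obtain ⟨C, hC, ht⟩ := torus d hd r hr
  refine ⟨2 ^ d * (C * 2 ^ r * 2 ^ d), by positivity, ?_⟩
  intro N hN S c hS α
  obtain ⟨n, hn1, hn2⟩ : ∃ n : ℕ, N ≤ 2 ^ n ∧ 2 ^ n ≤ 2 * N := by
    refine ⟨Nat.log 2 N + 1, (Nat.lt_pow_succ_log_self (by norm_num) N).le, ?_⟩
    rw [pow_succ, mul_comm]
    exact Nat.mul_le_mul_left 2 (Nat.pow_log_le_self 2 (by omega))
  have hN' : (N : ℤ) ≤ 2 ^ n := by exact_mod_cast hn1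
  have hpow : (2 : ℝ) ^ (r * n) ≤ 2 ^ r * (N : ℝ) ^ r := by
    have h1 : (2 : ℝ) ^ (r * n) = ((2 : ℝ) ^ n) ^ r := by
      rw [mul_comm, Real.rpow_mul (by norm_num), Real.rpow_natCast]
    rw [h1, ← Real.mul_rpow (by norm_num) (by positivity)]
    apply Real.rpow_le_rpow (by positivity) _ hr.le
    exact_mod_cast hn2
  refine (Upper_faces_univ S _).trans ?_
  refine (Finset.sum_le_sum fun U _ => Upper_face r C hC (fun n S c u v => ht n S c u v) n N hN' S c
    hS α U).trans ?_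
  rw [Finset.sum_const, Finset.card_univ, Fintype.card_finset, Fintype.card_fin, nsmul_eq_mul]
  have hn0 := Upper_nrm_nonneg (PP S c)
  push_cast
  calc (2:ℝ) ^ d * (C * (2 : ℝ) ^ (r * n) * (2 ^ d * nrm (PP S c)))
      ≤ (2:ℝ) ^ d * (C * (2 ^ r * (N : ℝ) ^ r) * (2 ^ d * nrm (PP S c))) := by gcongr
    _ = _ := by ring

/-- TASK C13 (b) -/
theorem upper' (d : ℕ) (hd : 1 ≤ d) (r : ℝ) (hr : 0 < r) : ∃ C : ℝ, 0 < C ∧ ∀ (n : ℕ)
    (S : Finset (Fin d → ℤ)) (c : (Fin d → ℤ) → ℂ),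
    (∀ k ∈ S, ∏ s, |k s| ≤ 2 ^ n) →
    nrm (PP S (fun k => (∏ s, ikr r (k s)) * c k)) ≤ C * (2 : ℝ) ^ (r * n) * nrm (PP S c) := by
  classical
  obtain ⟨C, hC, ht⟩ := torus d hd r hr
  refine ⟨C * 2 ^ d, by positivity, ?_⟩
  intro n S c hS
  set SU := S.filter (fun k => ∀ s, s ∈ (univ : Finset (Fin d)) ↔ k s ≠ 0) with hSU
  obtain ⟨u, hu⟩ : ∃ u : Fin d → ℂ, u = fun _ =>
    Complex.exp (Complex.I * ((r * Real.pi / 2 : ℝ) : ℂ)) := ⟨_, rfl⟩
  obtain ⟨v, hv⟩ : ∃ v : Fin d → ℂ, v = fun _ =>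
    Complex.exp (Complex.I * ((-(r * Real.pi / 2) : ℝ) : ℂ)) := ⟨_, rfl⟩
  have hu1 : ∀ s, ‖u s‖ ≤ 1 := by
    intro s
    rw [hu, Complex.norm_exp_I_mul_ofReal]
  have hv1 : ∀ s, ‖v s‖ ≤ 1 := by
    intro s
    rw [hv, Complex.norm_exp_I_mul_ofReal]
  have h1 : PP S (fun k => (∏ s, ikr r (k s)) * c k) =
      PP SU (fun k => mul r u v k * c k) := by
    funext x
    unfold PP
    rw [hSU, Finset.sum_filter]
    refine Finset.sum_congr rfl fun k _ => ?_
    split_ifs with hk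
    · show (∏ s, ikr r (k s)) * c k * _ = mul r u v k * c k * _
      congr 2
      unfold mul
      refine Finset.prod_congr rfl fun s _ => ?_
      have h0 : k s ≠ 0 := (hk s).mp (mem_univ s)
      unfold ikr
      rw [if_neg h0]
      congr 1
      rw [hu, hv]
      show _ = if 0 < k s then Complex.exp (Complex.I * ((r * Real.pi / 2 : ℝ) : ℂ)) else
        Complex.exp (Complex.I * ((-(r * Real.pi / 2) : ℝ) : ℂ))
      split_ifs with hp
      · rw [Int.sign_eq_one_of_pos hp]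
        congr 2
        push_cast
        ring
      · have hneg : k s < 0 := lt_of_le_of_ne (not_lt.mp hp) h0
        rw [Int.sign_eq_neg_one_of_neg hneg]
        congr 2
        push_cast
        ring
    · have : ∃ s, k s = 0 := by
        by_contra h
        push Not at h
        exact hk fun s => ⟨fun _ => h s, fun _ => mem_univ s⟩
      obtain ⟨s, hs⟩ := this
      have hz : ∏ s, ikr r (k s) = 0 := by
        apply Finset.prod_eq_zero (mem_univ s)
        unfold ikr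
        rw [if_pos hs]
      show (∏ s, ikr r (k s)) * c k * _ = 0
      rw [hz, zero_mul, zero_mul]
  rw [h1]
  refine (ht n SU c u v hu1 hv1 ?_).trans ?_
  · intro k hk
    rw [hSU, Finset.mem_filter] at hk
    exact ⟨fun s => (hk.2 s).mp (mem_univ s), hS k hk.1⟩
  · have h2 := nrm_face S c (univ : Finset (Fin d))
    calc C * (2 : ℝ) ^ (r * n) * nrm (PP SU c)
        ≤ C * (2 : ℝ) ^ (r * n) * (2 ^ d * nrm (PP S c)) := by
          apply mul_le_mul_of_nonneg_left h2 (by positivity)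
      _ = _ := by ring

/-- TASK C13 (c): a polynomial with a single nonzero coefficient -/
theorem ratio_single {d : ℕ} (S : Finset (Fin d → ℤ)) (k : Fin d → ℤ) (hk : k ∈ S)
    (μ : (Fin d → ℤ) → ℂ) :
    ‖μ k‖ = nrm (PP S (fun l => μ l * (if l = k then 1 else 0))) /
      nrm (PP S (fun l => if l = k then 1 else 0)) := by
  classical
  have h1 : ∀ ν : (Fin d → ℤ) → ℂ, PP S (fun l => ν l * (if l = k then 1 else 0)) =
      PP {k} (fun _ => ν k) := by
    intro ν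
    funext x
    unfold PP
    rw [Finset.sum_singleton, Finset.sum_eq_single k]
    · simp
    · intro l _ hl
      simp [hl]
    · intro h
      exact absurd hk h
  have h2 : PP S (fun l => if l = k then 1 else 0) = PP {k} (fun _ => (1:ℂ)) := by
    rw [← h1 (fun _ => 1)]
    simp
  rw [h1 μ, h2, nrm_single, nrm_single]
  simp

end Pool.Agent.H506R2.LB
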